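import Pool.Agent.Lib_helper26.BSD.Defs

set_option autoImplicit false

namespace Pool.Agent.BSD

open Finset
open Pool.Agent.FG61 (mu phi Lam cc off)
open Pool.Agent.Var35 (e)

noncomputable section

theorem om_nonneg (m M n : ℕ) : 0 ≤ om m M n := by
  unfold om
  positivity

theorem om_le_one (m M n : ℕ) (hm : 1 ≤ m) : om m M n ≤ 1 := by
  obtain ⟨k, rfl⟩ : ∃ k, m = k + 1 := ⟨m - 1, by omega⟩
  unfold om
  rw [Nat.add_sub_cancel]
  have h1 : ((Fintype.piFinset fun _ : Fin (k + 1) => Icc 1 M).filter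
      fun v => ∑ i, v i = n).card ≤ (Fintype.piFinset fun _ : Fin k => Icc 1 M).card := by
    apply Finset.card_le_card_of_injOn (fun v => fun i : Fin k => v i.castSucc)
    · intro v hv
      rw [Finset.mem_coe, mem_filter, Fintype.mem_piFinset] at hv
      rw [Finset.mem_coe, Fintype.mem_piFinset]
      exact fun i => hv.1 _
    · intro v hv w hw hvw
      rw [Finset.mem_coe, mem_filter] at hv hw
      have h2 := hv.2.trans hw.2.symm
      rw [Fin.sum_univ_castSucc, Fin.sum_univ_castSucc] at h2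
      have h3 : ∀ i : Fin k, v i.castSucc = w i.castSucc := fun i => congrFun hvw i
      rw [Finset.sum_congr rfl (fun i _ => h3 i)] at h2
      funext i
      refine Fin.lastCases ?_ (fun j => h3 j) i
      omega
  rw [Fintype.card_piFinset] at h1
  simp only [Nat.card_Icc, Nat.add_sub_cancel, prod_const, card_univ, Fintype.card_fin] at h1
  have h2 : (((Fintype.piFinset fun _ : Fin (k + 1) => Icc 1 M).filter
      fun v => ∑ i, v i = n).card : ℝ) ≤ (M : ℝ) ^ k := by exact_mod_cast h1
  exact div_le_one_of_le₀ h2 (by positivity)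

theorem om_supp (m M n : ℕ) (h : m * M < n) : om m M n = 0 := by
  unfold om
  rw [div_eq_zero_iff]
  left
  rw [Nat.cast_eq_zero, card_eq_zero, filter_eq_empty_iff]
  intro v hv hs
  rw [Fintype.mem_piFinset] at hv
  have h1 : ∑ i, v i ≤ ∑ _i : Fin m, M := sum_le_sum fun i _ => (mem_Icc.1 (hv i)).2
  rw [sum_const, card_univ, Fintype.card_fin, smul_eq_mul] at h1
  omega

theorem om_hat (m M N : ℕ) (hm : 1 ≤ m) (h : m * M ≤ N) (α : ℝ) :
    ∑ n ∈ Icc 1 N, (om m M n : ℂ) * e (n * α) = Wh m M α := by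
  have h1 : Dk M α ^ m = ∑ v ∈ Fintype.piFinset (fun _ : Fin m => Icc 1 M),
      e (((∑ i, v i : ℕ) : ℝ) * α) := by
    unfold Dk
    have h2 := Finset.prod_univ_sum (fun _ : Fin m => Icc 1 M) (fun _ k => e ((k : ℝ) * α))
    rw [prod_const, card_univ, Fintype.card_fin] at h2
    rw [h2]
    refine sum_congr rfl fun v _ => ?_
    rw [Nat.cast_sum, Finset.sum_mul]
    have h3 : ∀ s : Finset (Fin m), ∏ i ∈ s, e ((v i : ℝ) * α) = e (∑ i ∈ s, (v i : ℝ) * α) := by
      intro s
      classical
      induction s using Finset.induction_on with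
      | empty => simp [Pool.Agent.Var35.e_zero]
      | insert a s ha ih => rw [prod_insert ha, sum_insert ha, Pool.Agent.Var35.e_add, ih]
    exact h3 univ
  have h4 : ∀ v ∈ Fintype.piFinset (fun _ : Fin m => Icc 1 M), (∑ i, v i) ∈ Icc 1 N := by
    intro v hv
    rw [Fintype.mem_piFinset] at hv
    rw [mem_Icc]
    constructor
    · have h5 : ∑ _i : Fin m, 1 ≤ ∑ i, v i := sum_le_sum fun i _ => (mem_Icc.1 (hv i)).1
      rw [sum_const, card_univ, Fintype.card_fin, smul_eq_mul, mul_one] at h5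
      omega
    · have h5 : ∑ i, v i ≤ ∑ _i : Fin m, M := sum_le_sum fun i _ => (mem_Icc.1 (hv i)).2
      rw [sum_const, card_univ, Fintype.card_fin, smul_eq_mul] at h5
      omega
  unfold Wh
  rw [h1, ← sum_fiberwise_of_maps_to h4, sum_div]
  refine sum_congr rfl fun n _ => ?_
  have h6 : ∀ v ∈ (Fintype.piFinset (fun _ : Fin m => Icc 1 M)).filter (fun v => ∑ i, v i = n),
      e (((∑ i, v i : ℕ) : ℝ) * α) = e (n * α) := by
    intro v hv
    rw [(mem_filter.1 hv).2]
  rw [sum_congr rfl h6, sum_const, nsmul_eq_mul]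
  unfold om
  push_cast
  ring

end

end Pool.Agent.BSD

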