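import Pool.Agent.Lib_helper26.BSD.Defs

set_option autoImplicit false

namespace Pool.Agent.BSD

open Finset
open Pool.Agent.FG61 (mu phi Lam cc off)
open Pool.Agent.Var35 (e)

noncomputable section

theorem Dk_le (M : ℕ) (α : ℝ) : ‖Dk M α‖ ≤ M := by
  unfold Dk
  refine (norm_sum_le _ _).trans ?_
  simp [Pool.Agent.Var35.norm_e]

theorem a2_round {α : ℝ} (h : |α| ≤ 1 / 2) : |α - round α| = |α| := by
  obtain ⟨h1, h2⟩ := abs_le.1 h
  have h4 := abs_le.1 (abs_sub_round α)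
  have hr1 : (round α : ℝ) ≤ 1 := by linarith
  have hr2 : (-1 : ℝ) ≤ round α := by linarith
  have h5 : round α ≤ 1 := by exact_mod_cast hr1
  have h6 : -1 ≤ round α := by exact_mod_cast hr2
  have h7 : round α = -1 ∨ round α = 0 ∨ round α = 1 := by omega
  rcases h7 with h7 | h7 | h7
  · rw [h7]
    rw [h7] at h4
    push_cast at h4 ⊢
    have : α = -1 / 2 := by linarith
    rw [this]
    norm_num [abs_of_pos, abs_of_neg]
  · rw [h7]; simp
  · rw [h7]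
    rw [h7] at h4
    push_cast at h4 ⊢
    have : α = 1 / 2 := by linarith
    rw [this]
    norm_num [abs_of_pos, abs_of_neg]

theorem Dk_dec (M : ℕ) (α : ℝ) (h0 : α ≠ 0) (h : |α| ≤ 1 / 2) :
    ‖Dk M α‖ ≤ 1 / (2 * |α|) := by
  have h1 := a2_round h
  have h2 : α ≠ round α := by
    intro h3
    rw [← h3, sub_self, abs_zero] at h1
    exact h0 (abs_eq_zero.1 h1.symm)
  have h3 := Pool.Agent.FG61.geom_bound M α h2
  rw [h1] at h3
  exact h3

theorem Wh_le_Dk (m M : ℕ) (hm : 1 ≤ m) (α : ℝ) : ‖Wh m M α‖ ≤ ‖Dk M α‖ := by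
  unfold Wh
  rw [norm_div, norm_pow, norm_pow, Complex.norm_natCast]
  obtain ⟨k, rfl⟩ : ∃ k, m = k + 1 := ⟨m - 1, by omega⟩
  rw [Nat.add_sub_cancel, pow_succ]
  have h1 := Dk_le M α
  have h2 : ‖Dk M α‖ ^ k ≤ (M : ℝ) ^ k := pow_le_pow_left₀ (norm_nonneg _) h1 k
  have h3 : ‖Dk M α‖ ^ k / (M : ℝ) ^ k ≤ 1 := div_le_one_of_le₀ h2 (by positivity)
  calc ‖Dk M α‖ ^ k * ‖Dk M α‖ / (M : ℝ) ^ k = ‖Dk M α‖ ^ k / (M : ℝ) ^ k * ‖Dk M α‖ := by ring
    _ ≤ 1 * ‖Dk M α‖ := mul_le_mul_of_nonneg_right h3 (norm_nonneg _)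
    _ = _ := one_mul _

theorem Wh_le (m M : ℕ) (hm : 1 ≤ m) (α : ℝ) : ‖Wh m M α‖ ≤ M :=
  (Wh_le_Dk m M hm α).trans (Dk_le M α)

theorem Wh_dec (m M : ℕ) (hm : 1 ≤ m) (hM : 1 ≤ M) (α d : ℝ) (hd : 0 < d)
    (h : ∀ k : ℤ, d ≤ |α - k|) : ‖Wh m M α‖ ≤ M * (1 / (2 * M * d)) ^ m := by
  have h1 := h (round α)
  have h2 : α ≠ round α := by
    intro h3
    rw [← h3, sub_self, abs_zero] at h1
    linarith
  have h3 := Pool.Agent.FG61.geom_bound M α h2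
  have h4 : ‖Dk M α‖ ≤ 1 / (2 * d) := by
    refine h3.trans ?_
    apply one_div_le_one_div_of_le (by positivity)
    linarith
  have hM0 : (0 : ℝ) < M := by exact_mod_cast hM
  unfold Wh
  rw [norm_div, norm_pow, norm_pow, Complex.norm_natCast]
  obtain ⟨k, rfl⟩ : ∃ k, m = k + 1 := ⟨m - 1, by omega⟩
  rw [Nat.add_sub_cancel, div_le_iff₀ (by positivity)]
  refine (pow_le_pow_left₀ (norm_nonneg _) h4 (k + 1)).trans (le_of_eq ?_)
  rw [div_pow, div_pow, one_pow, mul_pow, mul_pow, mul_pow]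
  field_simp
  ring

end

end Pool.Agent.BSD

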