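import Pool.Agent.Lib_helper26.BSD.Defs

set_option autoImplicit false

namespace Pool.Agent.BSD

open Finset
open Pool.Agent.FG61 (mu phi Lam cc off)
open Pool.Agent.Var35 (e)

noncomputable section

theorem om_low (m M n : ℕ) (hm : 1 ≤ m) (hM : 8 * m ≤ M) (hn : |(n : ℝ) - m * M / 2| ≤ M / 8) :
    (1 / (4 * m : ℝ)) ^ (m - 1) ≤ om m M n := by
  obtain ⟨k, rfl⟩ : ∃ k, m = k + 1 := ⟨m - 1, by omega⟩
  rw [Nat.add_sub_cancel]
  set m : ℝ := ((k + 1 : ℕ) : ℝ) with hmd
  have hm1 : (1 : ℝ) ≤ m := by rw [hmd]; exact_mod_cast hm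
  have hMm : 8 * m ≤ M := by rw [hmd]; exact_mod_cast hM
  have hM0 : (0 : ℝ) < M := by linarith
  have hk : (k : ℝ) = m - 1 := by rw [hmd]; push_cast; ring
  set h : ℝ := M / (4 * m) with hh
  have hh2 : 2 ≤ h := by
    rw [hh, le_div_iff₀ (by positivity)]
    linarith
  have hhM : h ≤ M / 4 := by
    rw [hh]
    apply div_le_div_of_nonneg_left hM0.le (by norm_num) (by linarith)
  have hkh : (k : ℝ) * h ≤ M / 4 := by
    rw [hh, mul_div_assoc', div_le_iff₀ (by positivity)]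
    rw [hk]
    nlinarith
  set I : Finset ℕ := Icc ⌈(M : ℝ) / 2 - h⌉₊ ⌊(M : ℝ) / 2 + h⌋₊ with hI
  have hImem : ∀ x ∈ I, (M : ℝ) / 2 - h ≤ x ∧ (x : ℝ) ≤ M / 2 + h := by
    intro x hx
    rw [hI, mem_Icc] at hx
    refine ⟨Nat.ceil_le.1 hx.1, ?_⟩
    exact (Nat.le_floor_iff (by positivity)).1 hx.2
  have hIcard : h ≤ (I.card : ℝ) := by
    rw [hI, Nat.card_Icc]
    have h1 : (M : ℝ) / 2 + h < ⌊(M : ℝ) / 2 + h⌋₊ + 1 := Nat.lt_floor_add_one _
    have h2 : (⌈(M : ℝ) / 2 - h⌉₊ : ℝ) < (M : ℝ) / 2 - h + 1 := Nat.ceil_lt_add_one (by linarith)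
    have h3 : ((⌊(M : ℝ) / 2 + h⌋₊ + 1 : ℕ) : ℝ) - (⌈(M : ℝ) / 2 - h⌉₊ : ℝ) ≤
        ((⌊(M : ℝ) / 2 + h⌋₊ + 1 - ⌈(M : ℝ) / 2 - h⌉₊ : ℕ) : ℝ) := by
      rw [sub_le_iff_le_add]
      exact_mod_cast (by omega : ⌊(M : ℝ) / 2 + h⌋₊ + 1 ≤
        ⌊(M : ℝ) / 2 + h⌋₊ + 1 - ⌈(M : ℝ) / 2 - h⌉₊ + ⌈(M : ℝ) / 2 - h⌉₊)
    push_cast at h3
    linarith
  have hcard : (Fintype.piFinset fun _ : Fin k => I).card ≤
      ((Fintype.piFinset fun _ : Fin (k + 1) => Icc 1 M).filter fun v => ∑ i, v i = n).card := by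
    have hsum : ∀ v ∈ Fintype.piFinset (fun _ : Fin k => I),
        (M : ℝ) / 8 ≤ (n : ℝ) - ((∑ i, v i : ℕ) : ℝ) ∧
        (n : ℝ) - ((∑ i, v i : ℕ) : ℝ) ≤ M := by
      intro v hv
      rw [Fintype.mem_piFinset] at hv
      have h1 : ((∑ i, v i : ℕ) : ℝ) ≤ k * (M / 2 + h) := by
        push_cast
        calc ∑ i, (v i : ℝ) ≤ ∑ _i : Fin k, ((M : ℝ) / 2 + h) :=
              sum_le_sum fun i _ => (hImem _ (hv i)).2
          _ = _ := by
            rw [sum_const, card_univ, Fintype.card_fin, nsmul_eq_mul]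
      have h2 : k * ((M : ℝ) / 2 - h) ≤ ((∑ i, v i : ℕ) : ℝ) := by
        push_cast
        calc k * ((M : ℝ) / 2 - h) = ∑ _i : Fin k, ((M : ℝ) / 2 - h) := by
              rw [sum_const, card_univ, Fintype.card_fin, nsmul_eq_mul]
          _ ≤ _ := sum_le_sum fun i _ => (hImem _ (hv i)).1
      obtain ⟨h3, h4⟩ := abs_le.1 hn
      rw [hk] at h1 h2 hkh
      constructor
      · nlinarith
      · nlinarith
    apply Finset.card_le_card_of_injOn
      (fun v => (Fin.snoc (α := fun _ => ℕ) v (n - ∑ i, v i) : Fin (k + 1) → ℕ))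
    · intro v hv
      obtain ⟨h1, h2⟩ := hsum v hv
      have hle : (∑ i, v i) ≤ n := by
        have : ((∑ i, v i : ℕ) : ℝ) ≤ n := by linarith
        exact_mod_cast this
      rw [Finset.mem_coe, Fintype.mem_piFinset] at hv
      rw [Finset.mem_coe, mem_filter, Fintype.mem_piFinset]
      constructor
      · intro i
        refine Fin.lastCases ?_ (fun j => ?_) i
        · beta_reduce
          rw [Fin.snoc_last, mem_Icc]
          have h5 : ((n - ∑ i, v i : ℕ) : ℝ) = (n : ℝ) - ((∑ i, v i : ℕ) : ℝ) := Nat.cast_sub hle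
          constructor
          · have : (1 : ℝ) ≤ ((n - ∑ i, v i : ℕ) : ℝ) := by rw [h5]; linarith
            exact_mod_cast this
          · have : ((n - ∑ i, v i : ℕ) : ℝ) ≤ M := by rw [h5]; linarith
            exact_mod_cast this
        · beta_reduce
          rw [Fin.snoc_castSucc, mem_Icc]
          obtain ⟨h6, h7⟩ := hImem _ (hv j)
          constructor
          · have : (1 : ℝ) ≤ v j := by linarith
            exact_mod_cast this
          · have : (v j : ℝ) ≤ M := by linarith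
            exact_mod_cast this
      · rw [Fin.sum_univ_castSucc]
        simp only [Fin.snoc_castSucc, Fin.snoc_last]
        omega
    · intro v _ w _ hvw
      funext i
      have := congrFun hvw i.castSucc
      simpa only [Fin.snoc_castSucc] using this
  rw [Fintype.card_piFinset] at hcard
  simp only [prod_const, card_univ, Fintype.card_fin] at hcard
  unfold om
  rw [Nat.add_sub_cancel, le_div_iff₀ (by positivity)]
  calc (1 / (4 * m)) ^ k * (M : ℝ) ^ k = h ^ k := by rw [← mul_pow, hh]; congr 1; ring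
    _ ≤ (I.card : ℝ) ^ k := pow_le_pow_left₀ (by linarith) hIcard k
    _ ≤ _ := by exact_mod_cast hcard

end

end Pool.Agent.BSD

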