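import Pool.Agent.Lib_helper26.BSD.Defs
import Pool.Agent.Lib_helper26.BSD.A3
import Pool.Agent.Lib_helper90.PNT.WienerIkehara

/-!
# BSD, block A4: the prime number theorem in the middle of the window
-/

set_option autoImplicit false

namespace Pool.Agent.BSD

open Finset
open Pool.Agent.FG61 (mu phi Lam cc off)
open Pool.Agent.Var35 (e)

theorem a4_theta (η : ℝ) (hη : 0 < η) : ∃ x₀ : ℝ, 0 < x₀ ∧ ∀ x : ℝ, x₀ ≤ x →
    |Chebyshev.theta x - x| ≤ η * x := by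
  obtain ⟨C, hC⟩ := Chebyshev.psi_sub_theta_le_mul_sqrt
  have h1 := Pool.Agent.Lib_helper90.PNT.tendsto_psi_div
  rw [Metric.tendsto_atTop] at h1
  obtain ⟨x₁, hx₁⟩ := h1 (η / 2) (by positivity)
  refine ⟨max (max x₁ 1) ((2 * |C| / η) ^ 2), by positivity, fun x hx => ?_⟩
  have h2 : x₁ ≤ x := le_trans (le_trans (le_max_left _ _) (le_max_left _ _)) hx
  have h3 : (1 : ℝ) ≤ x := le_trans (le_trans (le_max_right _ _) (le_max_left _ _)) hx
  have h4 : (2 * |C| / η) ^ 2 ≤ x := le_trans (le_max_right _ _) hx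
  have hx0 : 0 < x := by linarith
  have h5 := hx₁ x h2
  rw [Real.dist_eq, div_sub_one hx0.ne', abs_div, abs_of_pos hx0, div_lt_iff₀ hx0] at h5
  have h6 : 2 * |C| / η ≤ √x := Real.le_sqrt_of_sq_le h4
  have h7 : C * √x ≤ η / 2 * x := by
    have h8 : |C| ≤ η / 2 * √x := by
      rw [div_le_iff₀ hη] at h6
      linarith
    calc C * √x ≤ |C| * √x := mul_le_mul_of_nonneg_right (le_abs_self C) (Real.sqrt_nonneg x)
      _ ≤ (η / 2 * √x) * √x := mul_le_mul_of_nonneg_right h8 (Real.sqrt_nonneg x)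
      _ = η / 2 * x := by rw [mul_assoc, Real.mul_self_sqrt hx0.le]
  have h9 := hC x
  have h10 := Chebyshev.theta_le_psi x
  rw [abs_lt] at h5
  rw [abs_le]
  constructor <;> linarith [h5.1, h5.2]

theorem pnt_mid (m : ℕ) (hm : 1 ≤ m) : ∃ c : ℝ, 0 < c ∧ ∃ X₀ : ℝ, ∀ X : ℝ, X₀ ≤ X →
    c * X ≤ ∑ l ∈ (Icc 1 ⌊X⌋₊).filter (fun l : ℕ => l.Prime ∧ X ^ (1 / 2 : ℝ) < l),
      Real.log l * om m (⌊X⌋₊ / m) l := by
  have hm1 : (1 : ℝ) ≤ m := by exact_mod_cast hm
  have hm0 : (0 : ℝ) < m := by linarith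
  obtain ⟨x₀, hx₀, hth⟩ := a4_theta (1 / (16 * m)) (by positivity)
  refine ⟨(1 / (4 * m : ℝ)) ^ (m - 1) * (1 / (16 * m)), by positivity,
    (2 + 2 * m) + 16 * m * x₀ + (16 * m) ^ 2, fun X hX => ?_⟩
  have hX1 : (2 + 2 * m : ℝ) ≤ X := by nlinarith [mul_pos hm0 hx₀]
  have hX2 : 16 * m * x₀ ≤ X := by nlinarith
  have hX3 : (16 * m : ℝ) ^ 2 ≤ X := by nlinarith [mul_pos hm0 hx₀]
  have hX0 : 0 < X := by linarith
  set N := ⌊X⌋₊ with hN
  set M := N / m with hM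
  have hNX : (N : ℝ) ≤ X := Nat.floor_le hX0.le
  have hXN : X < N + 1 := Nat.lt_floor_add_one X
  have hmM : m * M ≤ N := Nat.mul_div_le N m
  have hmM' : (m : ℝ) * M ≤ N := by exact_mod_cast hmM
  have hNM : N < m * (M + 1) := by
    have := Nat.lt_mul_div_succ N (by omega : 0 < m)
    rw [hM]
    exact this
  have hNM' : (N : ℝ) < m * (M + 1) := by exact_mod_cast hNM
  have hMX : X ≤ 2 * m * M := by
    have h1 : X < m * M + m + 1 := by linarith
    nlinarith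
  have hM0 : (0 : ℝ) < M := by
    by_contra h
    have h1 : (M : ℝ) ≤ 0 := not_lt.1 h
    nlinarith
  have hM8 : 8 * m ≤ M := by
    have h1 : (16 * m : ℝ) ^ 2 ≤ 2 * m * M := le_trans hX3 hMX
    have h2 : (8 * m : ℝ) ≤ M := by
      by_contra h
      have h3 : (M : ℝ) < 8 * m := not_le.1 h
      nlinarith
    exact_mod_cast h2
  set x1 : ℝ := m * M / 2 - M / 8 with hx1
  set x2 : ℝ := m * M / 2 + M / 8 with hx2
  have h38 : 3 * (M : ℝ) / 8 ≤ x1 := by
    rw [hx1]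
    nlinarith
  have hx1X : 3 * X / (16 * m) ≤ x1 := by
    refine le_trans ?_ h38
    rw [div_le_iff₀ (by positivity)]
    nlinarith
  have hx1x0 : x₀ ≤ x1 := by
    refine le_trans ?_ hx1X
    rw [le_div_iff₀ (by positivity)]
    nlinarith
  have hx2x0 : x₀ ≤ x2 := by
    refine le_trans hx1x0 ?_
    rw [hx1, hx2]
    linarith
  have hx1s : X ^ (1 / 2 : ℝ) < x1 := by
    refine lt_of_lt_of_le ?_ hx1X
    rw [← Real.sqrt_eq_rpow, lt_div_iff₀ (by positivity)]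
    have h1 : 16 * (m : ℝ) ≤ √X := Real.le_sqrt_of_sq_le hX3
    have h2 : √X * √X = X := Real.mul_self_sqrt hX0.le
    have h3 : 0 < √X := Real.sqrt_pos.2 hX0
    nlinarith
  have hx1n : 0 ≤ x1 := le_trans (by positivity) h38
  have hx2n : 0 ≤ x2 := le_trans hx₀.le hx2x0
  have hA1 := hth x1 hx1x0
  have hA2 := hth x2 hx2x0
  rw [abs_le] at hA1 hA2
  have hsum : x1 + x2 = m * M := by rw [hx1, hx2]; ring
  have hdif : x2 - x1 = M / 4 := by rw [hx1, hx2]; ring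
  have hTT : (M : ℝ) / 8 ≤ Chebyshev.theta x2 - Chebyshev.theta x1 := by
    have h1 : 1 / (16 * (m : ℝ)) * x1 + 1 / (16 * (m : ℝ)) * x2 = M / 16 := by
      rw [← mul_add, hsum]
      field_simp
    linarith [hA1.2, hA2.1]
  -- the primes in the middle
  set S : Finset ℕ := (Icc 1 N).filter (fun l : ℕ => (l.Prime ∧ X ^ (1 / 2 : ℝ) < l) ∧
    |(l : ℝ) - m * M / 2| ≤ M / 8) with hS
  have hsub : (Ioc 0 ⌊x2⌋₊).filter (fun p : ℕ => p.Prime) ⊆
      ((Ioc 0 ⌊x1⌋₊).filter (fun p : ℕ => p.Prime)) ∪ S := by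
    intro p hp
    rw [mem_filter, mem_Ioc] at hp
    obtain ⟨⟨hp0, hp2⟩, hpp⟩ := hp
    rw [mem_union]
    by_cases h : p ≤ ⌊x1⌋₊
    · left
      rw [mem_filter, mem_Ioc]
      exact ⟨⟨hp0, h⟩, hpp⟩
    · right
      have h1 : x1 < p := (Nat.floor_lt hx1n).1 (not_le.1 h)
      have h2 : (p : ℝ) ≤ x2 := (Nat.le_floor_iff hx2n).1 hp2
      have h3 : x2 ≤ m * M := by
        rw [hx2]
        nlinarith
      rw [hS, mem_filter, mem_Icc]
      refine ⟨⟨hp0, ?_⟩, ⟨hpp, hx1s.trans h1⟩, ?_⟩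
      · have h4 : (p : ℝ) ≤ N := le_trans h2 (le_trans h3 hmM')
        exact_mod_cast h4
      · rw [abs_le]
        constructor
        · rw [hx1] at h1; linarith
        · rw [hx2] at h2; linarith
  have hlog : ∀ l : ℕ, 0 ≤ Real.log l := fun l => Real.log_natCast_nonneg l
  have hT : Chebyshev.theta x2 ≤ Chebyshev.theta x1 + ∑ l ∈ S, Real.log l := by
    unfold Chebyshev.theta
    have h1 := sum_le_sum_of_subset_of_nonneg (f := fun l : ℕ => Real.log l) hsub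
      (fun l _ _ => hlog l)
    have h2 := sum_union_inter (s₁ := (Ioc 0 ⌊x1⌋₊).filter (fun p : ℕ => p.Prime)) (s₂ := S)
      (f := fun l : ℕ => Real.log l)
    have h3 : 0 ≤ ∑ l ∈ ((Ioc 0 ⌊x1⌋₊).filter (fun p : ℕ => p.Prime)) ∩ S, Real.log l :=
      sum_nonneg fun l _ => hlog l
    linarith
  have hc0 : (0 : ℝ) ≤ (1 / (4 * m : ℝ)) ^ (m - 1) := by positivity
  have hom : ∀ l : ℕ, 0 ≤ om m M l := fun l => by
    unfold om
    positivity
  have hfin : (1 / (4 * m : ℝ)) ^ (m - 1) * ∑ l ∈ S, Real.log l ≤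
      ∑ l ∈ (Icc 1 N).filter (fun l : ℕ => l.Prime ∧ X ^ (1 / 2 : ℝ) < l),
        Real.log l * om m M l := by
    calc (1 / (4 * m : ℝ)) ^ (m - 1) * ∑ l ∈ S, Real.log l
        = ∑ l ∈ S, Real.log l * (1 / (4 * m : ℝ)) ^ (m - 1) := by
          rw [mul_sum]
          exact sum_congr rfl fun l _ => mul_comm _ _
      _ ≤ ∑ l ∈ S, Real.log l * om m M l := by
          refine sum_le_sum fun l hl => mul_le_mul_of_nonneg_left ?_ (hlog l)
          rw [hS, mem_filter] at hl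
          exact om_low m M l hm hM8 hl.2.2
      _ ≤ _ := by
          refine sum_le_sum_of_subset_of_nonneg ?_ fun l _ _ => mul_nonneg (hlog l) (hom l)
          intro l hl
          rw [hS, mem_filter] at hl
          rw [mem_filter]
          exact ⟨hl.1, hl.2.1⟩
  refine le_trans ?_ hfin
  rw [mul_assoc]
  refine mul_le_mul_of_nonneg_left ?_ hc0
  have h1 : 1 / (16 * (m : ℝ)) * X ≤ M / 8 := by
    rw [one_div, inv_mul_le_iff₀ (by positivity)]
    linarith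
  linarith


end Pool.Agent.BSD
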