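import Pool.Agent.Lib_helper26.BSD.Defs

set_option autoImplicit false

namespace Pool.Agent.BSD

open Finset
open Pool.Agent.FG61 (mu phi Lam cc off)
open Pool.Agent.Var35 (e)

noncomputable section

theorem b1_log (δ A : ℝ) (hδ : 0 < δ) : ∀ᶠ X : ℝ in Filter.atTop,
    A * (1 + Real.log X) ^ 100 ≤ X ^ (δ ^ 2 / 100) := by
  have hs : (0 : ℝ) < δ ^ 2 / 10000 := by positivity
  have hc : (0 : ℝ) < 1 / (2 * (|A| + 1)) := by positivity
  have h1 := (isLittleO_log_rpow_atTop hs).bound hc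
  filter_upwards [h1, Filter.eventually_ge_atTop (3 : ℝ)] with X h2 h3
  have hX0 : (0 : ℝ) < X := by linarith
  have hl1 : 1 ≤ Real.log X := by
    rw [Real.le_log_iff_exp_le hX0]
    have := Real.exp_one_lt_d9
    linarith
  rw [Real.norm_of_nonneg (by linarith), Real.norm_of_nonneg (by positivity)] at h2
  have h4 : 1 + Real.log X ≤ 1 / (|A| + 1) * X ^ (δ ^ 2 / 10000) := by
    have h5 : 1 + Real.log X ≤ 2 * Real.log X := by linarith
    refine h5.trans ?_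
    calc 2 * Real.log X ≤ 2 * (1 / (2 * (|A| + 1)) * X ^ (δ ^ 2 / 10000)) := by linarith
      _ = _ := by field_simp
  have h6 : (1 + Real.log X) ^ 100 ≤ (1 / (|A| + 1)) ^ 100 * X ^ (δ ^ 2 / 100) := by
    calc (1 + Real.log X) ^ 100 ≤ (1 / (|A| + 1) * X ^ (δ ^ 2 / 10000)) ^ 100 :=
          pow_le_pow_left₀ (by linarith) h4 100
      _ = (1 / (|A| + 1)) ^ 100 * (X ^ (δ ^ 2 / 10000)) ^ 100 := mul_pow _ _ _
      _ = _ := by
          congr 1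
          rw [← Real.rpow_natCast, ← Real.rpow_mul hX0.le]
          congr 1
          push_cast
          ring
  have h7 : (1 / (|A| + 1)) ^ 100 ≤ 1 / (|A| + 1) := by
    apply pow_le_of_le_one (by positivity) _ (by norm_num)
    rw [div_le_one (by positivity)]
    linarith [abs_nonneg A]
  have hP : 0 ≤ X ^ (δ ^ 2 / 100) := by positivity
  calc A * (1 + Real.log X) ^ 100 ≤ |A| * (1 + Real.log X) ^ 100 :=
        mul_le_mul_of_nonneg_right (le_abs_self A) (by positivity)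
    _ ≤ |A| * ((1 / (|A| + 1)) ^ 100 * X ^ (δ ^ 2 / 100)) :=
        mul_le_mul_of_nonneg_left h6 (abs_nonneg A)
    _ ≤ |A| * (1 / (|A| + 1) * X ^ (δ ^ 2 / 100)) := by gcongr
    _ = |A| / (|A| + 1) * X ^ (δ ^ 2 / 100) := by ring
    _ ≤ 1 * X ^ (δ ^ 2 / 100) := by
        apply mul_le_mul_of_nonneg_right _ hP
        rw [div_le_one (by positivity)]
        linarith
    _ = _ := one_mul _

theorem sizes (ε δ A : ℝ) (h : Ok ε δ) : ∃ X₀ : ℝ, ∀ X Y : ℝ, X₀ ≤ X → Rg ε X Y →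
    Sz ε δ A X Y := by
  obtain ⟨hδ, hε, hδ1⟩ := h
  have hε0 : 0 < ε := by linarith
  have e1 := b1_log δ A hδ
  have e2 : ∀ᶠ X : ℝ in Filter.atTop, 4 ≤ X ^ (δ / 6) :=
    (tendsto_rpow_atTop (by positivity : (0 : ℝ) < δ / 6)).eventually_ge_atTop 4
  obtain ⟨X₀, hX₀⟩ := Filter.eventually_atTop.1 (e1.and (e2.and
    (Filter.eventually_ge_atTop (max 3 (2 * (mm δ : ℝ) + 2)))))
  refine ⟨X₀, fun X Y hX hR => ?_⟩
  obtain ⟨f1, f2, f3⟩ := hX₀ X hX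
  obtain ⟨r1, r2⟩ := hR
  have hX3 : 3 ≤ X := (le_max_left _ _).trans f3
  have hXm : 2 * (mm δ : ℝ) + 2 ≤ X := (le_max_right _ _).trans f3
  have hX1 : (1 : ℝ) < X := by linarith
  have hX0 : (0 : ℝ) < X := by linarith
  have hY0 : 0 < Y := lt_of_lt_of_le (by positivity) r1
  have hm1 : 1 ≤ mm δ := by
    unfold mm
    rw [Nat.one_le_ceil_iff]
    positivity
  have hm0 : (0 : ℝ) < mm δ := by exact_mod_cast hm1
  have hY1 : X ^ (2 / 3 : ℝ) ≤ Y :=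
    (Real.rpow_le_rpow_of_exponent_le hX1.le (by linarith)).trans r1
  have hYX : Y ≤ X := by
    refine r2.trans ?_
    calc X ^ (1 - ε) ≤ X ^ (1 : ℝ) := Real.rpow_le_rpow_of_exponent_le hX1.le (by linarith)
      _ = X := Real.rpow_one X
  have hZlo : X ^ ε ≤ X / Y := by
    rw [le_div_iff₀ hY0]
    calc X ^ ε * Y ≤ X ^ ε * X ^ (1 - ε) := by gcongr
      _ = X := by rw [← Real.rpow_add hX0, add_sub_cancel, Real.rpow_one]
  have hZhi : X / Y ≤ X ^ (1 / 3 - ε) := by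
    rw [div_le_iff₀ hY0]
    calc X = X ^ (1 / 3 - ε) * X ^ (2 / 3 + ε) := by
          rw [← Real.rpow_add hX0]
          norm_num
      _ ≤ X ^ (1 / 3 - ε) * Y := by gcongr
  have hZ1 : 1 ≤ X / Y := (Real.one_le_rpow hX1.le hε0.le).trans hZlo
  have hXd : 1 ≤ X ^ δ := Real.one_le_rpow hX1.le hδ.le
  set z : ℝ := X / Y * X ^ δ with hz
  have hz1 : 1 ≤ z := by rw [hz]; nlinarith
  have hKlo : z ≤ (KK δ X Y : ℝ) := Nat.le_ceil z
  have hKhi : (KK δ X Y : ℝ) ≤ 2 * z := by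
    have : (KK δ X Y : ℝ) < z + 1 := Nat.ceil_lt_add_one (by linarith)
    linarith
  have hz3 : z ≤ X ^ (1 / 3 : ℝ) := by
    calc z ≤ X ^ (1 / 3 - ε) * X ^ δ := by rw [hz]; gcongr
      _ = X ^ (1 / 3 - ε + δ) := by rw [Real.rpow_add hX0]
      _ ≤ _ := Real.rpow_le_rpow_of_exponent_le hX1.le (by linarith)
  have hKpow : (KK δ X Y : ℝ) ^ (1 + δ) ≤ X / Y * X ^ (3 / 2 * δ) := by
    have g1 : z ^ δ ≤ X ^ (δ / 3) := by
      calc z ^ δ ≤ (X ^ (1 / 3 : ℝ)) ^ δ := Real.rpow_le_rpow (by linarith) hz3 hδ.le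
        _ = X ^ (δ / 3) := by rw [← Real.rpow_mul hX0.le]; congr 1; ring
    have g2 : (2 : ℝ) ^ (1 + δ) ≤ 4 := by
      calc (2 : ℝ) ^ (1 + δ) ≤ 2 ^ (2 : ℝ) :=
            Real.rpow_le_rpow_of_exponent_le (by norm_num) (by linarith)
        _ = 4 := by norm_num
    calc (KK δ X Y : ℝ) ^ (1 + δ) ≤ (2 * z) ^ (1 + δ) :=
          Real.rpow_le_rpow (by positivity) hKhi (by linarith)
      _ = 2 ^ (1 + δ) * (z * z ^ δ) := by
          rw [Real.mul_rpow (by norm_num) (by linarith), Real.rpow_add (by linarith : 0 < z),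
            Real.rpow_one]
      _ ≤ 4 * (z * X ^ (δ / 3)) := by
          apply mul_le_mul g2 _ (by positivity) (by norm_num)
          exact mul_le_mul_of_nonneg_left g1 (by linarith)
      _ ≤ X ^ (δ / 6) * (z * X ^ (δ / 3)) := by
          apply mul_le_mul_of_nonneg_right f2
          positivity
      _ = X / Y * (X ^ (δ / 6) * X ^ δ * X ^ (δ / 3)) := by rw [hz]; ring
      _ = X / Y * X ^ (3 / 2 * δ) := by
          rw [← Real.rpow_add hX0, ← Real.rpow_add hX0]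
          congr 2
          ring
  have hS1 : 1 ≤ SS δ X := by
    unfold SS
    rw [Nat.one_le_floor_iff]
    exact Real.one_le_rpow hX1.le (by positivity)
  have hShi : (SS δ X : ℝ) ≤ X ^ (δ ^ 2 / 10) := Nat.floor_le (by positivity)
  have hSlo : X ^ (δ ^ 2 / 10) / 2 ≤ SS δ X := by
    have g1 : X ^ (δ ^ 2 / 10) < (SS δ X : ℝ) + 1 := Nat.lt_floor_add_one _
    have g2 : (1 : ℝ) ≤ SS δ X := by exact_mod_cast hS1
    linarith
  have hSK : SS δ X < KK δ X Y := by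
    have g1 : (SS δ X : ℝ) < KK δ X Y := by
      calc (SS δ X : ℝ) ≤ X ^ (δ ^ 2 / 10) := hShi
        _ < X ^ δ := Real.rpow_lt_rpow_of_exponent_lt hX1 (by nlinarith)
        _ ≤ z := by rw [hz]; nlinarith
        _ ≤ _ := hKlo
    exact_mod_cast g1
  have hMlo : X / (2 * mm δ) ≤ MM δ X := by
    have g1 : (⌊X⌋₊ : ℝ) < (mm δ : ℝ) * ((⌊X⌋₊ / mm δ : ℕ) : ℝ) + mm δ := by
      have := Nat.lt_mul_div_succ ⌊X⌋₊ (Nat.pos_of_ne_zero (by omega : mm δ ≠ 0))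
      have g2 : ⌊X⌋₊ < mm δ * (⌊X⌋₊ / mm δ) + mm δ := by
        calc ⌊X⌋₊ < mm δ * (⌊X⌋₊ / mm δ + 1) := this
          _ = _ := by ring
      exact_mod_cast g2
    have g3 : X < (⌊X⌋₊ : ℝ) + 1 := Nat.lt_floor_add_one X
    unfold MM
    rw [div_le_iff₀ (by positivity)]
    nlinarith
  have hM1 : 1 ≤ MM δ X := by
    have g1 : (0 : ℝ) < MM δ X := lt_of_lt_of_le (by positivity) hMlo
    exact_mod_cast g1
  have hMhi : (MM δ X : ℝ) ≤ X := by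
    calc (MM δ X : ℝ) ≤ ⌊X⌋₊ := by exact_mod_cast Nat.div_le_self _ _
      _ ≤ X := Nat.floor_le hX0.le
  have hmM : mm δ * MM δ X ≤ ⌊X⌋₊ := Nat.mul_div_le _ _
  have hDhi : Del δ X Y ≤ X ^ (-(99 * δ)) := by
    unfold Del
    rw [div_le_iff₀ hX0]
    calc X ^ δ * Y ≤ X ^ δ * X ^ (1 - ε) := by gcongr
      _ = X ^ (δ + (1 - ε)) := by rw [Real.rpow_add hX0]
      _ ≤ X ^ (-(99 * δ) + 1) := Real.rpow_le_rpow_of_exponent_le hX1.le (by linarith)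
      _ = X ^ (-(99 * δ)) * X := by rw [Real.rpow_add hX0, Real.rpow_one]
  exact ⟨hX3, f1, hY1, hYX, hZlo, hZhi, hKlo, hKhi, hKpow, hS1, hShi, hSlo, hSK, hM1, hMlo, hMhi,
    hmM, hDhi⟩

theorem rr_mem {ε δ A X Y : ℝ} (h : Ok ε δ) (hs : Sz ε δ A X Y) (hA : 1 ≤ A) (Q : ℕ) (x : ℕ × ℕ)
    (hx : x ∈ RR δ X Y Q) : x.1.Prime ∧ KK δ X Y < x.1 ∧ (x.1 : ℝ) ≤ X / Y * X ^ (3 / 2 * δ) ∧
      1 ≤ x.2 ∧ x.2 ≤ SS δ X ∧ Squarefree x.2 ∧ x.2.Coprime Q ∧ x.1.Coprime x.2 ∧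
      Squarefree (x.1 * x.2) ∧ ((x.1 * x.2 : ℕ) : ℝ) ≤ X / Y * X ^ (2 * δ) ∧
      phi (x.1 * x.2) = ((x.1 : ℝ) - 1) * phi x.2 := by
  obtain ⟨hδ, hε, hδ1⟩ := h
  unfold RR PS at hx
  rw [mem_product, mem_filter, mem_filter, mem_Icc, mem_Icc] at hx
  obtain ⟨⟨⟨h1, h2⟩, h3, h4⟩, ⟨h5, h6⟩, h7, h8⟩ := hx
  have hX1 : (1 : ℝ) < X := by linarith [hs.X3]
  have hX0 : (0 : ℝ) < X := by linarith
  have hp1 : (x.1 : ℝ) ≤ X / Y * X ^ (3 / 2 * δ) :=
    ((Nat.le_floor_iff (by positivity)).1 h2).trans hs.Kpow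
  have hSK := hs.SK
  have hcop : x.1.Coprime x.2 := by
    rw [Nat.Prime.coprime_iff_not_dvd h3]
    intro hd
    have := Nat.le_of_dvd h5 hd
    omega
  have hZ0 : 0 ≤ X / Y := le_trans (by positivity) hs.Zlo
  refine ⟨h3, h4, hp1, h5, h6, h7, h8, hcop, ?_, ?_, ?_⟩
  · exact (Nat.squarefree_mul_iff).2 ⟨hcop, h3.squarefree, h7⟩
  · push_cast
    have hs2 : (x.2 : ℝ) ≤ X ^ (δ ^ 2 / 10) :=
      (by exact_mod_cast h6 : (x.2 : ℝ) ≤ SS δ X).trans hs.Shi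
    calc (x.1 : ℝ) * x.2 ≤ (X / Y * X ^ (3 / 2 * δ)) * X ^ (δ ^ 2 / 10) := by gcongr
      _ = X / Y * X ^ (3 / 2 * δ + δ ^ 2 / 10) := by
          rw [mul_assoc, ← Real.rpow_add hX0]
      _ ≤ X / Y * X ^ (2 * δ) := by
          apply mul_le_mul_of_nonneg_left _ hZ0
          apply Real.rpow_le_rpow_of_exponent_le hX1.le
          nlinarith
  · show ((Nat.totient (x.1 * x.2) : ℕ) : ℝ) = ((x.1 : ℝ) - 1) * ((Nat.totient x.2 : ℕ) : ℝ)
    rw [Nat.totient_mul hcop, Nat.totient_prime h3]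
    push_cast [Nat.cast_sub h3.one_lt.le]
    ring

end

end Pool.Agent.BSD

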