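import Pool.Agent.Lib_helper26.BSD.Defs
import Pool.Agent.Lib_helper61.FG.P.PS

set_option autoImplicit false

namespace Pool.Agent.BSD

open Finset
open Pool.Agent.FG61 (mu phi Lam cc off)
open Pool.Agent.Var35 (e)

noncomputable section

open Pool.Agent.FG61.PSx (rf rf_insert rf_empty rf_lt_one)

/-- the sum of `1/φ(s)` over the squarefree `s ≤ U` composed of the primes of `P` -/
def c1C (P : Finset ℕ) (U : ℝ) : ℝ :=
  ∑ s ∈ (Icc 1 ⌊U⌋₊).filter (fun s => Squarefree s ∧ s.primeFactors ⊆ P), 1 / phi s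

theorem c1_rf_mono (P : Finset ℕ) {U V : ℝ} (h : U ≤ V) : rf P U ≤ rf P V := by
  unfold rf
  apply sum_le_sum_of_subset_of_nonneg
  · intro x hx
    rw [mem_filter, mem_Icc] at hx ⊢
    exact ⟨⟨hx.1.1, hx.1.2.trans (Nat.floor_le_floor h)⟩, hx.2⟩
  · intro _ _ _; positivity

theorem c1_rf_step (P : Finset ℕ) (p : ℕ) (hp : p.Prime) (hpP : p ∉ P) (n : ℕ) :
    ∀ U : ℝ, U < 2 ^ n → rf (insert p P) U ≤ rf P U + 1 / ((p : ℝ) - 1) * rf P (U / p) := by
  have hp2 : (2 : ℝ) ≤ p := by exact_mod_cast hp.two_le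
  have hnn : ∀ V : ℝ, 0 ≤ rf P V := fun V => sum_nonneg fun _ _ => by positivity
  induction n with
  | zero =>
    intro U hU
    rw [rf_lt_one _ U (by simpa using hU)]
    have := hnn U
    have := hnn (U / p)
    have : 0 ≤ 1 / ((p : ℝ) - 1) := by apply div_nonneg <;> linarith
    positivity
  | succ n ih =>
    intro U hU
    rcases lt_or_ge U 0 with hU0 | hU0
    · rw [rf_lt_one _ U (by linarith)]
      have := hnn U
      have := hnn (U / p)
      have : 0 ≤ 1 / ((p : ℝ) - 1) := by apply div_nonneg <;> linarith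
      positivity
    have h1 := rf_insert P p hp hpP U
    have h2 := ih (U / p) (by
      rw [div_lt_iff₀ (by linarith)]
      calc U < 2 ^ (n + 1) := hU
        _ = 2 ^ n * 2 := pow_succ _ _
        _ ≤ 2 ^ n * p := by gcongr)
    have h3 : rf P (U / p / p) ≤ rf P (U / p) := by
      apply c1_rf_mono
      exact div_le_self (by positivity) (by linarith)
    rw [h1]
    have h4 : 0 < (p : ℝ) - 1 := by linarith
    have h5 : rf (insert p P) (U / p) ≤ (1 + 1 / ((p : ℝ) - 1)) * rf P (U / p) := by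
      have : 1 / ((p : ℝ) - 1) * rf P (U / p / p) ≤ 1 / ((p : ℝ) - 1) * rf P (U / p) :=
        mul_le_mul_of_nonneg_left h3 (by positivity)
      linarith
    have h6 : rf (insert p P) (U / p) / p ≤ 1 / ((p : ℝ) - 1) * rf P (U / p) := by
      rw [div_le_iff₀ (by linarith)]
      refine h5.trans (le_of_eq ?_)
      field_simp
      ring
    linarith

theorem c1_C_insert (P : Finset ℕ) (p : ℕ) (hp : p.Prime) (hpP : p ∉ P) (U : ℝ) (hU : 0 ≤ U) :
    c1C P U + 1 / ((p : ℝ) - 1) * c1C P (U / p) ≤ c1C (insert p P) U := by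
  have hp0 : (0 : ℝ) < p := by exact_mod_cast hp.pos
  set A := (Icc 1 ⌊U⌋₊).filter (fun s => Squarefree s ∧ s.primeFactors ⊆ P) with hA
  set B := (Icc 1 ⌊U / p⌋₊).filter (fun s => Squarefree s ∧ s.primeFactors ⊆ P) with hB
  set C := (Icc 1 ⌊U⌋₊).filter (fun s => Squarefree s ∧ s.primeFactors ⊆ insert p P) with hC
  have hpnd : ∀ s ∈ B, ¬ p ∣ s := by
    intro s hs hd
    rw [hB, mem_filter, mem_Icc] at hs
    exact hpP (hs.2.2 (Nat.mem_primeFactors.2 ⟨hp, hd, by omega⟩))
  have hpnd' : ∀ s ∈ A, ¬ p ∣ s := by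
    intro s hs hd
    rw [hA, mem_filter, mem_Icc] at hs
    exact hpP (hs.2.2 (Nat.mem_primeFactors.2 ⟨hp, hd, by omega⟩))
  have h1 : 1 / ((p : ℝ) - 1) * ∑ s ∈ B, 1 / phi s = ∑ s ∈ B.image (fun s => p * s), 1 / phi s := by
    rw [sum_image (fun a _ b _ hab => Nat.eq_of_mul_eq_mul_left hp.pos hab), mul_sum]
    refine sum_congr rfl fun s hs => ?_
    have hcop : p.Coprime s := (Nat.Prime.coprime_iff_not_dvd hp).2 (hpnd s hs)
    have h2 : phi (p * s) = ((p : ℝ) - 1) * phi s := by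
      show ((Nat.totient (p * s) : ℕ) : ℝ) = ((p : ℝ) - 1) * ((Nat.totient s : ℕ) : ℝ)
      rw [Nat.totient_mul hcop, Nat.totient_prime hp]
      push_cast [Nat.cast_sub hp.one_lt.le]
      ring
    rw [h2, one_div_mul_one_div]
  have hdisj : Disjoint A (B.image fun s => p * s) := by
    rw [disjoint_left]
    intro s hs hs'
    rw [mem_image] at hs'
    obtain ⟨t, _, rfl⟩ := hs'
    exact hpnd' _ hs (Dvd.intro _ rfl)
  unfold c1C
  rw [← hA, ← hB, ← hC, h1, ← sum_union hdisj]
  apply sum_le_sum_of_subset_of_nonneg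
  · intro s hs
    rw [mem_union] at hs
    rcases hs with hs | hs
    · rw [hA, mem_filter] at hs
      rw [hC, mem_filter]
      exact ⟨hs.1, hs.2.1, hs.2.2.trans (subset_insert _ _)⟩
    · rw [mem_image] at hs
      obtain ⟨t, ht, rfl⟩ := hs
      have hnd := hpnd t ht
      rw [hB, mem_filter, mem_Icc] at ht
      obtain ⟨⟨t1, t2⟩, t3, t4⟩ := ht
      have hcop : p.Coprime t := (Nat.Prime.coprime_iff_not_dvd hp).2 hnd
      rw [hC, mem_filter, mem_Icc]
      refine ⟨⟨Nat.mul_pos hp.pos t1, ?_⟩, (Nat.squarefree_mul_iff).2 ⟨hcop, hp.squarefree, t3⟩, ?_⟩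
      · rw [Nat.le_floor_iff hU]
        have := (Nat.le_floor_iff (by positivity)).1 t2
        rw [le_div_iff₀ hp0] at this
        push_cast
        linarith
      · rw [Nat.primeFactors_mul hp.ne_zero (by omega), hp.primeFactors]
        intro x hx
        rw [mem_union, mem_singleton] at hx
        rcases hx with rfl | hx
        · exact mem_insert_self _ _
        · exact mem_insert_of_mem (t4 hx)
  · intro _ _ _
    positivity

theorem c1_rf_le (P : Finset ℕ) : (∀ p ∈ P, p.Prime) → ∀ U : ℝ, 0 ≤ U → rf P U ≤ c1C P U := by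
  induction P using Finset.induction_on with
  | empty =>
    intro _ U hU
    unfold rf c1C
    refine le_of_eq ?_
    have : (Icc 1 ⌊U⌋₊).filter (fun s => Squarefree s ∧ s.primeFactors ⊆ (∅ : Finset ℕ)) =
        (Icc 1 ⌊U⌋₊).filter (fun v => v.primeFactors ⊆ (∅ : Finset ℕ)) := by
      ext s
      rw [mem_filter, mem_filter, mem_Icc]
      constructor
      · rintro ⟨h1, h2, h3⟩
        exact ⟨h1, h3⟩
      · rintro ⟨h1, h3⟩
        refine ⟨h1, ?_, h3⟩
        rw [subset_empty, Nat.primeFactors_eq_empty] at h3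
        rcases h3 with h3 | h3
        · omega
        · rw [h3]; exact squarefree_one
    rw [this]
    refine sum_congr rfl fun s hs => ?_
    rw [mem_filter, mem_Icc, subset_empty, Nat.primeFactors_eq_empty] at hs
    have hs1 : s = 1 := by omega
    rw [hs1]
    simp
  | insert p P hpP ih =>
    intro hP U hU
    have hp : p.Prime := hP p (mem_insert_self _ _)
    have hP' : ∀ q ∈ P, q.Prime := fun q hq => hP q (mem_insert_of_mem hq)
    have hp2 : (2 : ℝ) ≤ p := by exact_mod_cast hp.two_le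
    obtain ⟨n, hn⟩ := pow_unbounded_of_one_lt U (one_lt_two)
    have h1 := c1_rf_step P p hp hpP n U hn
    have h2 := ih hP' U hU
    have h3 := ih hP' (U / p) (by positivity)
    have h4 := c1_C_insert P p hp hpP U hU
    have h5 : 1 / ((p : ℝ) - 1) * rf P (U / p) ≤ 1 / ((p : ℝ) - 1) * c1C P (U / p) :=
      mul_le_mul_of_nonneg_left h3 (by apply div_nonneg <;> linarith)
    linarith

/-- the sum over the squarefree `s ≤ S` prime to `m` -/
def c1A (m S : ℕ) : ℝ := ∑ s ∈ (Icc 1 S).filter (fun s => Squarefree s ∧ s.Coprime m), 1 / phi s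

theorem c1_log (S : ℕ) (hS : 1 ≤ S) : Real.log S ≤ c1A 1 S := by
  set P := (Icc 1 S).filter Nat.Prime with hP
  have h1 := c1_rf_le P (fun p hp => (mem_filter.1 hp).2) S (Nat.cast_nonneg _)
  have hpf : ∀ s ∈ Icc 1 S, s.primeFactors ⊆ P := by
    intro s hs p hp
    rw [mem_Icc] at hs
    rw [Nat.mem_primeFactors] at hp
    rw [hP, mem_filter, mem_Icc]
    exact ⟨⟨hp.1.one_lt.le, (Nat.le_of_dvd (by omega) hp.2.1).trans hs.2⟩, hp.1⟩
  have h2 : rf P S = ∑ n ∈ Icc 1 S, 1 / (n : ℝ) := by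
    unfold rf
    rw [Nat.floor_natCast, filter_true_of_mem hpf]
  have h3 : c1C P S = c1A 1 S := by
    unfold c1C c1A
    rw [Nat.floor_natCast]
    refine sum_congr (filter_congr fun s hs => ?_) fun _ _ => rfl
    constructor
    · rintro ⟨a, _⟩; exact ⟨a, Nat.coprime_one_right s⟩
    · rintro ⟨a, _⟩; exact ⟨a, hpf s hs⟩
  have h4 : Real.log S ≤ ∑ n ∈ Icc 1 S, 1 / (n : ℝ) := by
    have h5 := log_le_harmonic_floor (S : ℝ) (Nat.cast_nonneg _)
    rw [Nat.floor_natCast, harmonic_eq_sum_Icc] at h5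
    push_cast at h5
    simpa only [one_div] using h5
  linarith

theorem c1_step (m p S : ℕ) (hp : p.Prime) (hpm : ¬ p ∣ m) :
    c1A m S ≤ (p : ℝ) / (p - 1) * c1A (p * m) S := by
  have hp2 : (2 : ℝ) ≤ p := by exact_mod_cast hp.two_le
  unfold c1A
  set A := (Icc 1 S).filter (fun s => Squarefree s ∧ s.Coprime m) with hA
  set B := (Icc 1 S).filter (fun s => Squarefree s ∧ s.Coprime (p * m)) with hB
  have e1 := sum_filter_add_sum_filter_not A (fun s => ¬ p ∣ s) (fun s => 1 / phi s)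
  have e2 : A.filter (fun s => ¬ p ∣ s) = B := by
    ext s
    rw [mem_filter, hA, mem_filter, hB, mem_filter, Nat.coprime_mul_iff_right]
    constructor
    · rintro ⟨⟨h1, h2, h3⟩, h4⟩
      exact ⟨h1, h2, ((Nat.Prime.coprime_iff_not_dvd hp).2 h4).symm, h3⟩
    · rintro ⟨h1, h2, h3, h4⟩
      exact ⟨⟨h1, h2, h4⟩, (Nat.Prime.coprime_iff_not_dvd hp).1 h3.symm⟩
  have e3 : ∑ s ∈ A.filter (fun s => ¬ ¬ p ∣ s), 1 / phi s ≤
      1 / ((p : ℝ) - 1) * ∑ s ∈ B, 1 / phi s := by
    have h1 : ∀ s ∈ A.filter (fun s => ¬ ¬ p ∣ s), p * (s / p) = s ∧ s / p ∈ B ∧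
        1 / phi s = 1 / ((p : ℝ) - 1) * (1 / phi (s / p)) := by
      intro s hs
      rw [mem_filter, not_not, hA, mem_filter, mem_Icc] at hs
      obtain ⟨⟨⟨h1, h2⟩, h3, h4⟩, h5⟩ := hs
      have h6 : p * (s / p) = s := Nat.mul_div_cancel' h5
      have h7 : Squarefree (p * (s / p)) := by rw [h6]; exact h3
      obtain ⟨h8, -, h9⟩ := (Nat.squarefree_mul_iff).1 h7
      have h10 : s / p ∣ s := Nat.div_dvd_of_dvd h5
      refine ⟨h6, ?_, ?_⟩
      · rw [hB, mem_filter, mem_Icc]
        refine ⟨⟨Nat.div_pos (Nat.le_of_dvd (by omega) h5) hp.pos, (Nat.div_le_self _ _).trans h2⟩,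
          h9, ?_⟩
        rw [Nat.coprime_mul_iff_right]
        exact ⟨h8.symm, Nat.Coprime.coprime_dvd_left h10 h4⟩
      · have h11 : phi s = ((p : ℝ) - 1) * phi (s / p) := by
          show ((Nat.totient s : ℕ) : ℝ) = ((p : ℝ) - 1) * ((Nat.totient (s / p) : ℕ) : ℝ)
          conv_lhs => rw [← h6]
          rw [Nat.totient_mul h8, Nat.totient_prime hp]
          push_cast [Nat.cast_sub hp.one_lt.le]
          ring
        rw [h11, one_div_mul_one_div]
    rw [sum_congr rfl fun s hs => (h1 s hs).2.2, ← mul_sum]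
    apply mul_le_mul_of_nonneg_left _ (by apply div_nonneg <;> linarith)
    rw [← sum_image (s := A.filter (fun s => ¬ ¬ p ∣ s)) (g := fun s => s / p)
      (f := fun s => 1 / phi s)]
    · apply sum_le_sum_of_subset_of_nonneg
      · intro t ht
        rw [mem_image] at ht
        obtain ⟨s, hs, rfl⟩ := ht
        exact (h1 s hs).2.1
      · intro _ _ _; positivity
    · intro s hs s' hs' hss
      rw [← (h1 s hs).1, ← (h1 s' hs').1]
      congr 1
  have h4 : 0 < (p : ℝ) - 1 := by linarith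
  rw [e2] at e1
  have h5 : (p : ℝ) / (p - 1) * ∑ s ∈ B, 1 / phi s = ∑ s ∈ B, 1 / phi s +
      1 / ((p : ℝ) - 1) * ∑ s ∈ B, 1 / phi s := by
    field_simp
    ring
  rw [h5]
  linarith

theorem c1_main (S : ℕ) (Q : ℕ) : 1 ≤ Q → c1A 1 S ≤ (Q : ℝ) / phi Q * c1A Q S := by
  induction Q using induction_on_primes with
  | zero => intro h; omega
  | one =>
    intro _
    have : phi 1 = 1 := by simp [phi]
    rw [this]
    simp
  | prime_mul p a hp ih =>
    intro h
    have ha : 1 ≤ a := by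
      by_contra h0
      have : a = 0 := by omega
      rw [this, mul_zero] at h
      omega
    have hp2 : (2 : ℝ) ≤ p := by exact_mod_cast hp.two_le
    have ha0 : (0 : ℝ) < a := by exact_mod_cast ha
    have hphi : (0 : ℝ) < phi a := by exact_mod_cast Nat.totient_pos.2 ha
    have h1 := ih ha
    by_cases hd : p ∣ a
    · have e1 : c1A (p * a) S = c1A a S := by
        unfold c1A
        refine sum_congr (filter_congr fun s _ => ?_) fun _ _ => rfl
        rw [Nat.coprime_mul_iff_right]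
        constructor
        · rintro ⟨x, y, z⟩; exact ⟨x, z⟩
        · rintro ⟨x, z⟩; exact ⟨x, Nat.Coprime.coprime_dvd_right hd z, z⟩
      have e2 : phi (p * a) = p * phi a := by
        show ((Nat.totient (p * a) : ℕ) : ℝ) = (p : ℝ) * ((Nat.totient a : ℕ) : ℝ)
        rw [Nat.totient_mul_of_prime_of_dvd hp hd]
        push_cast
        ring
      rw [e1, e2]
      push_cast
      have e3 : (p : ℝ) * a / (p * phi a) = a / phi a := by field_simp
      rw [e3]
      exact h1
    · have e2 : phi (p * a) = ((p : ℝ) - 1) * phi a := by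
        show ((Nat.totient (p * a) : ℕ) : ℝ) = ((p : ℝ) - 1) * ((Nat.totient a : ℕ) : ℝ)
        rw [Nat.totient_mul_of_prime_of_not_dvd hp hd]
        push_cast [Nat.cast_sub hp.one_lt.le]
        ring
      have h4 : 0 < (p : ℝ) - 1 := by linarith
      calc c1A 1 S ≤ (a : ℝ) / phi a * c1A a S := h1
        _ ≤ (a : ℝ) / phi a * ((p : ℝ) / (p - 1) * c1A (p * a) S) :=
            mul_le_mul_of_nonneg_left (c1_step a p S hp hd) (by positivity)
        _ = _ := by
            rw [e2]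
            push_cast
            field_simp

theorem cop_low (Q S : ℕ) (hQ : 1 ≤ Q) (hS : 1 ≤ S) : phi Q / Q * Real.log S ≤
    ∑ s ∈ (Icc 1 S).filter (fun s => Squarefree s ∧ s.Coprime Q), 1 / phi s := by
  have h1 := c1_log S hS
  have h2 := c1_main S Q hQ
  have hQ0 : (0 : ℝ) < Q := by exact_mod_cast hQ
  have hphi : (0 : ℝ) < phi Q := by exact_mod_cast Nat.totient_pos.2 hQ
  have h3 : Real.log S ≤ (Q : ℝ) / phi Q * c1A Q S := h1.trans h2
  calc phi Q / Q * Real.log S ≤ phi Q / Q * ((Q : ℝ) / phi Q * c1A Q S) :=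
        mul_le_mul_of_nonneg_left h3 (by positivity)
    _ = c1A Q S := by field_simp
    _ = _ := rfl

end

end Pool.Agent.BSD

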