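import Pool.Agent.Lib_helper26.BSD.Defs
import Pool.Agent.Lib_helper26.BSD.B1
import Pool.Agent.Lib_helper23.BG4F.MER

set_option autoImplicit false

namespace Pool.Agent.BSD

open Finset
open Pool.Agent.FG61 (mu phi Lam cc off)
open Pool.Agent.Var35 (e)

noncomputable section

theorem ps_sums (ε δ : ℝ) (h : Ok ε δ) : ∃ X₀ : ℝ, ∀ X Y : ℝ, X₀ ≤ X → Rg ε X Y →
    δ / 4 ≤ ∑ p ∈ PS δ X Y, 1 / ((p : ℝ) - 1) ∧ ∑ p ∈ PS δ X Y, 1 / (p : ℝ) ≤ 2 * δ := by
  obtain ⟨C', hC'⟩ := Pool.Agent.BG4.mertens_one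
  set C : ℝ := |C'| with hCd
  have hC0 : 0 ≤ C := abs_nonneg _
  have hC : ∀ x : ℕ, 1 ≤ x → |∑ p ∈ (Icc 1 x).filter Nat.Prime, Real.log p / p - Real.log x| ≤ C :=
    fun x hx => (hC' x hx).trans (le_abs_self _)
  obtain ⟨X₁, h1⟩ := sizes ε δ 1 h
  obtain ⟨hδ, hε, hδ1⟩ := h
  have hε0 : 0 < ε := by linarith
  refine ⟨max X₁ (Real.exp ((4 * C + 2) / (δ * ε))), fun X Y hX hR => ?_⟩
  have hs := h1 X Y ((le_max_left _ _).trans hX) hR
  have hXe : Real.exp ((4 * C + 2) / (δ * ε)) ≤ X := (le_max_right _ _).trans hX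
  have hX1 : (1 : ℝ) < X := by linarith [hs.X3]
  have hX0 : (0 : ℝ) < X := by linarith
  have hlogX : (4 * C + 2) / (δ * ε) ≤ Real.log X := by
    rw [Real.le_log_iff_exp_le hX0]; exact hXe
  set K : ℕ := KK δ X Y with hK
  set L : ℝ := Real.log K with hL
  have hKX : X ^ ε ≤ (K : ℝ) := by
    refine hs.Zlo.trans (le_trans ?_ hs.Klo)
    have : 1 ≤ X ^ δ := Real.one_le_rpow hX1.le hδ.le
    have h0 : 0 ≤ X / Y := le_trans (by positivity) hs.Zlo
    nlinarith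
  have hK0 : (0 : ℝ) < K := lt_of_lt_of_le (by positivity) hKX
  have hK1 : 1 ≤ K := by exact_mod_cast hK0
  have hK1' : (1 : ℝ) ≤ K := by exact_mod_cast hK1
  have hLlo : (4 * C + 2) / δ ≤ L := by
    have h2 : Real.log (X ^ ε) ≤ L := Real.log_le_log (by positivity) hKX
    rw [Real.log_rpow hX0] at h2
    refine le_trans ?_ h2
    rw [div_le_iff₀ (by positivity)] at hlogX ⊢
    linarith
  have hL2 : 4 * C + 2 ≤ δ * L := by
    rw [div_le_iff₀ hδ] at hLlo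
    linarith
  have hLpos : 0 < L := by
    by_contra hneg
    push Not at hneg
    nlinarith
  set n₂ : ℕ := ⌊(K : ℝ) ^ (1 + δ)⌋₊ with hn₂
  have hKn : (K : ℝ) ≤ (K : ℝ) ^ (1 + δ) := by
    conv_lhs => rw [← Real.rpow_one (K : ℝ)]
    exact Real.rpow_le_rpow_of_exponent_le hK1' (by linarith)
  have hKn2 : K ≤ n₂ := Nat.le_floor hKn
  have hn20 : (0 : ℝ) < n₂ := by
    have : (K : ℝ) ≤ n₂ := by exact_mod_cast hKn2
    linarith
  have hn2up : Real.log n₂ ≤ (1 + δ) * L := by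
    rw [hL, ← Real.log_rpow hK0]
    exact Real.log_le_log hn20 (Nat.floor_le (by positivity))
  have hn2lo : (1 + δ) * L - 1 ≤ Real.log n₂ := by
    have h2 : (K : ℝ) ^ (1 + δ) ≤ 2 * n₂ := by
      have h3 : (K : ℝ) ^ (1 + δ) < n₂ + 1 := Nat.lt_floor_add_one _
      have h4 : (1 : ℝ) ≤ n₂ := hK1'.trans (by exact_mod_cast hKn2)
      linarith
    have h3 := Real.log_le_log (by positivity) h2
    rw [Real.log_rpow hK0, Real.log_mul (by norm_num) hn20.ne'] at h3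
    have := Real.log_two_lt_d9
    linarith
  -- the sum of log p / p
  have hPS : PS δ X Y = (Icc 1 n₂).filter (fun p => p.Prime ∧ K < p) := rfl
  have hsplit : ∑ p ∈ (Icc 1 n₂).filter Nat.Prime, Real.log p / p =
      ∑ p ∈ (Icc 1 K).filter Nat.Prime, Real.log p / p + ∑ p ∈ PS δ X Y, Real.log p / p := by
    rw [← sum_filter_add_sum_filter_not ((Icc 1 n₂).filter Nat.Prime) (fun p => p ≤ K)]
    congr 1
    · refine sum_congr ?_ fun _ _ => rfl
      ext p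
      simp only [mem_filter, mem_Icc]
      constructor
      · rintro ⟨⟨⟨a, b⟩, c⟩, d⟩; exact ⟨⟨a, d⟩, c⟩
      · rintro ⟨⟨a, b⟩, c⟩; exact ⟨⟨⟨a, b.trans hKn2⟩, c⟩, b⟩
    · refine sum_congr ?_ fun _ _ => rfl
      rw [hPS]
      ext p
      simp only [mem_filter, mem_Icc, not_le]
      constructor
      · rintro ⟨⟨a, c⟩, d⟩; exact ⟨a, c, d⟩
      · rintro ⟨a, c, d⟩; exact ⟨⟨a, c⟩, d⟩
  have m1 := abs_le.1 (hC n₂ (hK1.trans hKn2))
  have m2 := abs_le.1 (hC K hK1)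
  rw [hsplit] at m1
  set TS : ℝ := ∑ p ∈ PS δ X Y, Real.log p / p with hTS
  have hTSup : TS ≤ δ * L + 2 * C := by linarith [m1.2, m2.1]
  have hTSlo : δ * L - 1 - 2 * C ≤ TS := by linarith [m1.1, m2.2]
  have hp : ∀ p ∈ PS δ X Y, 2 ≤ p ∧ L ≤ Real.log p ∧ Real.log p ≤ (1 + δ) * L := by
    intro p hp
    rw [hPS, mem_filter, mem_Icc] at hp
    obtain ⟨⟨a, b⟩, c, d⟩ := hp
    have hp0 : (0 : ℝ) < p := by exact_mod_cast c.pos
    refine ⟨c.two_le, Real.log_le_log hK0 (by exact_mod_cast d.le), ?_⟩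
    refine le_trans ?_ hn2up
    exact Real.log_le_log hp0 (by exact_mod_cast b)
  constructor
  · have h2 : TS ≤ (1 + δ) * L * ∑ p ∈ PS δ X Y, 1 / ((p : ℝ) - 1) := by
      rw [hTS, mul_sum]
      refine sum_le_sum fun p hp' => ?_
      obtain ⟨a, b, c⟩ := hp p hp'
      have ha : (2 : ℝ) ≤ p := by exact_mod_cast a
      calc Real.log p / p ≤ (1 + δ) * L / p := by gcongr
        _ ≤ (1 + δ) * L / ((p : ℝ) - 1) := by
            apply div_le_div_of_nonneg_left (by positivity) (by linarith) (by linarith)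
        _ = _ := by ring
    have h3 : 0 < (1 + δ) * L := by positivity
    have h4 : (1 + δ) * L * (δ / 4) ≤ (1 + δ) * L * ∑ p ∈ PS δ X Y, 1 / ((p : ℝ) - 1) := by
      refine le_trans ?_ h2
      refine le_trans ?_ hTSlo
      nlinarith
    exact le_of_mul_le_mul_left h4 h3
  · have h2 : L * ∑ p ∈ PS δ X Y, 1 / (p : ℝ) ≤ TS := by
      rw [hTS, mul_sum]
      refine sum_le_sum fun p hp' => ?_
      obtain ⟨a, b, c⟩ := hp p hp'
      have ha : (0 : ℝ) < p := by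
        have : (2 : ℝ) ≤ p := by exact_mod_cast a
        linarith
      rw [mul_one_div]
      gcongr
    have h4 : L * ∑ p ∈ PS δ X Y, 1 / (p : ℝ) ≤ L * (2 * δ) := by
      refine h2.trans (hTSup.trans ?_)
      nlinarith
    exact le_of_mul_le_mul_left h4 hLpos

end

end Pool.Agent.BSD

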