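import Pool.Agent.Lib_helper26.BSD.Defs
import Pool.Agent.Lib_helper26.BSD.B1
import Pool.Agent.Lib_helper26.BSD.C1
import Pool.Agent.Lib_helper26.BSD.C2

set_option autoImplicit false

namespace Pool.Agent.BSD

open Finset
open Pool.Agent.FG61 (mu phi Lam cc off)
open Pool.Agent.Var35 (e)

noncomputable section

theorem c3_sq (B : ℕ) : ∑ p ∈ Icc 2 B, 8 / (p : ℝ) ^ 2 ≤ 8 := by
  have h3 : ∀ B : ℕ, 1 ≤ B → ∑ p ∈ Icc 2 B, 8 / (p : ℝ) ^ 2 ≤ 8 - 8 / (B : ℝ) := by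
    intro B hB
    induction B, hB using Nat.le_induction with
    | base => simp
    | succ B hB ih =>
      rw [Finset.sum_Icc_succ_top (by omega)]
      have h4 : (0 : ℝ) < B := by exact_mod_cast hB
      have h5 : 8 / ((B : ℝ) + 1) ^ 2 ≤ 8 / (B : ℝ) - 8 / ((B : ℝ) + 1) := by
        rw [div_sub_div _ _ h4.ne' (by positivity), div_le_div_iff₀ (by positivity) (by positivity)]
        nlinarith
      push_cast
      linarith
  rcases Nat.eq_zero_or_pos B with h0 | h0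
  · subst h0; simp
  · have h1 := h3 B h0
    have : (0 : ℝ) ≤ 8 / (B : ℝ) := by positivity
    linarith

/-- mean values of multiplicative functions -/
theorem c3_gen (h : ℕ → ℝ) (hh : ∀ p : ℕ, p.Prime → 0 ≤ h p ∧ h p / p ≤ 8 / (p : ℝ) ^ 2) (V : ℕ)
    (w : ℕ → ℝ) (c : ℝ) (hw : ∀ m, 0 ≤ w m) (hc : 0 ≤ c)
    (hwd : ∀ d : ℕ, 1 ≤ d → ∑ m ∈ (Icc 1 V).filter (fun m => d ∣ m), w m ≤ c / d) :
    ∑ m ∈ Icc 1 V, w m * ∏ p ∈ m.primeFactors, (1 + h p) ≤ c * Real.exp 8 := by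
  classical
  set P := (Icc 1 V).filter Nat.Prime with hP
  have hPp : ∀ S ∈ P.powerset, ∀ p ∈ S, p.Prime := by
    intro S hS p hp
    rw [mem_powerset] at hS
    have h1 := hS hp
    rw [hP, mem_filter] at h1
    exact h1.2
  have hpos : ∀ S ∈ P.powerset, 0 ≤ ∏ p ∈ S, h p := fun S hS =>
    Finset.prod_nonneg fun p hp => (hh p (hPp S hS p hp)).1
  have h1 : ∑ m ∈ Icc 1 V, w m * ∏ p ∈ m.primeFactors, (1 + h p) ≤
      ∑ m ∈ Icc 1 V, ∑ S ∈ P.powerset, if (∏ p ∈ S, p) ∣ m then (∏ p ∈ S, h p) * w m else 0 := by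
    refine Finset.sum_le_sum fun m hm => ?_
    rw [Finset.mem_Icc] at hm
    rw [Finset.prod_one_add, Finset.mul_sum]
    have h2 : m.primeFactors.powerset ⊆ P.powerset := by
      refine Finset.powerset_mono.mpr fun p hp => ?_
      rw [hP, mem_filter, Finset.mem_Icc]
      have h3 := Nat.prime_of_mem_primeFactors hp
      exact ⟨⟨h3.one_lt.le, (Nat.le_of_dvd hm.1 (Nat.dvd_of_mem_primeFactors hp)).trans hm.2⟩, h3⟩
    refine le_trans ?_ (Finset.sum_le_sum_of_subset_of_nonneg h2 fun S hS _ => ?_)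
    · refine Finset.sum_le_sum fun S hS => ?_
      rw [mem_powerset] at hS
      rw [if_pos ((Finset.prod_dvd_prod_of_subset _ _ _ hS).trans (Nat.prod_primeFactors_dvd m)),
        mul_comm]
    · have := hpos S hS
      have := hw m
      split_ifs
      · positivity
      · exact le_refl _
  refine h1.trans ?_
  rw [Finset.sum_comm]
  have h2 : ∀ S ∈ P.powerset, (∑ m ∈ Icc 1 V,
        if (∏ p ∈ S, p) ∣ m then (∏ p ∈ S, h p) * w m else 0) ≤ (∏ p ∈ S, h p / p) * c := by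
    intro S hS
    rw [← Finset.sum_filter, ← Finset.mul_sum]
    have h3 : 1 ≤ ∏ p ∈ S, p :=
      Nat.one_le_iff_ne_zero.mpr (Finset.prod_ne_zero_iff.mpr fun p hp => (hPp S hS p hp).ne_zero)
    refine (mul_le_mul_of_nonneg_left (hwd _ h3) (hpos S hS)).trans (le_of_eq ?_)
    rw [Finset.prod_div_distrib]
    push_cast
    ring
  refine (Finset.sum_le_sum h2).trans ?_
  rw [← Finset.sum_mul, ← Finset.prod_one_add, mul_comm]
  apply mul_le_mul_of_nonneg_left _ hc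
  calc ∏ p ∈ P, (1 + h p / p) ≤ ∏ p ∈ P, Real.exp (8 / (p : ℝ) ^ 2) := by
        refine Finset.prod_le_prod (fun p hp => ?_) (fun p hp => ?_)
        · have := (hh p (mem_filter.1 hp).2).1
          positivity
        · have := (hh p (mem_filter.1 hp).2).2
          have h3 := Real.add_one_le_exp (8 / (p : ℝ) ^ 2)
          linarith
    _ = Real.exp (∑ p ∈ P, 8 / (p : ℝ) ^ 2) := (Real.exp_sum _ _).symm
    _ ≤ Real.exp 8 := by
        apply Real.exp_le_exp.2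
        refine le_trans ?_ (c3_sq V)
        apply sum_le_sum_of_subset_of_nonneg
        · intro p hp
          rw [hP, mem_filter, Finset.mem_Icc] at hp
          rw [Finset.mem_Icc]
          exact ⟨hp.2.two_le, hp.1.2⟩
        · intro _ _ _; positivity

theorem c3_phi (m : ℕ) (hm : 1 ≤ m) : (m : ℝ) / phi m = ∏ p ∈ m.primeFactors, (1 + 1 / ((p : ℝ) - 1)) := by
  have h1 : (Nat.totient m : ℝ) = m * ∏ p ∈ m.primeFactors, (1 - (p : ℝ)⁻¹) := by
    have h := congrArg (fun x : ℚ => (x : ℝ)) (Nat.totient_eq_mul_prod_factors m)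
    push_cast at h
    exact h
  have h3 : ∏ p ∈ m.primeFactors, (1 + 1 / ((p : ℝ) - 1)) = (∏ p ∈ m.primeFactors, (1 - (p : ℝ)⁻¹))⁻¹ := by
    rw [← Finset.prod_inv_distrib]
    refine Finset.prod_congr rfl fun p hp => ?_
    have h4 : (2 : ℝ) ≤ p := by exact_mod_cast (Nat.prime_of_mem_primeFactors hp).two_le
    have h5 : (p : ℝ) - 1 ≠ 0 := by linarith
    have h6 : (p : ℝ) ≠ 0 := by linarith
    field_simp
    ring
  have hm0 : (m : ℝ) ≠ 0 := by
    have : 0 < m := hm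
    positivity
  show (m : ℝ) / (Nat.totient m : ℝ) = _
  rw [h3, h1, div_eq_mul_inv, mul_inv, ← mul_assoc, mul_inv_cancel₀ hm0, one_mul]

theorem c3_har (V d : ℕ) (hV : 1 ≤ V) (hd : 1 ≤ d) :
    ∑ m ∈ (Icc 1 V).filter (fun m => d ∣ m), 1 / (m : ℝ) ≤ (1 + Real.log V) / d := by
  have hd0 : (0 : ℝ) < d := by exact_mod_cast hd
  have h2 : (Icc 1 V).filter (fun m : ℕ => d ∣ m) ⊆ (Icc 1 V).image (fun k => d * k) := by
    intro m hm
    rw [mem_filter, Finset.mem_Icc] at hm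
    obtain ⟨⟨h3, h4⟩, k, rfl⟩ := hm
    rw [mem_image]
    refine ⟨k, ?_, rfl⟩
    rw [Finset.mem_Icc]
    constructor
    · by_contra h0
      have : k = 0 := by omega
      rw [this, mul_zero] at h3
      omega
    · exact (Nat.le_mul_of_pos_left k hd).trans h4
  refine (Finset.sum_le_sum_of_subset_of_nonneg h2 fun _ _ _ => by positivity).trans ?_
  rw [Finset.sum_image (fun a _ b _ h => Nat.eq_of_mul_eq_mul_left hd h)]
  have h5 : ∀ k ∈ Icc 1 V, 1 / ((d * k : ℕ) : ℝ) = 1 / (k : ℝ) / d := by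
    intro k _
    push_cast
    rw [div_div, mul_comm]
  rw [sum_congr rfl h5, ← sum_div]
  apply div_le_div_of_nonneg_right _ hd0.le
  have h6 := harmonic_le_one_add_log V
  rw [harmonic_eq_sum_Icc] at h6
  push_cast at h6
  simpa only [one_div] using h6

theorem c3_sum (V : ℕ) (hV : 1 ≤ V) :
    ∑ s ∈ Icc 1 V, (s : ℝ) / phi s ^ 2 ≤ (1 + Real.log V) * Real.exp 8 := by
  have hV1 : (1 : ℝ) ≤ V := by exact_mod_cast hV
  have hl : 0 ≤ Real.log V := Real.log_nonneg hV1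
  have h1 := c3_gen (fun p => (1 + 1 / ((p : ℝ) - 1)) ^ 2 - 1) (by
    intro p hp
    have hp2 : (2 : ℝ) ≤ p := by exact_mod_cast hp.two_le
    have h4 : 0 < (p : ℝ) - 1 := by linarith
    have h5 : 0 ≤ 1 / ((p : ℝ) - 1) := by positivity
    constructor
    · nlinarith
    · have e1 : ((1 + 1 / ((p : ℝ) - 1)) ^ 2 - 1) / p = (2 * p - 1) / (p * (p - 1) ^ 2) := by
        field_simp
        ring
      rw [e1, div_le_div_iff₀ (by positivity) (by positivity)]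
      have : (2 * (p : ℝ) - 1) * p ≤ 8 * (p - 1) ^ 2 := by nlinarith
      nlinarith) V (fun m => 1 / (m : ℝ)) (1 + Real.log V) (fun _ => by positivity) (by linarith)
    (fun d hd => c3_har V d hV hd)
  refine le_trans (le_of_eq ?_) h1
  refine sum_congr rfl fun s hs => ?_
  rw [Finset.mem_Icc] at hs
  have hs0 : (s : ℝ) ≠ 0 := by
    have : 0 < s := hs.1
    positivity
  have hphi : phi s ≠ 0 := by
    have : 0 < Nat.totient s := Nat.totient_pos.2 hs.1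
    have : (0 : ℝ) < phi s := by exact_mod_cast this
    exact this.ne'
  have h2 := c3_phi s hs.1
  have h3 : ∏ p ∈ s.primeFactors, (1 + ((1 + 1 / ((p : ℝ) - 1)) ^ 2 - 1)) = ((s : ℝ) / phi s) ^ 2 := by
    rw [h2, ← prod_pow]
    exact prod_congr rfl fun p _ => by ring
  rw [h3]
  field_simp

theorem WW_low (ε δ : ℝ) (h : Ok ε δ) : ∃ c : ℝ, 0 < c ∧ ∃ X₀ : ℝ, ∀ X Y : ℝ, X₀ ≤ X → Rg ε X Y →
    ∀ Q : ℕ, 1 ≤ Q → c * (phi Q / Q) * Real.log X ≤ WW δ X Y Q := by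
  obtain ⟨X₁, h1⟩ := sizes ε δ 1 h
  obtain ⟨X₂, h2⟩ := ps_sums ε δ h
  have hok := h
  obtain ⟨hδ, hε, hδ1⟩ := h
  refine ⟨δ ^ 3 / 80, by positivity, max (max X₁ X₂) (Real.exp (20 / δ ^ 2)), fun X Y hX hR Q hQ => ?_⟩
  have hs := h1 X Y ((le_max_left _ _).trans ((le_max_left _ _).trans hX)) hR
  obtain ⟨hp1, -⟩ := h2 X Y ((le_max_right _ _).trans ((le_max_left _ _).trans hX)) hR
  have hXe : Real.exp (20 / δ ^ 2) ≤ X := (le_max_right _ _).trans hX
  have hX0 : (0 : ℝ) < X := by linarith [hs.X3]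
  have hlogX : 20 / δ ^ 2 ≤ Real.log X := by rw [Real.le_log_iff_exp_le hX0]; exact hXe
  have hlX : 20 ≤ δ ^ 2 * Real.log X := by
    rw [div_le_iff₀ (by positivity)] at hlogX; linarith
  have hlX0 : 0 < Real.log X := lt_of_lt_of_le (by positivity) hlogX
  have e1 : WW δ X Y Q = (∑ p ∈ PS δ X Y, 1 / ((p : ℝ) - 1)) *
      ∑ s ∈ (Icc 1 (SS δ X)).filter (fun s => Squarefree s ∧ s.Coprime Q), 1 / phi s := by
    unfold WW
    rw [sum_mul_sum, ← sum_product']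
    refine sum_congr rfl fun x hx => ?_
    obtain ⟨-, -, -, -, -, -, -, -, -, -, h3⟩ := rr_mem hok hs le_rfl Q x hx
    rw [h3, one_div_mul_one_div]
  have h3 := cop_low Q (SS δ X) hQ hs.S1
  have hQ0 : (0 : ℝ) < Q := by exact_mod_cast hQ
  have hphi : (0 : ℝ) ≤ phi Q / Q := by positivity
  have h4 : δ ^ 2 / 20 * Real.log X ≤ Real.log (SS δ X) := by
    have h5 : Real.log (X ^ (δ ^ 2 / 10) / 2) ≤ Real.log (SS δ X) :=
      Real.log_le_log (by positivity) hs.Slo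
    rw [Real.log_div (by positivity) (by norm_num), Real.log_rpow hX0] at h5
    have := Real.log_two_lt_d9
    nlinarith
  have h6 : phi Q / Q * (δ ^ 2 / 20 * Real.log X) ≤
      ∑ s ∈ (Icc 1 (SS δ X)).filter (fun s => Squarefree s ∧ s.Coprime Q), 1 / phi s :=
    (mul_le_mul_of_nonneg_left h4 hphi).trans h3
  rw [e1]
  calc δ ^ 3 / 80 * (phi Q / Q) * Real.log X = δ / 4 * (phi Q / Q * (δ ^ 2 / 20 * Real.log X)) := by
        ring
    _ ≤ _ := mul_le_mul hp1 h6 (by positivity) ((by positivity : (0 : ℝ) ≤ δ / 4).trans hp1)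

theorem WW_up (ε δ : ℝ) (h : Ok ε δ) : ∃ C : ℝ, 0 < C ∧ ∃ X₀ : ℝ, ∀ X Y : ℝ, X₀ ≤ X → Rg ε X Y →
    ∀ Q : ℕ, ∑ x ∈ RR δ X Y Q, ((x.1 * x.2 : ℕ) : ℝ) / phi (x.1 * x.2) ^ 2 ≤ C * Real.log X := by
  obtain ⟨X₁, h1⟩ := sizes ε δ 1 h
  obtain ⟨X₂, h2⟩ := ps_sums ε δ h
  have hok := h
  obtain ⟨hδ, hε, hδ1⟩ := h
  refine ⟨2 * Real.exp 8, by positivity, max X₁ X₂, fun X Y hX hR Q => ?_⟩
  have hs := h1 X Y ((le_max_left _ _).trans hX) hR
  obtain ⟨-, hp1⟩ := h2 X Y ((le_max_right _ _).trans hX) hR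
  have hX1 : (1 : ℝ) < X := by linarith [hs.X3]
  have hX0 : (0 : ℝ) < X := by linarith
  have hl1 : 1 ≤ Real.log X := by
    rw [Real.le_log_iff_exp_le hX0]
    have := Real.exp_one_lt_d9
    linarith [hs.X3]
  have e1 : ∑ x ∈ RR δ X Y Q, ((x.1 * x.2 : ℕ) : ℝ) / phi (x.1 * x.2) ^ 2 =
      (∑ p ∈ PS δ X Y, (p : ℝ) / ((p : ℝ) - 1) ^ 2) *
      ∑ s ∈ (Icc 1 (SS δ X)).filter (fun s => Squarefree s ∧ s.Coprime Q), (s : ℝ) / phi s ^ 2 := by
    rw [sum_mul_sum, ← sum_product']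
    refine sum_congr rfl fun x hx => ?_
    obtain ⟨-, -, -, -, -, -, -, -, -, -, h3⟩ := rr_mem hok hs le_rfl Q x hx
    rw [h3, mul_pow, div_mul_div_comm]
    push_cast
    rfl
  have h3 : ∑ s ∈ (Icc 1 (SS δ X)).filter (fun s => Squarefree s ∧ s.Coprime Q),
      (s : ℝ) / phi s ^ 2 ≤ (1 + Real.log (SS δ X)) * Real.exp 8 :=
    (sum_le_sum_of_subset_of_nonneg (filter_subset _ _) fun _ _ _ => by positivity).trans
      (c3_sum _ hs.S1)
  have h4 : 1 + Real.log (SS δ X) ≤ 2 * Real.log X := by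
    have h5 : (SS δ X : ℝ) ≤ X := by
      refine hs.Shi.trans ?_
      calc X ^ (δ ^ 2 / 10) ≤ X ^ (1 : ℝ) := by
            apply Real.rpow_le_rpow_of_exponent_le hX1.le
            nlinarith
        _ = X := Real.rpow_one X
    have h6 : (0 : ℝ) < SS δ X := by exact_mod_cast hs.S1
    have := Real.log_le_log h6 h5
    linarith
  have h7 : ∑ p ∈ PS δ X Y, (p : ℝ) / ((p : ℝ) - 1) ^ 2 ≤ 1 := by
    calc ∑ p ∈ PS δ X Y, (p : ℝ) / ((p : ℝ) - 1) ^ 2 ≤ ∑ p ∈ PS δ X Y, 4 * (1 / (p : ℝ)) := by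
          refine sum_le_sum fun p hp => ?_
          unfold PS at hp
          rw [mem_filter] at hp
          have hp2 : (2 : ℝ) ≤ p := by exact_mod_cast hp.2.1.two_le
          have h8 : 0 < (p : ℝ) - 1 := by linarith
          rw [mul_one_div, div_le_div_iff₀ (by positivity) (by linarith)]
          nlinarith
      _ = 4 * ∑ p ∈ PS δ X Y, 1 / (p : ℝ) := by rw [mul_sum]
      _ ≤ 4 * (2 * δ) := by linarith
      _ ≤ 1 := by linarith
  have h8 : 0 ≤ ∑ p ∈ PS δ X Y, (p : ℝ) / ((p : ℝ) - 1) ^ 2 := sum_nonneg fun _ _ => by positivity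
  rw [e1]
  calc _ ≤ 1 * ((1 + Real.log (SS δ X)) * Real.exp 8) :=
        mul_le_mul h7 h3 (sum_nonneg fun _ _ => by positivity) (by norm_num)
    _ ≤ 1 * (2 * Real.log X * Real.exp 8) := by gcongr
    _ = _ := by ring

end

end Pool.Agent.BSD

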