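import Pool.Agent.Lib_helper26.BSD.Defs
import Pool.Agent.Lib_helper26.BSD.B1
import Pool.Agent.Lib_helper26.BSD.C2

set_option autoImplicit false

namespace Pool.Agent.BSD

open Finset
open Pool.Agent.FG61 (mu phi Lam cc off)
open Pool.Agent.Var35 (e)

noncomputable section

theorem c4_sq (B : ℕ) : ∑ p ∈ Icc 2 B, 8 / (p : ℝ) ^ 2 ≤ 8 := by
  have h3 : ∀ B : ℕ, 1 ≤ B → ∑ p ∈ Icc 2 B, 8 / (p : ℝ) ^ 2 ≤ 8 - 8 / (B : ℝ) := by
    intro B hB
    induction B, hB using Nat.le_induction with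
    | base => simp
    | succ B hB ih =>
      rw [Finset.sum_Icc_succ_top (by omega)]
      have h4 : (0 : ℝ) < B := by exact_mod_cast hB
      have h5 : 8 / ((B : ℝ) + 1) ^ 2 ≤ 8 / (B : ℝ) - 8 / ((B : ℝ) + 1) := by
        rw [div_sub_div _ _ h4.ne' (by positivity), div_le_div_iff₀ (by positivity) (by positivity)]
        nlinarith
      push_cast
      linarith
  rcases Nat.eq_zero_or_pos B with h0 | h0
  · subst h0; simp
  · have h1 := h3 B h0
    have : (0 : ℝ) ≤ 8 / (B : ℝ) := by positivity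
    linarith

/-- mean values of multiplicative functions -/
theorem c4_gen (h : ℕ → ℝ) (hh : ∀ p : ℕ, p.Prime → 0 ≤ h p ∧ h p / p ≤ 8 / (p : ℝ) ^ 2) (V : ℕ)
    (w : ℕ → ℝ) (c : ℝ) (hw : ∀ m, 0 ≤ w m) (hc : 0 ≤ c)
    (hwd : ∀ d : ℕ, 1 ≤ d → ∑ m ∈ (Icc 1 V).filter (fun m => d ∣ m), w m ≤ c / d) :
    ∑ m ∈ Icc 1 V, w m * ∏ p ∈ m.primeFactors, (1 + h p) ≤ c * Real.exp 8 := by
  classical
  set P := (Icc 1 V).filter Nat.Prime with hP
  have hPp : ∀ S ∈ P.powerset, ∀ p ∈ S, p.Prime := by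
    intro S hS p hp
    rw [mem_powerset] at hS
    have h1 := hS hp
    rw [hP, mem_filter] at h1
    exact h1.2
  have hpos : ∀ S ∈ P.powerset, 0 ≤ ∏ p ∈ S, h p := fun S hS =>
    Finset.prod_nonneg fun p hp => (hh p (hPp S hS p hp)).1
  have h1 : ∑ m ∈ Icc 1 V, w m * ∏ p ∈ m.primeFactors, (1 + h p) ≤
      ∑ m ∈ Icc 1 V, ∑ S ∈ P.powerset, if (∏ p ∈ S, p) ∣ m then (∏ p ∈ S, h p) * w m else 0 := by
    refine Finset.sum_le_sum fun m hm => ?_
    rw [Finset.mem_Icc] at hm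
    rw [Finset.prod_one_add, Finset.mul_sum]
    have h2 : m.primeFactors.powerset ⊆ P.powerset := by
      refine Finset.powerset_mono.mpr fun p hp => ?_
      rw [hP, mem_filter, Finset.mem_Icc]
      have h3 := Nat.prime_of_mem_primeFactors hp
      exact ⟨⟨h3.one_lt.le, (Nat.le_of_dvd hm.1 (Nat.dvd_of_mem_primeFactors hp)).trans hm.2⟩, h3⟩
    refine le_trans ?_ (Finset.sum_le_sum_of_subset_of_nonneg h2 fun S hS _ => ?_)
    · refine Finset.sum_le_sum fun S hS => ?_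
      rw [mem_powerset] at hS
      rw [if_pos ((Finset.prod_dvd_prod_of_subset _ _ _ hS).trans (Nat.prod_primeFactors_dvd m)),
        mul_comm]
    · have := hpos S hS
      have := hw m
      split_ifs
      · positivity
      · exact le_refl _
  refine h1.trans ?_
  rw [Finset.sum_comm]
  have h2 : ∀ S ∈ P.powerset, (∑ m ∈ Icc 1 V,
        if (∏ p ∈ S, p) ∣ m then (∏ p ∈ S, h p) * w m else 0) ≤ (∏ p ∈ S, h p / p) * c := by
    intro S hS
    rw [← Finset.sum_filter, ← Finset.mul_sum]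
    have h3 : 1 ≤ ∏ p ∈ S, p :=
      Nat.one_le_iff_ne_zero.mpr (Finset.prod_ne_zero_iff.mpr fun p hp => (hPp S hS p hp).ne_zero)
    refine (mul_le_mul_of_nonneg_left (hwd _ h3) (hpos S hS)).trans (le_of_eq ?_)
    rw [Finset.prod_div_distrib]
    push_cast
    ring
  refine (Finset.sum_le_sum h2).trans ?_
  rw [← Finset.sum_mul, ← Finset.prod_one_add, mul_comm]
  apply mul_le_mul_of_nonneg_left _ hc
  calc ∏ p ∈ P, (1 + h p / p) ≤ ∏ p ∈ P, Real.exp (8 / (p : ℝ) ^ 2) := by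
        refine Finset.prod_le_prod (fun p hp => ?_) (fun p hp => ?_)
        · have := (hh p (mem_filter.1 hp).2).1
          positivity
        · have := (hh p (mem_filter.1 hp).2).2
          have h3 := Real.add_one_le_exp (8 / (p : ℝ) ^ 2)
          linarith
    _ = Real.exp (∑ p ∈ P, 8 / (p : ℝ) ^ 2) := (Real.exp_sum _ _).symm
    _ ≤ Real.exp 8 := by
        apply Real.exp_le_exp.2
        refine le_trans ?_ (c4_sq V)
        apply sum_le_sum_of_subset_of_nonneg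
        · intro p hp
          rw [hP, mem_filter, Finset.mem_Icc] at hp
          rw [Finset.mem_Icc]
          exact ⟨hp.2.two_le, hp.1.2⟩
        · intro _ _ _; positivity

theorem c4_phi (m : ℕ) (hm : 1 ≤ m) : (m : ℝ) / phi m = ∏ p ∈ m.primeFactors, (1 + 1 / ((p : ℝ) - 1)) := by
  have h1 : (Nat.totient m : ℝ) = m * ∏ p ∈ m.primeFactors, (1 - (p : ℝ)⁻¹) := by
    have h := congrArg (fun x : ℚ => (x : ℝ)) (Nat.totient_eq_mul_prod_factors m)
    push_cast at h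
    exact h
  have h3 : ∏ p ∈ m.primeFactors, (1 + 1 / ((p : ℝ) - 1)) = (∏ p ∈ m.primeFactors, (1 - (p : ℝ)⁻¹))⁻¹ := by
    rw [← Finset.prod_inv_distrib]
    refine Finset.prod_congr rfl fun p hp => ?_
    have h4 : (2 : ℝ) ≤ p := by exact_mod_cast (Nat.prime_of_mem_primeFactors hp).two_le
    have h5 : (p : ℝ) - 1 ≠ 0 := by linarith
    have h6 : (p : ℝ) ≠ 0 := by linarith
    field_simp
    ring
  have hm0 : (m : ℝ) ≠ 0 := by
    have : 0 < m := hm
    positivity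
  show (m : ℝ) / (Nat.totient m : ℝ) = _
  rw [h3, h1, div_eq_mul_inv, mul_inv, ← mul_assoc, mul_inv_cancel₀ hm0, one_mul]

theorem c4_mul (V d : ℕ) (hd : 1 ≤ d) :
    ∑ m ∈ (Icc 1 V).filter (fun m => d ∣ m), (1 : ℝ) ≤ (V : ℝ) / d := by
  have hd0 : (0 : ℝ) < d := by exact_mod_cast hd
  rw [sum_const, nsmul_eq_mul, mul_one]
  have h1 : ((Icc 1 V).filter (fun m => d ∣ m)).card = V / d := by
    have h2 := Nat.Ioc_filter_dvd_card_eq_div V d
    have h3 : Ioc 0 V = Icc 1 V := by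
      ext x; simp only [mem_Ioc, mem_Icc]; omega
    rw [h3] at h2
    exact h2
  rw [h1]
  exact Nat.cast_div_le

theorem Fr_few (ε δ : ℝ) (h : Ok ε δ) : ∃ X₀ : ℝ, ∀ X Y : ℝ, X₀ ≤ X → Rg ε X Y →
    (open scoped Classical in (((IY Y).filter fun Q => ¬ Fr δ X Y Q).card : ℝ)) ≤ 3 * δ * Y := by
  classical
  obtain ⟨X₁, h1⟩ := sizes ε δ 1 h
  obtain ⟨X₂, h2⟩ := ps_sums ε δ h
  obtain ⟨hδ, hε, hδ1⟩ := h
  have e1 : ∀ᶠ X : ℝ in Filter.atTop, 1 / δ ≤ X ^ (1 / 4 : ℝ) :=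
    (tendsto_rpow_atTop (by norm_num : (0 : ℝ) < 1 / 4)).eventually_ge_atTop _
  obtain ⟨X₃, h3⟩ := Filter.eventually_atTop.1 e1
  refine ⟨max (max X₁ X₂) X₃, fun X Y hX hR => ?_⟩
  have hs := h1 X Y ((le_max_left _ _).trans ((le_max_left _ _).trans hX)) hR
  obtain ⟨-, hp1⟩ := h2 X Y ((le_max_right _ _).trans ((le_max_left _ _).trans hX)) hR
  have h4 := h3 X ((le_max_right _ _).trans hX)
  have hX1 : (1 : ℝ) < X := by linarith [hs.X3]
  have hX0 : (0 : ℝ) < X := by linarith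
  have hY0 : 0 < Y := lt_of_lt_of_le (by positivity) hs.Y1
  -- multiples of p in (Y, 2Y]
  have h5 : ∀ p ∈ PS δ X Y, (((IY Y).filter fun Q => p ∣ Q).card : ℝ) ≤ Y / p + 1 := by
    intro p hp
    unfold PS at hp
    rw [mem_filter] at hp
    have hp0 : (0 : ℝ) < p := by exact_mod_cast hp.2.1.pos
    have h6 : ((IY Y).filter fun Q => p ∣ Q) ⊆ (Ioc ⌊Y / p⌋₊ ⌊2 * Y / p⌋₊).image (fun k => p * k) := by
      intro Q hQ
      unfold IY at hQ
      rw [mem_filter, mem_filter, mem_Icc] at hQ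
      obtain ⟨⟨⟨a, b⟩, c⟩, k, rfl⟩ := hQ
      rw [mem_image]
      refine ⟨k, ?_, rfl⟩
      have hb := (Nat.le_floor_iff (by linarith)).1 b
      push_cast at hb c
      rw [mem_Ioc]
      constructor
      · rw [Nat.floor_lt (by positivity), div_lt_iff₀ hp0]
        linarith
      · rw [Nat.le_floor_iff (by positivity), le_div_iff₀ hp0]
        linarith
    have h7 := card_le_card h6
    have h8 := h7.trans card_image_le
    rw [Nat.card_Ioc] at h8
    have h9 : (((IY Y).filter fun Q => p ∣ Q).card : ℝ) ≤ ((⌊2 * Y / p⌋₊ - ⌊Y / p⌋₊ : ℕ) : ℝ) := by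
      exact_mod_cast h8
    refine h9.trans ?_
    have h10 : ⌊Y / p⌋₊ ≤ ⌊2 * Y / p⌋₊ := Nat.floor_le_floor (by gcongr; linarith)
    rw [Nat.cast_sub h10]
    have h11 : (⌊2 * Y / p⌋₊ : ℝ) ≤ 2 * Y / p := Nat.floor_le (by positivity)
    have h12 : Y / p < (⌊Y / p⌋₊ : ℝ) + 1 := Nat.lt_floor_add_one _
    have h13 : 2 * Y / p = 2 * (Y / p) := by ring
    have h11' : (⌊2 * Y / p⌋₊ : ℝ) ≤ 2 * (Y / p) := h11.trans (le_of_eq h13)
    linarith
  have h6 : (IY Y).filter (fun Q => ¬ Fr δ X Y Q) ⊆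
      (PS δ X Y).biUnion fun p => (IY Y).filter fun Q => p ∣ Q := by
    intro Q hQ
    rw [mem_filter] at hQ
    obtain ⟨a, b⟩ := hQ
    unfold Fr at b
    push Not at b
    obtain ⟨p, hp, hd⟩ := b
    rw [mem_biUnion]
    exact ⟨p, hp, mem_filter.2 ⟨a, hd⟩⟩
  have h7 : (((IY Y).filter fun Q => ¬ Fr δ X Y Q).card : ℝ) ≤
      ∑ p ∈ PS δ X Y, (((IY Y).filter fun Q => p ∣ Q).card : ℝ) := by
    exact_mod_cast (card_le_card h6).trans card_biUnion_le
  have h8 : ((PS δ X Y).card : ℝ) ≤ δ * Y := by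
    have h9 : (PS δ X Y).card ≤ ⌊(KK δ X Y : ℝ) ^ (1 + δ)⌋₊ := by
      unfold PS
      refine (card_filter_le _ _).trans ?_
      rw [Nat.card_Icc, Nat.add_sub_cancel]
    have h10 : ((PS δ X Y).card : ℝ) ≤ X / Y * X ^ (3 / 2 * δ) := by
      refine (by exact_mod_cast h9 : ((PS δ X Y).card : ℝ) ≤ (⌊(KK δ X Y : ℝ) ^ (1 + δ)⌋₊ : ℝ)).trans ?_
      exact (Nat.floor_le (by positivity)).trans hs.Kpow
    have h11 : X / Y * X ^ (3 / 2 * δ) ≤ X ^ (5 / 12 : ℝ) := by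
      calc X / Y * X ^ (3 / 2 * δ) ≤ X ^ (1 / 3 - ε) * X ^ (3 / 2 * δ) := by
            apply mul_le_mul_of_nonneg_right hs.Zhi (by positivity)
        _ = X ^ (1 / 3 - ε + 3 / 2 * δ) := by rw [Real.rpow_add hX0]
        _ ≤ _ := Real.rpow_le_rpow_of_exponent_le hX1.le (by linarith)
    have h12 : X ^ (5 / 12 : ℝ) ≤ δ * Y := by
      have h13 : 1 ≤ δ * X ^ (1 / 4 : ℝ) := by
        rw [div_le_iff₀ hδ] at h4; linarith
      calc X ^ (5 / 12 : ℝ) = 1 * X ^ (5 / 12 : ℝ) := (one_mul _).symm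
        _ ≤ (δ * X ^ (1 / 4 : ℝ)) * X ^ (5 / 12 : ℝ) := by gcongr
        _ = δ * X ^ (2 / 3 : ℝ) := by
            rw [mul_assoc, ← Real.rpow_add hX0]; norm_num
        _ ≤ δ * Y := mul_le_mul_of_nonneg_left hs.Y1 hδ.le
    linarith
  refine h7.trans ((sum_le_sum h5).trans ?_)
  rw [sum_add_distrib, sum_const, nsmul_eq_mul, mul_one]
  have h9 : ∑ p ∈ PS δ X Y, Y / (p : ℝ) = Y * ∑ p ∈ PS δ X Y, 1 / (p : ℝ) := by
    rw [mul_sum]
    exact sum_congr rfl fun p _ => by ring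
  rw [h9]
  have h10 : Y * ∑ p ∈ PS δ X Y, 1 / (p : ℝ) ≤ Y * (2 * δ) := mul_le_mul_of_nonneg_left hp1 hY0.le
  linarith

theorem phi_few (t : ℝ) (ht : 0 < t) : ∃ c : ℝ, 0 < c ∧ ∀ Y : ℝ, 1 ≤ Y →
    (((IY Y).filter fun Q => phi Q < c * Q).card : ℝ) ≤ t * Y := by
  refine ⟨t / (2 * Real.exp 8), by positivity, fun Y hY => ?_⟩
  have hY0 : 0 < Y := by linarith
  set c : ℝ := t / (2 * Real.exp 8) with hc
  have hc0 : 0 < c := by positivity
  set V : ℕ := ⌊2 * Y⌋₊ with hV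
  have h1 := c4_gen (fun p => 1 / ((p : ℝ) - 1)) (by
    intro p hp
    have hp2 : (2 : ℝ) ≤ p := by exact_mod_cast hp.two_le
    have h4 : 0 < (p : ℝ) - 1 := by linarith
    constructor
    · positivity
    · rw [div_div, div_le_div_iff₀ (by positivity) (by positivity)]
      nlinarith) V (fun _ => 1) V (fun _ => by norm_num) (Nat.cast_nonneg _)
    (fun d hd => c4_mul V d hd)
  have h2 : ∑ Q ∈ Icc 1 V, (Q : ℝ) / phi Q ≤ 2 * Y * Real.exp 8 := by
    calc ∑ Q ∈ Icc 1 V, (Q : ℝ) / phi Q = ∑ m ∈ Icc 1 V, 1 * ∏ p ∈ m.primeFactors,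
          (1 + 1 / ((p : ℝ) - 1)) := by
          refine sum_congr rfl fun m hm => ?_
          rw [mem_Icc] at hm
          rw [one_mul, c4_phi m hm.1]
      _ ≤ V * Real.exp 8 := h1
      _ ≤ _ := by
          apply mul_le_mul_of_nonneg_right _ (Real.exp_pos _).le
          exact Nat.floor_le (by linarith)
  have h3 : (((IY Y).filter fun Q => phi Q < c * Q).card : ℝ) * (1 / c) ≤
      ∑ Q ∈ Icc 1 V, (Q : ℝ) / phi Q := by
    calc (((IY Y).filter fun Q => phi Q < c * Q).card : ℝ) * (1 / c) =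
          ∑ _Q ∈ (IY Y).filter (fun Q => phi Q < c * Q), 1 / c := by
          rw [sum_const, nsmul_eq_mul]
      _ ≤ ∑ Q ∈ (IY Y).filter (fun Q => phi Q < c * Q), (Q : ℝ) / phi Q := by
          refine sum_le_sum fun Q hQ => ?_
          unfold IY at hQ
          rw [mem_filter, mem_filter, mem_Icc] at hQ
          have hphi : 0 < phi Q := by exact_mod_cast Nat.totient_pos.2 hQ.1.1.1
          rw [div_le_div_iff₀ hc0 hphi]
          linarith [hQ.2]
      _ ≤ _ := by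
          apply sum_le_sum_of_subset_of_nonneg
          · intro Q hQ
            unfold IY at hQ
            rw [mem_filter, mem_filter] at hQ
            exact hQ.1.1
          · intro _ _ _; positivity
  have h4 := h3.trans h2
  rw [mul_one_div, div_le_iff₀ hc0] at h4
  refine h4.trans (le_of_eq ?_)
  rw [hc]
  field_simp

end

end Pool.Agent.BSD

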