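import Pool.Agent.Lib_helper26.BSD.Defs
import Pool.Agent.Lib_helper26.BSD.A1
import Pool.Agent.Lib_helper26.BSD.B1

set_option autoImplicit false

namespace Pool.Agent.BSD

open Finset
open Pool.Agent.FG61 (mu phi Lam cc off)
open Pool.Agent.Var35 (e)

noncomputable section


theorem d1_two {ε δ A X Y : ℝ} (hs : Sz ε δ A X Y) (hA : 1 ≤ A) : 2 ≤ X ^ (δ ^ 2 / 100) := by
  have hl1 : 1 ≤ Real.log X := by
    rw [Real.le_log_iff_exp_le (by linarith [hs.X3])]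
    have := Real.exp_one_lt_d9
    linarith [hs.X3]
  refine le_trans ?_ hs.lg
  calc (2 : ℝ) ≤ 1 * 2 ^ 100 := by norm_num
    _ ≤ A * (1 + Real.log X) ^ 100 := by
        apply mul_le_mul hA _ (by norm_num) (by linarith)
        exact pow_le_pow_left₀ (by norm_num) (by linarith) 100

theorem d1_phi (r : ℕ) (hr : 1 ≤ r) : (r : ℝ) ≤ r.divisors.card * phi r := by
  have h1 := Nat.sum_totient r
  have h2 : ∑ m ∈ r.divisors, m.totient ≤ ∑ _m ∈ r.divisors, r.totient := by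
    refine sum_le_sum fun m hm => ?_
    exact Nat.le_of_dvd (Nat.totient_pos.2 hr) (Nat.totient_dvd_of_dvd (Nat.dvd_of_mem_divisors hm))
  rw [h1, sum_const, smul_eq_mul] at h2
  exact_mod_cast h2

theorem d1_inj {ε δ A X Y : ℝ} (h : Ok ε δ) (hs : Sz ε δ A X Y) (hA : 1 ≤ A) (Q : ℕ) :
    Set.InjOn (fun x : ℕ × ℕ => x.1 * x.2) (RR δ X Y Q : Set (ℕ × ℕ)) := by
  intro x hx y hy hxy
  simp only at hxy
  obtain ⟨a1, a2, a3, a4, a5, -⟩ := rr_mem h hs hA Q x (mem_coe.1 hx)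
  obtain ⟨b1, b2, b3, b4, b5, -⟩ := rr_mem h hs hA Q y (mem_coe.1 hy)
  have hSK := hs.SK
  have h1 : x.1 ∣ y.1 := by
    have h2 : x.1 ∣ y.1 * y.2 := ⟨x.2, hxy.symm⟩
    refine (Nat.Coprime.dvd_of_dvd_mul_right ?_ h2)
    rw [Nat.Prime.coprime_iff_not_dvd a1]
    intro h3
    have := Nat.le_of_dvd (by omega) h3
    omega
  have h2 : x.1 = y.1 := (Nat.prime_dvd_prime_iff_eq a1 b1).1 h1
  have h3 : x.2 = y.2 := by
    rw [h2] at hxy
    exact Nat.eq_of_mul_eq_mul_left b1.pos hxy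
  exact Prod.ext h2 h3

theorem d1_sum {ε δ A X Y : ℝ} (h : Ok ε δ) (hs : Sz ε δ A X Y) (hA : 1 ≤ A) (Q : ℕ) (F : ℕ → ℝ)
    (hF : ∀ r, 0 ≤ F r) : ∑ x ∈ RR δ X Y Q, F (x.1 * x.2) ≤ ∑ r ∈ Icc 1 ⌊X⌋₊, F r := by
  classical
  obtain ⟨hδ, hε, hδ1⟩ := id h
  have hX1 : (1 : ℝ) < X := by linarith [hs.X3]
  have hX0 : (0 : ℝ) < X := by linarith
  have h1 : ∑ x ∈ RR δ X Y Q, F (x.1 * x.2) =
      ∑ r ∈ (RR δ X Y Q).image (fun x : ℕ × ℕ => x.1 * x.2), F r := by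
    rw [sum_image (d1_inj h hs hA Q)]
  rw [h1]
  apply sum_le_sum_of_subset_of_nonneg
  · intro r hr
    rw [mem_image] at hr
    obtain ⟨x, hx, rfl⟩ := hr
    obtain ⟨a1, a2, a3, a4, a5, a6, a7, a8, a9, a10, a11⟩ := rr_mem h hs hA Q x hx
    rw [mem_Icc]
    refine ⟨Nat.mul_pos a1.pos a4, ?_⟩
    rw [Nat.le_floor_iff hX0.le]
    refine a10.trans ?_
    calc X / Y * X ^ (2 * δ) ≤ X ^ (1 / 3 - ε) * X ^ (2 * δ) := by
          apply mul_le_mul_of_nonneg_right hs.Zhi (by positivity)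
      _ = X ^ (1 / 3 - ε + 2 * δ) := by rw [← Real.rpow_add hX0]
      _ ≤ X ^ (1 : ℝ) := Real.rpow_le_rpow_of_exponent_le hX1.le (by linarith)
      _ = X := Real.rpow_one X
  · intro r _ _
    exact hF r

theorem bb_le (ε δ : ℝ) (h : Ok ε δ) : ∃ X₀ : ℝ, ∀ X Y : ℝ, X₀ ≤ X → Rg ε X Y →
    ∀ Q n : ℕ, 1 ≤ n → n ≤ ⌊X⌋₊ → |bb δ X Y Q n| ≤ X ^ (δ ^ 2 / 10) := by
  have hδ := h.1
  obtain ⟨C, hC, hdiv⟩ := Pool.Agent.FG61.divisor_bound (ε := δ ^ 2 / 100) (by positivity)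
  obtain ⟨X₁, h1⟩ := sizes ε δ (1 + C ^ 2) h
  refine ⟨X₁, fun X Y hX hR Q n hn hnX => ?_⟩
  have hs := h1 X Y hX hR
  have hA : 1 ≤ 1 + C ^ 2 := by nlinarith [sq_nonneg C]
  have hX1 : (1 : ℝ) < X := by linarith [hs.X3]
  have hX0 : (0 : ℝ) < X := by linarith
  have hm : 1 ≤ mm δ := by
    unfold mm
    rw [Nat.one_le_ceil_iff]
    positivity
  set N := ⌊X⌋₊ with hN
  have hNX : (N : ℝ) ≤ X := Nat.floor_le hX0.le
  have hlog : 0 ≤ Real.log X := Real.log_nonneg hX1.le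
  have hτ : ∀ r ∈ Icc 1 N, (r.divisors.card : ℝ) ≤ C * X ^ (δ ^ 2 / 100) := by
    intro r hr
    rw [mem_Icc] at hr
    refine (hdiv r hr.1).trans ?_
    apply mul_le_mul_of_nonneg_left _ hC.le
    apply Real.rpow_le_rpow (by positivity) _ (by positivity)
    have : (r : ℝ) ≤ N := by exact_mod_cast hr.2
    linarith
  have hτn := hτ n (mem_Icc.2 ⟨hn, hnX⟩)
  -- terms
  have h2 : |bb δ X Y Q n| ≤ ∑ x ∈ RR δ X Y Q, |gr (x.1 * x.2)| * |cc (x.1 * x.2) n| := by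
    unfold bb
    rw [abs_mul, abs_of_nonneg (om_nonneg _ _ _)]
    calc om (mm δ) (MM δ X) n * |∑ x ∈ RR δ X Y Q, gr (x.1 * x.2) * cc (x.1 * x.2) n|
        ≤ 1 * |∑ x ∈ RR δ X Y Q, gr (x.1 * x.2) * cc (x.1 * x.2) n| :=
          mul_le_mul_of_nonneg_right (om_le_one _ _ _ hm) (abs_nonneg _)
      _ ≤ _ := by
          rw [one_mul]
          refine (abs_sum_le_sum_abs _ _).trans (le_of_eq ?_)
          exact sum_congr rfl fun x _ => abs_mul _ _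
  have h3 := d1_sum h hs hA Q (fun r => |gr r| * |cc r n|) (fun r => by positivity)
  have h4 : ∀ r ∈ Icc 1 N, |gr r| * |cc r n| ≤ C * X ^ (δ ^ 2 / 100) *
      ∑ d ∈ n.divisors.filter (fun d => d ∣ r), (d : ℝ) * (1 / r) := by
    intro r hr
    have hr' := mem_Icc.1 hr
    have hr0 : (0 : ℝ) < r := by exact_mod_cast hr'.1
    have hphi : 0 < phi r := by exact_mod_cast Nat.totient_pos.2 hr'.1
    have hg : |gr r| ≤ C * X ^ (δ ^ 2 / 100) * (1 / r) := by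
      unfold gr
      rw [abs_div, abs_of_pos hphi, div_le_iff₀ hphi]
      have h5 := d1_phi r hr'.1
      have h6 : (r : ℝ) ≤ C * X ^ (δ ^ 2 / 100) * phi r :=
        h5.trans (mul_le_mul_of_nonneg_right (hτ r hr) hphi.le)
      calc |mu r| ≤ 1 := Pool.Agent.FG61.GB_mu_abs r
        _ = (r : ℝ) * (1 / r) := by field_simp
        _ ≤ (C * X ^ (δ ^ 2 / 100) * phi r) * (1 / r) := by gcongr
        _ = _ := by ring
    have hc := Pool.Agent.FG61.GB_cc_abs r n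
    have hdiv : (Nat.gcd r n).divisors = n.divisors.filter (fun d => d ∣ r) := by
      ext d
      simp only [Nat.mem_divisors, mem_filter, Nat.dvd_gcd_iff]
      constructor
      · rintro ⟨⟨h1, h2⟩, _⟩
        exact ⟨⟨h2, by omega⟩, h1⟩
      · rintro ⟨⟨h1, _⟩, h2⟩
        refine ⟨⟨h2, h1⟩, ?_⟩
        exact (Nat.gcd_pos_of_pos_left n hr'.1).ne'
    rw [hdiv] at hc
    calc |gr r| * |cc r n| ≤ (C * X ^ (δ ^ 2 / 100) * (1 / r))
          * ∑ d ∈ n.divisors.filter (fun d => d ∣ r), (d : ℝ) :=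
            mul_le_mul hg hc (abs_nonneg _) (by positivity)
      _ = _ := by
            rw [← Finset.sum_mul]
            ring
  have h5 : ∑ r ∈ Icc 1 N, ∑ d ∈ n.divisors.filter (fun d => d ∣ r), (d : ℝ) * (1 / r)
      = ∑ d ∈ n.divisors, (d : ℝ) * ∑ r ∈ (Icc 1 N).filter (fun r => d ∣ r), (1 : ℝ) / r := by
    simp_rw [Finset.sum_filter, Finset.mul_sum]
    rw [Finset.sum_comm]
    refine Finset.sum_congr rfl fun d _ => ?_
    refine Finset.sum_congr rfl fun r _ => ?_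
    split_ifs <;> simp
  have h6 : ∀ d ∈ n.divisors, (d : ℝ) * ∑ r ∈ (Icc 1 N).filter (fun r => d ∣ r), (1 : ℝ) / r ≤
      1 + Real.log X := by
    intro d hd
    have hd1 : 1 ≤ d := Nat.pos_of_mem_divisors hd
    have hd0 : (0 : ℝ) < d := by exact_mod_cast hd1
    have h7 := Pool.Agent.FG61.GB_mult N d hd1
    calc (d : ℝ) * ∑ r ∈ (Icc 1 N).filter (fun r => d ∣ r), (1 : ℝ) / r
        ≤ d * ((1 + Real.log N) / d) := mul_le_mul_of_nonneg_left h7 hd0.le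
      _ = 1 + Real.log N := by field_simp
      _ ≤ 1 + Real.log X := by
          have hN1 : (1 : ℝ) ≤ N := by
            have : 1 ≤ N := hn.trans hnX
            exact_mod_cast this
          have := Real.log_le_log (by linarith) hNX
          linarith
  have h8 : ∑ r ∈ Icc 1 N, |gr r| * |cc r n| ≤
      C * X ^ (δ ^ 2 / 100) * ((C * X ^ (δ ^ 2 / 100)) * (1 + Real.log X)) := by
    refine (sum_le_sum h4).trans ?_
    rw [← mul_sum, h5]
    apply mul_le_mul_of_nonneg_left _ (by positivity)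
    refine (sum_le_sum h6).trans ?_
    rw [sum_const, nsmul_eq_mul]
    exact mul_le_mul_of_nonneg_right hτn (by linarith)
  refine h2.trans (h3.trans (h8.trans ?_))
  have h9 : C ^ 2 * (1 + Real.log X) ≤ X ^ (δ ^ 2 / 100) := by
    refine le_trans ?_ hs.lg
    have h10 : (1 + Real.log X) ≤ (1 + Real.log X) ^ 100 := by
      apply le_self_pow₀ (by linarith) (by norm_num)
    calc C ^ 2 * (1 + Real.log X) ≤ (1 + C ^ 2) * (1 + Real.log X) := by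
          apply mul_le_mul_of_nonneg_right _ (by linarith)
          linarith
      _ ≤ (1 + C ^ 2) * (1 + Real.log X) ^ 100 := mul_le_mul_of_nonneg_left h10 (by positivity)
  calc C * X ^ (δ ^ 2 / 100) * ((C * X ^ (δ ^ 2 / 100)) * (1 + Real.log X))
      = X ^ (δ ^ 2 / 100) * X ^ (δ ^ 2 / 100) * (C ^ 2 * (1 + Real.log X)) := by ring
    _ ≤ X ^ (δ ^ 2 / 100) * X ^ (δ ^ 2 / 100) * X ^ (δ ^ 2 / 100) := by gcongr
    _ = X ^ (δ ^ 2 / 100 + δ ^ 2 / 100 + δ ^ 2 / 100) := by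
        rw [Real.rpow_add hX0, Real.rpow_add hX0]
    _ ≤ _ := Real.rpow_le_rpow_of_exponent_le hX1.le (by nlinarith [sq_nonneg δ])

theorem uu_le (ε δ : ℝ) (h : Ok ε δ) : ∃ X₀ : ℝ, ∀ X Y : ℝ, X₀ ≤ X → Rg ε X Y →
    ∀ Q ∈ IY Y, ∀ a : ℕ, |uu δ X Y Q a| ≤ X / Y * X ^ (δ ^ 2 / 5) := by
  have hδ := h.1
  have hε := h.2.1
  obtain ⟨X₁, h1⟩ := sizes ε δ 1 h
  obtain ⟨X₂, h2⟩ := bb_le ε δ h
  refine ⟨max X₁ X₂, fun X Y hX hR Q hQ a => ?_⟩
  have hs := h1 X Y ((le_max_left _ _).trans hX) hR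
  have hb := h2 X Y ((le_max_right _ _).trans hX) hR Q
  have hX1 : (1 : ℝ) < X := by linarith [hs.X3]
  have hX0 : (0 : ℝ) < X := by linarith
  have hY0 : 0 < Y := lt_of_lt_of_le (by positivity) hs.Y1
  unfold IY at hQ
  rw [mem_filter, mem_Icc] at hQ
  have hQ0 : (0 : ℝ) < Q := by exact_mod_cast hQ.1.1
  unfold uu
  have h3 : |∑ n ∈ (Icc 1 ⌊X⌋₊).filter (fun n => n % Q = a), bb δ X Y Q n| ≤
      ∑ _n ∈ (Icc 1 ⌊X⌋₊).filter (fun n => n % Q = a), X ^ (δ ^ 2 / 10) := by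
    refine (abs_sum_le_sum_abs _ _).trans (sum_le_sum fun n hn => ?_)
    rw [mem_filter, mem_Icc] at hn
    exact hb n hn.1.1 hn.1.2
  have h4 : (((Icc 1 ⌊X⌋₊).filter (fun n => n % Q = a)).card : ℝ) ≤ X / Y + 1 := by
    have h5 : (Icc 1 ⌊X⌋₊).filter (fun n => n % Q = a) ⊆
        (Icc 1 ⌊X⌋₊).filter (fun n => n % Q = a % Q) := by
      intro n hn
      rw [mem_filter] at hn ⊢
      refine ⟨hn.1, ?_⟩
      rw [← hn.2, Nat.mod_mod]
    have h6 : (((Icc 1 ⌊X⌋₊).filter (fun n => n % Q = a)).card : ℝ) ≤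
        (((Icc 1 ⌊X⌋₊).filter (fun n => n % Q = a % Q)).card : ℝ) := by
      exact_mod_cast card_le_card h5
    refine h6.trans ((Pool.Agent.FG61.DU_count ⌊X⌋₊ Q a hQ.1.1).trans ?_)
    have h7 : (⌊X⌋₊ : ℝ) ≤ X := Nat.floor_le hX0.le
    have h8 : (⌊X⌋₊ : ℝ) / Q ≤ X / Y := div_le_div₀ hX0.le h7 hY0 hQ.2.le
    linarith
  have hZ1 : 1 ≤ X / Y := by
    rw [le_div_iff₀ hY0, one_mul]
    exact hs.YX
  refine h3.trans ?_
  rw [sum_const, nsmul_eq_mul]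
  calc (((Icc 1 ⌊X⌋₊).filter (fun n => n % Q = a)).card : ℝ) * X ^ (δ ^ 2 / 10)
      ≤ (X / Y + 1) * X ^ (δ ^ 2 / 10) := mul_le_mul_of_nonneg_right h4 (by positivity)
    _ ≤ (X / Y * 2) * X ^ (δ ^ 2 / 10) := by
        apply mul_le_mul_of_nonneg_right _ (by positivity)
        linarith
    _ ≤ (X / Y * X ^ (δ ^ 2 / 100)) * X ^ (δ ^ 2 / 10) := by
        apply mul_le_mul_of_nonneg_right _ (by positivity)
        exact mul_le_mul_of_nonneg_left (d1_two hs le_rfl) (by positivity)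
    _ = X / Y * X ^ (δ ^ 2 / 100 + δ ^ 2 / 10) := by
        rw [Real.rpow_add hX0, mul_assoc]
    _ ≤ _ := by
        apply mul_le_mul_of_nonneg_left _ (by positivity)
        exact Real.rpow_le_rpow_of_exponent_le hX1.le (by nlinarith [sq_nonneg δ])

end

end Pool.Agent.BSD

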