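import Pool.Agent.Lib_helper26.BSD.Defs
import Pool.Agent.Lib_helper26.BSD.A1
import Pool.Agent.Lib_helper26.BSD.A2
import Pool.Agent.Lib_helper26.BSD.B1

/-!
# Project BSD, block D2
-/

set_option autoImplicit false

namespace Pool.Agent.BSD

open Finset
open Pool.Agent.FG61 (mu phi Lam cc off)
open Pool.Agent.Var35 (e)

noncomputable section

/-- the sum over the numerators -/
def d2_g (N : ℕ) (α : ℝ) (r : ℕ) : ℝ := ∑ a ∈ (range r).filter (fun a => Nat.Coprime a r),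
  ‖∑ n ∈ Icc 1 N, e (n * ((a : ℝ) / r + α))‖

theorem d2_g_nonneg (N : ℕ) (α : ℝ) (r : ℕ) : 0 ≤ d2_g N α r :=
  sum_nonneg fun _ _ => norm_nonneg _

theorem d2_dyadic (N K R : ℕ) (hK : 1 ≤ K) (hR1 : 1 ≤ R) (hRN : R ≤ N) (α : ℝ) :
    ∑ r ∈ Ioc K R, 1 / (r : ℝ) * d2_g N α r ≤
      96 * ((N : ℝ) / K + R) * (1 + Real.log N) ^ 2 := by
  classical
  have hN1 : 1 ≤ N := by omega
  have hKr : (1 : ℝ) ≤ K := by exact_mod_cast hK
  have hRr : (1 : ℝ) ≤ R := by exact_mod_cast hR1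
  have hNr : (1 : ℝ) ≤ N := by exact_mod_cast hN1
  have hRNr : (R : ℝ) ≤ N := by exact_mod_cast hRN
  set L : ℝ := 1 + Real.log N with hL
  have hL1 : 1 ≤ L := by
    have := Real.log_nonneg hNr
    linarith
  have hLR : 1 + Real.log R ≤ L := by
    have := Real.log_le_log (by linarith) hRNr
    linarith
  -- the dyadic blocks
  set I : ℕ := Nat.log 2 R + 1 with hI
  set Bl : ℕ → Finset ℕ := fun i => (Ioc K R).filter (fun r => K * 2 ^ i < r ∧ r ≤ 2 * (K * 2 ^ i))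
    with hBl
  have hcover : Ioc K R ⊆ (range I).biUnion Bl := by
    intro r hr
    have hr' := hr
    rw [Finset.mem_Ioc] at hr'
    obtain ⟨hr1, hr2⟩ := hr'
    have hex : ∃ i, r ≤ K * 2 ^ i := by
      refine ⟨r, ?_⟩
      have := Nat.lt_two_pow_self (n := r)
      nlinarith
    obtain ⟨hj1, hj2⟩ := And.intro (Nat.find_spec hex) (fun i hi => Nat.find_min hex (m := i) hi)
    set j := Nat.find hex with hj
    have hj0 : j ≠ 0 := by
      intro h0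
      rw [h0] at hj1
      simp at hj1
      omega
    obtain ⟨i, hi⟩ := Nat.exists_eq_succ_of_ne_zero hj0
    have hlt := hj2 i (by omega)
    rw [hi, Nat.succ_eq_add_one, pow_succ] at hj1
    push Not at hlt
    rw [mem_biUnion]
    refine ⟨i, ?_, ?_⟩
    · rw [mem_range, hI, Nat.lt_succ_iff]
      refine Nat.le_log_of_pow_le (by norm_num) ?_
      nlinarith [Nat.one_le_two_pow (n := i)]
    · rw [hBl, mem_filter]
      exact ⟨hr, hlt, by linarith⟩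
  have hIle : (I : ℝ) ≤ 4 * L := by
    have h1 : ((Nat.log 2 R : ℕ) : ℝ) ≤ Real.logb 2 R := by
      exact Real.natLog_le_logb R 2
    have h2 : Real.logb 2 R ≤ 2 * Real.log R := by
      rw [Real.logb, div_le_iff₀ (Real.log_pos one_lt_two)]
      have h3 := Real.log_two_gt_d9
      have h4 := Real.log_nonneg hRr
      nlinarith
    have h5 := Real.log_nonneg hRr
    rw [hI]
    push_cast
    linarith
  -- the bound of one block
  have hblock : ∀ i ∈ range I, ∑ r ∈ Bl i, 1 / (r : ℝ) * d2_g N α r ≤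
      24 * ((N : ℝ) / K + R) * L := by
    intro i _
    rcases (Bl i).eq_empty_or_nonempty with he | ⟨r₀, hr₀⟩
    · rw [he, sum_empty]
      positivity
    · set P : ℕ := K * 2 ^ i with hP
      have hPR : P < R := by
        rw [hBl, mem_filter, Finset.mem_Ioc] at hr₀
        omega
      have hP1 : K ≤ P := by
        rw [hP]; nlinarith [Nat.one_le_two_pow (n := i)]
      have hPr : (K : ℝ) ≤ P := by exact_mod_cast hP1
      have hP0 : (0 : ℝ) < P := by linarith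
      have hPRr : (P : ℝ) ≤ R := by exact_mod_cast hPR.le
      have hb := Pool.Agent.FG61.su_block N P (by omega) (Bl i) (fun r hr => by
        rw [hBl, mem_filter] at hr
        exact hr.2) α
      have hb' : ∑ r ∈ Bl i, d2_g N α r ≤
        3 * N + 8 * (P : ℝ) ^ 2 * (1 + Real.log (4 * (P : ℝ) ^ 2)) := hb
      have hlog : 1 + Real.log (4 * (P : ℝ) ^ 2) ≤ 3 * L := by
        rw [Real.log_mul (by norm_num) (by positivity), Real.log_pow]
        have h1 : Real.log 4 ≤ 2 := by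
          have : (4 : ℝ) = 2 ^ 2 := by norm_num
          rw [this, Real.log_pow]
          have := Real.log_two_lt_d9
          push_cast
          linarith
        have h2 : Real.log P ≤ Real.log N := Real.log_le_log hP0 (hPRr.trans hRNr)
        push_cast
        linarith [Real.log_nonneg hNr]
      calc ∑ r ∈ Bl i, 1 / (r : ℝ) * d2_g N α r
          ≤ ∑ r ∈ Bl i, 1 / P * d2_g N α r := by
            refine sum_le_sum fun r hr => ?_
            rw [hBl, mem_filter] at hr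
            refine mul_le_mul_of_nonneg_right ?_ (d2_g_nonneg N α r)
            refine one_div_le_one_div_of_le hP0 ?_
            exact_mod_cast hr.2.1.le
        _ = 1 / P * ∑ r ∈ Bl i, d2_g N α r := by rw [mul_sum]
        _ ≤ 1 / P * (3 * N + 8 * (P : ℝ) ^ 2 * (3 * L)) := by
            refine mul_le_mul_of_nonneg_left ?_ (by positivity)
            refine hb'.trans ?_
            gcongr
        _ = 3 * (N / P) + 24 * P * L := by
            field_simp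
            ring
        _ ≤ 24 * (N / K) * L + 24 * R * L := by
            have h1 : (N : ℝ) / P ≤ N / K := div_le_div_of_nonneg_left (by linarith) (by linarith) hPr
            have h3 : (0 : ℝ) ≤ N / K := by positivity
            have h5 : 3 * ((N : ℝ) / P) ≤ 24 * (N / K) * L := by nlinarith
            have h6 : 24 * (P : ℝ) * L ≤ 24 * R * L := by gcongr
            linarith
        _ = _ := by ring
  calc ∑ r ∈ Ioc K R, 1 / (r : ℝ) * d2_g N α r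
      ≤ ∑ r ∈ (range I).biUnion Bl, 1 / (r : ℝ) * d2_g N α r :=
        sum_le_sum_of_subset_of_nonneg hcover fun r _ _ =>
          mul_nonneg (by positivity) (d2_g_nonneg N α r)
    _ ≤ ∑ i ∈ range I, ∑ r ∈ Bl i, 1 / (r : ℝ) * d2_g N α r :=
        Pool.Agent.FG61.su_biUnion (fun r => mul_nonneg (by positivity) (d2_g_nonneg N α r)) _ _
    _ ≤ ∑ i ∈ range I, 24 * ((N : ℝ) / K + R) * L := sum_le_sum hblock
    _ = I * (24 * ((N : ℝ) / K + R) * L) := by rw [sum_const, card_range, nsmul_eq_mul]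
    _ ≤ (4 * L) * (24 * ((N : ℝ) / K + R) * L) := by gcongr
    _ = 96 * ((N : ℝ) / K + R) * L ^ 2 := by ring

/-- the index set of `bd` -/
def d2_A (δ X Y : ℝ) (d : ℕ) : Finset (ℕ × ℕ) :=
  PS δ X Y ×ˢ (Icc 1 (SS δ X)).filter (fun s => Squarefree s ∧ d ∣ s)

theorem d2_expand (δ X Y : ℝ) (d N : ℕ) (hm : 1 ≤ mm δ) (hN : mm δ * MM δ X ≤ N) (α : ℝ)
    (hpos : ∀ x ∈ d2_A δ X Y d, 1 ≤ x.1 * x.2) :
    ∑ n ∈ Icc 1 N, (bd δ X Y d n : ℂ) * e (n * α) =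
      ∑ x ∈ d2_A δ X Y d, (gr (x.1 * x.2) : ℂ) *
        ∑ a ∈ (range (x.1 * x.2)).filter (fun a => Nat.Coprime a (x.1 * x.2)),
          Wh (mm δ) (MM δ X) ((a : ℝ) / (x.1 * x.2 : ℕ) + α) := by
  have h1 : ∀ n ∈ Icc 1 N, (bd δ X Y d n : ℂ) * e (n * α) =
      ∑ x ∈ d2_A δ X Y d, ∑ a ∈ (range (x.1 * x.2)).filter (fun a => Nat.Coprime a (x.1 * x.2)),
        (gr (x.1 * x.2) : ℂ) * ((om (mm δ) (MM δ X) n : ℂ) *
          e (n * ((a : ℝ) / (x.1 * x.2 : ℕ) + α))) := by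
    intro n _
    have hb : bd δ X Y d n = om (mm δ) (MM δ X) n *
      ∑ x ∈ d2_A δ X Y d, gr (x.1 * x.2) * cc (x.1 * x.2) n := rfl
    rw [hb, Complex.ofReal_mul, Complex.ofReal_sum, mul_sum, sum_mul]
    refine sum_congr rfl fun x hx => ?_
    rw [Complex.ofReal_mul, Pool.Agent.FG61.cc_exp _ n (hpos x hx), mul_sum, mul_sum, sum_mul]
    refine sum_congr rfl fun a _ => ?_
    have he : e ((n : ℝ) * ((a : ℝ) / (x.1 * x.2 : ℕ) + α)) =
        e ((a : ℝ) * n / (x.1 * x.2 : ℕ)) * e (n * α) := by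
      rw [← Pool.Agent.Var35.e_add]
      congr 1
      ring
    rw [he]
    ring
  rw [sum_congr rfl h1, sum_comm]
  refine sum_congr rfl fun x _ => ?_
  rw [sum_comm, mul_sum]
  refine sum_congr rfl fun a _ => ?_
  rw [← mul_sum, om_hat _ _ _ hm hN]

theorem d2_norm (δ X Y : ℝ) (d N : ℕ) (hm : 1 ≤ mm δ) (hN : mm δ * MM δ X ≤ N) (α : ℝ)
    (hpos : ∀ x ∈ d2_A δ X Y d, 1 ≤ x.1 * x.2) :
    ‖∑ n ∈ Icc 1 N, (bd δ X Y d n : ℂ) * e (n * α)‖ ≤
      ∑ x ∈ d2_A δ X Y d, |gr (x.1 * x.2)| * d2_g (MM δ X) α (x.1 * x.2) := by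
  rw [d2_expand δ X Y d N hm hN α hpos]
  refine (norm_sum_le _ _).trans (sum_le_sum fun x _ => ?_)
  rw [norm_mul, Complex.norm_real, Real.norm_eq_abs]
  refine mul_le_mul_of_nonneg_left ?_ (abs_nonneg _)
  refine (norm_sum_le _ _).trans (sum_le_sum fun a _ => ?_)
  exact Wh_le_Dk _ _ hm _

theorem d2_mem {ε δ X Y : ℝ} (h : Ok ε δ) (hs : Sz ε δ (384 + 2 * mm δ) X Y) (d : ℕ) :
    ∀ x ∈ d2_A δ X Y d, x.1.Prime ∧ KK δ X Y < x.1 ∧ 1 ≤ x.2 ∧ x.2 ≤ SS δ X ∧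
      ((x.1 * x.2 : ℕ) : ℝ) ≤ X / Y * X ^ (2 * δ) ∧ phi (x.1 * x.2) = ((x.1 : ℝ) - 1) * phi x.2 := by
  intro x hx
  have hA1 : (1 : ℝ) ≤ 384 + 2 * mm δ := by
    have : (0 : ℝ) ≤ mm δ := Nat.cast_nonneg _
    linarith
  have hx' : x ∈ RR δ X Y 1 := by
    unfold d2_A at hx
    unfold RR
    rw [mem_product, mem_filter] at hx ⊢
    exact ⟨hx.1, hx.2.1, hx.2.2.1, Nat.coprime_one_right _⟩
  obtain ⟨a1, a2, _, a4, a5, _, _, _, _, a10, a11⟩ := rr_mem h hs hA1 1 x hx'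
  exact ⟨a1, a2, a4, a5, a10, a11⟩

theorem d2_gr {ε δ X Y : ℝ} (h : Ok ε δ) (hs : Sz ε δ (384 + 2 * mm δ) X Y) (d : ℕ) :
    ∀ x ∈ d2_A δ X Y d,
      |gr (x.1 * x.2)| ≤ 2 * (SS δ X : ℝ) * (1 / ((x.1 * x.2 : ℕ) : ℝ)) := by
  intro x hx
  obtain ⟨a1, a2, a3, a4, _, a6⟩ := d2_mem h hs d x hx
  have hp2 : (2 : ℝ) ≤ x.1 := by exact_mod_cast a1.two_le
  have hs1 : (1 : ℝ) ≤ x.2 := by exact_mod_cast a3
  have hsS : (x.2 : ℝ) ≤ SS δ X := by exact_mod_cast a4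
  have hphis : (1 : ℝ) ≤ phi x.2 := by
    have : 1 ≤ Nat.totient x.2 := Nat.totient_pos.2 a3
    show (1 : ℝ) ≤ ((Nat.totient x.2 : ℕ) : ℝ)
    exact_mod_cast this
  have hphi : (x.1 : ℝ) / 2 ≤ phi (x.1 * x.2) := by
    rw [a6]
    nlinarith
  unfold gr
  rw [abs_div, abs_of_pos (by linarith : (0 : ℝ) < phi (x.1 * x.2))]
  have hmu : |mu (x.1 * x.2)| ≤ 1 := Pool.Agent.FG61.GB_mu_abs _
  calc |mu (x.1 * x.2)| / phi (x.1 * x.2) ≤ 1 / ((x.1 : ℝ) / 2) :=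
        div_le_div₀ (by norm_num) hmu (by linarith) hphi
    _ = 2 * x.2 * (1 / ((x.1 * x.2 : ℕ) : ℝ)) := by
        push_cast
        field_simp
    _ ≤ 2 * (SS δ X : ℝ) * (1 / ((x.1 * x.2 : ℕ) : ℝ)) := by
        apply mul_le_mul_of_nonneg_right (by linarith) (by positivity)

theorem d2_inj {ε δ X Y : ℝ} (h : Ok ε δ) (hs : Sz ε δ (384 + 2 * mm δ) X Y) (d : ℕ) :
    Set.InjOn (fun x : ℕ × ℕ => x.1 * x.2) (d2_A δ X Y d) := by
  intro x hx y hy hxy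
  obtain ⟨a1, a2, a3, a4, _⟩ := d2_mem h hs d x hx
  obtain ⟨b1, b2, b3, b4, _⟩ := d2_mem h hs d y hy
  have hxy' : x.1 * x.2 = y.1 * y.2 := hxy
  have hSK := hs.SK
  have h2 : x.1 ∣ y.1 * y.2 := by rw [← hxy']; exact dvd_mul_right _ _
  have h3 : x.1 = y.1 := by
    rcases (Nat.Prime.dvd_mul a1).1 h2 with h3 | h3
    · exact (Nat.prime_dvd_prime_iff_eq a1 b1).1 h3
    · have := Nat.le_of_dvd (by omega) h3
      omega
  have h4 : x.2 = y.2 := by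
    rw [h3] at hxy'
    exact Nat.eq_of_mul_eq_mul_left b1.pos hxy'
  exact Prod.ext h3 h4

theorem d2_sum {ε δ X Y : ℝ} (h : Ok ε δ) (hs : Sz ε δ (384 + 2 * mm δ) X Y) (d M : ℕ) (α : ℝ) :
    ∑ x ∈ d2_A δ X Y d, |gr (x.1 * x.2)| * d2_g M α (x.1 * x.2) ≤
      2 * (SS δ X : ℝ) *
        ∑ r ∈ Ioc (KK δ X Y) ⌊X / Y * X ^ (2 * δ)⌋₊, 1 / (r : ℝ) * d2_g M α r := by
  classical
  calc ∑ x ∈ d2_A δ X Y d, |gr (x.1 * x.2)| * d2_g M α (x.1 * x.2)
      ≤ ∑ x ∈ d2_A δ X Y d,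
          2 * (SS δ X : ℝ) * (1 / ((x.1 * x.2 : ℕ) : ℝ) * d2_g M α (x.1 * x.2)) := by
        refine sum_le_sum fun x hx => ?_
        rw [← mul_assoc]
        exact mul_le_mul_of_nonneg_right (d2_gr h hs d x hx) (d2_g_nonneg _ _ _)
    _ = 2 * (SS δ X : ℝ) *
          ∑ r ∈ (d2_A δ X Y d).image (fun x : ℕ × ℕ => x.1 * x.2), 1 / (r : ℝ) * d2_g M α r := by
        rw [sum_image (d2_inj h hs d), mul_sum]
    _ ≤ _ := by
        refine mul_le_mul_of_nonneg_left ?_ (by positivity)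
        refine sum_le_sum_of_subset_of_nonneg ?_ fun r _ _ =>
          mul_nonneg (by positivity) (d2_g_nonneg _ _ _)
        intro r hr
        rw [mem_image] at hr
        obtain ⟨x, hx, rfl⟩ := hr
        obtain ⟨a1, a2, a3, a4, a5, _⟩ := d2_mem h hs d x hx
        rw [Finset.mem_Ioc]
        refine ⟨lt_of_lt_of_le a2 (Nat.le_mul_of_pos_right _ a3), Nat.le_floor a5⟩

/-- the sizes of the parameters -/
theorem d2_size {ε δ X Y : ℝ} (h : Ok ε δ) (hs : Sz ε δ (384 + 2 * mm δ) X Y) (hmm : 1 ≤ mm δ) :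
    1 ≤ KK δ X Y ∧ 1 ≤ ⌊X / Y * X ^ (2 * δ)⌋₊ ∧ ⌊X / Y * X ^ (2 * δ)⌋₊ ≤ MM δ X ∧
      (MM δ X : ℝ) / KK δ X Y + (⌊X / Y * X ^ (2 * δ)⌋₊ : ℝ) ≤ 2 * (Y * X ^ (-δ)) := by
  obtain ⟨hδ0, hδε, hδ1⟩ := h
  have hX3 := hs.X3
  have hX0 : 0 < X := by linarith
  have hX1 : 1 ≤ X := by linarith
  have hlogX : 0 ≤ Real.log X := Real.log_nonneg hX1
  have hYpos : 0 < Y := lt_of_lt_of_le (Real.rpow_pos_of_pos hX0 _) hs.Y1
  have hZpos : 0 < X / Y := div_pos hX0 hYpos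
  have hL1 : 1 ≤ 1 + Real.log X := by linarith
  have hL100 : 1 ≤ (1 + Real.log X) ^ 100 := one_le_pow₀ hL1
  have hmmpos : (0 : ℝ) < mm δ := by exact_mod_cast hmm
  have hAX : 384 + 2 * (mm δ : ℝ) ≤ X ^ (δ ^ 2 / 100) := by
    refine le_trans ?_ hs.lg
    exact le_mul_of_one_le_right (by linarith) hL100
  have hXd : (1 : ℝ) ≤ X ^ (2 * δ) := Real.one_le_rpow hX1 (by positivity)
  have hZ1 : 1 ≤ X / Y := by
    rw [le_div_iff₀ hYpos, one_mul]
    exact hs.YX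
  have hR1 : 1 ≤ ⌊X / Y * X ^ (2 * δ)⌋₊ := by
    apply Nat.le_floor
    push_cast
    nlinarith
  have hKpos : (0 : ℝ) < KK δ X Y := lt_of_lt_of_le (by positivity) hs.Klo
  have hK1 : 1 ≤ KK δ X Y := by exact_mod_cast hKpos
  have hRle : (⌊X / Y * X ^ (2 * δ)⌋₊ : ℝ) ≤ X / Y * X ^ (2 * δ) := Nat.floor_le (by positivity)
  have hRX : (⌊X / Y * X ^ (2 * δ)⌋₊ : ℝ) ≤ X ^ (1 / 3 - ε + 2 * δ) := by
    refine hRle.trans ?_
    rw [Real.rpow_add hX0]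
    exact mul_le_mul_of_nonneg_right hs.Zhi (by positivity)
  have hRM : ⌊X / Y * X ^ (2 * δ)⌋₊ ≤ MM δ X := by
    have h2 : (⌊X / Y * X ^ (2 * δ)⌋₊ : ℝ) ≤ MM δ X := by
      refine hRX.trans (le_trans ?_ hs.Mlo)
      rw [le_div_iff₀ (by positivity)]
      calc X ^ (1 / 3 - ε + 2 * δ) * (2 * (mm δ : ℝ)) ≤
            X ^ (1 / 3 - ε + 2 * δ) * X ^ (δ ^ 2 / 100) := by
            refine mul_le_mul_of_nonneg_left ?_ (by positivity)
            linarith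
        _ = X ^ (1 / 3 - ε + 2 * δ + δ ^ 2 / 100) := (Real.rpow_add hX0 _ _).symm
        _ ≤ X ^ (1 : ℝ) := by
            apply Real.rpow_le_rpow_of_exponent_le hX1
            nlinarith
        _ = X := Real.rpow_one X
    exact_mod_cast h2
  refine ⟨hK1, hR1, hRM, ?_⟩
  have hXY : X ^ (-δ) * Y * (X / Y * X ^ δ) = X := by
    have h2 : X ^ (-δ) * X ^ δ = 1 := by
      rw [← Real.rpow_add hX0]
      simp
    calc X ^ (-δ) * Y * (X / Y * X ^ δ) = (X ^ (-δ) * X ^ δ) * (Y * (X / Y)) := by ring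
      _ = X := by rw [h2, one_mul, mul_div_cancel₀ _ hYpos.ne']
  have hMK : (MM δ X : ℝ) / KK δ X Y ≤ Y * X ^ (-δ) := by
    rw [div_le_iff₀ hKpos]
    calc (MM δ X : ℝ) ≤ X := hs.Mhi
      _ = X ^ (-δ) * Y * (X / Y * X ^ δ) := hXY.symm
      _ ≤ Y * X ^ (-δ) * (KK δ X Y : ℝ) := by
          rw [mul_comm (X ^ (-δ)) Y]
          exact mul_le_mul_of_nonneg_left hs.Klo (by positivity)
  have hRY : (⌊X / Y * X ^ (2 * δ)⌋₊ : ℝ) ≤ Y * X ^ (-δ) := by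
    calc (⌊X / Y * X ^ (2 * δ)⌋₊ : ℝ) ≤ X ^ (1 / 3 - ε + 2 * δ) := hRX
      _ ≤ X ^ ((2 / 3 : ℝ) + -δ) := by
          apply Real.rpow_le_rpow_of_exponent_le hX1
          linarith
      _ = X ^ (2 / 3 : ℝ) * X ^ (-δ) := Real.rpow_add hX0 _ _
      _ ≤ Y * X ^ (-δ) := mul_le_mul_of_nonneg_right hs.Y1 (by positivity)
  linarith

theorem sup_bd (ε δ : ℝ) (h : Ok ε δ) : ∃ X₀ : ℝ, ∀ X Y : ℝ, X₀ ≤ X → Rg ε X Y →
    ∀ d : ℕ, ∀ α : ℝ, ‖∑ n ∈ Icc 1 ⌊X⌋₊, (bd δ X Y d n : ℂ) * e (n * α)‖ ≤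
      Y * X ^ (-(9 / 10 * δ)) := by
  have hδ0 := h.1
  have hδ1 := h.2.2
  have hmm : 1 ≤ mm δ := by
    unfold mm
    exact Nat.one_le_iff_ne_zero.2 (Nat.ceil_pos.2 (by positivity)).ne'
  obtain ⟨X₀, h1⟩ := sizes ε δ (384 + 2 * mm δ) h
  refine ⟨X₀, fun X Y hX hR d α => ?_⟩
  have hs := h1 X Y hX hR
  have hX3 := hs.X3
  have hX0 : 0 < X := by linarith
  have hX1 : 1 ≤ X := by linarith
  have hlogX : 0 ≤ Real.log X := Real.log_nonneg hX1
  have hYpos : 0 < Y := lt_of_lt_of_le (Real.rpow_pos_of_pos hX0 _) hs.Y1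
  have hL1 : 1 ≤ 1 + Real.log X := by linarith
  have hmmpos : (0 : ℝ) < mm δ := by exact_mod_cast hmm
  have hLX : 384 * (1 + Real.log X) ^ 2 ≤ X ^ (δ ^ 2 / 100) := by
    refine le_trans ?_ hs.lg
    exact mul_le_mul (by linarith) (pow_le_pow_right₀ hL1 (by norm_num)) (by positivity)
      (by linarith)
  have hpos : ∀ x ∈ d2_A δ X Y d, 1 ≤ x.1 * x.2 := by
    intro x hx
    obtain ⟨a1, _, a3, _⟩ := d2_mem h hs d x hx
    exact Nat.one_le_iff_ne_zero.2 (Nat.mul_ne_zero a1.ne_zero (by omega))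
  refine (d2_norm δ X Y d ⌊X⌋₊ hmm hs.mM α hpos).trans ?_
  refine (d2_sum h hs d (MM δ X) α).trans ?_
  obtain ⟨hK1, hR1, hRM, hsz⟩ := d2_size h hs hmm
  have hM1 : (1 : ℝ) ≤ MM δ X := by exact_mod_cast hs.M1
  have hdy := d2_dyadic (MM δ X) (KK δ X Y) _ hK1 hR1 hRM α
  have hlogM : 1 + Real.log (MM δ X) ≤ 1 + Real.log X := by
    have := Real.log_le_log (by linarith) hs.Mhi
    linarith
  have hlogM0 : 0 ≤ 1 + Real.log (MM δ X) := by
    have := Real.log_nonneg hM1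
    linarith
  have h4 : (1 + Real.log (MM δ X)) ^ 2 ≤ (1 + Real.log X) ^ 2 := pow_le_pow_left₀ hlogM0 hlogM 2
  have hS0 : (0 : ℝ) ≤ SS δ X := Nat.cast_nonneg _
  have h6 : 0 ≤ (MM δ X : ℝ) / KK δ X Y + (⌊X / Y * X ^ (2 * δ)⌋₊ : ℝ) := by positivity
  have hYX : 0 ≤ Y * X ^ (-δ) := by positivity
  refine (mul_le_mul_of_nonneg_left hdy (by linarith)).trans ?_
  have h7 : 96 * ((MM δ X : ℝ) / KK δ X Y + (⌊X / Y * X ^ (2 * δ)⌋₊ : ℝ)) *
      (1 + Real.log (MM δ X)) ^ 2 ≤ 96 * (2 * (Y * X ^ (-δ))) * (1 + Real.log X) ^ 2 :=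
    mul_le_mul (by linarith) h4 (by positivity) (by positivity)
  have h8 : 2 * (SS δ X : ℝ) ≤ 2 * X ^ (δ ^ 2 / 10) := by linarith [hs.Shi]
  refine (mul_le_mul h8 h7 (mul_nonneg (by linarith) (by positivity)) (by positivity)).trans ?_
  calc 2 * X ^ (δ ^ 2 / 10) * (96 * (2 * (Y * X ^ (-δ))) * (1 + Real.log X) ^ 2)
      = Y * (384 * (1 + Real.log X) ^ 2 * X ^ (δ ^ 2 / 10) * X ^ (-δ)) := by ring
    _ ≤ Y * (X ^ (δ ^ 2 / 100) * X ^ (δ ^ 2 / 10) * X ^ (-δ)) := by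
        refine mul_le_mul_of_nonneg_left ?_ hYpos.le
        exact mul_le_mul_of_nonneg_right (mul_le_mul_of_nonneg_right hLX (by positivity))
          (by positivity)
    _ = Y * X ^ (δ ^ 2 / 100 + δ ^ 2 / 10 + -δ) := by
        rw [Real.rpow_add hX0, Real.rpow_add hX0]
    _ ≤ Y * X ^ (-(9 / 10 * δ)) := by
        refine mul_le_mul_of_nonneg_left ?_ hYpos.le
        apply Real.rpow_le_rpow_of_exponent_le hX1
        nlinarith

end

end Pool.Agent.BSD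

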