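import Pool.Agent.Lib_helper26.BSD.Defs
import Pool.Agent.Lib_helper26.BSD.B1
import Pool.Agent.Lib_helper26.BSD.D2

/-!
# BSD: block D3 (helper1): the off-diagonal terms
-/

set_option autoImplicit false

namespace Pool.Agent.BSD

open Finset
open Pool.Agent.FG61 (mu phi Lam cc off)
open Pool.Agent.Var35 (e)

noncomputable section

theorem d3_moebius (Q S s : ℕ) (hQ : 1 ≤ Q) (hs : 1 ≤ s) (hsS : s ≤ S) :
    ∑ d ∈ (Q.divisors.filter fun d => d ≤ S), (if d ∣ s then mu d else 0) =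
      if s.Coprime Q then 1 else 0 := by
  have h1 : ∑ d ∈ (Q.divisors.filter fun d => d ≤ S), (if d ∣ s then mu d else 0) =
      ∑ d ∈ (Nat.gcd s Q).divisors, mu d := by
    rw [← sum_filter]
    refine sum_congr ?_ fun _ _ => rfl
    ext d
    simp only [mem_filter, Nat.mem_divisors, Nat.dvd_gcd_iff]
    constructor
    · rintro ⟨⟨⟨h1, h2⟩, h3⟩, h4⟩
      exact ⟨⟨h4, h1⟩, (Nat.gcd_pos_of_pos_left _ hs).ne'⟩
    · rintro ⟨⟨h1, h2⟩, h3⟩
      exact ⟨⟨⟨h2, by omega⟩, (Nat.le_of_dvd hs h1).trans hsS⟩, h1⟩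
  rw [h1]
  have h2 : (∑ d ∈ (Nat.gcd s Q).divisors, ArithmeticFunction.moebius d) =
      if Nat.gcd s Q = 1 then 1 else 0 := by
    have h3 := congrArg (fun f : ArithmeticFunction ℤ => f (Nat.gcd s Q))
      ArithmeticFunction.moebius_mul_coe_zeta
    simp only [ArithmeticFunction.coe_mul_zeta_apply, ArithmeticFunction.one_apply] at h3
    exact h3
  have h4 : (∑ d ∈ (Nat.gcd s Q).divisors, mu d) =
      ((∑ d ∈ (Nat.gcd s Q).divisors, ArithmeticFunction.moebius d : ℤ) : ℝ) := by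
    push_cast
    rfl
  rw [h4, h2]
  unfold Nat.Coprime
  split_ifs <;> simp

theorem bb_split (δ X Y : ℝ) (Q n : ℕ) (hQ : 1 ≤ Q) :
    bb δ X Y Q n = ∑ d ∈ Q.divisors.filter (fun d => d ≤ SS δ X), mu d * bd δ X Y d n := by
  classical
  unfold bb bd RR
  set S := SS δ X
  set P := PS δ X Y
  set o := om (mm δ) (MM δ X) n
  set f : ℕ → ℕ → ℝ := fun p s => gr (p * s) * cc (p * s) n with hf
  have hR : ∀ d : ℕ, ∑ x ∈ P ×ˢ (Icc 1 S).filter (fun s => Squarefree s ∧ d ∣ s),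
      gr (x.1 * x.2) * cc (x.1 * x.2) n =
      ∑ p ∈ P, ∑ s ∈ (Icc 1 S).filter Squarefree, if d ∣ s then f p s else 0 := by
    intro d
    rw [sum_product]
    refine sum_congr rfl fun p _ => ?_
    rw [← sum_filter, filter_filter]
  have hL : ∑ x ∈ P ×ˢ (Icc 1 S).filter (fun s => Squarefree s ∧ s.Coprime Q),
      gr (x.1 * x.2) * cc (x.1 * x.2) n =
      ∑ p ∈ P, ∑ s ∈ (Icc 1 S).filter Squarefree, if s.Coprime Q then f p s else 0 := by
    rw [sum_product]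
    refine sum_congr rfl fun p _ => ?_
    rw [← sum_filter, filter_filter]
  rw [hL]
  simp only [hR]
  have h2 : ∀ d ∈ Q.divisors.filter (fun d => d ≤ S), mu d * (o *
      ∑ p ∈ P, ∑ s ∈ (Icc 1 S).filter Squarefree, if d ∣ s then f p s else 0) =
      o * ∑ p ∈ P, ∑ s ∈ (Icc 1 S).filter Squarefree, f p s * (if d ∣ s then mu d else 0) := by
    intro d _
    rw [mul_left_comm, mul_sum (a := mu d)]
    congr 1
    refine sum_congr rfl fun p _ => ?_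
    rw [mul_sum]
    refine sum_congr rfl fun s _ => ?_
    split_ifs <;> ring
  rw [sum_congr rfl h2, ← mul_sum]
  congr 1
  symm
  rw [sum_comm]
  refine sum_congr rfl fun p _ => ?_
  rw [sum_comm]
  refine sum_congr rfl fun s hs => ?_
  rw [mem_filter, mem_Icc] at hs
  rw [← mul_sum, d3_moebius Q S s hQ hs.1.1 hs.1.2]
  split_ifs <;> ring

theorem d3_off_sum {ι : Type} (I : Finset ι) (N Q : ℕ) (F : ℕ → ℝ) (c : ι → ℝ) (b : ι → ℕ → ℝ) :
    off N Q F (fun n => ∑ d ∈ I, c d * b d n) = ∑ d ∈ I, c d * off N Q F (b d) := by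
  unfold off
  simp only [mul_sum]
  symm
  rw [sum_comm]
  refine sum_congr rfl fun n _ => ?_
  rw [sum_comm]
  refine sum_congr rfl fun m _ => ?_
  refine sum_congr rfl fun d _ => ?_
  ring

theorem d3_exp1 {δ : ℝ} (h : 0 < δ) (h1 : δ ≤ 1 / 600) :
    δ ^ 2 / 10 + (1 - δ / 2) ≤ 1 - δ / 4 := by nlinarith

theorem d3_exp2 {δ : ℝ} (h : 0 < δ) (h1 : δ ≤ 1 / 600) :
    δ ^ 2 / 10 + -(4 * δ / 5) + δ ^ 2 / 50 ≤ -(δ / 4) := by nlinarith

theorem d3_calc (X Y L a l2 S2 N : ℝ) (hX0 : 0 < X) (hY0 : 0 < Y) (hL0 : 0 < L)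
    (hN : N ≤ X) (hS : S2 ≤ X * l2) (hS0 : 0 ≤ S2) (hl : 2 * l2 ≤ L) :
    (2 * N / Y) * L * (Y * a) ^ 2 * S2 ≤ Y * (X ^ 2 * a ^ 2) * L ^ 2 := by
  have e : (2 * N / Y) * L * (Y * a) ^ 2 * S2 = (2 * (N * S2)) * (Y * L * a ^ 2) := by
    field_simp
  have h1 : N * S2 ≤ X * (X * l2) := mul_le_mul hN hS hS0 hX0.le
  have h2 : 2 * (N * S2) ≤ X ^ 2 * L := by nlinarith [mul_pos hX0 hX0]
  have h3 : 0 ≤ Y * L * a ^ 2 := by positivity
  rw [e]
  calc (2 * (N * S2)) * (Y * L * a ^ 2) ≤ (X ^ 2 * L) * (Y * L * a ^ 2) :=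
        mul_le_mul_of_nonneg_right h2 h3
    _ = _ := by ring

theorem off_few (ε δ : ℝ) (h : Ok ε δ) : ∃ X₀ : ℝ, ∀ X Y : ℝ, X₀ ≤ X → Rg ε X Y →
    (((IY Y).filter fun Q => X ^ (1 - δ / 4) < |off ⌊X⌋₊ Q Lam (bb δ X Y Q)|).card : ℝ) ≤
      Y * X ^ (-(δ / 4)) := by
  classical
  have hδ : 0 < δ := h.1
  have hδ1 : δ ≤ 1 / 600 := h.2.2
  obtain ⟨C, hC, hdiv⟩ := Pool.Agent.FG61.divisor_bound (ε := δ ^ 2 / 200) (by positivity)
  obtain ⟨X₁, hX₁⟩ := sizes ε δ (C ^ 2 + 2) h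
  obtain ⟨X₂, hX₂⟩ := sup_bd ε δ h
  refine ⟨max X₁ X₂, fun X Y hX hR => ?_⟩
  have hs := hX₁ X Y ((le_max_left _ _).trans hX) hR
  have hsup := hX₂ X Y ((le_max_right _ _).trans hX) hR
  have hX3 := hs.X3
  have hX0 : 0 < X := by linarith
  have hX1 : 1 ≤ X := by linarith
  have hY1 : 1 ≤ Y := by
    refine le_trans ?_ hs.Y1
    exact Real.one_le_rpow hX1 (by norm_num)
  have hY0 : 0 < Y := by linarith
  have hlog : 0 ≤ Real.log X := Real.log_nonneg hX1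
  set L : ℝ := X ^ (δ ^ 2 / 100) with hL
  have hL0 : 0 < L := Real.rpow_pos_of_pos hX0 _
  have hlg := hs.lg
  have hpow1 : (1:ℝ) ≤ (1 + Real.log X) ^ 100 := one_le_pow₀ (by linarith)
  have hCL : C ^ 2 ≤ L := by
    refine le_trans ?_ hlg
    have h1 : C ^ 2 * 1 ≤ (C ^ 2 + 2) * (1 + Real.log X) ^ 100 :=
      mul_le_mul (by linarith) hpow1 zero_le_one (by positivity)
    linarith
  have h2L : 2 * Real.log X ^ 2 ≤ L := by
    refine le_trans ?_ hlg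
    have h1 : Real.log X ^ 2 ≤ (1 + Real.log X) ^ 2 := pow_le_pow_left₀ hlog (by linarith) 2
    have h2 : (1 + Real.log X) ^ 2 ≤ (1 + Real.log X) ^ 100 :=
      pow_le_pow_right₀ (by linarith) (by norm_num)
    have h3 : (2:ℝ) * (1 + Real.log X) ^ 100 ≤ (C ^ 2 + 2) * (1 + Real.log X) ^ 100 :=
      mul_le_mul_of_nonneg_right (by linarith [sq_nonneg C]) (by positivity)
    linarith
  -- number of divisors
  have hT : ∀ k ∈ Icc 1 ⌊X⌋₊, (k.divisors.card : ℝ) ≤ L := by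
    intro k hk
    rw [mem_Icc] at hk
    have hk0 : (0:ℝ) < k := by exact_mod_cast hk.1
    have hkX : (k:ℝ) ≤ X := (Nat.le_floor_iff hX0.le).mp hk.2
    have h1 := hdiv k hk.1
    have h2 : (k:ℝ) ^ (δ ^ 2 / 200) ≤ X ^ (δ ^ 2 / 200) :=
      Real.rpow_le_rpow hk0.le hkX (by positivity)
    have h3 : C ≤ X ^ (δ ^ 2 / 200) := by
      have h4 : (X ^ (δ ^ 2 / 200)) ^ 2 = L := by
        rw [← Real.rpow_natCast, ← Real.rpow_mul hX0.le, hL]
        congr 1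
        push_cast
        ring
      rw [← h4] at hCL
      exact le_of_sq_le_sq hCL (by positivity)
    calc (k.divisors.card : ℝ) ≤ C * (k:ℝ) ^ (δ ^ 2 / 200) := h1
      _ ≤ X ^ (δ ^ 2 / 200) * X ^ (δ ^ 2 / 200) :=
        mul_le_mul h3 h2 (by positivity) (by positivity)
      _ = L := by rw [← Real.rpow_add hX0, hL]; congr 1; ring
  -- sum of squares
  have hΛ : ∑ n ∈ Icc 1 ⌊X⌋₊, Lam n ^ 2 ≤ X * Real.log X ^ 2 := by
    have h1 : ∀ n ∈ Icc 1 ⌊X⌋₊, Lam n ^ 2 ≤ Real.log X ^ 2 := by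
      intro n hn
      rw [mem_Icc] at hn
      have hn0 : (0:ℝ) < n := by exact_mod_cast hn.1
      have hnX : (n:ℝ) ≤ X := (Nat.le_floor_iff hX0.le).mp hn.2
      have h2 : Lam n ≤ Real.log n := ArithmeticFunction.vonMangoldt_le_log
      have h3 : Real.log n ≤ Real.log X := Real.log_le_log hn0 hnX
      exact pow_le_pow_left₀ ArithmeticFunction.vonMangoldt_nonneg (h2.trans h3) 2
    refine (sum_le_card_nsmul _ _ _ h1).trans ?_
    rw [Nat.card_Icc, add_tsub_cancel_right, nsmul_eq_mul]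
    exact mul_le_mul_of_nonneg_right (Nat.floor_le hX0.le) (by positivity)
  -- bad moduli for `d`
  set B : ℕ → Finset ℕ := fun d => (IY Y).filter fun Q =>
    X ^ (1 - δ / 2) < |off ⌊X⌋₊ Q Lam (bd δ X Y d)| with hB
  have hIY : ∀ Q ∈ IY Y, Y ≤ (Q:ℝ) := by
    intro Q hQ
    unfold IY at hQ
    rw [mem_filter] at hQ
    exact hQ.2.le
  have hBd : ∀ d, ((B d).card : ℝ) ≤ Y * X ^ (-(4 * δ / 5)) * L ^ 2 := by
    intro d
    have h1 := Pool.Agent.FG61.off_var ⌊X⌋₊ Lam (bd δ X Y d) (Y * X ^ (-(9 / 10 * δ))) L Y hY1 hT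
      (fun α => hsup d α) (IY Y) hIY
    have h2 : ((B d).card : ℝ) * X ^ (2 - δ) ≤ ∑ Q ∈ IY Y, off ⌊X⌋₊ Q Lam (bd δ X Y d) ^ 2 := by
      have h3 : ∑ Q ∈ B d, off ⌊X⌋₊ Q Lam (bd δ X Y d) ^ 2 ≤
          ∑ Q ∈ IY Y, off ⌊X⌋₊ Q Lam (bd δ X Y d) ^ 2 :=
        sum_le_sum_of_subset_of_nonneg (filter_subset _ _) fun _ _ _ => sq_nonneg _
      refine le_trans ?_ h3
      rw [← nsmul_eq_mul]
      refine card_nsmul_le_sum _ _ _ fun Q hQ => ?_
      rw [hB, mem_filter] at hQ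
      have h4 : X ^ (2 - δ) = (X ^ (1 - δ / 2)) ^ 2 := by
        rw [← Real.rpow_natCast, ← Real.rpow_mul hX0.le]
        congr 1
        push_cast
        ring
      rw [h4, ← sq_abs (off ⌊X⌋₊ Q Lam (bd δ X Y d))]
      exact pow_le_pow_left₀ (by positivity) hQ.2.le 2
    have h5 := d3_calc X Y L (X ^ (-(9 / 10 * δ))) (Real.log X ^ 2)
      (∑ n ∈ Icc 1 ⌊X⌋₊, Lam n ^ 2) (⌊X⌋₊ : ℝ) hX0 hY0 hL0
      (Nat.floor_le hX0.le) hΛ (sum_nonneg fun _ _ => sq_nonneg _) h2L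
    have h9 : X ^ 2 * (X ^ (-(9 / 10 * δ))) ^ 2 = X ^ (-(4 * δ / 5)) * X ^ (2 - δ) := by
      rw [← Real.rpow_natCast X 2, ← Real.rpow_natCast (X ^ (-(9 / 10 * δ))) 2,
        ← Real.rpow_mul hX0.le, ← Real.rpow_add hX0, ← Real.rpow_add hX0]
      congr 1
      push_cast
      ring
    have h10 : ((B d).card : ℝ) * X ^ (2 - δ) ≤ (Y * X ^ (-(4 * δ / 5)) * L ^ 2) * X ^ (2 - δ) := by
      refine (h2.trans (h1.trans h5)).trans (le_of_eq ?_)
      rw [h9]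
      ring
    exact le_of_mul_le_mul_right h10 (Real.rpow_pos_of_pos hX0 _)
  -- the bad moduli are in the union
  have hsub : ((IY Y).filter fun Q => X ^ (1 - δ / 4) < |off ⌊X⌋₊ Q Lam (bb δ X Y Q)|) ⊆
      (Icc 1 (SS δ X)).biUnion B := by
    intro Q hQ
    rw [mem_filter] at hQ
    by_contra hcon
    rw [mem_biUnion] at hcon
    push Not at hcon
    have hQ1 : 1 ≤ Q := by
      have h1 := hQ.1
      unfold IY at h1
      rw [mem_filter, mem_Icc] at h1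
      exact h1.1.1
    have h1 : ∀ d ∈ Icc 1 (SS δ X), |off ⌊X⌋₊ Q Lam (bd δ X Y d)| ≤ X ^ (1 - δ / 2) := by
      intro d hd
      have h2 := hcon d hd
      rw [hB, mem_filter] at h2
      by_contra h3
      exact h2 ⟨hQ.1, not_le.mp h3⟩
    have h2 : bb δ X Y Q = fun n => ∑ d ∈ Q.divisors.filter (fun d => d ≤ SS δ X),
        mu d * bd δ X Y d n := by
      funext n
      exact bb_split δ X Y Q n hQ1
    have h3 : |off ⌊X⌋₊ Q Lam (bb δ X Y Q)| ≤ (SS δ X : ℝ) * X ^ (1 - δ / 2) := by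
      rw [h2, d3_off_sum]
      refine (abs_sum_le_sum_abs _ _).trans ?_
      have h4 : ∀ d ∈ Q.divisors.filter (fun d => d ≤ SS δ X),
          |mu d * off ⌊X⌋₊ Q Lam (bd δ X Y d)| ≤ X ^ (1 - δ / 2) := by
        intro d hd
        rw [mem_filter] at hd
        have hd1 : 1 ≤ d := Nat.pos_of_mem_divisors hd.1
        rw [abs_mul]
        have h5 : |mu d| ≤ 1 := by
          have h6 := ArithmeticFunction.abs_moebius_le_one (n := d)
          have h7 : |mu d| = ((|ArithmeticFunction.moebius d| : ℤ) : ℝ) := by rw [Int.cast_abs]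
          rw [h7]
          exact_mod_cast h6
        calc |mu d| * |off ⌊X⌋₊ Q Lam (bd δ X Y d)| ≤ 1 * X ^ (1 - δ / 2) :=
              mul_le_mul h5 (h1 d (mem_Icc.mpr ⟨hd1, hd.2⟩)) (abs_nonneg _) zero_le_one
          _ = _ := one_mul _
      refine (sum_le_card_nsmul _ _ _ h4).trans ?_
      rw [nsmul_eq_mul]
      refine mul_le_mul_of_nonneg_right ?_ (by positivity)
      have h8 : (Q.divisors.filter (fun d => d ≤ SS δ X)) ⊆ Icc 1 (SS δ X) := by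
        intro d hd
        rw [mem_filter] at hd
        exact mem_Icc.mpr ⟨Nat.pos_of_mem_divisors hd.1, hd.2⟩
      have h9 := card_le_card h8
      rw [Nat.card_Icc, add_tsub_cancel_right] at h9
      exact_mod_cast h9
    have h4 : (SS δ X : ℝ) * X ^ (1 - δ / 2) ≤ X ^ (1 - δ / 4) := by
      calc (SS δ X : ℝ) * X ^ (1 - δ / 2) ≤ X ^ (δ ^ 2 / 10) * X ^ (1 - δ / 2) :=
            mul_le_mul_of_nonneg_right hs.Shi (by positivity)
        _ = X ^ (δ ^ 2 / 10 + (1 - δ / 2)) := (Real.rpow_add hX0 _ _).symm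
        _ ≤ X ^ (1 - δ / 4) := by
            exact Real.rpow_le_rpow_of_exponent_le hX1 (d3_exp1 hδ hδ1)
    linarith [hQ.2]
  -- count
  have h1 : (((IY Y).filter fun Q => X ^ (1 - δ / 4) < |off ⌊X⌋₊ Q Lam (bb δ X Y Q)|).card : ℝ) ≤
      ∑ d ∈ Icc 1 (SS δ X), ((B d).card : ℝ) := by
    have h2 := (card_le_card hsub).trans card_biUnion_le
    exact_mod_cast h2
  refine h1.trans ?_
  refine (sum_le_card_nsmul _ _ _ fun d _ => hBd d).trans ?_
  rw [Nat.card_Icc, add_tsub_cancel_right, nsmul_eq_mul]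
  calc (SS δ X : ℝ) * (Y * X ^ (-(4 * δ / 5)) * L ^ 2) ≤
      X ^ (δ ^ 2 / 10) * (Y * X ^ (-(4 * δ / 5)) * L ^ 2) :=
        mul_le_mul_of_nonneg_right hs.Shi (by positivity)
    _ = Y * X ^ (δ ^ 2 / 10 + -(4 * δ / 5) + δ ^ 2 / 50) := by
        have h3 : L ^ 2 = X ^ (δ ^ 2 / 50) := by
          rw [hL, ← Real.rpow_natCast, ← Real.rpow_mul hX0.le]
          congr 1
          push_cast
          ring
        rw [h3, Real.rpow_add hX0, Real.rpow_add hX0]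
        ring
    _ ≤ Y * X ^ (-(δ / 4)) := by
        refine mul_le_mul_of_nonneg_left ?_ hY0.le
        exact Real.rpow_le_rpow_of_exponent_le hX1 (d3_exp2 hδ hδ1)

end

end Pool.Agent.BSD
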