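import Pool.Agent.Lib_helper61.FG.P.OV
import Pool.Agent.Lib_helper61.FG.P.SU
import Pool.Agent.Lib_helper61.FG.P.DU
import Pool.Agent.Lib_helper61.FG.P.GS
import Pool.Agent.Lib_helper61.FG.DivB

/-!
# MP_5dd4bb_nt, project BSD (both signs in a positive proportion of the classes): definitions

`δ` is the small parameter, `Z = X / Y`; `Q` is a modulus in `(Y, 2Y]`.
-/

set_option autoImplicit false

namespace Pool.Agent.BSD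

open Finset
open Pool.Agent.FG61 (mu phi Lam cc off)
open Pool.Agent.Var35 (e)

noncomputable section

/-- the admissible parameters -/
def Ok (ε δ : ℝ) : Prop := 0 < δ ∧ 100 * δ ≤ ε ∧ δ ≤ 1 / 600

/-- the range of `Y` -/
def Rg (ε X Y : ℝ) : Prop := X ^ (2 / 3 + ε) ≤ Y ∧ Y ≤ X ^ (1 - ε)

/-! ### The smooth window `om`: normalised number of the representations as a sum of `m` integers
of `[1, M]` -/

/-- the window -/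
def om (m M n : ℕ) : ℝ :=
  (((Fintype.piFinset fun _ : Fin m => Icc 1 M).filter fun v => ∑ i, v i = n).card : ℝ) /
    (M : ℝ) ^ (m - 1)

/-- geometric sum -/
def Dk (M : ℕ) (α : ℝ) : ℂ := ∑ k ∈ Icc 1 M, e (k * α)

/-- the Fourier transform of the window -/
def Wh (m M : ℕ) (α : ℝ) : ℂ := Dk M α ^ m / (M : ℂ) ^ (m - 1)

/-- number of factors of the window -/
def mm (δ : ℝ) : ℕ := ⌈100 / δ⌉₊

/-- length of the factors of the window -/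
def MM (δ X : ℝ) : ℕ := ⌊X⌋₊ / mm δ

/-! ### The test function -/

/-- `K = ⌈Z X^δ⌉` -/
def KK (δ X Y : ℝ) : ℕ := ⌈X / Y * X ^ δ⌉₊

/-- the primes of `(K, K^(1+δ)]` -/
def PS (δ X Y : ℝ) : Finset ℕ :=
  (Icc 1 ⌊(KK δ X Y : ℝ) ^ (1 + δ)⌋₊).filter fun p => p.Prime ∧ KK δ X Y < p

/-- `S = ⌊X^(δ²/10)⌋` -/
def SS (δ X : ℝ) : ℕ := ⌊X ^ (δ ^ 2 / 10)⌋₊

/-- the pairs `(p, s)`, `p ∈ PS`, `s ≤ S` squarefree and prime to `Q`; they stand for the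
denominators `r = p s` -/
def RR (δ X Y : ℝ) (Q : ℕ) : Finset (ℕ × ℕ) :=
  PS δ X Y ×ˢ (Icc 1 (SS δ X)).filter fun s => Squarefree s ∧ s.Coprime Q

/-- `g_r = μ(r) / φ(r)` -/
def gr (r : ℕ) : ℝ := mu r / phi r

/-- the test function on the integers -/
def bb (δ X Y : ℝ) (Q n : ℕ) : ℝ :=
  om (mm δ) (MM δ X) n * ∑ x ∈ RR δ X Y Q, gr (x.1 * x.2) * cc (x.1 * x.2) n

/-- the part of the test function with `d ∣ s`; it does not depend on `Q` -/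
def bd (δ X Y : ℝ) (d n : ℕ) : ℝ :=
  om (mm δ) (MM δ X) n *
    ∑ x ∈ PS δ X Y ×ˢ (Icc 1 (SS δ X)).filter (fun s => Squarefree s ∧ d ∣ s),
      gr (x.1 * x.2) * cc (x.1 * x.2) n

/-- the test function on the residue classes -/
def uu (δ X Y : ℝ) (Q a : ℕ) : ℝ := ∑ n ∈ (Icc 1 ⌊X⌋₊).filter (fun n => n % Q = a), bb δ X Y Q n

/-- `W = ∑ 1 / φ(r)` -/
def WW (δ X Y : ℝ) (Q : ℕ) : ℝ := ∑ x ∈ RR δ X Y Q, 1 / phi (x.1 * x.2)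

/-! ### The fractions `θ = a / (p s)` -/

/-- the reduced fractions `θ = a / (p s)` in `[0, 1)`, `(p, s) ∈ RR` -/
def TH (δ X Y : ℝ) (Q : ℕ) : Finset (Σ _ : ℕ × ℕ, ℕ) :=
  (RR δ X Y Q).sigma fun x => (range (x.1 * x.2)).filter fun a => a.Coprime (x.1 * x.2)

/-- the denominator -/
def den (θ : Σ _ : ℕ × ℕ, ℕ) : ℕ := θ.1.1 * θ.1.2

/-- the value -/
def th (θ : Σ _ : ℕ × ℕ, ℕ) : ℝ := (θ.2 : ℝ) / den θ

/-- the integer nearest to `Q θ` -/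
def jj (Q : ℕ) (θ : Σ _ : ℕ × ℕ, ℕ) : ℤ := round (Q * th θ)

/-- `ε_θ = Q θ - j_θ` -/
def ee (Q : ℕ) (θ : Σ _ : ℕ × ℕ, ℕ) : ℝ := Q * th θ - jj Q θ

/-- `Δ = X^δ / Z` -/
def Del (δ X Y : ℝ) : ℝ := X ^ δ * Y / X

/-- the fractions with `|ε_θ| < Δ` -/
def NR (δ X Y : ℝ) (Q : ℕ) : Finset (Σ _ : ℕ × ℕ, ℕ) :=
  (TH δ X Y Q).filter fun θ => |ee Q θ| < Del δ X Y

/-- `|g_θ| |W^(ε_θ / Q)|` -/
def gw (δ X : ℝ) (Q : ℕ) (θ : Σ _ : ℕ × ℕ, ℕ) : ℝ :=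
  |gr (den θ)| * ‖Wh (mm δ) (MM δ X) (ee Q θ / Q)‖

/-- a quadruple of fractions -/
abbrev Quad : Type := ((Σ _ : ℕ × ℕ, ℕ) × (Σ _ : ℕ × ℕ, ℕ)) × ((Σ _ : ℕ × ℕ, ℕ) × (Σ _ : ℕ × ℕ, ℕ))

/-- the quadruples of near fractions with `j₁ + j₂ = j₃ + j₄` modulo `Q` -/
def QD (δ X Y : ℝ) (Q : ℕ) : Finset Quad :=
  ((NR δ X Y Q ×ˢ NR δ X Y Q) ×ˢ (NR δ X Y Q ×ˢ NR δ X Y Q)).filter fun q =>
    (Q : ℤ) ∣ jj Q q.1.1 + jj Q q.1.2 - jj Q q.2.1 - jj Q q.2.2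

/-- `f = θ₁ + θ₂ - θ₃ - θ₄` -/
def fq (q : Quad) : ℝ := th q.1.1 + th q.1.2 - th q.2.1 - th q.2.2

/-- `f` is an integer -/
def FI (q : Quad) : Prop := ∃ k : ℤ, fq q = k

/-- the four primes are equal -/
def AE (q : Quad) : Prop :=
  q.1.1.1.1 = q.1.2.1.1 ∧ q.1.1.1.1 = q.2.1.1.1 ∧ q.1.1.1.1 = q.2.2.1.1

/-- the product of the four weights -/
def gq (δ X : ℝ) (Q : ℕ) (q : Quad) : ℝ :=
  gw δ X Q q.1.1 * gw δ X Q q.1.2 * gw δ X Q q.2.1 * gw δ X Q q.2.2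

/-! ### Primes in the classes -/

/-- the reduced classes -/
def RC (Q : ℕ) : Finset ℕ := (range Q).filter fun a => Nat.Coprime a Q

/-- `ψ(X; Q, a)` -/
def ps (X : ℝ) (Q a : ℕ) : ℝ := ∑ n ∈ (Icc 1 ⌊X⌋₊).filter (fun n => n % Q = a), Lam n

/-- the part of `ψ(X; Q, a)` carried by the characters of conductor at most `Z log^8 X` -/
def lo (X : ℝ) (Q a : ℕ) : ℝ :=
  (∑ χ : DirichletCharacter ℂ Q, if (χ.conductor : ℝ) ≤ X / Q * Real.log X ^ 8 then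
    (starRingEnd ℂ) (χ (a : ZMod Q)) * ∑ n ∈ Icc 1 ⌊X⌋₊, (Lam n : ℂ) * χ (n : ZMod Q) else 0).re /
      phi Q

/-- `ψ(X; Q, a)` without the characters of small conductor -/
def DD (X : ℝ) (Q a : ℕ) : ℝ := ps X Q a - lo X Q a

/-- the characters of small conductor -/
def LC (X : ℝ) (Q : ℕ) : Finset (DirichletCharacter ℂ Q) :=
  univ.filter fun χ => (χ.conductor : ℝ) ≤ X / Q * Real.log X ^ 8

/-- the integers of `(Y, 2Y]` -/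
def IY (Y : ℝ) : Finset ℕ := (Icc 1 ⌊2 * Y⌋₊).filter fun Q => Y < Q

/-- `Q` has no prime factor in `PS` -/
def Fr (δ X Y : ℝ) (Q : ℕ) : Prop := ∀ p ∈ PS δ X Y, ¬ p ∣ Q

/-- the inequalities between the parameters, valid for large `X` (theorem `sizes`) -/
structure Sz (ε δ A X Y : ℝ) : Prop where
  X3 : 3 ≤ X
  /-- constants and logarithms are absorbed by `X^(δ²/100)` -/
  lg : A * (1 + Real.log X) ^ 100 ≤ X ^ (δ ^ 2 / 100)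
  Y1 : X ^ (2 / 3 : ℝ) ≤ Y
  YX : Y ≤ X
  Zlo : X ^ ε ≤ X / Y
  Zhi : X / Y ≤ X ^ (1 / 3 - ε)
  Klo : X / Y * X ^ δ ≤ KK δ X Y
  Khi : (KK δ X Y : ℝ) ≤ 2 * (X / Y * X ^ δ)
  Kpow : (KK δ X Y : ℝ) ^ (1 + δ) ≤ X / Y * X ^ (3 / 2 * δ)
  S1 : 1 ≤ SS δ X
  Shi : (SS δ X : ℝ) ≤ X ^ (δ ^ 2 / 10)
  Slo : X ^ (δ ^ 2 / 10) / 2 ≤ SS δ X
  SK : SS δ X < KK δ X Y
  M1 : 1 ≤ MM δ X
  Mlo : X / (2 * mm δ) ≤ MM δ X
  Mhi : (MM δ X : ℝ) ≤ X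
  mM : mm δ * MM δ X ≤ ⌊X⌋₊
  Dhi : Del δ X Y ≤ X ^ (-(99 * δ))

end

end Pool.Agent.BSD
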