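import Pool.Agent.Lib_helper26.BSD.Defs
import Pool.Agent.Lib_helper26.BSD.B1
import Pool.Agent.Lib_helper26.BSD.D1

/-!
# Project BSD, block E1: the pairing with the primes

The lemmas `e1_fib`, `e1_omega`, `e1_non_cop` are a copy of the block C3a of the project MF (helper18).
-/

set_option autoImplicit false

namespace Pool.Agent.BSD

open Finset
open Pool.Agent.FG61 (mu phi Lam cc off)
open Pool.Agent.Var35 (e)

noncomputable section

theorem e1_fib (N Q p : ℕ) (hp : p.Prime) (hN : 1 ≤ N) :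
    ∑ n ∈ ((Icc 1 N).filter (fun n => ¬ Nat.Coprime n Q ∧ IsPrimePow n)).filter
      (fun n => n.minFac = p), Lam n ≤ Real.log N := by
  have h1 : ∀ n ∈ ((Icc 1 N).filter (fun n => ¬ Nat.Coprime n Q ∧ IsPrimePow n)).filter
      (fun n => n.minFac = p), Lam n = Real.log p := by
    intro n hn
    rw [mem_filter, mem_filter] at hn
    show ArithmeticFunction.vonMangoldt n = _
    rw [ArithmeticFunction.vonMangoldt_apply, if_pos hn.1.2.2, hn.2]
  rw [sum_congr rfl h1, sum_const, nsmul_eq_mul]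
  have h2 : (((Icc 1 N).filter (fun n => ¬ Nat.Coprime n Q ∧ IsPrimePow n)).filter
      (fun n => n.minFac = p)).card ≤ Nat.log p N := by
    calc _ ≤ ((Icc 1 (Nat.log p N)).image (fun k => p ^ k)).card := by
          apply card_le_card
          intro n hn
          rw [mem_filter, mem_filter, mem_Icc] at hn
          have h3 : n.minFac ^ n.factorization n.minFac = n :=
            (isPrimePow_iff_minFac_pow_factorization_eq
              (by rintro rfl; exact not_isPrimePow_one hn.1.2.2)).1 hn.1.2.2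
          rw [hn.2] at h3
          rw [mem_image]
          refine ⟨n.factorization p, ?_, h3⟩
          rw [mem_Icc]
          refine ⟨?_, ?_⟩
          · rcases Nat.eq_zero_or_pos (n.factorization p) with h0 | h0
            · rw [h0, pow_zero] at h3
              exact absurd hn.1.2.2 (h3 ▸ not_isPrimePow_one)
            · exact h0
          · apply Nat.le_log_of_pow_le hp.one_lt
            rw [h3]
            exact hn.1.1.2
      _ ≤ (Icc 1 (Nat.log p N)).card := card_image_le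
      _ = Nat.log p N := by simp
  have h3 : (Nat.log p N : ℝ) * Real.log p ≤ Real.log N := by
    rw [← Real.log_pow]
    apply Real.log_le_log (by have := hp.pos; positivity)
    exact_mod_cast Nat.pow_log_le_self p (by omega)
  have hlp : 0 ≤ Real.log p := Real.log_nonneg (by exact_mod_cast hp.one_lt.le)
  exact (mul_le_mul_of_nonneg_right (by exact_mod_cast h2) hlp).trans h3

theorem e1_omega (Q : ℕ) (hQ : 1 ≤ Q) : 2 ^ Q.primeFactors.card ≤ Q := by
  calc 2 ^ Q.primeFactors.card = ∏ _p ∈ Q.primeFactors, 2 := by rw [prod_const]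
    _ ≤ ∏ p ∈ Q.primeFactors, p := prod_le_prod' fun p hp => (Nat.prime_of_mem_primeFactors hp).two_le
    _ ≤ Q := Nat.le_of_dvd (by omega) (Nat.prod_primeFactors_dvd Q)

theorem e1_non_cop (X : ℝ) (hX : 3 ≤ X) (Q : ℕ) (hQ : 1 ≤ Q) (hQX : (Q : ℝ) ≤ X) :
    ∑ n ∈ (Icc 1 ⌊X⌋₊).filter (fun n => ¬ Nat.Coprime n Q), Lam n ≤ 2 * Real.log X ^ 2 := by
  classical
  have hX0 : 0 < X := by linarith
  have hN : 1 ≤ ⌊X⌋₊ := Nat.le_floor (by push_cast; linarith)
  have hlX : 1 ≤ Real.log X := by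
    rw [Real.le_log_iff_exp_le hX0]
    have := Real.exp_one_lt_d9
    linarith
  have e1 : ∑ n ∈ (Icc 1 ⌊X⌋₊).filter (fun n => ¬ Nat.Coprime n Q), Lam n =
      ∑ n ∈ (Icc 1 ⌊X⌋₊).filter (fun n => ¬ Nat.Coprime n Q ∧ IsPrimePow n), Lam n := by
    rw [← filter_filter]
    refine (sum_filter_of_ne ?_).symm
    intro n _ hne
    by_contra h
    apply hne
    show ArithmeticFunction.vonMangoldt n = 0
    rw [ArithmeticFunction.vonMangoldt_apply, if_neg h]
  rw [e1]
  have hmap : ∀ n ∈ (Icc 1 ⌊X⌋₊).filter (fun n => ¬ Nat.Coprime n Q ∧ IsPrimePow n),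
      n.minFac ∈ Q.primeFactors := by
    intro n hn
    rw [mem_filter] at hn
    have hn1 : n ≠ 1 := by rintro rfl; exact not_isPrimePow_one hn.2.2
    have hp := Nat.minFac_prime hn1
    have h3 : n.minFac ^ n.factorization n.minFac = n :=
      (isPrimePow_iff_minFac_pow_factorization_eq hn1).1 hn.2.2
    rw [Nat.mem_primeFactors]
    refine ⟨hp, ?_, by omega⟩
    by_contra h
    apply hn.2.1
    rw [← h3]
    exact Nat.Coprime.pow_left _ ((Nat.Prime.coprime_iff_not_dvd hp).2 h)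
  rw [← sum_fiberwise_of_maps_to hmap]
  calc ∑ p ∈ Q.primeFactors, ∑ n ∈ ((Icc 1 ⌊X⌋₊).filter
        (fun n => ¬ Nat.Coprime n Q ∧ IsPrimePow n)).filter (fun n => n.minFac = p), Lam n
      ≤ ∑ p ∈ Q.primeFactors, Real.log ⌊X⌋₊ :=
        sum_le_sum fun p hp => e1_fib _ _ _ (Nat.prime_of_mem_primeFactors hp) hN
    _ = Q.primeFactors.card * Real.log ⌊X⌋₊ := by rw [sum_const, nsmul_eq_mul]
    _ ≤ (2 * Real.log X) * Real.log X := by
        have h1 : Real.log ⌊X⌋₊ ≤ Real.log X :=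
          Real.log_le_log (by exact_mod_cast hN) (Nat.floor_le hX0.le)
        have h2 : (Q.primeFactors.card : ℝ) ≤ 2 * Real.log X := by
          have h3 : ((2 ^ Q.primeFactors.card : ℕ) : ℝ) ≤ X :=
            (by exact_mod_cast e1_omega Q hQ : ((2 ^ Q.primeFactors.card : ℕ) : ℝ) ≤ Q).trans hQX
          have h4 : (Q.primeFactors.card : ℝ) * Real.log 2 ≤ Real.log X := by
            rw [← Real.log_pow]
            apply Real.log_le_log (by positivity)
            exact_mod_cast h3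
          have h5 := Real.log_two_gt_d9
          have h6 : (0 : ℝ) ≤ Q.primeFactors.card := by positivity
          nlinarith
        have h3 : (0 : ℝ) ≤ Real.log ⌊X⌋₊ := Real.log_nonneg (by exact_mod_cast hN)
        exact mul_le_mul h2 h1 h3 (by linarith)
    _ = 2 * Real.log X ^ 2 := by ring

/-- the identity and the first bound -/
theorem e1_main (N Q : ℕ) (hQ : 1 ≤ Q) (b : ℕ → ℝ) (B : ℝ)
    (hB : ∀ a : ℕ, |∑ n ∈ (Icc 1 N).filter (fun n => n % Q = a), b n| ≤ B) :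
    |∑ a ∈ (range Q).filter (fun a => Nat.Coprime a Q),
        (∑ n ∈ (Icc 1 N).filter (fun n => n % Q = a), Lam n) *
          (∑ n ∈ (Icc 1 N).filter (fun n => n % Q = a), b n) -
      ∑ n ∈ Icc 1 N, Lam n * b n - off N Q Lam b| ≤
      (∑ n ∈ (Icc 1 N).filter (fun n => ¬ Nat.Coprime n Q), Lam n) * B := by
  classical
  set S : Finset ℕ := (range Q).filter (fun a => Nat.Coprime a Q) with hS
  set psi : ℕ → ℝ := fun a => ∑ n ∈ (Icc 1 N).filter (fun n => n % Q = a), Lam n with hpsi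
  set u : ℕ → ℝ := fun a => ∑ n ∈ (Icc 1 N).filter (fun n => n % Q = a), b n with hu
  have hmodS : ∀ n : ℕ, n % Q ∈ S ↔ Nat.Coprime n Q := by
    intro n
    rw [hS, mem_filter, mem_range]
    have h1 : n % Q < Q := Nat.mod_lt _ (by omega)
    have h2 : Nat.Coprime (n % Q) Q ↔ Nat.Coprime n Q := by
      unfold Nat.Coprime
      rw [← Nat.gcd_rec, Nat.gcd_comm]
    rw [h2]
    exact ⟨fun h => h.2, fun h => ⟨h1, h⟩⟩
  have e1 := Pool.Agent.FG61.DU_fiber N Q Lam u S
  have e1' : ∑ a ∈ S, psi a * u a =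
      ∑ n ∈ (Icc 1 N).filter (fun n => Nat.Coprime n Q), Lam n * u (n % Q) := by
    have e2 : (Icc 1 N).filter (fun n => n % Q ∈ S) =
        (Icc 1 N).filter (fun n => Nat.Coprime n Q) := Finset.filter_congr fun n _ => hmodS n
    rw [e2] at e1
    rw [← e1]
    refine Finset.sum_congr rfl fun a _ => mul_comm _ _
  have e3 := Pool.Agent.FG61.DU_sum_res N Q hQ Lam b
  have e4 : ∑ n ∈ Icc 1 N, Lam n * u (n % Q) =
      ∑ n ∈ (Icc 1 N).filter (fun n => Nat.Coprime n Q), Lam n * u (n % Q) +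
      ∑ n ∈ (Icc 1 N).filter (fun n => ¬ Nat.Coprime n Q), Lam n * u (n % Q) :=
    (Finset.sum_filter_add_sum_filter_not _ _ _).symm
  have e6 : ∑ n ∈ Icc 1 N, Lam n * u (n % Q) =
      ∑ n ∈ Icc 1 N, Lam n * b n + off N Q Lam b := by
    rw [← e3]
  have e7 : ∑ a ∈ S, psi a * u a - ∑ n ∈ Icc 1 N, Lam n * b n - off N Q Lam b =
      -∑ n ∈ (Icc 1 N).filter (fun n => ¬ Nat.Coprime n Q), Lam n * u (n % Q) := by
    rw [e1']; linarith
  rw [e7, abs_neg, Finset.sum_mul]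
  refine (Finset.abs_sum_le_sum_abs _ _).trans (Finset.sum_le_sum fun n _ => ?_)
  rw [abs_mul, abs_of_nonneg (ArithmeticFunction.vonMangoldt_nonneg : 0 ≤ Lam n)]
  exact mul_le_mul_of_nonneg_left (hB _) ArithmeticFunction.vonMangoldt_nonneg

theorem pair_ps (ε δ : ℝ) (h : Ok ε δ) : ∃ X₀ : ℝ, ∀ X Y : ℝ, X₀ ≤ X → Rg ε X Y → ∀ Q ∈ IY Y,
    |∑ a ∈ RC Q, ps X Q a * uu δ X Y Q a - ∑ n ∈ Icc 1 ⌊X⌋₊, Lam n * bb δ X Y Q n
      - off ⌊X⌋₊ Q Lam (bb δ X Y Q)| ≤ X ^ (9 / 10 : ℝ) := by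
  obtain ⟨X1, h1⟩ := sizes ε δ 2 h
  obtain ⟨X2, h2⟩ := uu_le ε δ h
  refine ⟨max X1 X2, ?_⟩
  intro X Y hX hR Q hQ
  have hs := h1 X Y ((le_max_left _ _).trans hX) hR
  have hu := h2 X Y ((le_max_right _ _).trans hX) hR Q hQ
  obtain ⟨hδ0, hδε, hδ1⟩ := h
  have hX3 := hs.X3
  have hX0 : 0 < X := by linarith
  have hlX : 0 ≤ Real.log X := Real.log_nonneg (by linarith)
  have hY0 : 0 < Y := lt_of_lt_of_le (Real.rpow_pos_of_pos hX0 _) hs.Y1
  have hmem : Q ∈ (Icc 1 ⌊2 * Y⌋₊).filter (fun Q : ℕ => Y < Q) := hQ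
  rw [mem_filter, mem_Icc] at hmem
  have hQ1 : 1 ≤ Q := hmem.1.1
  have hQ2Y : (Q : ℝ) ≤ 2 * Y := (Nat.le_floor_iff (by positivity)).1 hmem.1.2
  have hlog2 : 2 * (1 + Real.log X) ^ 2 ≤ X ^ (δ ^ 2 / 100) := by
    have h3 : (1 + Real.log X) ^ 2 ≤ (1 + Real.log X) ^ 100 :=
      pow_le_pow_right₀ (by linarith) (by norm_num)
    have := hs.lg
    linarith
  have hd2 : δ ^ 2 ≤ δ / 600 := by nlinarith
  have h2X : 2 ≤ X / Y := by
    have h4 : 2 ≤ X ^ (δ ^ 2 / 100) := by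
      have : 1 ≤ (1 + Real.log X) ^ 2 := one_le_pow₀ (by linarith)
      linarith
    have h5 : X ^ (δ ^ 2 / 100) ≤ X ^ ε :=
      Real.rpow_le_rpow_of_exponent_le (by linarith) (by nlinarith)
    exact h4.trans (h5.trans hs.Zlo)
  have hQX : (Q : ℝ) ≤ X := by
    rw [le_div_iff₀ hY0] at h2X
    linarith
  have hn := e1_non_cop X hX3 Q hQ1 hQX
  have hm := e1_main ⌊X⌋₊ Q hQ1 (bb δ X Y Q) (X / Y * X ^ (δ ^ 2 / 5)) (fun a => hu a)
  refine hm.trans ?_
  have hZ0 : 0 ≤ X / Y := by positivity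
  calc (∑ n ∈ (Icc 1 ⌊X⌋₊).filter (fun n => ¬ Nat.Coprime n Q), Lam n) *
        (X / Y * X ^ (δ ^ 2 / 5))
      ≤ X ^ (δ ^ 2 / 100) * (X ^ (1 / 3 - ε) * X ^ (δ ^ 2 / 5)) := by
        have h6 : 2 * Real.log X ^ 2 ≤ X ^ (δ ^ 2 / 100) := by
          have : Real.log X ^ 2 ≤ (1 + Real.log X) ^ 2 := by
            apply pow_le_pow_left₀ hlX; linarith
          linarith
        have h7 := hs.Zhi
        have h8 : 0 ≤ X ^ (δ ^ 2 / 5) := by positivity
        apply mul_le_mul (hn.trans h6) (by gcongr) (by positivity) (by positivity)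
    _ = X ^ (δ ^ 2 / 100 + (1 / 3 - ε + δ ^ 2 / 5)) := by
        rw [← Real.rpow_add hX0, ← Real.rpow_add hX0]
    _ ≤ X ^ (9 / 10 : ℝ) := by
        apply Real.rpow_le_rpow_of_exponent_le (by linarith)
        nlinarith


end

end Pool.Agent.BSD
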