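import Pool.Agent.Lib_helper26.BSD.Defs
import Pool.Agent.Lib_helper26.BSD.A4
import Pool.Agent.Lib_helper26.BSD.B1
import Pool.Agent.Lib_helper26.BSD.D1

/-!
# Project BSD, block E2: the diagonal
-/

set_option autoImplicit false

namespace Pool.Agent.BSD

open Finset
open Pool.Agent.FG61 (mu phi Lam cc off)
open Pool.Agent.Var35 (e)

noncomputable section

/-- the prime powers that are not primes larger than `√X` -/
theorem e2_rest (X : ℝ) (hX : 3 ≤ X) :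
    ∑ n ∈ (Icc 1 ⌊X⌋₊).filter (fun l : ℕ => ¬ (l.Prime ∧ X ^ (1 / 2 : ℝ) < l)), Lam n ≤
      3 * X ^ (1 / 2 : ℝ) * Real.log X := by
  classical
  have hX0 : 0 < X := by linarith
  have hlX : 0 ≤ Real.log X := Real.log_nonneg (by linarith)
  have hnn : ∀ n : ℕ, 0 ≤ Lam n := fun n => ArithmeticFunction.vonMangoldt_nonneg
  have hsub : (Icc 1 ⌊X⌋₊).filter (fun l : ℕ => ¬ (l.Prime ∧ X ^ (1 / 2 : ℝ) < l)) ⊆
      ((Ioc 0 ⌊X⌋₊).filter (fun l : ℕ => ¬ l.Prime)) ∪ Icc 1 ⌊X ^ (1 / 2 : ℝ)⌋₊ := by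
    intro n hn
    rw [mem_filter, mem_Icc] at hn
    rw [mem_union, mem_filter, mem_Ioc, mem_Icc]
    by_cases hp : n.Prime
    · right
      refine ⟨hn.1.1, ?_⟩
      apply Nat.le_floor
      by_contra hc
      push Not at hc
      exact hn.2 ⟨hp, hc⟩
    · left
      exact ⟨⟨by omega, hn.1.2⟩, hp⟩
  have h1 : ∑ n ∈ (Ioc 0 ⌊X⌋₊).filter (fun l : ℕ => ¬ l.Prime), Lam n ≤
      2 * X ^ (1 / 2 : ℝ) * Real.log X := by
    have := Chebyshev.psi_sub_theta_le (x := X) (by linarith)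
    rw [Chebyshev.psi_sub_theta_eq_sum_not_prime, Real.sqrt_eq_rpow] at this
    exact this
  have h2 : ∑ n ∈ Icc 1 ⌊X ^ (1 / 2 : ℝ)⌋₊, Lam n ≤ X ^ (1 / 2 : ℝ) * Real.log X := by
    have hXh : X ^ (1 / 2 : ℝ) ≤ X := by
      calc X ^ (1 / 2 : ℝ) ≤ X ^ (1 : ℝ) :=
            Real.rpow_le_rpow_of_exponent_le (by linarith) (by norm_num)
        _ = X := Real.rpow_one X
    have hfl : ((⌊X ^ (1 / 2 : ℝ)⌋₊ : ℕ) : ℝ) ≤ X ^ (1 / 2 : ℝ) := Nat.floor_le (by positivity)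
    calc ∑ n ∈ Icc 1 ⌊X ^ (1 / 2 : ℝ)⌋₊, Lam n ≤ ∑ n ∈ Icc 1 ⌊X ^ (1 / 2 : ℝ)⌋₊, Real.log X := by
          refine sum_le_sum fun n hn => ?_
          rw [mem_Icc] at hn
          refine ArithmeticFunction.vonMangoldt_le_log.trans ?_
          apply Real.log_le_log (by exact_mod_cast hn.1)
          have : (n : ℝ) ≤ ⌊X ^ (1 / 2 : ℝ)⌋₊ := by exact_mod_cast hn.2
          linarith
      _ = ((⌊X ^ (1 / 2 : ℝ)⌋₊ : ℕ) : ℝ) * Real.log X := by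
          rw [sum_const, nsmul_eq_mul, Nat.card_Icc, Nat.add_sub_cancel]
      _ ≤ _ := by gcongr
  calc ∑ n ∈ (Icc 1 ⌊X⌋₊).filter (fun l : ℕ => ¬ (l.Prime ∧ X ^ (1 / 2 : ℝ) < l)), Lam n
      ≤ ∑ n ∈ ((Ioc 0 ⌊X⌋₊).filter (fun l : ℕ => ¬ l.Prime)) ∪ Icc 1 ⌊X ^ (1 / 2 : ℝ)⌋₊, Lam n :=
        sum_le_sum_of_subset_of_nonneg hsub fun n _ _ => hnn n
    _ ≤ ∑ n ∈ (Ioc 0 ⌊X⌋₊).filter (fun l : ℕ => ¬ l.Prime), Lam n +
        ∑ n ∈ Icc 1 ⌊X ^ (1 / 2 : ℝ)⌋₊, Lam n := by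
        have := sum_union_inter (s₁ := (Ioc 0 ⌊X⌋₊).filter (fun l : ℕ => ¬ l.Prime))
          (s₂ := Icc 1 ⌊X ^ (1 / 2 : ℝ)⌋₊) (f := fun n => Lam n)
        have h0 : 0 ≤ ∑ n ∈ ((Ioc 0 ⌊X⌋₊).filter (fun l : ℕ => ¬ l.Prime)) ∩
          Icc 1 ⌊X ^ (1 / 2 : ℝ)⌋₊, Lam n := sum_nonneg fun n _ => hnn n
        linarith
    _ ≤ 2 * X ^ (1 / 2 : ℝ) * Real.log X + X ^ (1 / 2 : ℝ) * Real.log X := add_le_add h1 h2
    _ = _ := by ring

/-- the value of the Ramanujan sum at a large prime -/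
theorem e2_cc (r l : ℕ) (hl : l.Prime) (hr : 1 ≤ r) (h : r < l) : cc r l = mu r := by
  have hg : Nat.gcd r l = 1 := by
    have : Nat.Coprime l r := (Nat.Prime.coprime_iff_not_dvd hl).2 fun hd =>
      absurd (Nat.le_of_dvd (by omega) hd) (by omega)
    exact this.symm
  unfold Pool.Agent.FG61.cc
  rw [hg]
  simp

/-- the test function at a large prime -/
theorem e2_bb {ε δ A X Y : ℝ} (h : Ok ε δ) (hs : Sz ε δ A X Y) (hA : 1 ≤ A) (Q l : ℕ)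
    (hl : l.Prime) (hl2 : X ^ (1 / 2 : ℝ) < l) :
    bb δ X Y Q l = om (mm δ) (MM δ X) l * WW δ X Y Q := by
  have hX0 : 0 < X := by linarith [hs.X3]
  unfold bb WW
  congr 1
  refine sum_congr rfl fun x hx => ?_
  obtain ⟨hp, hK, -, hs1, -, -, -, -, hsq, hr, -⟩ := rr_mem h hs hA Q x hx
  have hr1 : 1 ≤ x.1 * x.2 := Nat.mul_pos hp.pos hs1
  have hrl : x.1 * x.2 < l := by
    have h1 : ((x.1 * x.2 : ℕ) : ℝ) < l := by
      refine lt_of_le_of_lt (hr.trans ?_) hl2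
      calc X / Y * X ^ (2 * δ) ≤ X ^ (1 / 3 - ε) * X ^ (2 * δ) := by
            have := hs.Zhi
            gcongr
        _ = X ^ (1 / 3 - ε + 2 * δ) := by rw [← Real.rpow_add hX0]
        _ ≤ X ^ (1 / 2 : ℝ) := by
            apply Real.rpow_le_rpow_of_exponent_le (by linarith [hs.X3])
            obtain ⟨h0, h1, h2⟩ := h
            linarith
    exact_mod_cast h1
  rw [e2_cc _ _ hl hr1 hrl]
  unfold gr
  have hm : mu (x.1 * x.2) * mu (x.1 * x.2) = 1 := by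
    have := ArithmeticFunction.moebius_sq_eq_one_of_squarefree hsq
    rw [sq] at this
    exact_mod_cast this
  rw [div_mul_eq_mul_div, hm]

theorem diag (ε δ : ℝ) (h : Ok ε δ) : ∃ c : ℝ, 0 < c ∧ ∃ X₀ : ℝ, ∀ X Y : ℝ, X₀ ≤ X → Rg ε X Y →
    ∀ Q : ℕ, c * X * WW δ X Y Q - X ^ (9 / 10 : ℝ) ≤
      ∑ n ∈ Icc 1 ⌊X⌋₊, Lam n * bb δ X Y Q n := by
  classical
  have hδ0 : 0 < δ := h.1
  have hm1 : 1 ≤ mm δ := by
    unfold mm
    exact Nat.one_le_ceil_iff.2 (by positivity)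
  obtain ⟨c, hc, X1, h1⟩ := pnt_mid (mm δ) hm1
  obtain ⟨X2, h2⟩ := sizes ε δ 3 h
  obtain ⟨X3, h3⟩ := bb_le ε δ h
  refine ⟨c, hc, max X1 (max X2 X3), ?_⟩
  intro X Y hX hR Q
  have hp := h1 X ((le_max_left _ _).trans hX)
  have hs := h2 X Y (((le_max_left _ _).trans (le_max_right _ _)).trans hX) hR
  have hb := h3 X Y (((le_max_right _ _).trans (le_max_right _ _)).trans hX) hR Q
  have hX3 := hs.X3
  have hX0 : 0 < X := by linarith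
  have hlX : 0 ≤ Real.log X := Real.log_nonneg (by linarith)
  have hW : 0 ≤ WW δ X Y Q := by
    unfold WW
    refine sum_nonneg fun x _ => ?_
    unfold Pool.Agent.FG61.phi
    positivity
  have hsplit : ∑ n ∈ Icc 1 ⌊X⌋₊, Lam n * bb δ X Y Q n =
      ∑ n ∈ (Icc 1 ⌊X⌋₊).filter (fun l : ℕ => l.Prime ∧ X ^ (1 / 2 : ℝ) < l),
        Lam n * bb δ X Y Q n +
      ∑ n ∈ (Icc 1 ⌊X⌋₊).filter (fun l : ℕ => ¬ (l.Prime ∧ X ^ (1 / 2 : ℝ) < l)),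
        Lam n * bb δ X Y Q n := (sum_filter_add_sum_filter_not _ _ _).symm
  have hmain : c * X * WW δ X Y Q ≤
      ∑ n ∈ (Icc 1 ⌊X⌋₊).filter (fun l : ℕ => l.Prime ∧ X ^ (1 / 2 : ℝ) < l),
        Lam n * bb δ X Y Q n := by
    have e1 : ∑ n ∈ (Icc 1 ⌊X⌋₊).filter (fun l : ℕ => l.Prime ∧ X ^ (1 / 2 : ℝ) < l),
        Lam n * bb δ X Y Q n =
        (∑ l ∈ (Icc 1 ⌊X⌋₊).filter (fun l : ℕ => l.Prime ∧ X ^ (1 / 2 : ℝ) < l),
          Real.log l * om (mm δ) (⌊X⌋₊ / mm δ) l) * WW δ X Y Q := by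
      rw [sum_mul]
      refine sum_congr rfl fun l hl => ?_
      rw [mem_filter] at hl
      rw [e2_bb h hs (by norm_num) Q l hl.2.1 hl.2.2, Pool.Agent.FG61.Lam,
        ArithmeticFunction.vonMangoldt_apply_prime hl.2.1, MM]
      ring
    rw [e1]
    gcongr
  have hrest : |∑ n ∈ (Icc 1 ⌊X⌋₊).filter (fun l : ℕ => ¬ (l.Prime ∧ X ^ (1 / 2 : ℝ) < l)),
        Lam n * bb δ X Y Q n| ≤ X ^ (9 / 10 : ℝ) := by
    have hlog3 : 3 * Real.log X ≤ X ^ (δ ^ 2 / 100) := by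
      have h4 : (1 + Real.log X) ^ 1 ≤ (1 + Real.log X) ^ 100 :=
        pow_le_pow_right₀ (by linarith) (by norm_num)
      rw [pow_one] at h4
      have := hs.lg
      linarith
    calc |∑ n ∈ (Icc 1 ⌊X⌋₊).filter (fun l : ℕ => ¬ (l.Prime ∧ X ^ (1 / 2 : ℝ) < l)),
          Lam n * bb δ X Y Q n|
        ≤ ∑ n ∈ (Icc 1 ⌊X⌋₊).filter (fun l : ℕ => ¬ (l.Prime ∧ X ^ (1 / 2 : ℝ) < l)),
          |Lam n * bb δ X Y Q n| := abs_sum_le_sum_abs _ _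
      _ ≤ ∑ n ∈ (Icc 1 ⌊X⌋₊).filter (fun l : ℕ => ¬ (l.Prime ∧ X ^ (1 / 2 : ℝ) < l)),
          Lam n * X ^ (δ ^ 2 / 10) := by
          refine sum_le_sum fun n hn => ?_
          rw [mem_filter, mem_Icc] at hn
          rw [abs_mul, abs_of_nonneg (ArithmeticFunction.vonMangoldt_nonneg : 0 ≤ Lam n)]
          exact mul_le_mul_of_nonneg_left (hb n hn.1.1 hn.1.2) ArithmeticFunction.vonMangoldt_nonneg
      _ = (∑ n ∈ (Icc 1 ⌊X⌋₊).filter (fun l : ℕ => ¬ (l.Prime ∧ X ^ (1 / 2 : ℝ) < l)),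
          Lam n) * X ^ (δ ^ 2 / 10) := by rw [sum_mul]
      _ ≤ (3 * X ^ (1 / 2 : ℝ) * Real.log X) * X ^ (δ ^ 2 / 10) := by
          have := e2_rest X hX3
          gcongr
      _ = X ^ (1 / 2 : ℝ) * (3 * Real.log X) * X ^ (δ ^ 2 / 10) := by ring
      _ ≤ X ^ (1 / 2 : ℝ) * X ^ (δ ^ 2 / 100) * X ^ (δ ^ 2 / 10) := by gcongr
      _ = X ^ (1 / 2 + δ ^ 2 / 100 + δ ^ 2 / 10) := by
          rw [← Real.rpow_add hX0, ← Real.rpow_add hX0]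
      _ ≤ X ^ (9 / 10 : ℝ) := by
          apply Real.rpow_le_rpow_of_exponent_le (by linarith)
          have := h.2.2
          nlinarith
  rw [hsplit]
  have := (abs_le.1 hrest).1
  linarith


end

end Pool.Agent.BSD
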