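import Pool.Agent.Lib_helper26.BSD.Defs

/-! Block F1 of BSD: the characters of small conductor, Cauchy-Schwarz. -/

set_option autoImplicit false

namespace Pool.Agent.BSD

open Finset
open Pool.Agent.FG61 (mu phi Lam cc off)
open Pool.Agent.Var35 (e)

noncomputable section

/-- collecting the residue classes -/
theorem f1_collect (Q N : ℕ) (hQ : 1 ≤ Q) (b : ℕ → ℝ) (χ : DirichletCharacter ℂ Q) :
    ∑ a ∈ RC Q, (starRingEnd ℂ) (χ (a : ZMod Q)) *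
        ((∑ n ∈ (Icc 1 N).filter (fun n => n % Q = a), b n : ℝ) : ℂ) =
      (starRingEnd ℂ) (∑ n ∈ Icc 1 N, (b n : ℂ) * χ (n : ZMod Q)) := by
  have h1 : ∀ n ∈ Icc 1 N, n % Q ∈ range Q := fun n _ => mem_range.2 (Nat.mod_lt _ hQ)
  rw [map_sum, ← sum_fiberwise_of_maps_to h1, RC, sum_filter]
  refine sum_congr rfl fun a _ => ?_
  have h2 : ∀ n ∈ (Icc 1 N).filter (fun n => n % Q = a),
      (starRingEnd ℂ) ((b n : ℂ) * χ (n : ZMod Q)) =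
        (starRingEnd ℂ) (χ (a : ZMod Q)) * (b n : ℂ) := by
    intro n hn
    have h3 : ((a : ℕ) : ZMod Q) = (n : ZMod Q) := by
      rw [← (mem_filter.1 hn).2, ZMod.natCast_mod]
    rw [map_mul, Complex.conj_ofReal, h3, mul_comm]
  rw [sum_congr rfl h2, ← mul_sum]
  split_ifs with hc
  · push_cast
    rfl
  · have h4 : ¬ IsUnit ((a : ℕ) : ZMod Q) := fun h => hc ((ZMod.isUnit_iff_coprime a Q).1 h)
    rw [MulChar.map_nonunit χ h4, map_zero, zero_mul]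

theorem lo_cs (δ X Y : ℝ) (Q : ℕ) (hQ : 1 ≤ Q) :
    (∑ a ∈ RC Q, lo X Q a * uu δ X Y Q a) ^ 2 ≤ 1 / phi Q ^ 2 *
      (∑ χ ∈ LC X Q, ‖∑ n ∈ Icc 1 ⌊X⌋₊, (Lam n : ℂ) * χ (n : ZMod Q)‖ ^ 2) *
      ∑ χ ∈ LC X Q, ‖∑ n ∈ Icc 1 ⌊X⌋₊, (bb δ X Y Q n : ℂ) * χ (n : ZMod Q)‖ ^ 2 := by
  set L : DirichletCharacter ℂ Q → ℂ := fun χ =>
    ∑ n ∈ Icc 1 ⌊X⌋₊, (Lam n : ℂ) * χ (n : ZMod Q) with hL
  set B : DirichletCharacter ℂ Q → ℂ := fun χ =>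
    ∑ n ∈ Icc 1 ⌊X⌋₊, (bb δ X Y Q n : ℂ) * χ (n : ZMod Q) with hB
  have h1 : ∑ a ∈ RC Q, lo X Q a * uu δ X Y Q a =
      (∑ χ ∈ LC X Q, L χ * (starRingEnd ℂ) (B χ)).re / phi Q := by
    have h2 : ∀ a ∈ RC Q, lo X Q a * uu δ X Y Q a =
        (∑ χ ∈ LC X Q, L χ * ((starRingEnd ℂ) (χ (a : ZMod Q)) *
          ((uu δ X Y Q a : ℝ) : ℂ))).re / phi Q := by
      intro a _
      unfold lo
      have h3 : ∑ χ : DirichletCharacter ℂ Q, (if (χ.conductor : ℝ) ≤ X / Q * Real.log X ^ 8 then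
          (starRingEnd ℂ) (χ (a : ZMod Q)) * ∑ n ∈ Icc 1 ⌊X⌋₊, (Lam n : ℂ) * χ (n : ZMod Q)
            else 0) = ∑ χ ∈ LC X Q, (starRingEnd ℂ) (χ (a : ZMod Q)) * L χ := by
        rw [LC, sum_filter]
      rw [h3, div_mul_eq_mul_div, ← Complex.re_mul_ofReal, sum_mul]
      congr 2
      exact sum_congr rfl fun χ _ => by ring
    rw [sum_congr rfl h2, ← sum_div, ← Complex.re_sum, sum_comm]
    congr 2
    refine sum_congr rfl fun χ _ => ?_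
    rw [← mul_sum]
    congr 1
    exact f1_collect Q ⌊X⌋₊ hQ (fun n => bb δ X Y Q n) χ
  rw [h1, div_pow]
  have h4 : (∑ χ ∈ LC X Q, L χ * (starRingEnd ℂ) (B χ)).re ^ 2 ≤
      (∑ χ ∈ LC X Q, ‖L χ‖ ^ 2) * ∑ χ ∈ LC X Q, ‖B χ‖ ^ 2 := by
    calc (∑ χ ∈ LC X Q, L χ * (starRingEnd ℂ) (B χ)).re ^ 2
        ≤ ‖∑ χ ∈ LC X Q, L χ * (starRingEnd ℂ) (B χ)‖ ^ 2 := by
          rw [← sq_abs]
          exact pow_le_pow_left₀ (abs_nonneg _) (Complex.abs_re_le_norm _) 2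
      _ ≤ (∑ χ ∈ LC X Q, ‖L χ‖ * ‖B χ‖) ^ 2 := by
          refine pow_le_pow_left₀ (norm_nonneg _) ((norm_sum_le _ _).trans_eq ?_) 2
          exact sum_congr rfl fun χ _ => by rw [norm_mul, Complex.norm_conj]
      _ ≤ _ := sum_mul_sq_le_sq_mul_sq _ _ _
  calc (∑ χ ∈ LC X Q, L χ * (starRingEnd ℂ) (B χ)).re ^ 2 / phi Q ^ 2
      ≤ ((∑ χ ∈ LC X Q, ‖L χ‖ ^ 2) * ∑ χ ∈ LC X Q, ‖B χ‖ ^ 2) / phi Q ^ 2 :=
        div_le_div_of_nonneg_right h4 (sq_nonneg _)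
    _ = _ := by ring

end

end Pool.Agent.BSD

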