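import Pool.Agent.Lib_helper26.BSD.Defs

/-!
# Project BSD (MP_5dd4bb_nt): block F2
-/

set_option autoImplicit false

namespace Pool.Agent.BSD

open Finset
open Pool.Agent.FG61 (mu phi Lam cc off)
open Pool.Agent.Var35 (e)

noncomputable section

theorem f2_eval (Q : ℕ) (hQ : 1 ≤ Q) (χ : DirichletCharacter ℂ Q) (n : ℕ) :
    χ (n : ZMod Q) = if n.Coprime Q then χ.primitiveCharacter (n : ZMod χ.conductor) else 0 := by
  haveI : NeZero Q := ⟨by omega⟩
  split_ifs with h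
  · have h1 : DirichletCharacter.changeLevel χ.conductor_dvd_level χ.primitiveCharacter = χ :=
      DirichletCharacter.changeLevel_primitiveCharacter χ
    have h2 : (n : ZMod Q) = ((ZMod.unitOfCoprime n h : (ZMod Q)ˣ) : ZMod Q) := by
      simp
    conv_lhs => rw [← h1, h2]
    rw [DirichletCharacter.changeLevel_eq_cast_of_dvd]
    congr 1
    rw [← h2]
    exact ZMod.cast_natCast χ.conductor_dvd_level n
  · refine MulChar.map_nonunit _ ?_
    rw [ZMod.isUnit_iff_coprime]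
    exact h

/-- F2 -/
theorem ch_reduce (X : ℝ) (Q N : ℕ) (hQ : 1 ≤ Q) (F : ℕ → ℝ) :
    ∑ χ ∈ LC X Q, ‖∑ n ∈ Icc 1 N, (F n : ℂ) * χ (n : ZMod Q)‖ ^ 2 ≤
      ∑ r ∈ Q.divisors.filter (fun r : ℕ => (r : ℝ) ≤ X / Q * Real.log X ^ 8),
        ∑ χ : DirichletCharacter ℂ r,
          ‖∑ n ∈ (Icc 1 N).filter (fun n => n.Coprime Q), (F n : ℂ) * χ (n : ZMod r)‖ ^ 2 := by
  classical
  haveI : NeZero Q := ⟨by omega⟩
  rw [Finset.sum_sigma']
  have hinj : Set.InjOn (fun χ : DirichletCharacter ℂ Q =>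
      (⟨χ.conductor, χ.primitiveCharacter⟩ : Σ r : ℕ, DirichletCharacter ℂ r)) (LC X Q) := by
    intro χ₁ _ χ₂ _ h12
    have hlift : ∀ χ : DirichletCharacter ℂ Q,
        (fun y : Σ r : ℕ, DirichletCharacter ℂ r => if h : y.1 ∣ Q then
          DirichletCharacter.changeLevel h y.2 else 1) ⟨χ.conductor, χ.primitiveCharacter⟩ = χ := by
      intro χ
      simp only
      rw [dif_pos χ.conductor_dvd_level]
      exact DirichletCharacter.changeLevel_primitiveCharacter χ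
    have h3 := congrArg (fun y : Σ r : ℕ, DirichletCharacter ℂ r => if h : y.1 ∣ Q then
          DirichletCharacter.changeLevel h y.2 else 1) h12
    exact (hlift χ₁).symm.trans (h3.trans (hlift χ₂))
  have h1 : ∑ χ ∈ LC X Q, ‖∑ n ∈ Icc 1 N, (F n : ℂ) * χ (n : ZMod Q)‖ ^ 2 =
      ∑ y ∈ (LC X Q).image (fun χ : DirichletCharacter ℂ Q =>
        (⟨χ.conductor, χ.primitiveCharacter⟩ : Σ r : ℕ, DirichletCharacter ℂ r)),
        ‖∑ n ∈ (Icc 1 N).filter (fun n => n.Coprime Q), (F n : ℂ) * y.2 (n : ZMod y.1)‖ ^ 2 := by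
    rw [Finset.sum_image hinj]
    refine Finset.sum_congr rfl (fun χ _ => ?_)
    congr 2
    rw [Finset.sum_filter]
    refine Finset.sum_congr rfl (fun n _ => ?_)
    rw [f2_eval Q hQ χ n]
    split_ifs with h
    · rfl
    · rw [mul_zero]
  rw [h1]
  refine Finset.sum_le_sum_of_subset_of_nonneg ?_ (fun _ _ _ => by positivity)
  intro y hy
  obtain ⟨χ, hχ, rfl⟩ := Finset.mem_image.1 hy
  rw [LC, Finset.mem_filter] at hχ
  rw [Finset.mem_sigma]
  refine ⟨?_, Finset.mem_univ _⟩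
  rw [Finset.mem_filter, Nat.mem_divisors]
  exact ⟨⟨χ.conductor_dvd_level, by omega⟩, hχ.2⟩

end

end Pool.Agent.BSD

section
end
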