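import Pool.Agent.Lib_helper26.BSD.Defs
import Pool.Agent.Lib_helper26.BSD.B1
import Pool.Agent.Lib_helper26.BSD.F2

set_option autoImplicit false

namespace Pool.Agent.BSD

open Finset
open Pool.Agent.FG61 (mu phi Lam cc off)
open Pool.Agent.Var35 (e)

noncomputable section

theorem f3_conj {r : ℕ} [NeZero r] (χ : DirichletCharacter ℂ r) {s : ZMod r} (hs : IsUnit s) :
    (starRingEnd ℂ) (χ s) = χ s⁻¹ := by
  have h1 : star (χ s) = χ⁻¹ s := MulChar.star_apply' χ s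
  rw [← RCLike.star_def, h1]
  obtain ⟨u, rfl⟩ := hs
  have h2 : ((u : ZMod r))⁻¹ = ((u⁻¹ : (ZMod r)ˣ) : ZMod r) := by
    exact (ZMod.inv_coe_unit u)
  rw [h2, MulChar.inv_apply_eq_inv']
  symm
  refine eq_inv_of_mul_eq_one_left ?_
  rw [← map_mul, ← Units.val_mul, inv_mul_cancel, Units.val_one, map_one]

theorem ch_orth (r : ℕ) (hr : 1 ≤ r) (T : Finset ℕ) (F : ℕ → ℝ) :
    ∑ χ : DirichletCharacter ℂ r, ‖∑ n ∈ T, (F n : ℂ) * χ (n : ZMod r)‖ ^ 2 ≤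
      r * ∑ n ∈ T, ∑ k ∈ T.filter (fun k => k % r = n % r ∧ k.Coprime r), |F n| * |F k| := by
  have : NeZero r := ⟨by omega⟩
  have key : ∀ χ : DirichletCharacter ℂ r, ((‖∑ n ∈ T, (F n : ℂ) * χ (n : ZMod r)‖ ^ 2 : ℝ) : ℂ) =
      ∑ n ∈ T, ∑ k ∈ T, ((F n * F k : ℝ) : ℂ) *
        (if k.Coprime r then χ (k : ZMod r)⁻¹ * χ (n : ZMod r) else 0) := by
    intro χ
    rw [Complex.ofReal_pow, ← Complex.mul_conj', map_sum, sum_mul_sum]
    refine sum_congr rfl fun n _ => sum_congr rfl fun k _ => ?_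
    rw [map_mul, Complex.conj_ofReal]
    by_cases hk : k.Coprime r
    · rw [if_pos hk, f3_conj χ ((ZMod.isUnit_iff_coprime k r).2 hk)]
      push_cast; ring
    · rw [if_neg hk, MulChar.map_nonunit χ (fun hu => hk ((ZMod.isUnit_iff_coprime k r).1 hu))]
      simp
  have h2 : ((∑ χ : DirichletCharacter ℂ r, ‖∑ n ∈ T, (F n : ℂ) * χ (n : ZMod r)‖ ^ 2 : ℝ) : ℂ) =
      ((∑ n ∈ T, ∑ k ∈ T.filter (fun k => k % r = n % r ∧ k.Coprime r),
        F n * F k * (r.totient : ℝ) : ℝ) : ℂ) := by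
    rw [Complex.ofReal_sum, sum_congr rfl fun χ _ => key χ, sum_comm, Complex.ofReal_sum]
    refine sum_congr rfl fun n _ => ?_
    rw [sum_comm, sum_filter, Complex.ofReal_sum]
    refine sum_congr rfl fun k _ => ?_
    rw [← mul_sum]
    by_cases hk : k.Coprime r
    · simp only [if_pos hk]
      rw [DirichletCharacter.sum_char_inv_mul_char_eq ℂ ((ZMod.isUnit_iff_coprime k r).2 hk)]
      have h3 : ((k : ZMod r) = (n : ZMod r)) ↔ (k % r = n % r ∧ k.Coprime r) := by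
        rw [ZMod.natCast_eq_natCast_iff']
        exact ⟨fun h => ⟨h, hk⟩, fun h => h.1⟩
      by_cases h4 : (k : ZMod r) = (n : ZMod r)
      · rw [if_pos h4, if_pos (h3.1 h4)]; push_cast; ring
      · rw [if_neg h4, if_neg (fun h => h4 (h3.2 h))]; simp
    · simp only [if_neg hk]
      rw [if_neg (fun h => hk h.2)]
      simp
  have h3 : ∑ χ : DirichletCharacter ℂ r, ‖∑ n ∈ T, (F n : ℂ) * χ (n : ZMod r)‖ ^ 2 =
      ∑ n ∈ T, ∑ k ∈ T.filter (fun k => k % r = n % r ∧ k.Coprime r),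
        F n * F k * (r.totient : ℝ) := by exact_mod_cast h2
  rw [h3, mul_sum]
  refine sum_le_sum fun n _ => ?_
  rw [mul_sum]
  refine sum_le_sum fun k _ => ?_
  have h4 : (r.totient : ℝ) ≤ r := by exact_mod_cast Nat.totient_le r
  calc F n * F k * (r.totient : ℝ) ≤ |F n * F k| * r := by
        refine mul_le_mul (le_abs_self _) h4 (by positivity) (abs_nonneg _)
    _ = r * (|F n| * |F k|) := by rw [abs_mul]; ring

theorem lam_low (ε δ : ℝ) (h : Ok ε δ) : ∃ X₀ : ℝ, ∀ X Y : ℝ, X₀ ≤ X → Rg ε X Y → ∀ Q ∈ IY Y,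
    ∑ χ ∈ LC X Q, ‖∑ n ∈ Icc 1 ⌊X⌋₊, (Lam n : ℂ) * χ (n : ZMod Q)‖ ^ 2 ≤ X ^ (2 + δ) := by
  obtain ⟨C, hC0, hC⟩ := Pool.Agent.FG61.divisor_bound (ε := δ / 4) (by linarith [h.1])
  obtain ⟨X₁, h1⟩ := sizes ε δ (6 * C + 1) h
  refine ⟨X₁, fun X Y hX hR Q hQ => ?_⟩
  have hs := h1 X Y hX hR
  obtain ⟨hδ, hε, hδ2⟩ := h
  have hX3 := hs.X3
  have hX0 : (0 : ℝ) < X := by linarith
  have hX1 : (1 : ℝ) ≤ X := by linarith
  have hYX := hs.YX
  unfold IY at hQ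
  rw [mem_filter, mem_Icc] at hQ
  obtain ⟨⟨hQ1, hQ2⟩, hQ3⟩ := hQ
  have hY0 : 0 < Y := lt_of_lt_of_le (by positivity) hs.Y1
  have hQX : (Q : ℝ) ≤ 2 * X := by
    have := (Nat.le_floor_iff (by linarith)).1 hQ2
    linarith
  have hl : 0 ≤ Real.log X := Real.log_nonneg hX1
  set L : ℝ := 1 + Real.log X with hL
  have hL1 : 1 ≤ L := by linarith
  have hLam : ∀ n ∈ Icc 1 ⌊X⌋₊, |Lam n| ≤ L := by
    intro n hn
    rw [mem_Icc] at hn
    have h2 : (n : ℝ) ≤ X := (Nat.le_floor_iff hX0.le).1 hn.2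
    have h3 : (1 : ℝ) ≤ n := by exact_mod_cast hn.1
    unfold Lam
    rw [abs_of_nonneg ArithmeticFunction.vonMangoldt_nonneg]
    refine ArithmeticFunction.vonMangoldt_le_log.trans ?_
    have := Real.log_le_log (by linarith) h2
    linarith
  have hfl : ((⌊X⌋₊ : ℕ) : ℝ) ≤ X := Nat.floor_le hX0.le
  refine (ch_reduce X Q ⌊X⌋₊ hQ1 Lam).trans ?_
  have hr : ∀ r ∈ Q.divisors.filter (fun r : ℕ => (r : ℝ) ≤ X / Q * Real.log X ^ 8),
      ∑ χ : DirichletCharacter ℂ r,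
          ‖∑ n ∈ (Icc 1 ⌊X⌋₊).filter (fun n => n.Coprime Q), (Lam n : ℂ) * χ (n : ZMod r)‖ ^ 2 ≤
        3 * X ^ 2 * L ^ 2 := by
    intro r hr
    rw [mem_filter, Nat.mem_divisors] at hr
    obtain ⟨⟨hrQ, hQn⟩, hr2⟩ := hr
    have hr1 : 1 ≤ r := Nat.pos_of_dvd_of_pos hrQ hQ1
    have hr0 : (0 : ℝ) < r := by exact_mod_cast hr1
    have hrX : (r : ℝ) ≤ 2 * X := by
      have : r ≤ Q := Nat.le_of_dvd hQ1 hrQ
      have : (r : ℝ) ≤ Q := by exact_mod_cast this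
      linarith
    refine (ch_orth r hr1 _ Lam).trans ?_
    set T := (Icc 1 ⌊X⌋₊).filter (fun n => n.Coprime Q) with hT
    have hTs : T ⊆ Icc 1 ⌊X⌋₊ := filter_subset _ _
    have h4 : ∀ n ∈ T, ∑ k ∈ T.filter (fun k => k % r = n % r ∧ k.Coprime r), |Lam n| * |Lam k| ≤
        (X / r + 1) * L ^ 2 := by
      intro n hn
      have h5 : ∀ k ∈ T.filter (fun k => k % r = n % r ∧ k.Coprime r),
          |Lam n| * |Lam k| ≤ L ^ 2 := by
        intro k hk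
        rw [pow_two]
        exact mul_le_mul (hLam n (hTs hn)) (hLam k (hTs (mem_filter.1 hk).1)) (abs_nonneg _)
          (by linarith)
      refine (sum_le_sum h5).trans ?_
      rw [sum_const, nsmul_eq_mul]
      refine mul_le_mul_of_nonneg_right ?_ (by positivity)
      have h6 : (T.filter (fun k => k % r = n % r ∧ k.Coprime r)).card ≤
          ((Icc 1 ⌊X⌋₊).filter (fun m => m % r = n % r)).card := by
        refine card_le_card fun k hk => ?_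
        rw [mem_filter] at hk ⊢
        exact ⟨hTs hk.1, hk.2.1⟩
      have h7 := Pool.Agent.FG61.DU_count ⌊X⌋₊ r n hr1
      have h8 : (((T.filter (fun k => k % r = n % r ∧ k.Coprime r)).card : ℕ) : ℝ) ≤
          (((Icc 1 ⌊X⌋₊).filter (fun m => m % r = n % r)).card : ℝ) := by exact_mod_cast h6
      refine h8.trans (h7.trans ?_)
      gcongr
    have h9 : (T.card : ℝ) ≤ X := by
      have : T.card ≤ (Icc 1 ⌊X⌋₊).card := card_le_card hTs
      rw [Nat.card_Icc, Nat.add_sub_cancel] at this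
      exact (by exact_mod_cast this : (T.card : ℝ) ≤ (⌊X⌋₊ : ℝ)).trans hfl
    calc (r : ℝ) * ∑ n ∈ T, ∑ k ∈ T.filter (fun k => k % r = n % r ∧ k.Coprime r),
          |Lam n| * |Lam k| ≤ r * ∑ n ∈ T, (X / r + 1) * L ^ 2 :=
            mul_le_mul_of_nonneg_left (sum_le_sum h4) hr0.le
      _ = (T.card : ℝ) * ((X + r) * L ^ 2) := by
          rw [sum_const, nsmul_eq_mul]; field_simp
      _ ≤ X * ((X + 2 * X) * L ^ 2) := by gcongr
      _ = 3 * X ^ 2 * L ^ 2 := by ring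
  refine (sum_le_sum hr).trans ?_
  rw [sum_const, nsmul_eq_mul]
  have h10 : ((Q.divisors.filter (fun r : ℕ => (r : ℝ) ≤ X / Q * Real.log X ^ 8)).card : ℝ) ≤
      2 * C * X ^ (δ / 4) := by
    have h11 : ((Q.divisors.filter (fun r : ℕ => (r : ℝ) ≤ X / Q * Real.log X ^ 8)).card : ℝ) ≤
        (Q.divisors.card : ℝ) := by exact_mod_cast card_filter_le _ _
    refine h11.trans ((hC Q hQ1).trans ?_)
    calc C * (Q : ℝ) ^ (δ / 4) ≤ C * (2 * X) ^ (δ / 4) := by gcongr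
      _ = C * ((2 : ℝ) ^ (δ / 4) * X ^ (δ / 4)) := by
          rw [Real.mul_rpow (by norm_num) hX0.le]
      _ ≤ C * (2 * X ^ (δ / 4)) := by
          have : (2 : ℝ) ^ (δ / 4) ≤ 2 ^ (1 : ℝ) :=
            Real.rpow_le_rpow_of_exponent_le (by norm_num) (by linarith)
          rw [Real.rpow_one] at this
          gcongr
      _ = 2 * C * X ^ (δ / 4) := by ring
  have h12 : 6 * C * L ^ 2 ≤ X ^ (δ ^ 2 / 100) := by
    refine le_trans ?_ hs.lg
    have : L ^ 2 ≤ L ^ 100 := pow_le_pow_right₀ hL1 (by norm_num)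
    have h13 : 0 ≤ L ^ 100 := by positivity
    calc 6 * C * L ^ 2 ≤ 6 * C * L ^ 100 := by gcongr
      _ ≤ (6 * C + 1) * L ^ 100 := by nlinarith
  have hX2 : X ^ (2 : ℝ) = X ^ 2 := by exact_mod_cast Real.rpow_natCast X 2
  calc ((Q.divisors.filter (fun r : ℕ => (r : ℝ) ≤ X / Q * Real.log X ^ 8)).card : ℝ) *
        (3 * X ^ 2 * L ^ 2) ≤ (2 * C * X ^ (δ / 4)) * (3 * X ^ 2 * L ^ 2) := by gcongr
    _ = (6 * C * L ^ 2) * X ^ (δ / 4) * X ^ 2 := by ring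
    _ ≤ X ^ (δ ^ 2 / 100) * X ^ (δ / 4) * X ^ 2 := by gcongr
    _ = X ^ (δ ^ 2 / 100 + δ / 4 + 2) := by
        rw [← hX2, Real.rpow_add hX0, Real.rpow_add hX0]
    _ ≤ X ^ (2 + δ) := Real.rpow_le_rpow_of_exponent_le hX1 (by nlinarith)

end

end Pool.Agent.BSD

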