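import Pool.Agent.Lib_helper26.BSD.Defs
import Pool.Agent.Lib_helper26.BSD.A1
import Pool.Agent.Lib_helper26.BSD.A2
import Pool.Agent.Lib_helper26.BSD.B1

/-!
# Project BSD (MP_5dd4bb_nt), block F4: the test function in residue classes
-/

set_option autoImplicit false

namespace Pool.Agent.BSD

open Finset
open Pool.Agent.FG61 (mu phi Lam cc off)
open Pool.Agent.Var35 (e)

noncomputable section

/-- detection of a residue class -/
theorem f4_class (D c : ℕ) (hD : 1 ≤ D) (hc : c < D) (N : ℕ) (f : ℕ → ℂ) :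
    ∑ n ∈ (Icc 1 N).filter (fun n => n % D = c), f n =
      (1 / (D : ℂ)) * ∑ k ∈ range D, e (-((k : ℝ) * ((c : ℝ) / D))) *
        ∑ n ∈ Icc 1 N, f n * e (n * ((k : ℝ) / D)) := by
  have hD0 : (D : ℂ) ≠ 0 := by
    have : D ≠ 0 := by omega
    exact_mod_cast this
  have h1 : ∑ k ∈ range D, e (-((k : ℝ) * ((c : ℝ) / D))) *
      ∑ n ∈ Icc 1 N, f n * e (n * ((k : ℝ) / D)) =
      ∑ n ∈ Icc 1 N, f n * (if (D : ℤ) ∣ ((n : ℤ) - (c : ℤ)) then (D : ℂ) else 0) := by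
    simp only [mul_sum]
    rw [sum_comm]
    refine sum_congr rfl fun n _ => ?_
    rw [← Pool.Agent.Var35.sum_roots D (by omega) ((n : ℤ) - (c : ℤ)), mul_sum]
    refine sum_congr rfl fun k _ => ?_
    have h2 : e ((k : ℝ) * ((((n : ℤ) - (c : ℤ) : ℤ) : ℝ) / D)) =
        e (-((k : ℝ) * ((c : ℝ) / D))) * e (n * ((k : ℝ) / D)) := by
      rw [← Pool.Agent.Var35.e_add]
      congr 1
      push_cast
      ring
    rw [h2]
    ring
  rw [h1, mul_sum, sum_filter]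
  refine sum_congr rfl fun n _ => ?_
  have h3 : ((D : ℤ) ∣ ((n : ℤ) - (c : ℤ))) ↔ n % D = c := by
    rw [← Int.modEq_iff_dvd, Int.natCast_modEq_iff, Nat.ModEq, Nat.mod_eq_of_lt hc]
    exact eq_comm
  by_cases h4 : n % D = c
  · rw [if_pos h4, if_pos (h3.2 h4)]
    field_simp
  · rw [if_neg h4, if_neg fun h => h4 (h3.1 h)]
    simp

/-- separation -/
theorem f4_sep {p r D : ℕ} (hp : p.Prime) (hpr : p ∣ r) (hr : 1 ≤ r) (hD : 1 ≤ D)
    (hpD : ¬ p ∣ D) {a : ℕ} (ha : a.Coprime r) (k : ℕ) (j : ℤ) :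
    1 / ((r : ℝ) * D) ≤ |(a : ℝ) / r + (k : ℝ) / D - j| := by
  have hrr : (0 : ℝ) < r := by exact_mod_cast hr
  have hDr : (0 : ℝ) < D := by exact_mod_cast hD
  have h1 : (a : ℝ) / r + (k : ℝ) / D - j =
      (((a : ℤ) * D + k * r - j * r * D : ℤ) : ℝ) / (r * D) := by
    push_cast
    field_simp
  rw [h1, abs_div, abs_of_pos (mul_pos hrr hDr)]
  refine div_le_div_of_nonneg_right ?_ (mul_pos hrr hDr).le
  have h2 : ((a : ℤ) * D + k * r - j * r * D : ℤ) ≠ 0 := by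
    intro h2
    have h3 : (p : ℤ) ∣ (a : ℤ) * D := by
      have h4 : (a : ℤ) * D = (r : ℤ) * (j * D - k) := by linear_combination h2
      rw [h4]
      exact Dvd.dvd.mul_right (by exact_mod_cast hpr) _
    have h5 : p ∣ a * D := by exact_mod_cast h3
    rcases hp.dvd_mul.1 h5 with h6 | h6
    · have h7 : p ∣ Nat.gcd a r := Nat.dvd_gcd h6 hpr
      rw [ha] at h7
      exact hp.one_lt.ne' (Nat.dvd_one.1 h7)
    · exact hpD h6
  have h3 : (1 : ℤ) ≤ |(a : ℤ) * D + k * r - j * r * D| := Int.one_le_abs h2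
  exact_mod_cast h3

/-- the exponential sum of the test function -/
theorem f4_hat {δ X Y : ℝ} {Q : ℕ} (hm : 1 ≤ mm δ) (hN : mm δ * MM δ X ≤ ⌊X⌋₊)
    (hR : ∀ x ∈ RR δ X Y Q, 1 ≤ x.1 * x.2) (α : ℝ) :
    ∑ n ∈ Icc 1 ⌊X⌋₊, ((bb δ X Y Q n : ℝ) : ℂ) * e (n * α) =
      ∑ x ∈ RR δ X Y Q, (gr (x.1 * x.2) : ℂ) *
        ∑ a ∈ (range (x.1 * x.2)).filter (fun a => a.Coprime (x.1 * x.2)),
          Wh (mm δ) (MM δ X) ((a : ℝ) / ((x.1 * x.2 : ℕ) : ℝ) + α) := by
  have h1 : ∀ n ∈ Icc 1 ⌊X⌋₊, ((bb δ X Y Q n : ℝ) : ℂ) * e (n * α) =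
      ∑ x ∈ RR δ X Y Q, ∑ a ∈ (range (x.1 * x.2)).filter (fun a => a.Coprime (x.1 * x.2)),
        (gr (x.1 * x.2) : ℂ) * ((om (mm δ) (MM δ X) n : ℂ) *
          e (n * ((a : ℝ) / ((x.1 * x.2 : ℕ) : ℝ) + α))) := by
    intro n _
    unfold bb
    rw [Complex.ofReal_mul, Complex.ofReal_sum, mul_sum, sum_mul]
    refine sum_congr rfl fun x hx => ?_
    rw [Complex.ofReal_mul, Pool.Agent.FG61.cc_exp _ n (hR x hx), mul_sum, mul_sum, sum_mul]
    refine sum_congr rfl fun a _ => ?_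
    have h2 : e (n * ((a : ℝ) / ((x.1 * x.2 : ℕ) : ℝ) + α)) =
        e ((a : ℝ) * n / ((x.1 * x.2 : ℕ) : ℝ)) * e (n * α) := by
      rw [← Pool.Agent.Var35.e_add]
      congr 1
      ring
    rw [h2]
    ring
  rw [sum_congr rfl h1, sum_comm]
  refine sum_congr rfl fun x _ => ?_
  rw [sum_comm, mul_sum]
  refine sum_congr rfl fun a _ => ?_
  rw [← mul_sum, om_hat (mm δ) (MM δ X) ⌊X⌋₊ hm hN]

theorem f4_gr (r : ℕ) : |gr r| * (((range r).filter fun a => a.Coprime r).card : ℝ) ≤ 1 := by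
  have h1 : ((range r).filter fun a => a.Coprime r).card = Nat.totient r := by
    rw [Nat.totient_eq_card_coprime]
    congr 1
    exact filter_congr fun a _ => Nat.coprime_comm
  rw [h1]
  unfold gr
  rw [abs_div]
  have h2 : |mu r| ≤ 1 := by
    have := ArithmeticFunction.abs_moebius_le_one (n := r)
    exact_mod_cast this
  have h3 : |phi r| = ((Nat.totient r : ℕ) : ℝ) := abs_of_nonneg (Nat.cast_nonneg _)
  rw [h3]
  rcases eq_or_ne (Nat.totient r : ℝ) 0 with h4 | h4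
  · rw [h4]; simp
  · rw [div_mul_cancel₀ _ h4]
    exact h2

theorem bb_res (ε δ : ℝ) (h : Ok ε δ) : ∃ X₀ : ℝ, ∀ X Y : ℝ, X₀ ≤ X → Rg ε X Y →
    ∀ Q D c : ℕ, 1 ≤ D → (D : ℝ) ≤ Y * X ^ (-(3 * δ)) → (∀ p ∈ PS δ X Y, ¬ p ∣ D) →
    |∑ n ∈ (Icc 1 ⌊X⌋₊).filter (fun n => n % D = c), bb δ X Y Q n| ≤ X ^ (-(20 : ℝ)) := by
  have hδ : 0 < δ := h.1
  have hmr : 100 / δ ≤ (mm δ : ℝ) := Nat.le_ceil _
  have hm1 : 1 ≤ mm δ := by
    have h1 : (0 : ℝ) < mm δ := lt_of_lt_of_le (by positivity) hmr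
    exact_mod_cast h1
  have hA : (1 : ℝ) ≤ (mm δ : ℝ) := by exact_mod_cast hm1
  obtain ⟨X₀, hX₀⟩ := sizes ε δ (mm δ : ℝ) h
  refine ⟨X₀, fun X Y hX hR Q D c hD hDY hPD => ?_⟩
  have hs := hX₀ X Y hX hR
  have hX3 := hs.X3
  have hX0 : (0 : ℝ) < X := by linarith
  have hX1 : (1 : ℝ) ≤ X := by linarith
  have hY0 : 0 < Y := lt_of_lt_of_le (Real.rpow_pos_of_pos hX0 _) hs.Y1
  have hpow : ∀ {u v : ℝ}, u ≤ v → X ^ u ≤ X ^ v := fun huv =>
    Real.rpow_le_rpow_of_exponent_le hX1 huv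
  rcases le_or_gt D c with hcD | hcD
  · have h1 : (Icc 1 ⌊X⌋₊).filter (fun n => n % D = c) = ∅ := by
      refine filter_eq_empty_iff.2 fun n _ hn => ?_
      have := Nat.mod_lt n (by omega : 0 < D)
      omega
    rw [h1, sum_empty, abs_zero]
    exact (Real.rpow_pos_of_pos hX0 _).le
  · have hRm := fun x hx => rr_mem h hs hA Q x hx
    have hR1 : ∀ x ∈ RR δ X Y Q, 1 ≤ x.1 * x.2 := fun x hx => by
      obtain ⟨h1, -, -, h2, -⟩ := hRm x hx
      exact Nat.one_le_iff_ne_zero.2 (mul_ne_zero h1.ne_zero (by omega))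
    -- the size of m
    have hmX : (mm δ : ℝ) ≤ X ^ (δ / 2) := by
      have h1 : (mm δ : ℝ) * 1 ≤ (mm δ : ℝ) * (1 + Real.log X) ^ 100 := by
        refine mul_le_mul_of_nonneg_left ?_ (by linarith)
        exact one_le_pow₀ (by linarith [Real.log_nonneg hX1])
      rw [mul_one] at h1
      refine h1.trans (hs.lg.trans (hpow ?_))
      have := h.2.2
      nlinarith
    have hM0 : (0 : ℝ) < MM δ X := by exact_mod_cast hs.M1
    -- the bound for the Fourier transform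
    have hW : ∀ x ∈ RR δ X Y Q, ∀ a : ℕ, a.Coprime (x.1 * x.2) → ∀ k : ℕ,
        ‖Wh (mm δ) (MM δ X) ((a : ℝ) / ((x.1 * x.2 : ℕ) : ℝ) + (k : ℝ) / D)‖ ≤
          X ^ (-(49 : ℝ)) := by
      intro x hx a ha k
      obtain ⟨hp, hpK, hpu, hs1, hs2, -, -, hcop, -, hru, -⟩ := hRm x hx
      have hpS : x.1 ∈ PS δ X Y := (mem_product.1 hx).1
      have hrr : (0 : ℝ) < ((x.1 * x.2 : ℕ) : ℝ) := by exact_mod_cast hR1 x hx
      have hDr : (0 : ℝ) < (D : ℝ) := by exact_mod_cast hD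
      have hd : (0 : ℝ) < 1 / (((x.1 * x.2 : ℕ) : ℝ) * D) := by positivity
      refine (Wh_dec (mm δ) (MM δ X) hm1 hs.M1 _ _ hd fun j =>
        f4_sep hp (Dvd.intro _ rfl) (hR1 x hx) hD (hPD x.1 hpS) ha k j).trans ?_
      have h1 : ((x.1 * x.2 : ℕ) : ℝ) * D ≤ X * X ^ (-δ) := by
        calc ((x.1 * x.2 : ℕ) : ℝ) * D ≤ (X / Y * X ^ (2 * δ)) * (Y * X ^ (-(3 * δ))) :=
              mul_le_mul hru hDY hDr.le (by positivity)
          _ = X * (X ^ (2 * δ) * X ^ (-(3 * δ))) := by field_simp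
          _ = X * X ^ (-δ) := by
              rw [← Real.rpow_add hX0]
              congr 2
              ring
      have h2 : X / (mm δ : ℝ) ≤ 2 * MM δ X := by
        have h3 := hs.Mlo
        have h4 : X / (2 * (mm δ : ℝ)) = X / (mm δ : ℝ) / 2 := by field_simp
        rw [h4] at h3
        linarith
      have h3 : 1 / (2 * (MM δ X : ℝ) * (1 / (((x.1 * x.2 : ℕ) : ℝ) * D))) ≤
          X ^ (-(δ / 2)) := by
        have h4 : 1 / (2 * (MM δ X : ℝ) * (1 / (((x.1 * x.2 : ℕ) : ℝ) * D))) =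
            (((x.1 * x.2 : ℕ) : ℝ) * D) / (2 * MM δ X) := by
          field_simp
        rw [h4, div_le_iff₀ (by positivity)]
        calc ((x.1 * x.2 : ℕ) : ℝ) * D ≤ X * X ^ (-δ) := h1
          _ = (X ^ (-(δ / 2)) * X ^ (-(δ / 2))) * X := by
              rw [← Real.rpow_add hX0, mul_comm]
              congr 2
              ring
          _ = X ^ (-(δ / 2)) * (X * X ^ (-(δ / 2))) := by ring
          _ ≤ X ^ (-(δ / 2)) * (X / (mm δ : ℝ)) := by
              refine mul_le_mul_of_nonneg_left ?_ (Real.rpow_pos_of_pos hX0 _).le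
              rw [div_eq_mul_inv]
              refine mul_le_mul_of_nonneg_left ?_ hX0.le
              rw [Real.rpow_neg hX0.le]
              exact inv_anti₀ (by linarith) hmX
          _ ≤ X ^ (-(δ / 2)) * (2 * MM δ X) :=
              mul_le_mul_of_nonneg_left h2 (Real.rpow_pos_of_pos hX0 _).le
      have h5 : (1 / (2 * (MM δ X : ℝ) * (1 / (((x.1 * x.2 : ℕ) : ℝ) * D)))) ^ (mm δ) ≤
          X ^ (-(50 : ℝ)) := by
        refine (pow_le_pow_left₀ (by positivity) h3 _).trans ?_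
        rw [← Real.rpow_natCast, ← Real.rpow_mul hX0.le]
        refine hpow ?_
        have h6 : 100 ≤ (mm δ : ℝ) * δ := by
          rwa [div_le_iff₀ hδ] at hmr
        nlinarith
      calc (MM δ X : ℝ) * (1 / (2 * (MM δ X : ℝ) * (1 / (((x.1 * x.2 : ℕ) : ℝ) * D)))) ^ (mm δ)
          ≤ X * X ^ (-(50 : ℝ)) := mul_le_mul hs.Mhi h5 (by positivity) hX0.le
        _ = X ^ (-(49 : ℝ)) := by
            nth_rewrite 1 [← Real.rpow_one X]
            rw [← Real.rpow_add hX0]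
            norm_num
    -- the exponential sums
    have hE : ∀ k : ℕ, ‖∑ n ∈ Icc 1 ⌊X⌋₊, ((bb δ X Y Q n : ℝ) : ℂ) * e (n * ((k : ℝ) / D))‖ ≤
        ((RR δ X Y Q).card : ℝ) * X ^ (-(49 : ℝ)) := by
      intro k
      rw [f4_hat hm1 hs.mM hR1]
      refine (norm_sum_le _ _).trans ?_
      rw [← nsmul_eq_mul]
      refine sum_le_card_nsmul _ _ _ fun x hx => ?_
      rw [norm_mul, Complex.norm_real, Real.norm_eq_abs]
      calc |gr (x.1 * x.2)| * ‖∑ a ∈ (range (x.1 * x.2)).filter (fun a => a.Coprime (x.1 * x.2)),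
              Wh (mm δ) (MM δ X) ((a : ℝ) / ((x.1 * x.2 : ℕ) : ℝ) + (k : ℝ) / D)‖
          ≤ |gr (x.1 * x.2)| *
              ((((range (x.1 * x.2)).filter fun a => a.Coprime (x.1 * x.2)).card : ℝ) *
                X ^ (-(49 : ℝ))) := by
            refine mul_le_mul_of_nonneg_left ?_ (abs_nonneg _)
            refine (norm_sum_le _ _).trans ?_
            rw [← nsmul_eq_mul]
            exact sum_le_card_nsmul _ _ _ fun a ha => hW x hx a (mem_filter.1 ha).2 k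
        _ = (|gr (x.1 * x.2)| *
              (((range (x.1 * x.2)).filter fun a => a.Coprime (x.1 * x.2)).card : ℝ)) *
                X ^ (-(49 : ℝ)) := by ring
        _ ≤ 1 * X ^ (-(49 : ℝ)) :=
            mul_le_mul_of_nonneg_right (f4_gr _) (Real.rpow_pos_of_pos hX0 _).le
        _ = X ^ (-(49 : ℝ)) := one_mul _
    -- the number of pairs
    have hcard : ((RR δ X Y Q).card : ℝ) ≤ X * X := by
      unfold RR
      rw [card_product, Nat.cast_mul]
      refine mul_le_mul ?_ ?_ (Nat.cast_nonneg _) hX0.le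
      · have h1 : ((PS δ X Y).card : ℝ) ≤ (⌊(KK δ X Y : ℝ) ^ (1 + δ)⌋₊ : ℝ) := by
          have h2 : (PS δ X Y).card ≤ (Icc 1 ⌊(KK δ X Y : ℝ) ^ (1 + δ)⌋₊).card :=
            card_filter_le _ _
          rw [Nat.card_Icc, Nat.add_sub_cancel] at h2
          exact_mod_cast h2
        refine h1.trans ((Nat.floor_le (by positivity)).trans (hs.Kpow.trans ?_))
        calc X / Y * X ^ (3 / 2 * δ) ≤ X ^ (1 / 3 - ε) * X ^ (3 / 2 * δ) :=
              mul_le_mul_of_nonneg_right hs.Zhi (Real.rpow_pos_of_pos hX0 _).le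
          _ = X ^ (1 / 3 - ε + 3 / 2 * δ) := (Real.rpow_add hX0 _ _).symm
          _ ≤ X ^ (1 : ℝ) := hpow (by have := h.2.1; linarith)
          _ = X := Real.rpow_one X
      · have h1 : (((Icc 1 (SS δ X)).filter fun s => Squarefree s ∧ s.Coprime Q).card : ℝ) ≤
            (SS δ X : ℝ) := by
          have h2 : ((Icc 1 (SS δ X)).filter fun s => Squarefree s ∧ s.Coprime Q).card ≤
              (Icc 1 (SS δ X)).card := card_filter_le _ _
          rw [Nat.card_Icc, Nat.add_sub_cancel] at h2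
          exact_mod_cast h2
        refine h1.trans (hs.Shi.trans ?_)
        calc X ^ (δ ^ 2 / 10) ≤ X ^ (1 : ℝ) := hpow (by have := h.2.2; nlinarith)
          _ = X := Real.rpow_one X
    -- assembly
    have hmain : (((∑ n ∈ (Icc 1 ⌊X⌋₊).filter (fun n => n % D = c), bb δ X Y Q n : ℝ)) : ℂ) =
        (1 / (D : ℂ)) * ∑ k ∈ range D, e (-((k : ℝ) * ((c : ℝ) / D))) *
          ∑ n ∈ Icc 1 ⌊X⌋₊, ((bb δ X Y Q n : ℝ) : ℂ) * e (n * ((k : ℝ) / D)) := by
      rw [Complex.ofReal_sum]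
      exact f4_class D c hD hcD _ _
    have hDr : (0 : ℝ) < (D : ℝ) := by exact_mod_cast hD
    have hnorm : |∑ n ∈ (Icc 1 ⌊X⌋₊).filter (fun n => n % D = c), bb δ X Y Q n| ≤
        (1 / (D : ℝ)) * (D * (((RR δ X Y Q).card : ℝ) * X ^ (-(49 : ℝ)))) := by
      rw [← Real.norm_eq_abs, ← Complex.norm_real, hmain, norm_mul, norm_div, norm_one,
        Complex.norm_natCast]
      refine mul_le_mul_of_nonneg_left ?_ (by positivity)
      refine (norm_sum_le _ _).trans ?_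
      have h1 : ∀ k ∈ range D, ‖e (-((k : ℝ) * ((c : ℝ) / D))) *
          ∑ n ∈ Icc 1 ⌊X⌋₊, ((bb δ X Y Q n : ℝ) : ℂ) * e (n * ((k : ℝ) / D))‖ ≤
            ((RR δ X Y Q).card : ℝ) * X ^ (-(49 : ℝ)) := by
        intro k _
        rw [norm_mul, Pool.Agent.Var35.norm_e, one_mul]
        exact hE k
      refine (sum_le_card_nsmul _ _ _ h1).trans ?_
      rw [card_range, nsmul_eq_mul]
    refine hnorm.trans ?_
    have h1 : (1 / (D : ℝ)) * (D * (((RR δ X Y Q).card : ℝ) * X ^ (-(49 : ℝ)))) =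
        ((RR δ X Y Q).card : ℝ) * X ^ (-(49 : ℝ)) := by
      field_simp
    rw [h1]
    calc ((RR δ X Y Q).card : ℝ) * X ^ (-(49 : ℝ)) ≤ (X * X) * X ^ (-(49 : ℝ)) :=
          mul_le_mul_of_nonneg_right hcard (Real.rpow_pos_of_pos hX0 _).le
      _ = X ^ (-(47 : ℝ)) := by
          have h2 : X * X = X ^ (2 : ℝ) := by
            rw [show (2 : ℝ) = ((2 : ℕ) : ℝ) by norm_num, Real.rpow_natCast, sq]
          rw [h2, ← Real.rpow_add hX0]
          norm_num
      _ ≤ X ^ (-(20 : ℝ)) := hpow (by norm_num)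


end

end Pool.Agent.BSD
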