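import Pool.Agent.Lib_helper26.BSD.Defs
import Pool.Agent.Lib_helper26.BSD.B1
import Pool.Agent.Lib_helper26.BSD.D1
import Pool.Agent.Lib_helper26.BSD.F2
import Pool.Agent.Lib_helper26.BSD.F3
import Pool.Agent.Lib_helper26.BSD.F4

/-!
# Project BSD (MP_5dd4bb_nt), block F5: the test function and the characters of small conductor
-/

set_option autoImplicit false
set_option linter.unusedVariables false

namespace Pool.Agent.BSD

open Finset
open Pool.Agent.FG61 (mu phi Lam cc off)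
open Pool.Agent.Var35 (e)

noncomputable section

theorem f5_mu (l : ℕ) :
    ∑ d ∈ l.divisors, ((mu d : ℝ) : ℂ) = if l = 1 then 1 else 0 := by
  have h : (∑ d ∈ l.divisors, (ArithmeticFunction.moebius d : ℤ)) = if l = 1 then 1 else 0 := by
    rw [← ArithmeticFunction.coe_mul_zeta_apply, ArithmeticFunction.moebius_mul_coe_zeta,
      ArithmeticFunction.one_apply]
  have h2 := congrArg (fun x : ℤ => (x : ℂ)) h
  push_cast at h2 ⊢
  exact h2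

/-- the condition `(n, Q) = 1` by the Moebius function -/
theorem f5_split (Q N : ℕ) (hQ : 1 ≤ Q) (G : ℕ → ℂ) :
    ∑ n ∈ (Icc 1 N).filter (fun n => n.Coprime Q), G n =
      ∑ d ∈ Q.divisors, ((mu d : ℝ) : ℂ) * ∑ n ∈ (Icc 1 N).filter (fun n => d ∣ n), G n := by
  have h1 : ∀ n ∈ Icc 1 N, (if n.Coprime Q then G n else 0) =
      ∑ d ∈ Q.divisors, if d ∣ n then ((mu d : ℝ) : ℂ) * G n else 0 := by
    intro n hn
    have hn1 : 1 ≤ n := (mem_Icc.mp hn).1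
    rw [← Finset.sum_filter, ← Finset.sum_mul]
    have h2 : Q.divisors.filter (fun d => d ∣ n) = (Nat.gcd n Q).divisors := by
      ext d
      simp only [mem_filter, Nat.mem_divisors, Nat.dvd_gcd_iff]
      have : Nat.gcd n Q ≠ 0 := (Nat.gcd_pos_of_pos_left Q hn1).ne'
      constructor
      · rintro ⟨⟨h3, _⟩, h4⟩
        exact ⟨⟨h4, h3⟩, this⟩
      · rintro ⟨⟨h4, h3⟩, _⟩
        exact ⟨⟨h3, by omega⟩, h4⟩
    rw [h2, f5_mu]
    unfold Nat.Coprime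
    split_ifs <;> simp
  rw [Finset.sum_filter, Finset.sum_congr rfl h1, Finset.sum_comm]
  refine Finset.sum_congr rfl fun d _ => ?_
  rw [Finset.mul_sum, Finset.sum_filter]

/-- Cauchy inequality -/
theorem f5_cs (D : Finset ℕ) (c : ℕ → ℂ) (hc : ∀ d ∈ D, ‖c d‖ ≤ 1) (T : ℕ → ℂ) :
    ‖∑ d ∈ D, c d * T d‖ ^ 2 ≤ D.card * ∑ d ∈ D, ‖T d‖ ^ 2 := by
  have h1 : ‖∑ d ∈ D, c d * T d‖ ≤ ∑ d ∈ D, ‖T d‖ := by
    refine (norm_sum_le _ _).trans (Finset.sum_le_sum fun d hd => ?_)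
    rw [norm_mul]
    exact mul_le_of_le_one_left (norm_nonneg _) (hc d hd)
  calc ‖∑ d ∈ D, c d * T d‖ ^ 2 ≤ (∑ d ∈ D, ‖T d‖) ^ 2 := by
        gcongr
    _ ≤ _ := sq_sum_le_card_mul_sum_sq

theorem f5_mu_le (d : ℕ) : ‖((mu d : ℝ) : ℂ)‖ ≤ 1 := by
  rw [Complex.norm_real, Real.norm_eq_abs]
  have := ArithmeticFunction.abs_moebius_le_one (n := d)
  have h2 : |(mu d : ℝ)| = ((|ArithmeticFunction.moebius d| : ℤ) : ℝ) := by
    rw [Int.cast_abs]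
  rw [h2]
  exact_mod_cast this

/-- the near case -/
theorem f5_near (N d r : ℕ) (hd : 1 ≤ d) (hr : 1 ≤ r) (F : ℕ → ℝ) (η : ℝ) (hη : 0 ≤ η)
    (h : ∀ c : ℕ, |∑ n ∈ (Icc 1 N).filter (fun n => n % (d * r) = c), F n| ≤ η)
    (χ : DirichletCharacter ℂ r) :
    ‖∑ n ∈ (Icc 1 N).filter (fun n => d ∣ n), (F n : ℂ) * χ (n : ZMod r)‖ ≤ (d * r : ℕ) * η := by
  have hD : 0 < d * r := Nat.mul_pos hd hr
  rw [← Finset.sum_fiberwise_of_maps_to (s := (Icc 1 N).filter (fun n => d ∣ n))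
    (t := range (d * r)) (g := fun n => n % (d * r))
    (fun n _ => mem_range.mpr (Nat.mod_lt _ hD))]
  refine (norm_sum_le _ _).trans ?_
  have h1 : ∀ c ∈ range (d * r), ‖∑ n ∈ ((Icc 1 N).filter (fun n => d ∣ n)).filter
      (fun n => n % (d * r) = c), (F n : ℂ) * χ (n : ZMod r)‖ ≤ η := by
    intro c hc
    by_cases hdc : d ∣ c
    · have h2 : ((Icc 1 N).filter (fun n => d ∣ n)).filter (fun n => n % (d * r) = c) =
          (Icc 1 N).filter (fun n => n % (d * r) = c) := by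
        ext n
        simp only [mem_filter]
        constructor
        · rintro ⟨⟨h3, _⟩, h4⟩
          exact ⟨h3, h4⟩
        · rintro ⟨h3, h4⟩
          refine ⟨⟨h3, ?_⟩, h4⟩
          have h5 : d ∣ d * r := dvd_mul_right d r
          rw [← Nat.mod_add_div n (d * r), h4]
          exact dvd_add hdc (Dvd.dvd.mul_right h5 _)
      rw [h2]
      have h3 : ∀ n ∈ (Icc 1 N).filter (fun n => n % (d * r) = c),
          (F n : ℂ) * χ (n : ZMod r) = (F n : ℂ) * χ (c : ZMod r) := by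
        intro n hn
        congr 2
        have h4 := (mem_filter.mp hn).2
        rw [ZMod.natCast_eq_natCast_iff]
        have h5 : n ≡ c [MOD d * r] := by
          rw [← h4]
          exact (Nat.mod_modEq n _).symm
        exact h5.of_mul_left d
      rw [Finset.sum_congr rfl h3, ← Finset.sum_mul, norm_mul]
      have h4 : ‖∑ n ∈ (Icc 1 N).filter (fun n => n % (d * r) = c), (F n : ℂ)‖ ≤ η := by
        rw [← Complex.ofReal_sum, Complex.norm_real, Real.norm_eq_abs]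
        exact h c
      calc _ ≤ η * 1 := mul_le_mul h4 (DirichletCharacter.norm_le_one χ _) (norm_nonneg _) hη
        _ = η := mul_one η
    · have h2 : ((Icc 1 N).filter (fun n => d ∣ n)).filter (fun n => n % (d * r) = c) = ∅ := by
        ext n
        simp only [mem_filter, notMem_empty, iff_false]
        rintro ⟨⟨_, h3⟩, h4⟩
        apply hdc
        have h5 : d ∣ d * r := dvd_mul_right d r
        rw [← h4]
        exact (Nat.dvd_mod_iff h5).mpr h3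
      rw [h2, Finset.sum_empty, norm_zero]
      exact hη
  refine (Finset.sum_le_sum h1).trans ?_
  rw [Finset.sum_const, card_range, nsmul_eq_mul]

theorem f5_count (N D a : ℕ) (hD : 1 ≤ D) :
    (((Icc 1 N).filter (fun m => m % D = a % D)).card : ℝ) ≤ (N : ℝ) / D + 1 :=
  FG61.DU_count N D a hD

theorem f5_mult (N d : ℕ) (hd : 1 ≤ d) :
    (((Icc 1 N).filter (fun m => d ∣ m)).card : ℝ) ≤ (N : ℝ) / d := by
  have h1 : ((Icc 1 N).filter (fun m => d ∣ m)).card ≤ N / d := by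
    have h2 : ((Icc 1 N).filter (fun m => d ∣ m)).card ≤ (Icc 1 (N / d)).card := by
      refine Finset.card_le_card_of_injOn (fun m => m / d) ?_ ?_
      · intro m hm
        rw [mem_coe, mem_filter, mem_Icc] at hm
        rw [mem_coe, mem_Icc]
        exact ⟨Nat.div_pos (Nat.le_of_dvd (by omega) hm.2) hd, Nat.div_le_div_right hm.1.2⟩
      · intro m hm k hk hmk
        rw [mem_coe, mem_filter, mem_Icc] at hm hk
        have h3 := Nat.div_mul_cancel hm.2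
        have h4 := Nat.div_mul_cancel hk.2
        dsimp only at hmk
        rw [← h3, ← h4, hmk]
    rwa [Nat.card_Icc, Nat.add_sub_cancel] at h2
  calc (((Icc 1 N).filter (fun m => d ∣ m)).card : ℝ) ≤ ((N / d : ℕ) : ℝ) := by exact_mod_cast h1
    _ ≤ (N : ℝ) / d := Nat.cast_div_le

/-- the far case -/
theorem f5_far (N d r : ℕ) (hd : 1 ≤ d) (hr : 1 ≤ r) (F : ℕ → ℝ) (B : ℝ) (hB : 0 ≤ B)
    (h : ∀ n ∈ Icc 1 N, |F n| ≤ B) :
    ∑ χ : DirichletCharacter ℂ r,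
      ‖∑ n ∈ (Icc 1 N).filter (fun n => d ∣ n), (F n : ℂ) * χ (n : ZMod r)‖ ^ 2 ≤
      B ^ 2 * ((N : ℝ) / d * ((N : ℝ) / d + r)) := by
  have hd0 : (0 : ℝ) < d := by exact_mod_cast hd
  have hr0 : (0 : ℝ) < r := by exact_mod_cast hr
  refine (ch_orth r hr _ F).trans ?_
  set T := (Icc 1 N).filter (fun n => d ∣ n) with hT
  have h1 : ∀ n ∈ T, ∑ k ∈ T.filter (fun k => k % r = n % r ∧ k.Coprime r), |F n| * |F k| ≤
      ((N : ℝ) / (d * r : ℕ) + 1) * B ^ 2 := by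
    intro n hn
    have hn2 := mem_filter.mp hn
    have h2 : (((T.filter (fun k => k % r = n % r ∧ k.Coprime r)).card : ℕ) : ℝ) ≤
        (N : ℝ) / (d * r : ℕ) + 1 := by
      refine le_trans ?_ (f5_count N (d * r) n (Nat.mul_pos hd hr))
      have h3 : T.filter (fun k => k % r = n % r ∧ k.Coprime r) ⊆
          (Icc 1 N).filter (fun m => m % (d * r) = n % (d * r)) := by
        intro k hk
        obtain ⟨hk1, hk2, hk3⟩ := mem_filter.mp hk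
        obtain ⟨hk4, hk5⟩ := mem_filter.mp hk1
        refine mem_filter.mpr ⟨hk4, ?_⟩
        have hcop : Nat.Coprime d r := Nat.Coprime.coprime_dvd_left hk5 hk3
        have e1 : k ≡ n [MOD r] := hk2
        have e2 : k ≡ n [MOD d] :=
          (Nat.modEq_zero_iff_dvd.mpr hk5).trans (Nat.modEq_zero_iff_dvd.mpr hn2.2).symm
        exact (Nat.modEq_and_modEq_iff_modEq_mul hcop).mp ⟨e2, e1⟩
      exact_mod_cast Finset.card_le_card h3
    calc ∑ k ∈ T.filter (fun k => k % r = n % r ∧ k.Coprime r), |F n| * |F k| ≤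
        ∑ k ∈ T.filter (fun k => k % r = n % r ∧ k.Coprime r), B ^ 2 := by
          refine Finset.sum_le_sum fun k hk => ?_
          rw [sq]
          exact mul_le_mul (h n hn2.1) (h k (mem_filter.mp (mem_filter.mp hk).1).1)
            (abs_nonneg _) hB
      _ = (((T.filter (fun k => k % r = n % r ∧ k.Coprime r)).card : ℕ) : ℝ) * B ^ 2 := by
          rw [Finset.sum_const, nsmul_eq_mul]
      _ ≤ _ := by gcongr
  calc (r : ℝ) * ∑ n ∈ T, ∑ k ∈ T.filter (fun k => k % r = n % r ∧ k.Coprime r), |F n| * |F k|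
      ≤ r * ∑ n ∈ T, ((N : ℝ) / (d * r : ℕ) + 1) * B ^ 2 := by
        gcongr with n hn
        exact h1 n hn
    _ = r * ((T.card : ℝ) * (((N : ℝ) / (d * r : ℕ) + 1) * B ^ 2)) := by
        rw [Finset.sum_const, nsmul_eq_mul]
    _ ≤ r * ((N : ℝ) / d * (((N : ℝ) / (d * r : ℕ) + 1) * B ^ 2)) := by
        gcongr
        exact f5_mult N d hd
    _ = _ := by
        push_cast
        field_simp

/-- number of characters -/
theorem f5_card (r : ℕ) (hr : 1 ≤ r) :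
    ((Finset.univ : Finset (DirichletCharacter ℂ r)).card : ℝ) ≤ r := by
  have : NeZero r := ⟨by omega⟩
  have h := DirichletCharacter.card_eq_totient_of_hasEnoughRootsOfUnity ℂ r
  rw [Nat.card_eq_fintype_card] at h
  rw [Finset.card_univ, h]
  exact_mod_cast Nat.totient_le r

/-- the inner sum -/
theorem f5_inner (Q N r : ℕ) (hQ : 1 ≤ Q) (F : ℕ → ℝ) (M : ℝ)
    (hM : ∀ d ∈ Q.divisors, ∑ χ : DirichletCharacter ℂ r,
      ‖∑ n ∈ (Icc 1 N).filter (fun n => d ∣ n), (F n : ℂ) * χ (n : ZMod r)‖ ^ 2 ≤ M) :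
    ∑ χ : DirichletCharacter ℂ r,
      ‖∑ n ∈ (Icc 1 N).filter (fun n => n.Coprime Q), (F n : ℂ) * χ (n : ZMod r)‖ ^ 2 ≤
      (Q.divisors.card : ℝ) * ((Q.divisors.card : ℝ) * M) := by
  have h1 : ∀ χ : DirichletCharacter ℂ r,
      ‖∑ n ∈ (Icc 1 N).filter (fun n => n.Coprime Q), (F n : ℂ) * χ (n : ZMod r)‖ ^ 2 ≤
      (Q.divisors.card : ℝ) * ∑ d ∈ Q.divisors,
        ‖∑ n ∈ (Icc 1 N).filter (fun n => d ∣ n), (F n : ℂ) * χ (n : ZMod r)‖ ^ 2 := by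
    intro χ
    rw [f5_split Q N hQ]
    exact f5_cs Q.divisors _ (fun d _ => f5_mu_le d) _
  refine (Finset.sum_le_sum fun χ _ => h1 χ).trans ?_
  rw [← Finset.mul_sum, Finset.sum_comm]
  gcongr
  refine (Finset.sum_le_sum hM).trans ?_
  rw [Finset.sum_const, nsmul_eq_mul]

theorem f5_near2 {X Y δ : ℝ} (hX1 : 1 ≤ X) (hY0 : 0 < Y) (hYX : Y ≤ X) (hδ0 : 0 < δ) {d r : ℕ}
    (hd0 : 1 ≤ d) (hr0 : 1 ≤ r) (F : ℕ → ℝ)
    (hcase : ((d * r : ℕ) : ℝ) ≤ Y * X ^ (-(3 * δ)))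
    (hres : ∀ c : ℕ, |∑ n ∈ (Icc 1 ⌊X⌋₊).filter (fun n => n % (d * r) = c), F n| ≤
      X ^ (-(20 : ℝ))) :
    ∑ χ : DirichletCharacter ℂ r,
      ‖∑ n ∈ (Icc 1 ⌊X⌋₊).filter (fun n => d ∣ n), (F n : ℂ) * χ (n : ZMod r)‖ ^ 2 ≤ 1 := by
  have hX0 : 0 < X := by linarith
  have hpos : ∀ a : ℝ, 0 < X ^ a := fun a => Real.rpow_pos_of_pos hX0 a
  have hrR : (0 : ℝ) < r := by exact_mod_cast hr0
  have hDX : ((d * r : ℕ) : ℝ) ≤ X := by
    refine hcase.trans ?_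
    calc Y * X ^ (-(3 * δ)) ≤ X * X ^ (0 : ℝ) := by
          refine mul_le_mul hYX (Real.rpow_le_rpow_of_exponent_le hX1 (by linarith))
            (hpos _).le hX0.le
      _ = X := by rw [Real.rpow_zero, mul_one]
  have hrX : (r : ℝ) ≤ X := by
    refine le_trans ?_ hDX
    push_cast
    have : (1 : ℝ) ≤ d := by exact_mod_cast hd0
    exact le_mul_of_one_le_left hrR.le this
  have h20 : X * X ^ (-(20 : ℝ)) = X ^ (-(19 : ℝ)) := by
    rw [← Real.rpow_one_add' hX0.le (by norm_num)]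
    norm_num
  have h1 : ∀ χ : DirichletCharacter ℂ r,
      ‖∑ n ∈ (Icc 1 ⌊X⌋₊).filter (fun n => d ∣ n),
        (F n : ℂ) * χ (n : ZMod r)‖ ^ 2 ≤ (X ^ (-(19 : ℝ))) ^ 2 := by
    intro χ
    have h2 := f5_near ⌊X⌋₊ d r hd0 hr0 F (X ^ (-(20 : ℝ))) (hpos _).le hres χ
    have h3 : ‖∑ n ∈ (Icc 1 ⌊X⌋₊).filter (fun n => d ∣ n),
        (F n : ℂ) * χ (n : ZMod r)‖ ≤ X ^ (-(19 : ℝ)) := by
      refine h2.trans ?_
      rw [← h20]
      exact mul_le_mul_of_nonneg_right hDX (hpos _).le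
    exact pow_le_pow_left₀ (norm_nonneg _) h3 2
  refine (Finset.sum_le_sum fun χ _ => h1 χ).trans ?_
  rw [Finset.sum_const, nsmul_eq_mul]
  have h4 := (f5_card r hr0).trans hrX
  calc (((Finset.univ : Finset (DirichletCharacter ℂ r)).card : ℕ) : ℝ) *
        (X ^ (-(19 : ℝ))) ^ 2 ≤ X * (X ^ (-(19 : ℝ))) ^ 2 :=
        mul_le_mul_of_nonneg_right h4 (sq_nonneg _)
    _ ≤ 1 := by
        have h3 : X * (X ^ (-(19 : ℝ))) ^ 2 = X ^ (-(37 : ℝ)) := by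
          rw [← Real.rpow_natCast, ← Real.rpow_mul hX0.le,
            ← Real.rpow_one_add' hX0.le (by norm_num)]
          norm_num
        rw [h3]
        exact Real.rpow_le_one_of_one_le_of_nonpos hX1 (by norm_num)

theorem f5_far2 {X Y δ t : ℝ} (hX1 : 1 ≤ X) (hY0 : 0 < Y) (hZ1 : 1 ≤ X / Y) (hδ0 : 0 < δ)
    (ht : t = δ ^ 2 / 100) (htδ : 100 * t ≤ δ / 600) {d r : ℕ}
    (hd0 : 1 ≤ d) (hr0 : 1 ≤ r) (F : ℕ → ℝ)
    (hcase : Y * X ^ (-(3 * δ)) < ((d * r : ℕ) : ℝ)) (hlog1 : 1 ≤ Real.log X)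
    (hLP : 2 * Real.log X ^ 16 ≤ X ^ t) (hrZ : (r : ℝ) ≤ X / Y * Real.log X ^ 8)
    (hF : ∀ n ∈ Icc 1 ⌊X⌋₊, |F n| ≤ X ^ (δ ^ 2 / 10)) :
    ∑ χ : DirichletCharacter ℂ r,
      ‖∑ n ∈ (Icc 1 ⌊X⌋₊).filter (fun n => d ∣ n), (F n : ℂ) * χ (n : ZMod r)‖ ^ 2 ≤
        (X / Y) ^ 4 * X ^ (7 * δ) := by
  have hX0 : 0 < X := by linarith
  have hpos : ∀ a : ℝ, 0 < X ^ a := fun a => Real.rpow_pos_of_pos hX0 a
  have hN : (⌊X⌋₊ : ℝ) ≤ X := Nat.floor_le hX0.le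
  have hdR : (0 : ℝ) < d := by exact_mod_cast hd0
  set H : ℝ := (X / Y) ^ 2 * Real.log X ^ 8 * X ^ (3 * δ) with hH
  have hL8 : 1 ≤ Real.log X ^ 8 := one_le_pow₀ hlog1
  have h3δ : X ^ (-(3 * δ)) * X ^ (3 * δ) = 1 := by
    rw [← Real.rpow_add hX0]
    norm_num
  have hX3δ : 1 ≤ X ^ (3 * δ) := Real.one_le_rpow hX1 (by linarith)
  have hNd : (⌊X⌋₊ : ℝ) / d ≤ H := by
    rw [div_le_iff₀ hdR]
    refine hN.trans ?_
    have h1 : Y ≤ (d * r : ℕ) * X ^ (3 * δ) := by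
      have h2 : Y * X ^ (-(3 * δ)) * X ^ (3 * δ) ≤ (d * r : ℕ) * X ^ (3 * δ) :=
        mul_le_mul_of_nonneg_right hcase.le (hpos _).le
      rw [mul_assoc, h3δ, mul_one] at h2
      exact h2
    push_cast at h1
    have h2 : Y ≤ d * (X / Y * Real.log X ^ 8) * X ^ (3 * δ) := by
      refine h1.trans ?_
      gcongr
    calc X = X / Y * Y := by field_simp
      _ ≤ X / Y * (d * (X / Y * Real.log X ^ 8) * X ^ (3 * δ)) := by gcongr
      _ = H * d := by rw [hH]; ring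
  have hrH : (r : ℝ) ≤ H := by
    refine hrZ.trans ?_
    rw [hH]
    calc X / Y * Real.log X ^ 8 = (X / Y * Real.log X ^ 8) * 1 := by ring
      _ ≤ (X / Y * (X / Y) * Real.log X ^ 8) * X ^ (3 * δ) := by
        gcongr
        exact le_mul_of_one_le_left (by positivity) hZ1
      _ = _ := by ring
  have h1 := f5_far ⌊X⌋₊ d r hd0 hr0 F (X ^ (δ ^ 2 / 10)) (hpos _).le hF
  refine h1.trans ?_
  have hH0 : 0 ≤ H := by positivity
  have hNd0 : 0 ≤ (⌊X⌋₊ : ℝ) / d := by positivity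
  have h2 : (⌊X⌋₊ : ℝ) / d * ((⌊X⌋₊ : ℝ) / d + r) ≤ H * (H + H) := by
    gcongr
  have h3 : (X ^ (δ ^ 2 / 10)) ^ 2 = X ^ (20 * t) := by
    rw [← Real.rpow_natCast, ← Real.rpow_mul hX0.le]
    congr 1
    rw [ht]
    push_cast
    ring
  have h4 : X ^ (3 * δ) * X ^ (3 * δ) = X ^ (6 * δ) := by
    rw [← Real.rpow_add hX0]
    congr 1
    ring
  calc (X ^ (δ ^ 2 / 10)) ^ 2 * ((⌊X⌋₊ : ℝ) / d * ((⌊X⌋₊ : ℝ) / d + r)) ≤
      X ^ (20 * t) * (H * (H + H)) := by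
        rw [h3]
        exact mul_le_mul_of_nonneg_left h2 (hpos _).le
    _ = (X / Y) ^ 4 * (X ^ (20 * t) * (2 * Real.log X ^ 16) * (X ^ (3 * δ) * X ^ (3 * δ))) := by
        rw [hH]
        ring
    _ ≤ (X / Y) ^ 4 * (X ^ (20 * t) * X ^ t * X ^ (6 * δ)) := by
        rw [h4]
        gcongr
    _ ≤ (X / Y) ^ 4 * X ^ (7 * δ) := by
        rw [← Real.rpow_add hX0, ← Real.rpow_add hX0]
        have h5 : X ^ (20 * t + t + 6 * δ) ≤ X ^ (7 * δ) :=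
          Real.rpow_le_rpow_of_exponent_le hX1 (by linarith)
        exact mul_le_mul_of_nonneg_left h5 (by positivity)

theorem f5_tau {X Y C t : ℝ} (hX3 : 3 ≤ X) (hYX : Y ≤ X) (hC0 : 0 < C) (ht0 : 0 < t)
    (hC : ∀ n : ℕ, 0 < n → (n.divisors.card : ℝ) ≤ C * (n : ℝ) ^ t) (hCP : C ≤ X ^ t)
    {Q : ℕ} (hQ : 1 ≤ Q) (hQ2Y : (Q : ℝ) ≤ 2 * Y) : (Q.divisors.card : ℝ) ≤ X ^ (3 * t) := by
  have hX0 : 0 < X := by linarith
  have hQX2 : (Q : ℝ) ≤ X ^ (2 : ℝ) := by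
    have h1 : X ^ (2 : ℝ) = X * X := by
      rw [← sq, ← Real.rpow_natCast]
      norm_num
    rw [h1]
    calc (Q : ℝ) ≤ 2 * Y := hQ2Y
      _ ≤ 2 * X := by linarith
      _ ≤ X * X := mul_le_mul_of_nonneg_right (by linarith) hX0.le
  calc (Q.divisors.card : ℝ) ≤ C * (Q : ℝ) ^ t := hC Q hQ
    _ ≤ X ^ t * (X ^ (2 : ℝ)) ^ t := by gcongr
    _ = X ^ (3 * t) := by
      rw [← Real.rpow_mul hX0.le, ← Real.rpow_add hX0]
      congr 1
      ring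

theorem f5_fin {X Z δ t τ c : ℝ} (hX1 : 1 ≤ X) (hZ : 0 ≤ Z) (hδ0 : 0 < δ)
    (htδ : 100 * t ≤ δ / 600) (hτ : τ ≤ X ^ (3 * t)) (hτ0 : 0 ≤ τ) (hc : c ≤ τ) :
    c * (τ * (τ * (Z ^ 4 * X ^ (7 * δ)))) ≤ Z ^ 4 * X ^ (10 * δ) := by
  have hX0 : 0 < X := by linarith
  have hpos : ∀ a : ℝ, 0 < X ^ a := fun a => Real.rpow_pos_of_pos hX0 a
  have hM0 : 0 ≤ Z ^ 4 * X ^ (7 * δ) := mul_nonneg (by positivity) (hpos _).le
  calc c * (τ * (τ * (Z ^ 4 * X ^ (7 * δ)))) ≤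
      X ^ (3 * t) * (X ^ (3 * t) * (X ^ (3 * t) * (Z ^ 4 * X ^ (7 * δ)))) := by
        have h1 : τ * (Z ^ 4 * X ^ (7 * δ)) ≤ X ^ (3 * t) * (Z ^ 4 * X ^ (7 * δ)) :=
          mul_le_mul_of_nonneg_right hτ hM0
        have h2 : τ * (τ * (Z ^ 4 * X ^ (7 * δ))) ≤
            X ^ (3 * t) * (X ^ (3 * t) * (Z ^ 4 * X ^ (7 * δ))) :=
          mul_le_mul hτ h1 (mul_nonneg hτ0 hM0) (hpos _).le
        exact mul_le_mul (hc.trans hτ) h2 (mul_nonneg hτ0 (mul_nonneg hτ0 hM0)) (hpos _).le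
    _ = Z ^ 4 * (X ^ (3 * t) * (X ^ (3 * t) * (X ^ (3 * t) * X ^ (7 * δ)))) := by ring
    _ ≤ Z ^ 4 * X ^ (10 * δ) := by
        rw [← Real.rpow_add hX0, ← Real.rpow_add hX0, ← Real.rpow_add hX0]
        exact mul_le_mul_of_nonneg_left
          (Real.rpow_le_rpow_of_exponent_le hX1 (by linarith)) (by positivity)

/-- block F5 -/
theorem bb_low (ε δ : ℝ) (h : Ok ε δ) : ∃ X₀ : ℝ, ∀ X Y : ℝ, X₀ ≤ X → Rg ε X Y → ∀ Q ∈ IY Y,
    Fr δ X Y Q → ∑ χ ∈ LC X Q, ‖∑ n ∈ Icc 1 ⌊X⌋₊, (bb δ X Y Q n : ℂ) * χ (n : ZMod Q)‖ ^ 2 ≤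
      (X / Y) ^ 4 * X ^ (10 * δ) := by
  obtain ⟨hδ0, hδε, hδ1⟩ := h
  set t : ℝ := δ ^ 2 / 100 with ht
  have ht0 : 0 < t := by positivity
  have htδ : 100 * t ≤ δ / 600 := by
    rw [ht]
    nlinarith
  obtain ⟨C, hC0, hC⟩ := FG61.divisor_bound ht0
  obtain ⟨X₁, hX₁⟩ := sizes ε δ (2 + 4 * C) ⟨hδ0, hδε, hδ1⟩
  obtain ⟨X₂, hX₂⟩ := bb_le ε δ ⟨hδ0, hδε, hδ1⟩
  obtain ⟨X₃, hX₃⟩ := bb_res ε δ ⟨hδ0, hδε, hδ1⟩
  refine ⟨max X₁ (max X₂ X₃), fun X Y hX hR Q hQ hFr => ?_⟩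
  have hs := hX₁ X Y ((le_max_left _ _).trans hX) hR
  have hb := hX₂ X Y ((le_max_left _ _).trans ((le_max_right _ _).trans hX)) hR
  have hres := hX₃ X Y ((le_max_right _ _).trans ((le_max_right _ _).trans hX)) hR
  have hX3 := hs.X3
  have hX0 : 0 < X := by linarith
  have hX1 : 1 ≤ X := by linarith
  have hY0 : 0 < Y := lt_of_lt_of_le (Real.rpow_pos_of_pos hX0 _) hs.Y1
  have hZ1 : 1 ≤ X / Y := (one_le_div hY0).mpr hs.YX
  have hlog1 : 1 ≤ Real.log X := by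
    rw [Real.le_log_iff_exp_le hX0]
    have := Real.exp_one_lt_d9
    linarith
  have hlg := hs.lg
  rw [← ht] at hlg
  have hL100 : 1 ≤ (1 + Real.log X) ^ 100 := one_le_pow₀ (by linarith)
  have hAP : 2 + 4 * C ≤ X ^ t := by
    refine le_trans ?_ hlg
    have := mul_le_mul_of_nonneg_left hL100 (by positivity : (0 : ℝ) ≤ 2 + 4 * C)
    rwa [mul_one] at this
  have hCP : C ≤ X ^ t := by linarith
  have hLP : 2 * Real.log X ^ 16 ≤ X ^ t := by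
    have h1 : Real.log X ^ 16 ≤ (1 + Real.log X) ^ 100 := by
      calc Real.log X ^ 16 ≤ (1 + Real.log X) ^ 16 :=
            pow_le_pow_left₀ (by linarith) (by linarith) 16
        _ ≤ (1 + Real.log X) ^ 100 := pow_le_pow_right₀ (by linarith) (by norm_num)
    refine le_trans ?_ hlg
    have h2 : 0 ≤ (1 + Real.log X) ^ 100 := by linarith
    calc 2 * Real.log X ^ 16 ≤ 2 * (1 + Real.log X) ^ 100 := by linarith
      _ ≤ (2 + 4 * C) * (1 + Real.log X) ^ 100 := mul_le_mul_of_nonneg_right (by linarith) h2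
  -- the modulus
  obtain ⟨hQ1, hYQ⟩ := mem_filter.mp hQ
  obtain ⟨hQ2, hQ3⟩ := mem_Icc.mp hQ1
  have hQ2Y : (Q : ℝ) ≤ 2 * Y := by
    have := Nat.floor_le (a := 2 * Y) (by linarith)
    have h2 : (Q : ℝ) ≤ (⌊2 * Y⌋₊ : ℝ) := by exact_mod_cast hQ3
    linarith
  have hτ := f5_tau hX3 hs.YX hC0 ht0 hC hCP hQ2 hQ2Y
  -- the bound for one divisor
  have key : ∀ r ∈ Q.divisors.filter (fun r : ℕ => (r : ℝ) ≤ X / Q * Real.log X ^ 8),
      ∀ d ∈ Q.divisors, ∑ χ : DirichletCharacter ℂ r,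
        ‖∑ n ∈ (Icc 1 ⌊X⌋₊).filter (fun n => d ∣ n), (bb δ X Y Q n : ℂ) * χ (n : ZMod r)‖ ^ 2 ≤
          (X / Y) ^ 4 * X ^ (7 * δ) := by
    intro r hr d hd
    obtain ⟨hr1, hr2⟩ := mem_filter.mp hr
    have hrQ := Nat.dvd_of_mem_divisors hr1
    have hdQ := Nat.dvd_of_mem_divisors hd
    have hr0 : 1 ≤ r := Nat.pos_of_dvd_of_pos hrQ hQ2
    have hd0 : 1 ≤ d := Nat.pos_of_dvd_of_pos hdQ hQ2
    have hrZ : (r : ℝ) ≤ X / Y * Real.log X ^ 8 := by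
      refine hr2.trans (mul_le_mul_of_nonneg_right ?_ (pow_nonneg (by linarith) 8))
      exact div_le_div_of_nonneg_left hX0.le hY0 hYQ.le
    by_cases hcase : ((d * r : ℕ) : ℝ) ≤ Y * X ^ (-(3 * δ))
    · have hpD : ∀ p ∈ PS δ X Y, ¬ p ∣ d * r := by
        intro p hp hpd
        have hpp : p.Prime := (mem_filter.mp hp).2.1
        rcases (Nat.Prime.dvd_mul hpp).mp hpd with h1 | h1
        · exact hFr p hp (h1.trans hdQ)
        · exact hFr p hp (h1.trans hrQ)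
      refine (f5_near2 hX1 hY0 hs.YX hδ0 hd0 hr0 (bb δ X Y Q) hcase
        (fun c => hres Q (d * r) c (Nat.mul_pos hd0 hr0) hcase hpD)).trans ?_
      exact one_le_mul_of_one_le_of_one_le (one_le_pow₀ hZ1)
        (Real.one_le_rpow hX1 (by linarith))
    · push Not at hcase
      exact f5_far2 hX1 hY0 hZ1 hδ0 ht htδ hd0 hr0 (bb δ X Y Q) hcase hlog1 hLP hrZ
        (fun n hn => hb Q n (mem_Icc.mp hn).1 (mem_Icc.mp hn).2)
  -- assembly
  refine (ch_reduce X Q ⌊X⌋₊ hQ2 (bb δ X Y Q)).trans ?_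
  refine (Finset.sum_le_sum fun r hr => f5_inner Q ⌊X⌋₊ r hQ2 (bb δ X Y Q)
    ((X / Y) ^ 4 * X ^ (7 * δ)) (key r hr)).trans ?_
  rw [Finset.sum_const, nsmul_eq_mul]
  refine f5_fin hX1 (by linarith) hδ0 htδ hτ (Nat.cast_nonneg _) ?_
  exact_mod_cast Finset.card_filter_le _ _

end

end Pool.Agent.BSD
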