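import Pool.Agent.Lib_helper26.BSD.Defs
import Pool.Agent.Lib_helper26.BSD.B1
import Pool.Agent.Lib_helper26.BSD.F1
import Pool.Agent.Lib_helper26.BSD.F3
import Pool.Agent.Lib_helper26.BSD.F5

set_option autoImplicit false

namespace Pool.Agent.BSD

open Finset
open Pool.Agent.FG61 (mu phi Lam cc off)
open Pool.Agent.Var35 (e)

noncomputable section

theorem f6_phi (Q : ℕ) (hQ : 1 ≤ Q) : (Q : ℝ) ≤ phi Q * Q.divisors.card := by
  have h1 : Q ≤ Nat.totient Q * Q.divisors.card := by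
    calc Q = ∑ d ∈ Q.divisors, Nat.totient d := (Nat.sum_totient Q).symm
      _ ≤ ∑ _d ∈ Q.divisors, Nat.totient Q := Finset.sum_le_sum fun d hd =>
          Nat.le_of_dvd (Nat.totient_pos.2 (by omega))
            (Nat.totient_dvd_of_dvd (Nat.dvd_of_mem_divisors hd))
      _ = Nat.totient Q * Q.divisors.card := by
          rw [Finset.sum_const, smul_eq_mul, mul_comm]
  exact_mod_cast h1

theorem lo_small (ε δ : ℝ) (h : Ok ε δ) : ∃ X₀ : ℝ, ∀ X Y : ℝ, X₀ ≤ X → Rg ε X Y → ∀ Q ∈ IY Y,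
    Fr δ X Y Q → |∑ a ∈ RC Q, lo X Q a * uu δ X Y Q a| ≤ X ^ (1 - δ) := by
  obtain ⟨X1, h1⟩ := sizes ε δ 1 h
  obtain ⟨X2, h2⟩ := lam_low ε δ h
  obtain ⟨X3, h3⟩ := bb_low ε δ h
  have hδ : 0 < δ := h.1
  obtain ⟨C, hC, hdiv⟩ := Pool.Agent.FG61.divisor_bound (ε := δ / 10) (by linarith)
  have hev : ∀ᶠ X : ℝ in Filter.atTop, C * 2 ^ (δ / 10) ≤ X ^ (δ / 10) :=
    (tendsto_rpow_atTop (by linarith)).eventually_ge_atTop _
  obtain ⟨X4, h4⟩ := Filter.eventually_atTop.mp hev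
  refine ⟨max (max X1 X2) (max X3 X4), fun X Y hX hR Q hQ hFr => ?_⟩
  have hX1 : X1 ≤ X := le_trans (le_trans (le_max_left _ _) (le_max_left _ _)) hX
  have hX2 : X2 ≤ X := le_trans (le_trans (le_max_right _ _) (le_max_left _ _)) hX
  have hX3 : X3 ≤ X := le_trans (le_trans (le_max_left _ _) (le_max_right _ _)) hX
  have hX4 : X4 ≤ X := le_trans (le_trans (le_max_right _ _) (le_max_right _ _)) hX
  have hs := h1 X Y hX1 hR
  have hX3' := hs.X3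
  have hXp : 0 < X := by linarith
  have hYp : 0 < Y := lt_of_lt_of_le (Real.rpow_pos_of_pos hXp _) hs.Y1
  rw [IY, Finset.mem_filter, Finset.mem_Icc] at hQ
  obtain ⟨⟨hQ1, hQ2⟩, hQY⟩ := hQ
  have hQ2' : (Q : ℝ) ≤ 2 * Y := le_trans (by exact_mod_cast hQ2) (Nat.floor_le (by positivity))
  have hA := h2 X Y hX2 hR Q (by
    rw [IY, Finset.mem_filter, Finset.mem_Icc]; exact ⟨⟨hQ1, hQ2⟩, hQY⟩)
  have hB := h3 X Y hX3 hR Q (by
    rw [IY, Finset.mem_filter, Finset.mem_Icc]; exact ⟨⟨hQ1, hQ2⟩, hQY⟩) hFr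
  have hcs := lo_cs δ X Y Q hQ1
  set L := ∑ a ∈ RC Q, lo X Q a * uu δ X Y Q a with hL
  set A := ∑ χ ∈ LC X Q, ‖∑ n ∈ Icc 1 ⌊X⌋₊, (Lam n : ℂ) * χ (n : ZMod Q)‖ ^ 2 with hAdef
  set B := ∑ χ ∈ LC X Q, ‖∑ n ∈ Icc 1 ⌊X⌋₊, (bb δ X Y Q n : ℂ) * χ (n : ZMod Q)‖ ^ 2 with hBdef
  have hB0 : 0 ≤ B := Finset.sum_nonneg fun _ _ => by positivity
  have hphi : 0 < (phi Q : ℝ) := by
    have : 0 < Nat.totient Q := Nat.totient_pos.2 (by omega)
    exact_mod_cast this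
  -- lower bound of phi
  have hτ : (Q.divisors.card : ℝ) ≤ X ^ (δ / 5) := by
    refine (hdiv Q (by omega)).trans ?_
    have h5 : (Q : ℝ) ^ (δ / 10) ≤ (2 * X) ^ (δ / 10) :=
      Real.rpow_le_rpow (by positivity) (by linarith [hs.YX]) (by linarith)
    rw [Real.mul_rpow (by norm_num) hXp.le] at h5
    calc C * (Q : ℝ) ^ (δ / 10) ≤ C * (2 ^ (δ / 10) * X ^ (δ / 10)) :=
          mul_le_mul_of_nonneg_left h5 hC.le
      _ = (C * 2 ^ (δ / 10)) * X ^ (δ / 10) := by ring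
      _ ≤ X ^ (δ / 10) * X ^ (δ / 10) :=
          mul_le_mul_of_nonneg_right (h4 X hX4) (by positivity)
      _ = X ^ (δ / 5) := by rw [← Real.rpow_add hXp]; congr 1; ring
  have hphi2 : 1 / phi Q ≤ X ^ (δ / 5) / Y := by
    rw [div_le_div_iff₀ hphi hYp, one_mul]
    have h6 := f6_phi Q hQ1
    have h7 : phi Q * (Q.divisors.card : ℝ) ≤ phi Q * X ^ (δ / 5) :=
      mul_le_mul_of_nonneg_left hτ hphi.le
    linarith
  have hphi3 : 1 / phi Q ^ 2 ≤ X ^ (2 / 5 * δ) / Y ^ 2 := by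
    have h8 : (1 / phi Q) ^ 2 ≤ (X ^ (δ / 5) / Y) ^ 2 :=
      pow_le_pow_left₀ (by positivity) hphi2 2
    rw [div_pow, div_pow, one_pow, ← Real.rpow_natCast (X ^ (δ / 5)), ← Real.rpow_mul hXp.le] at h8
    refine h8.trans (le_of_eq ?_)
    congr 2
    push_cast
    ring
  have hmain : L ^ 2 ≤ X ^ (2 * (1 - δ)) := by
    have hZ : X / Y ≤ X ^ (1 / 3 - ε) := hs.Zhi
    have hZ0 : 0 < X / Y := by positivity
    have h9 : (X / Y) ^ 6 ≤ X ^ (2 - 6 * ε) := by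
      calc (X / Y) ^ 6 ≤ (X ^ (1 / 3 - ε)) ^ 6 := pow_le_pow_left₀ hZ0.le hZ 6
        _ = X ^ (2 - 6 * ε) := by
          rw [← Real.rpow_natCast, ← Real.rpow_mul hXp.le]
          congr 1
          push_cast
          ring
    calc L ^ 2 ≤ 1 / phi Q ^ 2 * A * B := hcs
      _ ≤ X ^ (2 / 5 * δ) / Y ^ 2 * X ^ (2 + δ) * ((X / Y) ^ 4 * X ^ (10 * δ)) := by
          gcongr
      _ = X ^ (57 / 5 * δ) * (X / Y) ^ 6 := by
          rw [Real.rpow_add hXp 2 δ, Real.rpow_two,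
            show (57 / 5 * δ : ℝ) = 2 / 5 * δ + δ + 10 * δ by ring, Real.rpow_add hXp,
            Real.rpow_add hXp]
          field_simp
      _ ≤ X ^ (57 / 5 * δ) * X ^ (2 - 6 * ε) :=
          mul_le_mul_of_nonneg_left h9 (by positivity)
      _ = X ^ (57 / 5 * δ + (2 - 6 * ε)) := by rw [← Real.rpow_add hXp]
      _ ≤ X ^ (2 * (1 - δ)) := by
          apply Real.rpow_le_rpow_of_exponent_le (by linarith)
          have h10 := h.2.1
          linarith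
  have h11 : X ^ (2 * (1 - δ)) = (X ^ (1 - δ)) ^ 2 := by
    rw [← Real.rpow_natCast, ← Real.rpow_mul hXp.le]
    congr 1
    push_cast
    ring
  rw [h11] at hmain
  exact abs_le_of_sq_le_sq hmain (by positivity)

end

end Pool.Agent.BSD

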