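import Pool.Agent.Lib_helper26.BSD.Z2

set_option autoImplicit false

namespace Pool.Agent.BSDF

open Finset

noncomputable section

/-- `ψ(X; Q, a)`: the sum of `Λ(n)` over the `n ≤ X` with `n ≡ a` modulo `Q` (`0 ≤ a < Q`) -/
def psi (X : ℝ) (Q a : ℕ) : ℝ :=
  ∑ n ∈ (Icc 1 ⌊X⌋₊).filter (fun n => n % Q = a), ArithmeticFunction.vonMangoldt n

/-- the part of `ψ(X; Q, a)` carried by the characters modulo `Q` whose conductor is at most
`(X / Q) (log X)^8`, the principal one among them: `1 / φ(Q)` times the sum over these characters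
`χ` of `conj χ(a)` times the sum over `n ≤ X` of `Λ(n) χ(n)` -/
def low (X : ℝ) (Q a : ℕ) : ℝ :=
  (∑ χ ∈ (univ : Finset (DirichletCharacter ℂ Q)).filter
      (fun χ => (χ.conductor : ℝ) ≤ X / Q * Real.log X ^ 8),
    (starRingEnd ℂ) (χ (a : ZMod Q)) *
      ∑ n ∈ Icc 1 ⌊X⌋₊, ((ArithmeticFunction.vonMangoldt n : ℝ) : ℂ) * χ (n : ZMod Q)).re /
    (Nat.totient Q : ℝ)

/-- at least `c φ(Q)` of the reduced classes `a` modulo `Q` have `D a ≥ c √(X log X / φ(Q))` and at
least `c φ(Q)` of them have `D a ≤ - c √(X log X / φ(Q))` -/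
def Both (c X : ℝ) (Q : ℕ) (D : ℕ → ℝ) : Prop :=
  c * Nat.totient Q ≤ (((range Q).filter fun a => Nat.Coprime a Q ∧
    c * Real.sqrt (X * Real.log X / Nat.totient Q) ≤ D a).card : ℝ) ∧
  c * Nat.totient Q ≤ (((range Q).filter fun a => Nat.Coprime a Q ∧
    D a ≤ -(c * Real.sqrt (X * Real.log X / Nat.totient Q))).card : ℝ)

/-- For almost all moduli `Q` between `X^(2/3+ε)` and `X^(1-ε)` the primes up to `X` are above their
mean in a positive proportion of the reduced classes, and below it in a positive proportion, by at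
least a constant times the standard deviation `√(X log X / φ(Q))`: for prime moduli the mean is the
true mean over the classes, for general moduli the contribution of the few characters of small
conductor is subtracted. -/
theorem both_sides :
    ∀ ε t : ℝ, 0 < ε → 0 < t → ∃ c : ℝ, 0 < c ∧ ∃ X₀ : ℝ, ∀ X Y : ℝ, X₀ ≤ X →
      X ^ (2 / 3 + ε) ≤ Y → Y ≤ X ^ (1 - ε) → (open scoped Classical in
      (((Icc 1 ⌊2 * Y⌋₊).filter fun Q : ℕ => Y < Q ∧
        ¬ Both c X Q (fun a => psi X Q a - low X Q a)).card : ℝ) ≤ t * Y ∧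
      (((Icc 1 ⌊2 * Y⌋₊).filter fun Q : ℕ => Y < Q ∧ Q.Prime ∧
        ¬ Both c X Q (fun a => psi X Q a -
          (∑ n ∈ (Icc 1 ⌊X⌋₊).filter (fun n => Nat.Coprime n Q),
            ArithmeticFunction.vonMangoldt n) / (Nat.totient Q : ℝ))).card : ℝ) ≤
        t * (Y / Real.log Y)) := by
  classical
  intro ε t hε ht
  obtain ⟨c, hc, X₀, h⟩ := Pool.Agent.BSD.fin ε t hε ht
  refine ⟨c, hc, X₀, fun X Y hX h1 h2 => ?_⟩
  obtain ⟨h3, h4⟩ := h X Y hX h1 h2
  have hB : ∀ (Q : ℕ) (D : ℕ → ℝ), Pool.Agent.BSD.BothS c X Q D → Both c X Q D := by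
    intro Q D hD
    unfold Pool.Agent.BSD.BothS Pool.Agent.BSD.RC at hD
    rw [filter_filter, filter_filter] at hD
    exact hD
  have hlow : ∀ Q a : ℕ, Pool.Agent.BSD.DD X Q a = psi X Q a - low X Q a := by
    intro Q a
    unfold Pool.Agent.BSD.DD Pool.Agent.BSD.ps Pool.Agent.BSD.lo psi low
    rw [sum_filter (s := (univ : Finset (DirichletCharacter ℂ Q)))]
  constructor
  · refine le_trans ?_ h3
    have hsub : ((Icc 1 ⌊2 * Y⌋₊).filter fun Q : ℕ => Y < Q ∧
        ¬ Both c X Q (fun a => psi X Q a - low X Q a)) ⊆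
        (Pool.Agent.BSD.IY Y).filter fun Q => ¬ Pool.Agent.BSD.BothS c X Q
          (Pool.Agent.BSD.DD X Q) := by
      intro Q hQ
      rw [mem_filter] at hQ
      unfold Pool.Agent.BSD.IY
      rw [mem_filter, mem_filter]
      refine ⟨⟨hQ.1, hQ.2.1⟩, fun hn => hQ.2.2 ?_⟩
      have h5 := hB Q _ hn
      have h6 : Pool.Agent.BSD.DD X Q = fun a => psi X Q a - low X Q a := funext (hlow Q)
      rw [h6] at h5
      exact h5
    exact_mod_cast card_le_card hsub
  · refine le_trans ?_ h4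
    have hsub : ((Icc 1 ⌊2 * Y⌋₊).filter fun Q : ℕ => Y < Q ∧ Q.Prime ∧
        ¬ Both c X Q (fun a => psi X Q a -
          (∑ n ∈ (Icc 1 ⌊X⌋₊).filter (fun n => Nat.Coprime n Q),
            ArithmeticFunction.vonMangoldt n) / (Nat.totient Q : ℝ))) ⊆
        (Pool.Agent.BSD.IY Y).filter fun Q => Q.Prime ∧ ¬ Pool.Agent.BSD.BothS c X Q
          (fun a => Pool.Agent.BSD.ps X Q a -
          (∑ n ∈ (Icc 1 ⌊X⌋₊).filter (fun n => Nat.Coprime n Q), Pool.Agent.FG61.Lam n) /
            Pool.Agent.FG61.phi Q) := by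
      intro Q hQ
      rw [mem_filter] at hQ
      unfold Pool.Agent.BSD.IY
      rw [mem_filter, mem_filter]
      refine ⟨⟨hQ.1, hQ.2.1⟩, hQ.2.2.1, fun hn => hQ.2.2.2 ?_⟩
      exact hB Q _ hn
    exact_mod_cast card_le_card hsub

end

end Pool.Agent.BSDF
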