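import Pool.Agent.Lib_helper26.BSD.Defs

set_option autoImplicit false

namespace Pool.Agent.BSD

open Finset
open Pool.Agent.FG61 (mu phi Lam cc off)
open Pool.Agent.Var35 (e)

noncomputable section

theorem four_lin {ι : Type} (I : Finset ι) (c : ι → ℂ) (j : ι → ℤ) (Q : ℕ) (hQ : 1 ≤ Q) :
    ∑ a ∈ range Q, ‖∑ i ∈ I, c i * e (a * ((j i : ℝ) / Q))‖ ^ 4 ≤
      Q * ∑ q ∈ ((I ×ˢ I) ×ˢ (I ×ˢ I)).filter
        (fun q => (Q : ℤ) ∣ j q.1.1 + j q.1.2 - j q.2.1 - j q.2.2),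
        ‖c q.1.1‖ * ‖c q.1.2‖ * ‖c q.2.1‖ * ‖c q.2.2‖ := by
  classical
  set co : (ι × ι) × (ι × ι) → ℂ := fun q =>
    c q.1.1 * c q.1.2 * (starRingEnd ℂ) (c q.2.1) * (starRingEnd ℂ) (c q.2.2) with hco
  set ji : (ι × ι) × (ι × ι) → ℤ := fun q => j q.1.1 + j q.1.2 - j q.2.1 - j q.2.2 with hji
  have h1 : ∀ a ∈ range Q, ((‖∑ i ∈ I, c i * e (a * ((j i : ℝ) / Q))‖ ^ 4 : ℝ) : ℂ) =
      ∑ q ∈ (I ×ˢ I) ×ˢ (I ×ˢ I), co q * e (a * ((ji q : ℝ) / Q)) := by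
    intro a _
    set z := ∑ i ∈ I, c i * e (a * ((j i : ℝ) / Q)) with hz
    have h2 : ((‖z‖ ^ 4 : ℝ) : ℂ) = (z * z) * ((starRingEnd ℂ) z * (starRingEnd ℂ) z) := by
      have h3 : z * (starRingEnd ℂ) z = ((‖z‖ ^ 2 : ℝ) : ℂ) := by
        rw [Complex.mul_conj, Complex.normSq_eq_norm_sq]
      calc ((‖z‖ ^ 4 : ℝ) : ℂ) = ((‖z‖ ^ 2 : ℝ) : ℂ) * ((‖z‖ ^ 2 : ℝ) : ℂ) := by
            push_cast; ring
        _ = (z * (starRingEnd ℂ) z) * (z * (starRingEnd ℂ) z) := by rw [h3]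
        _ = _ := by ring
    have hzc : (starRingEnd ℂ) z = ∑ i ∈ I, (starRingEnd ℂ) (c i) * e (-(a * ((j i : ℝ) / Q))) := by
      rw [hz, map_sum]
      exact sum_congr rfl fun i _ => by rw [map_mul, Pool.Agent.Var35.e_neg]
    rw [h2, hzc, hz, sum_mul_sum, sum_mul_sum, ← sum_product', ← sum_product', sum_mul_sum,
      ← sum_product']
    refine sum_congr rfl fun q _ => ?_
    have h4 : (a : ℝ) * ((ji q : ℝ) / Q) = a * ((j q.1.1 : ℝ) / Q) + a * ((j q.1.2 : ℝ) / Q) +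
        (-(a * ((j q.2.1 : ℝ) / Q)) + -(a * ((j q.2.2 : ℝ) / Q))) := by
      rw [hji]; push_cast; ring
    rw [h4, Pool.Agent.Var35.e_add, Pool.Agent.Var35.e_add, Pool.Agent.Var35.e_add, hco]
    ring
  have h5 : ((∑ a ∈ range Q, ‖∑ i ∈ I, c i * e (a * ((j i : ℝ) / Q))‖ ^ 4 : ℝ) : ℂ) =
      ∑ q ∈ ((I ×ˢ I) ×ˢ (I ×ˢ I)).filter (fun q => (Q : ℤ) ∣ ji q), (Q : ℂ) * co q := by
    rw [Complex.ofReal_sum, sum_congr rfl h1, sum_comm, sum_filter]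
    refine sum_congr rfl fun q _ => ?_
    rw [← mul_sum, Pool.Agent.FG61.pv_sum_roots Q (by omega) (ji q)]
    split_ifs
    · ring
    · ring
  have h6 : ∑ a ∈ range Q, ‖∑ i ∈ I, c i * e (a * ((j i : ℝ) / Q))‖ ^ 4 =
      ‖((∑ a ∈ range Q, ‖∑ i ∈ I, c i * e (a * ((j i : ℝ) / Q))‖ ^ 4 : ℝ) : ℂ)‖ := by
    rw [Complex.norm_real, Real.norm_of_nonneg]
    exact sum_nonneg fun _ _ => by positivity
  rw [h6, h5]
  refine (norm_sum_le _ _).trans (le_of_eq ?_)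
  rw [mul_sum]
  refine sum_congr rfl fun q _ => ?_
  rw [hco]
  simp only [norm_mul, Complex.norm_natCast, RCLike.norm_conj]

end

end Pool.Agent.BSD

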