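import Pool.Agent.Lib_helper26.BSD.Defs
import Pool.Agent.Lib_helper26.BSD.A1
import Pool.Agent.Lib_helper26.BSD.A2
import Pool.Agent.Lib_helper26.BSD.B1

set_option autoImplicit false

namespace Pool.Agent.BSD

open Finset
open Pool.Agent.FG61 (mu phi Lam cc off)
open Pool.Agent.Var35 (e)

noncomputable section

theorem g2_Wh_int (m M : ℕ) (α : ℝ) (k : ℤ) : Wh m M (α + k) = Wh m M α := by
  have : Dk M (α + k) = Dk M α := by
    unfold Dk
    refine sum_congr rfl fun n _ => ?_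
    rw [mul_add]
    have : (n:ℝ) * (k:ℝ) = ((n * k : ℤ) : ℝ) := by push_cast; ring
    rw [this, Pool.Agent.Var35.e_add_int]
  unfold Wh
  rw [this]

theorem g2_res (N Q a : ℕ) (hQ : 1 ≤ Q) (ha : a < Q) (F : ℕ → ℂ) :
    ∑ n ∈ (Icc 1 N).filter (fun n => n % Q = a), F n =
      (1 / (Q:ℂ)) * ∑ j ∈ range Q, e (a * ((j:ℝ) / Q)) *
        ∑ n ∈ Icc 1 N, F n * e (-(n * ((j:ℝ) / Q))) := by
  have hQ0 : (Q : ℂ) ≠ 0 := by
    have : Q ≠ 0 := by omega
    exact_mod_cast this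
  have h1 : ∑ j ∈ range Q, e (a * ((j:ℝ) / Q)) *
        ∑ n ∈ Icc 1 N, F n * e (-(n * ((j:ℝ) / Q))) =
      ∑ n ∈ Icc 1 N, F n * (if n % Q = a then (Q : ℂ) else 0) := by
    simp_rw [mul_sum]
    rw [sum_comm]
    refine sum_congr rfl fun n _ => ?_
    have h2 : ∀ j ∈ range Q, e (a * ((j:ℝ) / Q)) * (F n * e (-(n * ((j:ℝ) / Q)))) =
        F n * e (j * ((((a:ℤ) - n : ℤ) : ℝ) / Q)) := by
      intro j _
      have : (j:ℝ) * ((((a:ℤ) - n : ℤ) : ℝ) / Q) = a * ((j:ℝ) / Q) + -(n * ((j:ℝ) / Q)) := by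
        push_cast; ring
      rw [this, Pool.Agent.Var35.e_add]
      ring
    rw [sum_congr rfl h2, ← mul_sum, Pool.Agent.FG61.pv_sum_roots Q (by omega)]
    congr 1
    have h3 : ((Q : ℤ) ∣ (a : ℤ) - n) ↔ n % Q = a := by
      have h4 : a % Q = a := Nat.mod_eq_of_lt ha
      constructor
      · intro h
        have := (Nat.modEq_iff_dvd (n := Q) (a := n) (b := a)).2 h
        unfold Nat.ModEq at this
        rw [this, h4]
      · intro h
        refine (Nat.modEq_iff_dvd (n := Q) (a := n) (b := a)).1 ?_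
        unfold Nat.ModEq
        rw [h, h4]
    by_cases hh : n % Q = a
    · rw [if_pos hh, if_pos (h3.2 hh)]
    · rw [if_neg hh, if_neg (fun h => hh (h3.1 h))]
  rw [h1, sum_filter, mul_sum]
  refine sum_congr rfl fun n _ => ?_
  by_cases hh : n % Q = a
  · rw [if_pos hh, if_pos hh]; field_simp
  · rw [if_neg hh, if_neg hh]; simp

/-- one fraction -/
theorem g2_one (m M N Q a : ℕ) (hm : 1 ≤ m) (hM : 1 ≤ M) (hmM : m * M ≤ N) (hQ : 1 ≤ Q)
    (ha : a < Q) (t B : ℝ) (J : ℤ) (hJ : |Q * t - J| ≤ 1 / 2) (hB : M * ((Q : ℝ) / M) ^ m ≤ B) :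
    ‖∑ n ∈ (Icc 1 N).filter (fun n => n % Q = a), (om m M n : ℂ) * e (n * t) -
      (1 / (Q:ℂ)) * (Wh m M ((Q * t - J) / Q) * e (a * ((J : ℝ) / Q)))‖ ≤ B := by
  have hQr : (0 : ℝ) < Q := by exact_mod_cast hQ
  have hMr : (0 : ℝ) < M := by exact_mod_cast hM
  have hB0 : 0 ≤ B := le_trans (by positivity) hB
  rw [g2_res N Q a hQ ha]
  have h1 : ∀ j ∈ range Q, e (a * ((j:ℝ) / Q)) *
        ∑ n ∈ Icc 1 N, (om m M n : ℂ) * e (n * t) * e (-(n * ((j:ℝ) / Q))) =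
      e (a * ((j:ℝ) / Q)) * Wh m M (t - (j:ℝ) / Q) := by
    intro j _
    rw [← om_hat m M N hm hmM]
    congr 1
    refine sum_congr rfl fun n _ => ?_
    rw [mul_assoc, ← Pool.Agent.Var35.e_add]
    congr 2
    ring
  rw [sum_congr rfl h1]
  -- the main term
  set j₀ : ℕ := (J % Q).toNat with hj₀
  have hQz : (0 : ℤ) < Q := by exact_mod_cast hQ
  have hj1 : (j₀ : ℤ) = J % Q := by
    rw [hj₀]; exact Int.toNat_of_nonneg (Int.emod_nonneg _ hQz.ne')
  have hj2 : j₀ < Q := by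
    have := Int.emod_lt_of_pos J hQz
    omega
  have hj3 : (J : ℤ) = j₀ + Q * (J / Q) := by
    rw [hj1]; exact (Int.emod_add_mul_ediv J Q).symm
  have hj4 : (J : ℝ) = j₀ + Q * ((J / Q : ℤ) : ℝ) := by
    have : ((J : ℤ) : ℝ) = ((j₀ + Q * (J / Q) : ℤ) : ℝ) := by rw [← hj3]
    rw [this]; push_cast; ring
  have h2 : e (a * ((j₀:ℝ) / Q)) * Wh m M (t - (j₀:ℝ) / Q) =
      Wh m M ((Q * t - J) / Q) * e (a * ((J : ℝ) / Q)) := by
    have e1 : t - (j₀:ℝ) / Q = (Q * t - J) / Q + ((J / Q : ℤ) : ℝ) := by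
      rw [hj4]; field_simp; ring
    have e2 : (a : ℝ) * ((J : ℝ) / Q) = a * ((j₀ : ℝ) / Q) + ((a * (J / Q) : ℤ) : ℝ) := by
      rw [hj4]; push_cast; field_simp
    rw [e1, g2_Wh_int, e2, Pool.Agent.Var35.e_add_int]
    ring
  rw [← add_sum_erase _ _ (mem_range.2 hj2), h2, mul_add, add_sub_cancel_left]
  rw [norm_mul, norm_div, norm_one, Complex.norm_natCast]
  have h3 : ‖∑ j ∈ (range Q).erase j₀, e (a * ((j:ℝ) / Q)) * Wh m M (t - (j:ℝ) / Q)‖ ≤
      Q * B := by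
    refine (norm_sum_le _ _).trans ?_
    have h4 : ∀ j ∈ (range Q).erase j₀, ‖e (a * ((j:ℝ) / Q)) * Wh m M (t - (j:ℝ) / Q)‖ ≤ B := by
      intro j hj
      rw [mem_erase, mem_range] at hj
      rw [norm_mul, Pool.Agent.Var35.norm_e, one_mul]
      have h5 := Wh_dec m M hm hM (t - (j:ℝ) / Q) (1 / (2 * Q)) (by positivity) (by
        intro k
        have h6 : (J - j - k * Q : ℤ) ≠ 0 := by
          intro h0
          have h7 : J % Q = (j : ℤ) % Q := by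
            have : J = j + k * Q := by linarith
            rw [this, Int.add_mul_emod_self_right]
          have h8 : (j : ℤ) % Q = j := Int.emod_eq_of_lt (by positivity) (by exact_mod_cast hj.2)
          apply hj.1
          have : (j₀ : ℤ) = j := by rw [hj1, h7, h8]
          exact_mod_cast this.symm
        have h7 : (1 : ℝ) ≤ |((J - j - k * Q : ℤ) : ℝ)| := by
          have := Int.one_le_abs h6
          exact_mod_cast this
        have h8 : t - (j:ℝ) / Q - k = ((Q * t - J) + ((J - j - k * Q : ℤ) : ℝ)) / Q := by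
          push_cast; field_simp; ring
        rw [h8, abs_div, abs_of_pos hQr, le_div_iff₀ hQr]
        have h9 : |((J - j - k * Q : ℤ) : ℝ)| ≤
            |(Q * t - J) + ((J - j - k * Q : ℤ) : ℝ)| + |Q * t - J| := by
          have := abs_sub_abs_le_abs_sub ((J - j - k * Q : ℤ) : ℝ) (-(Q * t - J))
          rw [abs_neg, sub_neg_eq_add, add_comm ((J - j - k * Q : ℤ) : ℝ) (Q * t - J)] at this
          linarith
        have h10 : 1 / (2 * (Q:ℝ)) * Q = 1 / 2 := by field_simp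
        rw [h10]; linarith)
      refine h5.trans (le_trans (le_of_eq ?_) hB)
      congr 2
      field_simp
    refine (sum_le_sum h4).trans ?_
    rw [sum_const, nsmul_eq_mul]
    refine mul_le_mul_of_nonneg_right ?_ hB0
    have : ((range Q).erase j₀).card ≤ Q := (card_erase_le).trans (by rw [card_range])
    exact_mod_cast this
  calc 1 / (Q:ℝ) * ‖∑ j ∈ (range Q).erase j₀, e (a * ((j:ℝ) / Q)) * Wh m M (t - (j:ℝ) / Q)‖
      ≤ 1 / (Q:ℝ) * (Q * B) := mul_le_mul_of_nonneg_left h3 (by positivity)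
    _ = B := by field_simp

/-- the sum over the fractions -/
theorem g2_uu (δ X Y : ℝ) (Q a : ℕ) (hRR : ∀ x ∈ RR δ X Y Q, 1 ≤ x.1 * x.2) :
    (uu δ X Y Q a : ℂ) = ∑ θ ∈ TH δ X Y Q, (gr (den θ) : ℂ) *
      ∑ n ∈ (Icc 1 ⌊X⌋₊).filter (fun n => n % Q = a),
        (om (mm δ) (MM δ X) n : ℂ) * e (n * th θ) := by
  unfold uu
  rw [Complex.ofReal_sum]
  have h1 : ∀ n ∈ (Icc 1 ⌊X⌋₊).filter (fun n => n % Q = a), (bb δ X Y Q n : ℂ) =
      ∑ θ ∈ TH δ X Y Q, (gr (den θ) : ℂ) * ((om (mm δ) (MM δ X) n : ℂ) * e (n * th θ)) := by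
    intro n _
    unfold bb TH
    rw [sum_sigma, Complex.ofReal_mul, Complex.ofReal_sum, mul_sum]
    refine sum_congr rfl fun x hx => ?_
    rw [Complex.ofReal_mul, Pool.Agent.FG61.cc_exp _ _ (hRR x hx), mul_sum, mul_sum]
    refine sum_congr rfl fun b _ => ?_
    have : ((b : ℝ) * n / ((x.1 * x.2 : ℕ) : ℝ)) = n * th ⟨x, b⟩ := by
      unfold th den; ring
    rw [this]
    show _ = (gr (den ⟨x, b⟩) : ℂ) * _
    unfold den
    ring
  rw [sum_congr rfl h1, sum_comm]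
  refine sum_congr rfl fun θ _ => ?_
  rw [mul_sum]

theorem g2_gr (r : ℕ) : |gr r| ≤ 1 := by
  unfold gr
  rw [abs_div]
  have h1 : |mu r| ≤ 1 := by
    unfold mu
    have := ArithmeticFunction.abs_moebius_le_one (n := r)
    exact_mod_cast this
  rcases Nat.eq_zero_or_pos r with h | h
  · subst h; simp
  · have h2 : (1 : ℝ) ≤ |phi r| := by
      rw [abs_of_nonneg (by positivity)]
      have := Nat.totient_pos.2 h
      exact_mod_cast this
    rw [div_le_one (by linarith)]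
    linarith

theorem u_approx (ε δ : ℝ) (h : Ok ε δ) : ∃ X₀ : ℝ, ∀ X Y : ℝ, X₀ ≤ X → Rg ε X Y → ∀ Q ∈ IY Y,
    ∀ a : ℕ, a < Q → ‖(uu δ X Y Q a : ℂ) - (1 / (Q : ℂ)) * ∑ θ ∈ NR δ X Y Q,
      (gr (den θ) : ℂ) * Wh (mm δ) (MM δ X) (ee Q θ / Q) * e (a * ((jj Q θ : ℝ) / Q))‖ ≤
        X ^ (-(10 : ℝ)) := by
  have hmp : 1 ≤ mm δ := by
    unfold mm
    exact Nat.one_le_ceil_iff.2 (div_pos (by norm_num) h.1)
  obtain ⟨X₁, h1⟩ := sizes ε δ (4 * mm δ) h
  refine ⟨X₁, fun X Y hX hR Q hQ a ha => ?_⟩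
  have hs := h1 X Y hX hR
  have hA : (1 : ℝ) ≤ 4 * mm δ := by
    have : (1 : ℝ) ≤ mm δ := by exact_mod_cast hmp
    linarith
  obtain ⟨hδ, hε, hδ2⟩ := h
  have hmr : (1 : ℝ) ≤ mm δ := by exact_mod_cast hmp
  have hX3 := hs.X3
  have hX0 : (0 : ℝ) < X := by linarith
  have hX1 : (1 : ℝ) ≤ X := by linarith
  have hY0 : 0 < Y := lt_of_lt_of_le (by positivity) hs.Y1
  unfold IY at hQ
  rw [mem_filter, mem_Icc] at hQ
  obtain ⟨⟨hQ1, hQ2⟩, hQ3⟩ := hQ
  have hQ0 : (0 : ℝ) < Q := by linarith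
  have hQY : (Q : ℝ) ≤ 2 * Y := (Nat.le_floor_iff (by linarith)).1 hQ2
  have hM1 := hs.M1
  have hM0 : (0 : ℝ) < MM δ X := by exact_mod_cast hM1
  have hMlo := hs.Mlo
  -- logs
  have hl : 0 ≤ Real.log X := Real.log_nonneg hX1
  have hbig : 4 * (mm δ : ℝ) ≤ X ^ (δ ^ 2 / 100) := by
    refine le_trans ?_ hs.lg
    have : (1 : ℝ) ≤ (1 + Real.log X) ^ 100 := one_le_pow₀ (by linarith)
    nlinarith
  have hbig2 : 4 * (mm δ : ℝ) ≤ X ^ (δ / 2) :=
    hbig.trans (Real.rpow_le_rpow_of_exponent_le hX1 (by nlinarith))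
  -- the power
  have hpow : ∀ x : ℝ, 0 ≤ x → x ≤ X ^ (-(δ / 2)) → x ^ mm δ ≤ X ^ (-(50 : ℝ)) := by
    intro x hx0 hx
    calc x ^ mm δ ≤ (X ^ (-(δ / 2))) ^ mm δ := pow_le_pow_left₀ hx0 hx _
      _ = X ^ (-(δ / 2) * mm δ) := by
          rw [← Real.rpow_natCast, ← Real.rpow_mul hX0.le]
      _ ≤ X ^ (-(50 : ℝ)) := by
          refine Real.rpow_le_rpow_of_exponent_le hX1 ?_
          have h2 : 100 / δ ≤ mm δ := Nat.le_ceil _
          rw [div_le_iff₀ hδ] at h2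
          linarith
  have hQM : (Q : ℝ) / MM δ X ≤ X ^ (-(δ / 2)) := by
    have h2 : (Q : ℝ) / MM δ X ≤ 4 * mm δ * (Y / X) := by
      rw [div_le_iff₀ hM0]
      calc (Q : ℝ) ≤ 2 * Y := hQY
        _ = 4 * mm δ * (Y / X) * (X / (2 * mm δ)) := by field_simp; ring
        _ ≤ 4 * mm δ * (Y / X) * MM δ X := by gcongr
    have h3 : Y / X ≤ X ^ (-ε) := by
      have := hs.Zlo
      rw [Real.rpow_neg hX0.le, div_le_iff₀ hX0, ← div_eq_inv_mul, le_div_iff₀ (by positivity)]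
      rw [le_div_iff₀ hY0] at this
      linarith
    calc (Q : ℝ) / MM δ X ≤ 4 * mm δ * (Y / X) := h2
      _ ≤ X ^ (δ / 2) * X ^ (-ε) := by gcongr
      _ = X ^ (δ / 2 + -ε) := by rw [Real.rpow_add hX0]
      _ ≤ X ^ (-(δ / 2)) := Real.rpow_le_rpow_of_exponent_le hX1 (by nlinarith)
  have hB : (MM δ X : ℝ) * ((Q : ℝ) / MM δ X) ^ mm δ ≤ X * X ^ (-(50 : ℝ)) := by
    have := hs.Mhi
    exact mul_le_mul this (hpow _ (by positivity) hQM) (by positivity) hX0.le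
  set B : ℝ := X * X ^ (-(50 : ℝ)) with hBdef
  have hB0 : 0 ≤ B := by positivity
  -- the fractions
  have hRR : ∀ x ∈ RR δ X Y Q, 1 ≤ x.1 * x.2 := by
    intro x hx
    obtain ⟨r1, r2, r3, r4, r5, r6, r7, r8, r9, r10, r11⟩ := rr_mem ⟨hδ, hε, hδ2⟩ hs hA Q x hx
    exact Nat.mul_pos r1.pos r4
  rw [g2_uu δ X Y Q a hRR]
  have hNR : NR δ X Y Q ⊆ TH δ X Y Q := filter_subset _ _
  -- comparison, fraction by fraction
  set S : (Σ _ : ℕ × ℕ, ℕ) → ℂ := fun θ => ∑ n ∈ (Icc 1 ⌊X⌋₊).filter (fun n => n % Q = a),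
        (om (mm δ) (MM δ X) n : ℂ) * e (n * th θ) with hS
  set V : (Σ _ : ℕ × ℕ, ℕ) → ℂ := fun θ => (1 / (Q:ℂ)) *
    (Wh (mm δ) (MM δ X) (ee Q θ / Q) * e (a * ((jj Q θ : ℝ) / Q))) with hV
  have hdist : ∀ θ, |ee Q θ| ≤ 1 / 2 := by
    intro θ
    unfold ee jj
    exact abs_sub_round _
  have hone : ∀ θ, ‖S θ - V θ‖ ≤ B := by
    intro θ
    exact g2_one (mm δ) (MM δ X) ⌊X⌋₊ Q a hmp hM1 hs.mM hQ1 ha (th θ) B (jj Q θ) (hdist θ) hB
  have hfar : ∀ θ ∈ TH δ X Y Q, θ ∉ NR δ X Y Q → ‖V θ‖ ≤ B := by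
    intro θ hθ hθ2
    have h2 : Del δ X Y ≤ |ee Q θ| := by
      by_contra hc
      push Not at hc
      exact hθ2 (mem_filter.2 ⟨hθ, hc⟩)
    have hD0 : 0 < Del δ X Y := by unfold Del; positivity
    have h3 := Wh_dec (mm δ) (MM δ X) hmp hM1 (ee Q θ / Q) (Del δ X Y / Q) (by positivity) (by
      intro k
      have hQge : (1 : ℝ) ≤ Q := by exact_mod_cast hQ1
      by_cases hk : k = 0
      · subst hk
        rw [Int.cast_zero, sub_zero, abs_div, abs_of_pos hQ0]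
        gcongr
      · have h4 : (1 : ℝ) ≤ |(k : ℝ)| := by
          have := Int.one_le_abs hk
          exact_mod_cast this
        have h5 : |(k : ℝ)| ≤ |ee Q θ / Q - k| + |ee Q θ / Q| := by
          have := abs_sub_abs_le_abs_sub (k : ℝ) (ee Q θ / Q)
          rw [abs_sub_comm (k : ℝ)] at this
          linarith
        have h6 : |ee Q θ / Q| ≤ 1 / 2 := by
          rw [abs_div, abs_of_pos hQ0, div_le_iff₀ hQ0]
          have := hdist θ
          nlinarith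
        have h7 : Del δ X Y / Q ≤ 1 / 2 := by
          rw [div_le_iff₀ hQ0]
          have := hdist θ
          nlinarith
        linarith)
    rw [hV]
    simp only
    rw [norm_mul, norm_div, norm_one, Complex.norm_natCast, norm_mul, Pool.Agent.Var35.norm_e,
      mul_one]
    have h4 : 1 / (2 * (MM δ X : ℝ) * (Del δ X Y / Q)) ≤ X ^ (-(δ / 2)) := by
      have h5 : 1 / (2 * (MM δ X : ℝ) * (Del δ X Y / Q)) = Q / (2 * Del δ X Y) / MM δ X := by
        field_simp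
      rw [h5, div_le_iff₀ hM0]
      have h6 : X ^ (δ / 2) * X ^ (-δ) = X ^ (-(δ / 2)) := by
        rw [← Real.rpow_add hX0]; congr 1; ring
      have h7 : X ^ δ * X ^ (-δ) = 1 := by
        rw [← Real.rpow_add hX0]; simp
      rw [← h6]
      unfold Del
      have h8 : (Q : ℝ) / (2 * (X ^ δ * Y / X)) ≤ X * X ^ (-δ) := by
        rw [div_le_iff₀ (by positivity)]
        have : X * X ^ (-δ) * (2 * (X ^ δ * Y / X)) = 2 * Y * (X ^ δ * X ^ (-δ)) := by
          field_simp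
        rw [this, h7]; linarith
      refine h8.trans ?_
      calc X * X ^ (-δ) ≤ 4 * mm δ * X ^ (-δ) * (X / (2 * mm δ)) := by
            have : 4 * (mm δ : ℝ) * X ^ (-δ) * (X / (2 * mm δ)) = 2 * (X * X ^ (-δ)) := by
              field_simp; ring
            rw [this]
            have : 0 ≤ X * X ^ (-δ) := by positivity
            linarith
        _ ≤ X ^ (δ / 2) * X ^ (-δ) * MM δ X := by gcongr
    calc 1 / (Q:ℝ) * ‖Wh (mm δ) (MM δ X) (ee Q θ / Q)‖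
        ≤ 1 * ‖Wh (mm δ) (MM δ X) (ee Q θ / Q)‖ := by
          refine mul_le_mul_of_nonneg_right ?_ (norm_nonneg _)
          rw [div_le_one hQ0]; exact_mod_cast hQ1
      _ = ‖Wh (mm δ) (MM δ X) (ee Q θ / Q)‖ := one_mul _
      _ ≤ _ := h3
      _ ≤ X * X ^ (-(50 : ℝ)) :=
          mul_le_mul hs.Mhi (hpow _ (by positivity) h4) (by positivity) hX0.le
  -- the number of the fractions
  have hcard : ((TH δ X Y Q).card : ℝ) ≤ X ^ 2 := by
    unfold TH
    rw [card_sigma]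
    push_cast
    have hXY0 : (0 : ℝ) < X / Y := by positivity
    have h13 : X / Y ≤ X ^ (1 / 3 : ℝ) := hs.Zhi.trans
      (Real.rpow_le_rpow_of_exponent_le hX1 (by nlinarith))
    have h2 : ∀ x ∈ RR δ X Y Q, ((((range (x.1 * x.2)).filter
        fun b => b.Coprime (x.1 * x.2)).card : ℕ) : ℝ) ≤ X := by
      intro x hx
      obtain ⟨r1, r2, r3, r4, r5, r6, r7, r8, r9, r10, r11⟩ := rr_mem ⟨hδ, hε, hδ2⟩ hs hA Q x hx
      have h3 : (((range (x.1 * x.2)).filter fun b => b.Coprime (x.1 * x.2)).card : ℝ) ≤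
          ((x.1 * x.2 : ℕ) : ℝ) := by
        have := card_filter_le (range (x.1 * x.2)) fun b => b.Coprime (x.1 * x.2)
        rw [card_range] at this
        exact_mod_cast this
      refine h3.trans (r10.trans ?_)
      calc X / Y * X ^ (2 * δ) ≤ X ^ (1 / 3 : ℝ) * X ^ (2 * δ) := by gcongr
        _ = X ^ (1 / 3 + 2 * δ) := by rw [Real.rpow_add hX0]
        _ ≤ X ^ (1 : ℝ) := Real.rpow_le_rpow_of_exponent_le hX1 (by linarith)
        _ = X := Real.rpow_one X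
    have h4 : ((RR δ X Y Q).card : ℝ) ≤ X := by
      unfold RR
      rw [card_product]
      push_cast
      have h5 : ((PS δ X Y).card : ℝ) ≤ X / Y * X ^ (3 / 2 * δ) := by
        have h6 : ((PS δ X Y).card : ℝ) ≤ (⌊(KK δ X Y : ℝ) ^ (1 + δ)⌋₊ : ℝ) := by
          have : (PS δ X Y).card ≤ (Icc 1 ⌊(KK δ X Y : ℝ) ^ (1 + δ)⌋₊).card := by
            unfold PS; exact card_filter_le _ _
          rw [Nat.card_Icc, Nat.add_sub_cancel] at this
          exact_mod_cast this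
        refine h6.trans ((Nat.floor_le (by positivity)).trans hs.Kpow)
      have h7 : ((((Icc 1 (SS δ X)).filter fun s => Squarefree s ∧ s.Coprime Q).card : ℕ) : ℝ) ≤
          X ^ (δ ^ 2 / 10) := by
        have : ((Icc 1 (SS δ X)).filter fun s => Squarefree s ∧ s.Coprime Q).card ≤
            (Icc 1 (SS δ X)).card := card_filter_le _ _
        rw [Nat.card_Icc, Nat.add_sub_cancel] at this
        exact (by exact_mod_cast this :
          ((((Icc 1 (SS δ X)).filter fun s => Squarefree s ∧ s.Coprime Q).card : ℕ) : ℝ) ≤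
            (SS δ X : ℝ)).trans hs.Shi
      calc ((PS δ X Y).card : ℝ) * _ ≤ (X / Y * X ^ (3 / 2 * δ)) * X ^ (δ ^ 2 / 10) := by
            gcongr
        _ ≤ (X ^ (1 / 3 : ℝ) * X ^ (3 / 2 * δ)) * X ^ (δ ^ 2 / 10) := by gcongr
        _ = X ^ (1 / 3 + 3 / 2 * δ + δ ^ 2 / 10) := by
            rw [Real.rpow_add hX0, Real.rpow_add hX0]
        _ ≤ X ^ (1 : ℝ) := Real.rpow_le_rpow_of_exponent_le hX1 (by nlinarith)
        _ = X := Real.rpow_one X
    calc ∑ x ∈ RR δ X Y Q, ((((range (x.1 * x.2)).filter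
        fun b => b.Coprime (x.1 * x.2)).card : ℕ) : ℝ) ≤ ∑ x ∈ RR δ X Y Q, X := sum_le_sum h2
      _ = (RR δ X Y Q).card * X := by rw [sum_const, nsmul_eq_mul]
      _ ≤ X * X := by gcongr
      _ = X ^ 2 := by ring
  -- the conclusion
  have hkey : (∑ θ ∈ TH δ X Y Q, (gr (den θ) : ℂ) * S θ) - (1 / (Q : ℂ)) * ∑ θ ∈ NR δ X Y Q,
      (gr (den θ) : ℂ) * Wh (mm δ) (MM δ X) (ee Q θ / Q) * e (a * ((jj Q θ : ℝ) / Q)) =
      ∑ θ ∈ TH δ X Y Q, (gr (den θ) : ℂ) *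
        (S θ - (if θ ∈ NR δ X Y Q then V θ else 0)) := by
    have h2 : (1 / (Q : ℂ)) * ∑ θ ∈ NR δ X Y Q,
      (gr (den θ) : ℂ) * Wh (mm δ) (MM δ X) (ee Q θ / Q) * e (a * ((jj Q θ : ℝ) / Q)) =
        ∑ θ ∈ TH δ X Y Q, (gr (den θ) : ℂ) * (if θ ∈ NR δ X Y Q then V θ else 0) := by
      have h3 : ∀ θ ∈ TH δ X Y Q, (gr (den θ) : ℂ) * (if θ ∈ NR δ X Y Q then V θ else 0) =
          if θ ∈ NR δ X Y Q then (gr (den θ) : ℂ) * V θ else 0 := by
        intro θ _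
        split_ifs <;> simp
      rw [sum_congr rfl h3, ← sum_filter, mul_sum]
      have h4 : (TH δ X Y Q).filter (fun θ => θ ∈ NR δ X Y Q) = NR δ X Y Q := by
        ext θ
        rw [mem_filter]
        exact ⟨fun h => h.2, fun h => ⟨hNR h, h⟩⟩
      rw [h4]
      refine sum_congr rfl fun θ _ => ?_
      rw [hV]
      ring
    rw [h2, ← sum_sub_distrib]
    refine sum_congr rfl fun θ _ => ?_
    ring
  show ‖(∑ θ ∈ TH δ X Y Q, (gr (den θ) : ℂ) * S θ) - _‖ ≤ _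
  rw [hkey]
  have hterm : ∀ θ ∈ TH δ X Y Q, ‖(gr (den θ) : ℂ) *
      (S θ - (if θ ∈ NR δ X Y Q then V θ else 0))‖ ≤ 2 * B := by
    intro θ hθ
    rw [norm_mul, Complex.norm_real, Real.norm_eq_abs]
    have h2 : ‖S θ - (if θ ∈ NR δ X Y Q then V θ else 0)‖ ≤ 2 * B := by
      by_cases hn : θ ∈ NR δ X Y Q
      · rw [if_pos hn]; linarith [hone θ]
      · rw [if_neg hn, sub_zero]
        have h3 : ‖S θ‖ ≤ ‖S θ - V θ‖ + ‖V θ‖ := by
          have := norm_add_le (S θ - V θ) (V θ)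
          rwa [sub_add_cancel] at this
        linarith [hone θ, hfar θ hθ hn]
    calc |gr (den θ)| * ‖S θ - (if θ ∈ NR δ X Y Q then V θ else 0)‖ ≤ 1 * (2 * B) :=
          mul_le_mul (g2_gr _) h2 (norm_nonneg _) (by norm_num)
      _ = 2 * B := one_mul _
  refine (norm_sum_le _ _).trans ((sum_le_sum hterm).trans ?_)
  rw [sum_const, nsmul_eq_mul]
  calc ((TH δ X Y Q).card : ℝ) * (2 * B) ≤ X ^ 2 * (2 * B) := by gcongr
    _ ≤ X ^ 2 * (X * (X * X ^ (-(50 : ℝ)))) := by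
        rw [hBdef]
        have : 2 * (X * X ^ (-(50:ℝ))) ≤ X * (X * X ^ (-(50 : ℝ))) := by gcongr; linarith
        gcongr
    _ = X ^ (4 : ℝ) * X ^ (-(50 : ℝ)) := by
        have : X ^ (4 : ℝ) = X ^ 4 := by exact_mod_cast Real.rpow_natCast X 4
        rw [this]; ring
    _ = X ^ (4 + -(50 : ℝ)) := by rw [Real.rpow_add hX0]
    _ ≤ X ^ (-(10 : ℝ)) := Real.rpow_le_rpow_of_exponent_le hX1 (by norm_num)

end

end Pool.Agent.BSD

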