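import Pool.Agent.Lib_helper26.BSD.Defs
import Pool.Agent.Lib_helper26.BSD.B1
import Pool.Agent.Lib_helper26.BSD.G1
import Pool.Agent.Lib_helper26.BSD.G2

set_option autoImplicit false

namespace Pool.Agent.BSD

open Finset
open Pool.Agent.FG61 (mu phi Lam cc off)
open Pool.Agent.Var35 (e)

noncomputable section

theorem g3_pow (x y : ℝ) (hx : 0 ≤ x) (hy : 0 ≤ y) : (x + y) ^ 4 ≤ 8 * x ^ 4 + 8 * y ^ 4 := by
  have h1 : (x + y) ^ 2 ≤ 2 * (x ^ 2 + y ^ 2) := by nlinarith [sq_nonneg (x - y)]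
  have h2 : (x ^ 2 + y ^ 2) ^ 2 ≤ 2 * (x ^ 4 + y ^ 4) := by nlinarith [sq_nonneg (x ^ 2 - y ^ 2)]
  calc (x + y) ^ 4 = ((x + y) ^ 2) ^ 2 := by ring
    _ ≤ (2 * (x ^ 2 + y ^ 2)) ^ 2 := pow_le_pow_left₀ (sq_nonneg _) h1 2
    _ = 4 * (x ^ 2 + y ^ 2) ^ 2 := by ring
    _ ≤ 8 * x ^ 4 + 8 * y ^ 4 := by linarith

theorem u_four (ε δ : ℝ) (h : Ok ε δ) : ∃ X₀ : ℝ, ∀ X Y : ℝ, X₀ ≤ X → Rg ε X Y → ∀ Q ∈ IY Y,
    ∑ a ∈ range Q, uu δ X Y Q a ^ 4 ≤ 8 / (Q : ℝ) ^ 3 * ∑ q ∈ QD δ X Y Q, gq δ X Q q + 1 := by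
  obtain ⟨X₁, h1⟩ := u_approx ε δ h
  obtain ⟨X₂, h2⟩ := sizes ε δ 1 h
  refine ⟨max (max X₁ X₂) 3, fun X Y hX hR Q hQ => ?_⟩
  have hX1 : X₁ ≤ X := (le_max_left _ _).trans ((le_max_left _ _).trans hX)
  have hX2 : X₂ ≤ X := (le_max_right _ _).trans ((le_max_left _ _).trans hX)
  have hX3 : 3 ≤ X := (le_max_right _ _).trans hX
  have hs := h2 X Y hX2 hR
  have hu := h1 X Y hX1 hR Q hQ
  have hX0 : (0 : ℝ) < X := by linarith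
  have hY0 : 0 < Y := lt_of_lt_of_le (by positivity) hs.Y1
  have hQ' := hQ
  unfold IY at hQ'
  rw [mem_filter, mem_Icc] at hQ'
  obtain ⟨⟨hQ1, hQ2⟩, hQ3⟩ := hQ'
  have hQ0 : (0 : ℝ) < Q := by linarith
  have hQX : (Q : ℝ) ≤ 2 * X := by
    have := (Nat.le_floor_iff (by linarith)).1 hQ2
    have := hs.YX
    linarith
  set c : (Σ _ : ℕ × ℕ, ℕ) → ℂ := fun θ => (gr (den θ) : ℂ) * Wh (mm δ) (MM δ X) (ee Q θ / Q)
    with hc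
  set v : ℕ → ℂ := fun a => (1 / (Q : ℂ)) * ∑ θ ∈ NR δ X Y Q, c θ * e (a * ((jj Q θ : ℝ) / Q))
    with hv
  set η : ℝ := X ^ (-(10 : ℝ)) with hη
  have hη0 : 0 ≤ η := by positivity
  have h3 : ∀ a ∈ range Q, uu δ X Y Q a ^ 4 ≤ 8 * ‖v a‖ ^ 4 + 8 * η ^ 4 := by
    intro a ha
    have h4 := hu a (mem_range.1 ha)
    have h5 : |uu δ X Y Q a| ≤ ‖v a‖ + η := by
      have h6 : |uu δ X Y Q a| = ‖(uu δ X Y Q a : ℂ)‖ := by rw [Complex.norm_real]; rfl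
      rw [h6]
      have h7 : ‖(uu δ X Y Q a : ℂ)‖ ≤ ‖v a‖ + ‖(uu δ X Y Q a : ℂ) - v a‖ := by
        have := norm_add_le (v a) ((uu δ X Y Q a : ℂ) - v a)
        rwa [add_sub_cancel] at this
      refine h7.trans ?_
      gcongr
    calc uu δ X Y Q a ^ 4 = |uu δ X Y Q a| ^ 4 := by
          rw [show (4 : ℕ) = 2 * 2 by norm_num, pow_mul, pow_mul, sq_abs]
      _ ≤ (‖v a‖ + η) ^ 4 := pow_le_pow_left₀ (abs_nonneg _) h5 4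
      _ ≤ _ := g3_pow _ _ (norm_nonneg _) hη0
  have h8 : ∑ a ∈ range Q, ‖v a‖ ^ 4 ≤ 1 / (Q : ℝ) ^ 3 * ∑ q ∈ QD δ X Y Q, gq δ X Q q := by
    have h9 := four_lin (NR δ X Y Q) c (jj Q) Q hQ1
    have h10 : ∀ a ∈ range Q, ‖v a‖ ^ 4 = 1 / (Q : ℝ) ^ 4 *
        ‖∑ θ ∈ NR δ X Y Q, c θ * e (a * ((jj Q θ : ℝ) / Q))‖ ^ 4 := by
      intro a _
      rw [hv]
      simp only
      rw [norm_mul, mul_pow, norm_div, norm_one, Complex.norm_natCast, div_pow, one_pow]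
    rw [sum_congr rfl h10, ← mul_sum]
    have h11 : ∀ θ, ‖c θ‖ = gw δ X Q θ := by
      intro θ
      rw [hc]
      simp only
      unfold gw
      rw [norm_mul, Complex.norm_real, Real.norm_eq_abs]
    simp only [h11] at h9
    calc 1 / (Q : ℝ) ^ 4 * ∑ a ∈ range Q,
          ‖∑ θ ∈ NR δ X Y Q, c θ * e (a * ((jj Q θ : ℝ) / Q))‖ ^ 4
        ≤ 1 / (Q : ℝ) ^ 4 * (Q * ∑ q ∈ QD δ X Y Q, gq δ X Q q) :=
          mul_le_mul_of_nonneg_left h9 (by positivity)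
      _ = _ := by field_simp
  have h12 : 8 * (Q * η ^ 4) ≤ 1 := by
    have h13 : η ^ 4 = X ^ (-(40 : ℝ)) := by
      rw [hη, ← Real.rpow_natCast, ← Real.rpow_mul hX0.le]
      norm_num
    have h14 : X ^ (-(40 : ℝ)) ≤ X ^ (-(5 : ℝ)) :=
      Real.rpow_le_rpow_of_exponent_le (by linarith) (by norm_num)
    have h15 : X ^ (-(5 : ℝ)) = 1 / X ^ 5 := by
      rw [Real.rpow_neg hX0.le, one_div]
      congr 1
      exact_mod_cast Real.rpow_natCast X 5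
    have h16 : η ^ 4 ≤ 1 / X ^ 5 := by rw [h13]; exact h14.trans h15.le
    calc 8 * (Q * η ^ 4) ≤ 8 * (2 * X * (1 / X ^ 5)) := by gcongr
      _ = 16 / X ^ 4 := by field_simp; norm_num
      _ ≤ 1 := by
          rw [div_le_one (by positivity)]
          calc (16 : ℝ) ≤ 3 ^ 4 := by norm_num
            _ ≤ X ^ 4 := pow_le_pow_left₀ (by norm_num) hX3 4
  calc ∑ a ∈ range Q, uu δ X Y Q a ^ 4 ≤ ∑ a ∈ range Q, (8 * ‖v a‖ ^ 4 + 8 * η ^ 4) :=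
        sum_le_sum h3
    _ = 8 * ∑ a ∈ range Q, ‖v a‖ ^ 4 + 8 * (Q * η ^ 4) := by
        rw [sum_add_distrib, ← mul_sum, sum_const, card_range, nsmul_eq_mul]
        ring
    _ ≤ 8 * (1 / (Q : ℝ) ^ 3 * ∑ q ∈ QD δ X Y Q, gq δ X Q q) + 1 :=
        add_le_add (mul_le_mul_of_nonneg_left h8 (by norm_num)) h12
    _ = _ := by ring

end

end Pool.Agent.BSD

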