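import Pool.Agent.Lib_helper26.BSD.Defs
import Pool.Agent.Lib_helper26.BSD.B1

set_option autoImplicit false

namespace Pool.Agent.BSD

open Finset
open Pool.Agent.FG61 (mu phi Lam cc off)
open Pool.Agent.Var35 (e)

noncomputable section

theorem g4_core (Q s : ℕ) (hc : s.Coprime Q) (hs : 0 < s) (x E : ℝ) (J k : ℤ)
    (h1 : (s : ℝ) * x = k) (h2 : Q * x = J + E) (h3 : |(s : ℝ) * E| < 1) :
    ∃ l : ℤ, x = l := by
  have h4 : (s : ℝ) * E = ((Q * k - s * J : ℤ) : ℝ) := by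
    push_cast
    rw [← h1]
    have : E = Q * x - J := by linarith
    rw [this]; ring
  have h5 : (Q * k - s * J : ℤ) = 0 := by
    rw [h4] at h3
    have : |(Q * k - s * J : ℤ)| < 1 := by exact_mod_cast h3
    exact Int.abs_lt_one_iff.1 this
  have h6 : (s : ℤ) ∣ Q * k := ⟨J, by linarith⟩
  have h7 : (s : ℤ) ∣ k := by
    have hc' : IsCoprime (s : ℤ) (Q : ℤ) := Nat.isCoprime_iff_coprime.2 hc
    exact hc'.dvd_of_dvd_mul_left h6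
  obtain ⟨l, hl⟩ := h7
  refine ⟨l, ?_⟩
  have hs0 : (s : ℝ) ≠ 0 := by positivity
  rw [hl] at h1
  push_cast at h1
  exact mul_left_cancel₀ hs0 h1

/-- the facts about a near fraction -/
theorem g4_mem {ε δ A X Y : ℝ} (h : Ok ε δ) (hs : Sz ε δ A X Y) (hA : 1 ≤ A) (Q : ℕ)
    (θ : Σ _ : ℕ × ℕ, ℕ) (hθ : θ ∈ NR δ X Y Q) :
    θ.1.1.Prime ∧ KK δ X Y < θ.1.1 ∧ 1 ≤ θ.1.2 ∧ θ.1.2 ≤ SS δ X ∧ θ.1.2.Coprime Q ∧
      0 < den θ ∧ θ.2 < den θ ∧ θ.2.Coprime (den θ) ∧ |ee Q θ| < Del δ X Y ∧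
      0 ≤ th θ ∧ th θ < 1 := by
  unfold NR TH at hθ
  rw [mem_filter, mem_sigma, mem_filter, mem_range] at hθ
  obtain ⟨⟨h1, h2, h3⟩, h4⟩ := hθ
  obtain ⟨r1, r2, r3, r4, r5, r6, r7, r8, r9, r10, r11⟩ := rr_mem h hs hA Q θ.1 h1
  have hd : 0 < den θ := by unfold den; exact Nat.mul_pos r1.pos r4
  have hd' : (0 : ℝ) < den θ := by exact_mod_cast hd
  refine ⟨r1, r2, r4, r5, r7, hd, h2, h3, h4, ?_, ?_⟩
  · unfold th; positivity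
  · unfold th
    rw [div_lt_one hd']
    exact_mod_cast h2

theorem g4_two {ε δ A X Y : ℝ} (hs : Sz ε δ A X Y) (hA : 1 ≤ A) : 2 ≤ X ^ (δ ^ 2 / 100) := by
  have hlog : 0 ≤ Real.log X := Real.log_nonneg (by linarith [hs.X3])
  have hl1 : 1 ≤ Real.log X := by
    rw [Real.le_log_iff_exp_le (by linarith [hs.X3])]
    have := Real.exp_one_lt_d9
    linarith [hs.X3]
  refine le_trans ?_ hs.lg
  calc (2 : ℝ) ≤ 1 * 2 ^ 100 := by norm_num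
    _ ≤ A * (1 + Real.log X) ^ 100 := by
        apply mul_le_mul hA _ (by norm_num) (by linarith)
        exact pow_le_pow_left₀ (by norm_num) (by linarith) 100

theorem g4_small {ε δ A X Y : ℝ} (h : Ok ε δ) (hs : Sz ε δ A X Y) (hA : 1 ≤ A) (a b : ℕ) (ha : a ≤ SS δ X)
    (hb : b ≤ SS δ X) (x y : ℝ) (hx : |x| < Del δ X Y) (hy : |y| < Del δ X Y) (z : ℝ)
    (hz : |z| ≤ |x| + |y|) : |((a * b : ℕ) : ℝ) * z| < 1 := by
  obtain ⟨h1, h2, h3⟩ := h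
  have hX : (1 : ℝ) < X := by linarith [hs.X3]
  have hX0 : (0 : ℝ) < X := by linarith
  have ha' : (a : ℝ) ≤ X ^ (δ ^ 2 / 10) := (by exact_mod_cast ha : (a : ℝ) ≤ SS δ X).trans hs.Shi
  have hb' : (b : ℝ) ≤ X ^ (δ ^ 2 / 10) := (by exact_mod_cast hb : (b : ℝ) ≤ SS δ X).trans hs.Shi
  have hD := hs.Dhi
  have hD0 : 0 < Del δ X Y := (abs_nonneg _).trans_lt hx
  rw [abs_mul, Nat.abs_cast]
  push_cast
  have hz' : |z| < 2 * X ^ (-(99 * δ)) := by linarith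
  have hlg := hs.lg
  calc (a : ℝ) * b * |z| ≤ X ^ (δ ^ 2 / 10) * X ^ (δ ^ 2 / 10) * |z| := by gcongr
    _ < X ^ (δ ^ 2 / 10) * X ^ (δ ^ 2 / 10) * (2 * X ^ (-(99 * δ))) := by
        apply mul_lt_mul_of_pos_left hz'
        positivity
    _ = 2 * X ^ (δ ^ 2 / 10 + δ ^ 2 / 10 + -(99 * δ)) := by
        rw [Real.rpow_add hX0, Real.rpow_add hX0]; ring
    _ ≤ X ^ (δ ^ 2 / 100) * X ^ (δ ^ 2 / 10 + δ ^ 2 / 10 + -(99 * δ)) :=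
        mul_le_mul_of_nonneg_right (g4_two hs hA) (by positivity)
    _ = X ^ (δ ^ 2 / 100 + (δ ^ 2 / 10 + δ ^ 2 / 10 + -(99 * δ))) := by
        rw [← Real.rpow_add hX0]
    _ ≤ 1 := by
        apply Real.rpow_le_one_of_one_le_of_nonpos hX.le
        nlinarith

theorem pair_minus {ε δ A X Y : ℝ} (h : Ok ε δ) (hs : Sz ε δ A X Y) (hA : 1 ≤ A) (Q : ℕ)
    (hQ : Q ∈ IY Y) (θ θ' : Σ _ : ℕ × ℕ, ℕ) (hθ : θ ∈ NR δ X Y Q) (hθ' : θ' ∈ NR δ X Y Q)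
    (hk : ∃ k : ℤ, (θ.1.2 : ℝ) * θ'.1.2 * (th θ - th θ') = k) : θ = θ' := by
  obtain ⟨k, hk⟩ := hk
  obtain ⟨a1, a2, a3, a4, a5, a6, a7, a8, a9, a10, a11⟩ := g4_mem h hs hA Q θ hθ
  obtain ⟨b1, b2, b3, b4, b5, b6, b7, b8, b9, b10, b11⟩ := g4_mem h hs hA Q θ' hθ'
  have h1 := g4_small h hs hA _ _ a4 b4 _ _ a9 b9 (ee Q θ - ee Q θ') (abs_sub _ _)
  obtain ⟨l, hl⟩ := g4_core Q (θ.1.2 * θ'.1.2) (Nat.Coprime.mul_left a5 b5) (Nat.mul_pos a3 b3)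
    (th θ - th θ') (ee Q θ - ee Q θ') (jj Q θ - jj Q θ') k (by push_cast; exact hk)
    (by unfold ee; push_cast; ring) h1
  have hl0 : l = 0 := by
    have h2 : |((l : ℤ) : ℝ)| < 1 := by
      rw [← hl, abs_lt]
      constructor <;> linarith
    have h3 : |l| < 1 := by exact_mod_cast h2
    exact Int.abs_lt_one_iff.1 h3
  rw [hl0, Int.cast_zero, sub_eq_zero] at hl
  unfold th at hl
  obtain ⟨h4, h5⟩ := Pool.Agent.FG61.su_inj a6 b6 a8 b8 hl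
  -- the primes agree
  have hp : θ.1.1 = θ'.1.1 := by
    have h6 : θ.1.1 ∣ θ'.1.1 * θ'.1.2 := by
      have : θ.1.1 ∣ den θ := Dvd.intro _ rfl
      rw [h4] at this
      exact this
    rcases (Nat.Prime.dvd_mul a1).1 h6 with h7 | h7
    · exact (Nat.prime_dvd_prime_iff_eq a1 b1).1 h7
    · have := Nat.le_of_dvd b3 h7
      have := hs.SK
      omega
  have hs' : θ.1.2 = θ'.1.2 := by
    unfold den at h4
    rw [hp] at h4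
    exact Nat.eq_of_mul_eq_mul_left b1.pos h4
  obtain ⟨⟨p, s⟩, a⟩ := θ
  obtain ⟨⟨p', s'⟩, a'⟩ := θ'
  simp only at hp hs' h5
  subst hp hs' h5
  rfl

theorem pair_plus {ε δ A X Y : ℝ} (h : Ok ε δ) (hs : Sz ε δ A X Y) (hA : 1 ≤ A) (Q : ℕ)
    (hQ : Q ∈ IY Y) (θ θ' : Σ _ : ℕ × ℕ, ℕ) (hθ : θ ∈ NR δ X Y Q) (hθ' : θ' ∈ NR δ X Y Q)
    (hk : ∃ k : ℤ, (θ.1.2 : ℝ) * θ'.1.2 * (th θ + th θ') = k) : ∃ k : ℤ, th θ + th θ' = k := by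
  obtain ⟨k, hk⟩ := hk
  obtain ⟨a1, a2, a3, a4, a5, a6, a7, a8, a9, a10, a11⟩ := g4_mem h hs hA Q θ hθ
  obtain ⟨b1, b2, b3, b4, b5, b6, b7, b8, b9, b10, b11⟩ := g4_mem h hs hA Q θ' hθ'
  have h1 := g4_small h hs hA _ _ a4 b4 _ _ a9 b9 (ee Q θ + ee Q θ') (abs_add_le _ _)
  exact g4_core Q (θ.1.2 * θ'.1.2) (Nat.Coprime.mul_left a5 b5) (Nat.mul_pos a3 b3)
    (th θ + th θ') (ee Q θ + ee Q θ') (jj Q θ + jj Q θ') k (by push_cast; exact hk)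
    (by unfold ee; push_cast; ring) h1

end

end Pool.Agent.BSD

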