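import Pool.Agent.Lib_helper26.BSD.Defs
import Pool.Agent.Lib_helper26.BSD.B1
import Pool.Agent.Lib_helper26.BSD.G4

set_option autoImplicit false

namespace Pool.Agent.BSD

open Finset
open Pool.Agent.FG61 (mu phi Lam cc off)
open Pool.Agent.Var35 (e)

noncomputable section

/-- `p`-part -/
theorem g5_ppart (p v w : ℕ) (hp : p.Prime) (hw : ¬ p ∣ w) (x : ℝ) (h1 : ∃ k : ℤ, ((p * v : ℕ) : ℝ) * x = k)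
    (h2 : ∃ k : ℤ, (w : ℝ) * x = k) : ∃ k : ℤ, (v : ℝ) * x = k := by
  obtain ⟨a, ha⟩ := h1
  obtain ⟨b, hb⟩ := h2
  have hc : IsCoprime (p : ℤ) (w : ℤ) :=
    Nat.isCoprime_iff_coprime.2 ((Nat.Prime.coprime_iff_not_dvd hp).2 hw)
  obtain ⟨α, β, hab⟩ := hc
  refine ⟨α * a + β * v * b, ?_⟩
  have hab' : (α : ℝ) * p + β * w = 1 := by exact_mod_cast hab
  push_cast
  rw [← ha, ← hb]
  push_cast
  calc (v : ℝ) * x = ((α : ℝ) * p + β * w) * (v * x) := by rw [hab', one_mul]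
    _ = _ := by ring

theorem g5_mem {ε δ A X Y : ℝ} (h : Ok ε δ) (hs : Sz ε δ A X Y) (hA : 1 ≤ A) (Q : ℕ)
    (θ : Σ _ : ℕ × ℕ, ℕ) (hθ : θ ∈ NR δ X Y Q) :
    θ.1.1.Prime ∧ SS δ X < θ.1.1 ∧ 1 ≤ θ.1.2 ∧ θ.1.2 ≤ SS δ X ∧ θ.2.Coprime (θ.1.1 * θ.1.2) := by
  unfold NR TH at hθ
  rw [mem_filter, mem_sigma, mem_filter, mem_range] at hθ
  obtain ⟨⟨h1, h2, h3⟩, h4⟩ := hθ
  obtain ⟨r1, r2, r3, r4, r5, r6, r7, r8, r9, r10, r11⟩ := rr_mem h hs hA Q θ.1 h1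
  exact ⟨r1, hs.SK.trans r2, r4, r5, h3⟩

theorem g5_th (θ : Σ _ : ℕ × ℕ, ℕ) (h1 : 0 < θ.1.1) (h2 : 0 < θ.1.2) :
    ((θ.1.1 * θ.1.2 : ℕ) : ℝ) * th θ = θ.2 := by
  have h3 : ((θ.1.1 * θ.1.2 : ℕ) : ℝ) ≠ 0 := by
    have : 0 < θ.1.1 * θ.1.2 := Nat.mul_pos h1 h2
    positivity
  unfold th den
  field_simp

/-- a multiple of a near fraction is an integer only if its prime divides the factor -/
theorem g5_once {S : ℕ} (θ : Σ _ : ℕ × ℕ, ℕ) (h1 : θ.1.1.Prime) (_ : S < θ.1.1)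
    (h3 : 1 ≤ θ.1.2) (h5 : θ.2.Coprime (θ.1.1 * θ.1.2)) (w : ℕ)
    (hw : ∃ k : ℤ, (w : ℝ) * th θ = k) : θ.1.1 ∣ w := by
  by_contra hn
  obtain ⟨k, hk⟩ := g5_ppart θ.1.1 θ.1.2 w h1 hn (th θ)
    ⟨θ.2, by rw [g5_th θ h1.pos h3]; simp⟩ hw
  have h6 := g5_th θ h1.pos h3
  push_cast at h6
  rw [mul_assoc, hk] at h6
  have h7 : (θ.1.1 : ℤ) * k = θ.2 := by exact_mod_cast h6
  have h8 : (θ.1.1 : ℤ) ∣ (θ.2 : ℤ) := ⟨k, h7.symm⟩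
  have h9 : θ.1.1 ∣ θ.2 := by exact_mod_cast h8
  have h10 : θ.1.1 ∣ Nat.gcd θ.2 (θ.1.1 * θ.1.2) := Nat.dvd_gcd h9 (Dvd.intro _ rfl)
  rw [h5] at h10
  exact h1.one_lt.ne' (Nat.dvd_one.1 h10)

/-- the prime `p` does not divide `p' s s'` -/
theorem g5_ndvd {S p p' s s' : ℕ} (hp : p.Prime) (hp' : p'.Prime) (hS : S < p) (hs : 1 ≤ s)
    (hs2 : s ≤ S) (hs' : 1 ≤ s') (hs2' : s' ≤ S) (hne : p ≠ p') : ¬ p ∣ p' * (s * s') := by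
  intro h
  rcases (Nat.Prime.dvd_mul hp).1 h with h1 | h1
  · exact hne ((Nat.prime_dvd_prime_iff_eq hp hp').1 h1)
  · rcases (Nat.Prime.dvd_mul hp).1 h1 with h2 | h2
    · have := Nat.le_of_dvd hs h2
      omega
    · have := Nat.le_of_dvd hs' h2
      omega

/-- the prime `p` divides `p' s'` only if `p = p'` -/
theorem g5_dvd {S p p' s' : ℕ} (hp : p.Prime) (hp' : p'.Prime) (hS : S < p) (hs' : 1 ≤ s')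
    (hs2' : s' ≤ S) (h : p ∣ p' * s') : p = p' := by
  rcases (Nat.Prime.dvd_mul hp).1 h with h1 | h1
  · exact (Nat.prime_dvd_prime_iff_eq hp hp').1 h1
  · have := Nat.le_of_dvd hs' h1
    omega

/-- `p s s' (θ + σ θ')` is an integer if the primes are equal -/
theorem g5_pair (θ θ' : Σ _ : ℕ × ℕ, ℕ) (h1 : 0 < θ.1.1) (h2 : 0 < θ.1.2) (h1' : 0 < θ'.1.1)
    (h2' : 0 < θ'.1.2) (hp : θ.1.1 = θ'.1.1) (σ : ℤ) :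
    ∃ k : ℤ, ((θ.1.1 * (θ.1.2 * θ'.1.2) : ℕ) : ℝ) * (th θ + σ * th θ') = k := by
  refine ⟨θ'.1.2 * θ.2 + σ * θ.1.2 * θ'.2, ?_⟩
  have h3 := g5_th θ h1 h2
  have h4 := g5_th θ' h1' h2'
  push_cast at h3 h4 ⊢
  rw [← h3, ← h4, hp]
  ring

/-- all `p s` times a fraction -/
theorem g5_mul (θ : Σ _ : ℕ × ℕ, ℕ) (h1 : 0 < θ.1.1) (h2 : 0 < θ.1.2) (w : ℕ)
    (hw : θ.1.1 * θ.1.2 ∣ w) : ∃ k : ℤ, (w : ℝ) * th θ = k := by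
  obtain ⟨c, rfl⟩ := hw
  refine ⟨c * θ.2, ?_⟩
  have h3 := g5_th θ h1 h2
  push_cast at h3 ⊢
  rw [← h3]
  ring

/-- one pair -/
theorem g5_half {S : ℕ} (θ θ' η η' : Σ _ : ℕ × ℕ, ℕ) (h1 : θ.1.1.Prime) (h1' : θ'.1.1.Prime)
    (g1 : η.1.1.Prime) (g1' : η'.1.1.Prime) (hS : S < θ.1.1)
    (h3 : 1 ≤ θ.1.2) (h3' : 1 ≤ θ'.1.2) (g3 : 1 ≤ η.1.2) (g3' : 1 ≤ η'.1.2)
    (g4 : η.1.2 ≤ S) (g4' : η'.1.2 ≤ S) (hp : θ.1.1 = θ'.1.1) (hq : η.1.1 = η'.1.1)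
    (hne : θ.1.1 ≠ η.1.1) (σ τ ρ : ℤ) (k : ℤ)
    (hk : (th θ + σ * th θ') = τ * (th η + ρ * th η') + k) :
    ∃ k : ℤ, (θ.1.2 : ℝ) * θ'.1.2 * (th θ + σ * th θ') = k := by
  have a1 := g5_pair θ θ' h1.pos h3 h1'.pos h3' hp σ
  obtain ⟨b, hb⟩ := g5_pair η η' g1.pos g3 g1'.pos g3' hq ρ
  have a2 := g5_ppart θ.1.1 (θ.1.2 * θ'.1.2) (η.1.1 * (η.1.2 * η'.1.2)) h1
    (g5_ndvd h1 g1 hS g3 g4 g3' g4' hne) (th θ + σ * th θ') a1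
    ⟨τ * b + (η.1.1 * (η.1.2 * η'.1.2) : ℕ) * k, by
      rw [hk, mul_add, mul_left_comm, hb]
      push_cast
      ring⟩
  obtain ⟨c, hc⟩ := a2
  exact ⟨c, by rw [← hc]; push_cast; ring⟩

theorem arith {ε δ A X Y : ℝ} (h : Ok ε δ) (hs : Sz ε δ A X Y) (hA : 1 ≤ A) (Q : ℕ)
    (hQ : Q ∈ IY Y) (q : Quad) (hq : q ∈ QD δ X Y Q) (hf : FI q) (hne : ¬ AE q) :
    (q.1.1 = q.2.1 ∧ q.1.2 = q.2.2) ∨ (q.1.1 = q.2.2 ∧ q.1.2 = q.2.1) ∨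
      ((∃ k : ℤ, th q.1.1 + th q.1.2 = k) ∧ ∃ k : ℤ, th q.2.1 + th q.2.2 = k) := by
  obtain ⟨⟨t1, t2⟩, ⟨t3, t4⟩⟩ := q
  unfold QD at hq
  rw [mem_filter, mem_product, mem_product, mem_product] at hq
  obtain ⟨⟨⟨m1, m2⟩, ⟨m3, m4⟩⟩, -⟩ := hq
  simp only at m1 m2 m3 m4 ⊢
  obtain ⟨a1, b1, c1, d1, e1⟩ := g5_mem h hs hA Q t1 m1
  obtain ⟨a2, b2, c2, d2, e2⟩ := g5_mem h hs hA Q t2 m2
  obtain ⟨a3, b3, c3, d3, e3⟩ := g5_mem h hs hA Q t3 m3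
  obtain ⟨a4, b4, c4, d4, e4⟩ := g5_mem h hs hA Q t4 m4
  obtain ⟨k, hk⟩ := hf
  unfold fq at hk
  simp only at hk
  -- every prime occurs at least twice
  have hw : ∀ (x y z w : Σ _ : ℕ × ℕ, ℕ) (σ τ ρ : ℤ), 0 < y.1.1 → 0 < z.1.1 → 0 < w.1.1 →
      0 < y.1.2 → 0 < z.1.2 → 0 < w.1.2 → x.1.1.Prime → SS δ X < x.1.1 → 1 ≤ x.1.2 →
      x.2.Coprime (x.1.1 * x.1.2) → (∃ k : ℤ, th x = σ * th y + τ * th z + ρ * th w + k) →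
      x.1.1 ∣ (y.1.1 * y.1.2) * ((z.1.1 * z.1.2) * (w.1.1 * w.1.2)) := by
    intro x y z w σ τ ρ hy hz hw hy' hz' hw' hx hxS hx2 hxc hxk
    obtain ⟨k, hk⟩ := hxk
    apply g5_once (S := SS δ X) x hx hxS hx2 hxc
    obtain ⟨ky, hky⟩ := g5_mul y hy hy' ((y.1.1 * y.1.2) * ((z.1.1 * z.1.2) * (w.1.1 * w.1.2)))
      (Dvd.intro _ rfl)
    obtain ⟨kz, hkz⟩ := g5_mul z hz hz' ((y.1.1 * y.1.2) * ((z.1.1 * z.1.2) * (w.1.1 * w.1.2)))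
      (Dvd.dvd.mul_left (Dvd.intro _ rfl) _)
    obtain ⟨kw, hkw⟩ := g5_mul w hw hw' ((y.1.1 * y.1.2) * ((z.1.1 * z.1.2) * (w.1.1 * w.1.2)))
      (Dvd.dvd.mul_left (Dvd.intro_left _ rfl) _)
    refine ⟨σ * ky + τ * kz + ρ * kw +
      (((y.1.1 * y.1.2) * ((z.1.1 * z.1.2) * (w.1.1 * w.1.2)) : ℕ) : ℤ) * k, ?_⟩
    rw [Int.cast_add, Int.cast_add, Int.cast_add, Int.cast_mul, Int.cast_mul, Int.cast_mul,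
      ← hky, ← hkz, ← hkw, hk]
    push_cast
    ring
  have hsplit : ∀ (p : ℕ) (y z w : Σ _ : ℕ × ℕ, ℕ), p.Prime → SS δ X < p →
      y.1.1.Prime → z.1.1.Prime → w.1.1.Prime → 1 ≤ y.1.2 → 1 ≤ z.1.2 → 1 ≤ w.1.2 →
      y.1.2 ≤ SS δ X → z.1.2 ≤ SS δ X → w.1.2 ≤ SS δ X →
      p ∣ (y.1.1 * y.1.2) * ((z.1.1 * z.1.2) * (w.1.1 * w.1.2)) →
      p = y.1.1 ∨ p = z.1.1 ∨ p = w.1.1 := by
    intro p y z w hp hpS hy hz hw' hy1 hz1 hw1 hy2 hz2 hw2 hd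
    rcases (Nat.Prime.dvd_mul hp).1 hd with h5 | h5
    · exact Or.inl (g5_dvd hp hy hpS hy1 hy2 h5)
    · rcases (Nat.Prime.dvd_mul hp).1 h5 with h6 | h6
      · exact Or.inr (Or.inl (g5_dvd hp hz hpS hz1 hz2 h6))
      · exact Or.inr (Or.inr (g5_dvd hp hw' hpS hw1 hw2 h6))
  have o1 := hsplit _ _ _ _ a1 b1 a2 a3 a4 c2 c3 c4 d2 d3 d4 (hw t1 t2 t3 t4 (-1) 1 1
    a2.pos a3.pos a4.pos c2 c3 c4 a1 b1 c1 e1 ⟨k, by push_cast; linarith⟩)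
  have o2 := hsplit _ _ _ _ a2 b2 a1 a3 a4 c1 c3 c4 d1 d3 d4 (hw t2 t1 t3 t4 (-1) 1 1
    a1.pos a3.pos a4.pos c1 c3 c4 a2 b2 c2 e2 ⟨k, by push_cast; linarith⟩)
  have o3 := hsplit _ _ _ _ a3 b3 a1 a2 a4 c1 c2 c4 d1 d2 d4 (hw t3 t1 t2 t4 1 1 (-1)
    a1.pos a2.pos a4.pos c1 c2 c4 a3 b3 c3 e3 ⟨-k, by push_cast; linarith⟩)
  have o4 := hsplit _ _ _ _ a4 b4 a1 a2 a3 c1 c2 c3 d1 d2 d3 (hw t4 t1 t2 t3 1 1 (-1)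
    a1.pos a2.pos a3.pos c1 c2 c3 a4 b4 c4 e4 ⟨-k, by push_cast; linarith⟩)
  unfold AE at hne
  simp only at hne
  have hcase : (t1.1.1 = t3.1.1 ∧ t2.1.1 = t4.1.1 ∧ t1.1.1 ≠ t2.1.1) ∨
      (t1.1.1 = t4.1.1 ∧ t2.1.1 = t3.1.1 ∧ t1.1.1 ≠ t2.1.1) ∨
      (t1.1.1 = t2.1.1 ∧ t3.1.1 = t4.1.1 ∧ t1.1.1 ≠ t3.1.1) := by
    omega
  rcases hcase with ⟨h1, h2, h3⟩ | ⟨h1, h2, h3⟩ | ⟨h1, h2, h3⟩
  · left
    have r1 := g5_half t1 t3 t2 t4 a1 a3 a2 a4 b1 c1 c3 c2 c4 d2 d4 h1 h2 h3 (-1) (-1) (-1) k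
      (by push_cast; linarith)
    have r2 := g5_half t2 t4 t1 t3 a2 a4 a1 a3 b2 c2 c4 c1 c3 d1 d3 h2 h1 (Ne.symm h3) (-1) (-1)
      (-1) k (by push_cast; linarith)
    constructor
    · apply pair_minus h hs hA Q hQ t1 t3 m1 m3
      obtain ⟨l, hl⟩ := r1
      exact ⟨l, by rw [← hl]; push_cast; ring⟩
    · apply pair_minus h hs hA Q hQ t2 t4 m2 m4
      obtain ⟨l, hl⟩ := r2
      exact ⟨l, by rw [← hl]; push_cast; ring⟩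
  · right; left
    have r1 := g5_half t1 t4 t2 t3 a1 a4 a2 a3 b1 c1 c4 c2 c3 d2 d3 h1 h2 h3 (-1) (-1) (-1) k
      (by push_cast; linarith)
    have r2 := g5_half t2 t3 t1 t4 a2 a3 a1 a4 b2 c2 c3 c1 c4 d1 d4 h2 h1 (Ne.symm h3) (-1) (-1)
      (-1) k (by push_cast; linarith)
    constructor
    · apply pair_minus h hs hA Q hQ t1 t4 m1 m4
      obtain ⟨l, hl⟩ := r1
      exact ⟨l, by rw [← hl]; push_cast; ring⟩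
    · apply pair_minus h hs hA Q hQ t2 t3 m2 m3
      obtain ⟨l, hl⟩ := r2
      exact ⟨l, by rw [← hl]; push_cast; ring⟩
  · right; right
    have r1 := g5_half t1 t2 t3 t4 a1 a2 a3 a4 b1 c1 c2 c3 c4 d3 d4 h1 h2 h3 1 1 1 k
      (by push_cast; linarith)
    have r2 := g5_half t3 t4 t1 t2 a3 a4 a1 a2 b3 c3 c4 c1 c2 d1 d2 h2 h1 (Ne.symm h3) 1 1 1 (-k)
      (by push_cast; linarith)
    constructor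
    · apply pair_plus h hs hA Q hQ t1 t2 m1 m2
      obtain ⟨l, hl⟩ := r1
      exact ⟨l, by rw [← hl]; push_cast; ring⟩
    · apply pair_plus h hs hA Q hQ t3 t4 m3 m4
      obtain ⟨l, hl⟩ := r2
      exact ⟨l, by rw [← hl]; push_cast; ring⟩

end

end Pool.Agent.BSD

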