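import Pool.Agent.Lib_helper26.BSD.Defs
import Pool.Agent.Lib_helper26.BSD.G4
import Pool.Agent.Lib_helper26.BSD.G5

set_option autoImplicit false

namespace Pool.Agent.BSD

open Finset
open Pool.Agent.FG61 (mu phi Lam cc off)
open Pool.Agent.Var35 (e)

noncomputable section

theorem g6_gw (δ X : ℝ) (Q : ℕ) (θ : Σ _ : ℕ × ℕ, ℕ) : 0 ≤ gw δ X Q θ := by
  unfold gw; positivity

theorem g6_gq (δ X : ℝ) (Q : ℕ) (q : Quad) : 0 ≤ gq δ X Q q := by
  unfold gq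
  exact mul_nonneg (mul_nonneg (mul_nonneg (g6_gw _ _ _ _) (g6_gw _ _ _ _)) (g6_gw _ _ _ _))
    (g6_gw _ _ _ _)

theorem g6_th {ε δ A X Y : ℝ} (h : Ok ε δ) (hs : Sz ε δ A X Y) (hA : 1 ≤ A) (Q : ℕ)
    (θ : Σ _ : ℕ × ℕ, ℕ) (hθ : θ ∈ NR δ X Y Q) : 0 ≤ th θ ∧ th θ < 1 := by
  unfold NR TH at hθ
  rw [mem_filter, mem_sigma, mem_filter, mem_range] at hθ
  obtain ⟨⟨h1, h2, h3⟩, h4⟩ := hθ
  have hd : 0 < den θ := by unfold den; omega
  have hd' : (0 : ℝ) < den θ := by exact_mod_cast hd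
  refine ⟨by unfold th; positivity, ?_⟩
  unfold th
  rw [div_lt_one hd']
  exact_mod_cast h2

/-- uniqueness of the complement -/
theorem g6_uniq {ε δ A X Y : ℝ} (h : Ok ε δ) (hs : Sz ε δ A X Y) (hA : 1 ≤ A) (Q : ℕ)
    (hQ : Q ∈ IY Y) (a b b' : Σ _ : ℕ × ℕ, ℕ) (hb : b ∈ NR δ X Y Q) (hb' : b' ∈ NR δ X Y Q)
    (h1 : ∃ k : ℤ, th a + th b = k) (h2 : ∃ k : ℤ, th a + th b' = k) : b = b' := by
  obtain ⟨k, hk⟩ := h1
  obtain ⟨l, hl⟩ := h2
  obtain ⟨c1, c2⟩ := g6_th h hs hA Q b hb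
  obtain ⟨d1, d2⟩ := g6_th h hs hA Q b' hb'
  have h3 : th b - th b' = ((k - l : ℤ) : ℝ) := by push_cast; linarith
  have h4 : k - l = 0 := by
    have h5 : |((k - l : ℤ) : ℝ)| < 1 := by
      rw [← h3, abs_lt]
      constructor <;> linarith
    have h6 : |k - l| < 1 := by exact_mod_cast h5
    exact Int.abs_lt_one_iff.1 h6
  apply pair_minus h hs hA Q hQ b b' hb hb'
  exact ⟨0, by rw [h3, h4]; simp⟩

open scoped Classical in
theorem g6_pairs {ε δ A X Y : ℝ} (h : Ok ε δ) (hs : Sz ε δ A X Y) (hA : 1 ≤ A) (Q : ℕ)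
    (hQ : Q ∈ IY Y) :
    ∑ a ∈ NR δ X Y Q, ∑ b ∈ NR δ X Y Q,
      (if (∃ k : ℤ, th a + th b = k) then gw δ X Q a * gw δ X Q b else 0) ≤
      ∑ θ ∈ NR δ X Y Q, gw δ X Q θ ^ 2 := by
  have h1 : ∀ a ∈ NR δ X Y Q, ∀ b ∈ NR δ X Y Q,
      (if (∃ k : ℤ, th a + th b = k) then gw δ X Q a * gw δ X Q b else 0) ≤
      (if (∃ k : ℤ, th a + th b = k) then gw δ X Q a ^ 2 / 2 else 0) +
      (if (∃ k : ℤ, th a + th b = k) then gw δ X Q b ^ 2 / 2 else 0) := by
    intro a _ b _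
    split_ifs
    · nlinarith [sq_nonneg (gw δ X Q a - gw δ X Q b)]
    · simp
  have h2 : ∀ a ∈ NR δ X Y Q, ∑ b ∈ NR δ X Y Q,
      (if (∃ k : ℤ, th a + th b = k) then gw δ X Q a ^ 2 / 2 else 0) ≤ gw δ X Q a ^ 2 / 2 := by
    intro a _
    rw [← sum_filter, sum_const, nsmul_eq_mul]
    have hc : ((NR δ X Y Q).filter fun b => ∃ k : ℤ, th a + th b = k).card ≤ 1 := by
      rw [card_le_one]
      intro b hb b' hb'
      rw [mem_filter] at hb hb'
      exact g6_uniq h hs hA Q hQ a b b' hb.1 hb'.1 hb.2 hb'.2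
    have hc' : (((NR δ X Y Q).filter fun b => ∃ k : ℤ, th a + th b = k).card : ℝ) ≤ 1 := by
      exact_mod_cast hc
    have := sq_nonneg (gw δ X Q a)
    nlinarith
  have h3 : ∀ b ∈ NR δ X Y Q, ∑ a ∈ NR δ X Y Q,
      (if (∃ k : ℤ, th a + th b = k) then gw δ X Q b ^ 2 / 2 else 0) ≤ gw δ X Q b ^ 2 / 2 := by
    intro b _
    rw [← sum_filter, sum_const, nsmul_eq_mul]
    have hc : ((NR δ X Y Q).filter fun a => ∃ k : ℤ, th a + th b = k).card ≤ 1 := by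
      rw [card_le_one]
      intro a ha a' ha'
      rw [mem_filter] at ha ha'
      obtain ⟨k, hk⟩ := ha.2
      obtain ⟨l, hl⟩ := ha'.2
      exact g6_uniq h hs hA Q hQ b a a' ha.1 ha'.1 ⟨k, by linarith⟩ ⟨l, by linarith⟩
    have hc' : (((NR δ X Y Q).filter fun a => ∃ k : ℤ, th a + th b = k).card : ℝ) ≤ 1 := by
      exact_mod_cast hc
    have := sq_nonneg (gw δ X Q b)
    nlinarith
  calc ∑ a ∈ NR δ X Y Q, ∑ b ∈ NR δ X Y Q,
      (if (∃ k : ℤ, th a + th b = k) then gw δ X Q a * gw δ X Q b else 0)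
      ≤ ∑ a ∈ NR δ X Y Q, ∑ b ∈ NR δ X Y Q,
        ((if (∃ k : ℤ, th a + th b = k) then gw δ X Q a ^ 2 / 2 else 0) +
        (if (∃ k : ℤ, th a + th b = k) then gw δ X Q b ^ 2 / 2 else 0)) :=
        sum_le_sum fun a ha => sum_le_sum fun b hb => h1 a ha b hb
    _ = ∑ a ∈ NR δ X Y Q, ∑ b ∈ NR δ X Y Q,
          (if (∃ k : ℤ, th a + th b = k) then gw δ X Q a ^ 2 / 2 else 0) +
        ∑ b ∈ NR δ X Y Q, ∑ a ∈ NR δ X Y Q,
          (if (∃ k : ℤ, th a + th b = k) then gw δ X Q b ^ 2 / 2 else 0) := by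
        rw [sum_comm (s := NR δ X Y Q) (t := NR δ X Y Q)
          (f := fun b a => if (∃ k : ℤ, th a + th b = k) then gw δ X Q b ^ 2 / 2 else 0),
          ← sum_add_distrib]
        exact sum_congr rfl fun a _ => sum_add_distrib
    _ ≤ ∑ a ∈ NR δ X Y Q, gw δ X Q a ^ 2 / 2 + ∑ b ∈ NR δ X Y Q, gw δ X Q b ^ 2 / 2 :=
        add_le_add (sum_le_sum h2) (sum_le_sum h3)
    _ = _ := by
        rw [← sum_add_distrib]
        exact sum_congr rfl fun a _ => by ring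

theorem split {ε δ A X Y : ℝ} (h : Ok ε δ) (hs : Sz ε δ A X Y) (hA : 1 ≤ A) (Q : ℕ)
    (hQ : Q ∈ IY Y) : (open scoped Classical in
    ∑ q ∈ QD δ X Y Q, gq δ X Q q ≤ 3 * (∑ θ ∈ NR δ X Y Q, gw δ X Q θ ^ 2) ^ 2 +
      ∑ q ∈ (QD δ X Y Q).filter (fun q => FI q ∧ AE q), gq δ X Q q +
      ∑ q ∈ (QD δ X Y Q).filter (fun q => ¬ FI q), gq δ X Q q) := by
  classical
  set N := NR δ X Y Q with hN
  set g := gw δ X Q with hg
  have e1 := sum_filter_add_sum_filter_not (QD δ X Y Q) (fun q => FI q) (gq δ X Q)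
  have e2 := sum_filter_add_sum_filter_not ((QD δ X Y Q).filter fun q => FI q) (fun q => AE q)
    (gq δ X Q)
  rw [filter_filter, filter_filter] at e2
  have hsub : (QD δ X Y Q).filter (fun q => FI q ∧ ¬ AE q) ⊆ (N ×ˢ N) ×ˢ (N ×ˢ N) := by
    intro q hq
    rw [mem_filter] at hq
    unfold QD at hq
    rw [mem_filter] at hq
    exact hq.1.1
  have hmain : ∑ q ∈ (QD δ X Y Q).filter (fun q => FI q ∧ ¬ AE q), gq δ X Q q ≤
      ∑ q ∈ (N ×ˢ N) ×ˢ (N ×ˢ N), ((if q.1.1 = q.2.1 then (if q.1.2 = q.2.2 then gq δ X Q q else 0)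
        else 0) + (if q.1.1 = q.2.2 then (if q.1.2 = q.2.1 then gq δ X Q q else 0) else 0) +
        (if (∃ k : ℤ, th q.1.1 + th q.1.2 = k) then g q.1.1 * g q.1.2 else 0) *
        (if (∃ k : ℤ, th q.2.1 + th q.2.2 = k) then g q.2.1 * g q.2.2 else 0)) := by
    refine le_trans (sum_le_sum fun q hq => ?_) (sum_le_sum_of_subset_of_nonneg hsub
      (fun q _ _ => ?_))
    · rw [mem_filter] at hq
      have h0 := g6_gq δ X Q q
      have h3 : 0 ≤ (if (∃ k : ℤ, th q.1.1 + th q.1.2 = k) then g q.1.1 * g q.1.2 else 0) *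
        (if (∃ k : ℤ, th q.2.1 + th q.2.2 = k) then g q.2.1 * g q.2.2 else 0) := by
        apply mul_nonneg <;> split_ifs <;> first | exact le_rfl |
          exact mul_nonneg (g6_gw _ _ _ _) (g6_gw _ _ _ _)
      have h1 : 0 ≤ (if q.1.1 = q.2.1 then (if q.1.2 = q.2.2 then gq δ X Q q else 0) else 0) := by
        split_ifs <;> first | exact le_rfl | exact h0
      have h2 : 0 ≤ (if q.1.1 = q.2.2 then (if q.1.2 = q.2.1 then gq δ X Q q else 0) else 0) := by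
        split_ifs <;> first | exact le_rfl | exact h0
      rcases arith h hs hA Q hQ q hq.1 hq.2.1 hq.2.2 with h4 | h4 | h4
      · rw [if_pos h4.1, if_pos h4.2] at h1 ⊢
        linarith
      · rw [if_pos h4.1, if_pos h4.2] at h2 ⊢
        linarith
      · rw [if_pos h4.1, if_pos h4.2] at h3 ⊢
        have h5 : gq δ X Q q = g q.1.1 * g q.1.2 * (g q.2.1 * g q.2.2) := by
          unfold gq; rw [hg]; ring
        linarith
    · have h0 := g6_gq δ X Q q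
      refine add_nonneg (add_nonneg ?_ ?_) (mul_nonneg ?_ ?_) <;> split_ifs <;>
        first | exact le_rfl | exact h0 | exact mul_nonneg (g6_gw _ _ _ _) (g6_gw _ _ _ _)
  have hP := g6_pairs h hs hA Q hQ
  set P := ∑ θ ∈ N, g θ ^ 2 with hPd
  have s1 : ∑ q ∈ (N ×ˢ N) ×ˢ (N ×ˢ N), (if q.1.1 = q.2.1 then (if q.1.2 = q.2.2 then gq δ X Q q
      else 0) else 0) = P ^ 2 := by
    rw [sum_product]
    have : ∀ x ∈ N ×ˢ N, ∑ y ∈ N ×ˢ N, (if (x, y).1.1 = (x, y).2.1 then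
        (if (x, y).1.2 = (x, y).2.2 then gq δ X Q (x, y) else 0) else 0) =
        g x.1 ^ 2 * g x.2 ^ 2 := by
      intro x hx
      rw [mem_product] at hx
      rw [sum_product]
      simp only
      have h5 : ∀ c ∈ N, ∑ d ∈ N, (if x.1 = c then (if x.2 = d then gq δ X Q (x, (c, d)) else 0)
          else 0) = if x.1 = c then gq δ X Q (x, (c, x.2)) else 0 := by
        intro c _
        split_ifs
        · rw [sum_ite_eq, if_pos hx.2]
        · exact sum_const_zero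
      rw [sum_congr rfl h5, sum_ite_eq, if_pos hx.1]
      unfold gq
      rw [hg]
      ring
    rw [sum_congr rfl this, sum_product, sq, sum_mul_sum]
  have s2 : ∑ q ∈ (N ×ˢ N) ×ˢ (N ×ˢ N), (if q.1.1 = q.2.2 then (if q.1.2 = q.2.1 then gq δ X Q q
      else 0) else 0) = P ^ 2 := by
    rw [sum_product]
    have : ∀ x ∈ N ×ˢ N, ∑ y ∈ N ×ˢ N, (if (x, y).1.1 = (x, y).2.2 then
        (if (x, y).1.2 = (x, y).2.1 then gq δ X Q (x, y) else 0) else 0) =
        g x.1 ^ 2 * g x.2 ^ 2 := by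
      intro x hx
      rw [mem_product] at hx
      rw [sum_product, sum_comm]
      simp only
      have h5 : ∀ d ∈ N, ∑ c ∈ N, (if x.1 = d then (if x.2 = c then gq δ X Q (x, (c, d)) else 0)
          else 0) = if x.1 = d then gq δ X Q (x, (x.2, d)) else 0 := by
        intro d _
        split_ifs
        · rw [sum_ite_eq, if_pos hx.2]
        · exact sum_const_zero
      rw [sum_congr rfl h5, sum_ite_eq, if_pos hx.1]
      unfold gq
      rw [hg]
      ring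
    rw [sum_congr rfl this, sum_product, sq, sum_mul_sum]
  have s3 : ∑ q ∈ (N ×ˢ N) ×ˢ (N ×ˢ N),
      (if (∃ k : ℤ, th q.1.1 + th q.1.2 = k) then g q.1.1 * g q.1.2 else 0) *
        (if (∃ k : ℤ, th q.2.1 + th q.2.2 = k) then g q.2.1 * g q.2.2 else 0) ≤ P ^ 2 := by
    rw [sum_product]
    simp only
    rw [← sum_mul_sum, sum_product]
    have h6 : 0 ≤ ∑ a ∈ N, ∑ b ∈ N, (if (∃ k : ℤ, th a + th b = k) then g a * g b else 0) := by
      refine sum_nonneg fun a _ => sum_nonneg fun b _ => ?_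
      split_ifs <;> first | exact le_rfl | exact mul_nonneg (g6_gw _ _ _ _) (g6_gw _ _ _ _)
    rw [sq]
    exact mul_le_mul hP hP h6 (h6.trans hP)
  rw [sum_add_distrib, sum_add_distrib, s1, s2] at hmain
  linarith

end

end Pool.Agent.BSD

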