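import Pool.Agent.Lib_helper26.BSD.Defs
import Pool.Agent.Lib_helper26.BSD.A2
import Pool.Agent.Lib_helper26.BSD.B1
import Pool.Agent.Lib_helper26.BSD.C3

/-!
# Project BSD, block G7: mean square of the near weights
-/

set_option autoImplicit false
set_option linter.unusedVariables false

namespace Pool.Agent.BSD

open Finset
open Pool.Agent.FG61 (mu phi Lam cc off)
open Pool.Agent.Var35 (e)

noncomputable section

theorem g7_range (A : ℝ) (hA : 1 ≤ A) (N : ℕ) :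
    ∑ n ∈ range (N + 1), 1 / ((n : ℝ) + A) ^ 2 ≤ 1 / A ^ 2 + 1 / A - 1 / (N + A) := by
  induction N with
  | zero =>
    simp
  | succ N ih =>
    rw [sum_range_succ]
    have hN : (0 : ℝ) ≤ N := Nat.cast_nonneg N
    have h1 : 1 / (((N + 1 : ℕ) : ℝ) + A) ^ 2 ≤ 1 / (N + A) - 1 / (((N + 1 : ℕ) : ℝ) + A) := by
      push_cast
      have e1 : 1 / ((N : ℝ) + A) - 1 / ((N : ℝ) + 1 + A) = 1 / ((N + A) * (N + 1 + A)) := by
        field_simp
        ring
      rw [e1]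
      apply one_div_le_one_div_of_le (by positivity)
      nlinarith
    linarith

theorem g7_int (A : ℝ) (hA : 1 ≤ A) (N : ℕ) :
    ∑ t ∈ Icc (-(N : ℤ)) N, 1 / (|(t : ℝ)| + A) ^ 2 ≤ 3 / A := by
  have h1 := sum_Icc_of_even_eq_range (f := fun t : ℤ => 1 / (|(t : ℝ)| + A) ^ 2)
    (fun t => by push_cast; rw [abs_neg]) N
  rw [h1]
  have h2 : ∑ m ∈ range (N + 1), 1 / (|(((m : ℕ) : ℤ) : ℝ)| + A) ^ 2 =
      ∑ n ∈ range (N + 1), 1 / ((n : ℝ) + A) ^ 2 := by
    refine sum_congr rfl fun n _ => ?_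
    rw [Int.cast_natCast, abs_of_nonneg (Nat.cast_nonneg n)]
  rw [h2]
  have h3 := g7_range A hA N
  have h4 : 0 < 1 / ((N : ℝ) + A) := by positivity
  have h5 : 1 / A ^ 2 ≤ 1 / A := by
    apply one_div_le_one_div_of_le (by positivity)
    nlinarith
  have h6 : (1 : ℝ) / (|((0 : ℤ) : ℝ)| + A) ^ 2 = 1 / A ^ 2 := by simp
  rw [h6, nsmul_eq_mul]
  push_cast
  have h7 : (3 : ℝ) / A = 3 * (1 / A) := by ring
  rw [h7]
  nlinarith

/-- the weights for one denominator -/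
theorem g7_one (m M Q r : ℕ) (hm : 1 ≤ m) (hM : 1 ≤ M) (hQ : 1 ≤ Q) (hr : 1 ≤ r)
    (hcop : r.Coprime Q) (hA : 2 * (M : ℝ) ≤ r * Q) (S : Finset ℕ) (hS : S ⊆ range r) :
    ∑ a ∈ S, ‖Wh m M (((Q : ℝ) * ((a : ℝ) / r) - round ((Q : ℝ) * ((a : ℝ) / r))) / Q)‖ ^ 2 ≤
      6 * (r * Q * M) := by
  classical
  have hr0 : (0 : ℝ) < r := by exact_mod_cast hr
  have hQ0 : (0 : ℝ) < Q := by exact_mod_cast hQ
  have hM0 : (0 : ℝ) < M := by exact_mod_cast hM
  set A : ℝ := r * Q / (2 * M) with hAdef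
  have hA1 : 1 ≤ A := by
    rw [hAdef, le_div_iff₀ (by positivity)]
    linarith
  have hA0 : 0 < A := by linarith
  have hAM : A * M = r * Q / 2 := by
    rw [hAdef]
    field_simp
  -- the integers `t`
  set t : ℕ → ℤ := fun a => (Q : ℤ) * a - round ((Q : ℝ) * ((a : ℝ) / r)) * r with ht
  have htr : ∀ a : ℕ, (t a : ℝ) =
      r * ((Q : ℝ) * ((a : ℝ) / r) - round ((Q : ℝ) * ((a : ℝ) / r))) := by
    intro a
    rw [ht]
    push_cast
    field_simp
  have habs : ∀ a : ℕ, |(t a : ℝ)| ≤ r / 2 := by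
    intro a
    rw [htr, abs_mul, abs_of_pos hr0]
    have := abs_sub_round ((Q : ℝ) * ((a : ℝ) / r))
    nlinarith
  have hterm : ∀ a : ℕ,
      ‖Wh m M (((Q : ℝ) * ((a : ℝ) / r) - round ((Q : ℝ) * ((a : ℝ) / r))) / Q)‖ ^ 2 ≤
        4 * (A * M) ^ 2 * (1 / (|(t a : ℝ)| + A) ^ 2) := by
    intro a
    set α : ℝ := ((Q : ℝ) * ((a : ℝ) / r) - round ((Q : ℝ) * ((a : ℝ) / r))) / Q with hα
    have hαt : α = t a / (r * Q) := by
      rw [hα, htr]
      field_simp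
    have hnn : 0 ≤ |(t a : ℝ)| := abs_nonneg _
    have h1 : ‖Wh m M α‖ ≤ 2 * (A * M) / (|(t a : ℝ)| + A) := by
      rcases le_or_gt |(t a : ℝ)| A with h | h
      · refine (Wh_le m M hm α).trans ?_
        rw [le_div_iff₀ (by positivity)]
        nlinarith
      · have hα0 : α ≠ 0 := by
          intro h0
          rw [hαt, div_eq_zero_iff] at h0
          rcases h0 with h0 | h0
          · rw [h0, abs_zero] at h
            linarith
          · exact (mul_pos hr0 hQ0).ne' h0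
        have hαabs : |α| = |(t a : ℝ)| / (r * Q) := by
          rw [hαt, abs_div, abs_of_pos (mul_pos hr0 hQ0)]
        have hα2 : |α| ≤ 1 / 2 := by
          rw [hαabs, div_le_iff₀ (by positivity)]
          have h3 := habs a
          have h4 : (1 : ℝ) ≤ Q := by exact_mod_cast hQ
          nlinarith
        refine (Wh_le_Dk m M hm α).trans ((Dk_dec M α hα0 hα2).trans ?_)
        rw [hαabs]
        have h5 : 1 / (2 * (|(t a : ℝ)| / (r * Q))) = A * M / |(t a : ℝ)| := by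
          rw [hAM]
          have : |(t a : ℝ)| ≠ 0 := by linarith
          field_simp
        rw [h5, div_le_div_iff₀ (by linarith) (by positivity)]
        have h6 : 0 < A * M := by positivity
        nlinarith
    have h2 : ‖Wh m M α‖ ^ 2 ≤ (2 * (A * M) / (|(t a : ℝ)| + A)) ^ 2 :=
      pow_le_pow_left₀ (norm_nonneg _) h1 2
    refine h2.trans (le_of_eq ?_)
    rw [div_pow]
    ring
  -- injectivity
  have hinj : Set.InjOn t (S : Set ℕ) := by
    intro a ha b hb hab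
    have ha' : a < r := mem_range.1 (hS ha)
    have hb' : b < r := mem_range.1 (hS hb)
    have h1 : (r : ℤ) ∣ Q * (a : ℤ) - Q * b := by
      refine ⟨round ((Q : ℝ) * ((a : ℝ) / r)) - round ((Q : ℝ) * ((b : ℝ) / r)), ?_⟩
      have : (Q : ℤ) * a - round ((Q : ℝ) * ((a : ℝ) / r)) * r =
        (Q : ℤ) * b - round ((Q : ℝ) * ((b : ℝ) / r)) * r := hab
      linear_combination this
    rw [← mul_sub] at h1
    have h2 : (r : ℤ) ∣ (a : ℤ) - b :=
      (Nat.isCoprime_iff_coprime.2 hcop).dvd_of_dvd_mul_left h1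
    have h3 : (a : ℤ) - b = 0 := by
      apply Int.eq_zero_of_abs_lt_dvd h2
      rw [abs_lt]
      constructor <;> omega
    omega
  have hmem : ∀ a ∈ S, t a ∈ Icc (-(r : ℤ)) r := by
    intro a _
    have h1 := habs a
    rw [abs_le] at h1
    rw [mem_Icc]
    constructor
    · have : (-(r : ℝ)) ≤ t a := by linarith
      exact_mod_cast this
    · have : (t a : ℝ) ≤ r := by linarith
      exact_mod_cast this
  calc ∑ a ∈ S, ‖Wh m M (((Q : ℝ) * ((a : ℝ) / r) - round ((Q : ℝ) * ((a : ℝ) / r))) / Q)‖ ^ 2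
      ≤ ∑ a ∈ S, 4 * (A * M) ^ 2 * (1 / (|(t a : ℝ)| + A) ^ 2) := sum_le_sum fun a _ => hterm a
    _ = 4 * (A * M) ^ 2 * ∑ a ∈ S, 1 / (|(t a : ℝ)| + A) ^ 2 := by rw [mul_sum]
    _ = 4 * (A * M) ^ 2 * ∑ u ∈ S.image t, 1 / (|(u : ℝ)| + A) ^ 2 := by
        rw [sum_image hinj]
    _ ≤ 4 * (A * M) ^ 2 * ∑ u ∈ Icc (-(r : ℤ)) r, 1 / (|(u : ℝ)| + A) ^ 2 := by
        refine mul_le_mul_of_nonneg_left ?_ (by positivity)
        refine sum_le_sum_of_subset_of_nonneg ?_ fun _ _ _ => by positivity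
        intro u hu
        obtain ⟨a, ha, rfl⟩ := mem_image.1 hu
        exact hmem a ha
    _ ≤ 4 * (A * M) ^ 2 * (3 / A) :=
        mul_le_mul_of_nonneg_left (g7_int A hA1 r) (by positivity)
    _ = 12 * (A * M) * M := by
        field_simp
        ring
    _ = 6 * (r * Q * M) := by
        rw [hAM]
        ring

theorem l2 (ε δ : ℝ) (h : Ok ε δ) : ∃ C : ℝ, 0 < C ∧ ∃ X₀ : ℝ, ∀ X Y : ℝ, X₀ ≤ X → Rg ε X Y →
    ∀ Q ∈ IY Y, Fr δ X Y Q → ∑ θ ∈ NR δ X Y Q, gw δ X Q θ ^ 2 ≤ C * X * Q * Real.log X := by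
  classical
  obtain ⟨X₁, h1⟩ := sizes ε δ 1 h
  obtain ⟨C, hC, X₂, h2⟩ := WW_up ε δ h
  refine ⟨6 * C, by positivity, max X₁ X₂, fun X Y hX hRg Q hQ hFr => ?_⟩
  have hs := h1 X Y ((le_max_left _ _).trans hX) hRg
  have hW := h2 X Y ((le_max_right _ _).trans hX) hRg Q
  have hX0 : 0 < X := by linarith [hs.X3]
  have hY0 : 0 < Y := lt_of_lt_of_le (Real.rpow_pos_of_pos hX0 _) hs.Y1
  have hQm := mem_filter.1 hQ
  have hQ1 : 1 ≤ Q := (mem_Icc.1 hQm.1).1
  have hQY : Y < Q := hQm.2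
  have hQ0 : (0 : ℝ) < Q := by exact_mod_cast hQ1
  have hδ : 0 < δ := h.1
  have hmm : 2 ≤ mm δ := by
    have h3 : (100 : ℝ) / δ ≤ mm δ := Nat.le_ceil _
    have h4 : (2 : ℝ) ≤ 100 / δ := by
      rw [le_div_iff₀ hδ]
      have := h.2.2
      linarith
    exact_mod_cast h4.trans h3
  have hMX : 2 * (MM δ X : ℝ) ≤ X := by
    have h3 : mm δ * MM δ X ≤ ⌊X⌋₊ := hs.mM
    have h4 : 2 * MM δ X ≤ ⌊X⌋₊ := (Nat.mul_le_mul_right _ hmm).trans h3
    have h5 : ((2 * MM δ X : ℕ) : ℝ) ≤ (⌊X⌋₊ : ℝ) := by exact_mod_cast h4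
    have h6 := Nat.floor_le hX0.le
    push_cast at h5
    linarith
  have hM1 : 1 ≤ MM δ X := hs.M1
  -- the weights
  have hgw : ∀ θ : Σ _ : ℕ × ℕ, ℕ, gw δ X Q θ ^ 2 = gr (den θ) ^ 2 *
      ‖Wh (mm δ) (MM δ X) (ee Q θ / Q)‖ ^ 2 := by
    intro θ
    unfold gw
    rw [mul_pow, sq_abs]
  calc ∑ θ ∈ NR δ X Y Q, gw δ X Q θ ^ 2
      ≤ ∑ θ ∈ TH δ X Y Q, gw δ X Q θ ^ 2 :=
        sum_le_sum_of_subset_of_nonneg (filter_subset _ _) fun _ _ _ => sq_nonneg _
    _ = ∑ x ∈ RR δ X Y Q, ∑ a ∈ (range (x.1 * x.2)).filter (fun a => a.Coprime (x.1 * x.2)),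
          gw δ X Q ⟨x, a⟩ ^ 2 := by
        unfold TH
        rw [sum_sigma]
    _ ≤ ∑ x ∈ RR δ X Y Q, 6 * (Q * MM δ X) *
          (((x.1 * x.2 : ℕ) : ℝ) / phi (x.1 * x.2) ^ 2) := by
        refine sum_le_sum fun x hx => ?_
        obtain ⟨hp, hKp, -, hs1, -, -, hsQ, -, -, -, -⟩ := rr_mem h hs le_rfl Q x hx
        have hxP : x.1 ∈ PS δ X Y := (mem_product.1 hx).1
        have hpQ : ¬ x.1 ∣ Q := hFr x.1 hxP
        have hcop : (x.1 * x.2).Coprime Q :=
          Nat.Coprime.mul_left ((Nat.Prime.coprime_iff_not_dvd hp).2 hpQ) hsQ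
        have hr1 : 1 ≤ x.1 * x.2 := Nat.mul_pos hp.pos hs1
        have hrQ : 2 * (MM δ X : ℝ) ≤ ((x.1 * x.2 : ℕ) : ℝ) * Q := by
          have h3 : (KK δ X Y : ℝ) ≤ ((x.1 * x.2 : ℕ) : ℝ) := by
            have : KK δ X Y ≤ x.1 * x.2 := hKp.le.trans (Nat.le_mul_of_pos_right _ hs1)
            exact_mod_cast this
          have h4 : X / Y * X ^ δ ≤ KK δ X Y := hs.Klo
          have h5 : 1 ≤ X ^ δ := Real.one_le_rpow (by linarith [hs.X3]) hδ.le
          have h6 : X / Y ≤ ((x.1 * x.2 : ℕ) : ℝ) := by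
            have h7 : 0 < X / Y := by positivity
            nlinarith
          have h8 : X ≤ ((x.1 * x.2 : ℕ) : ℝ) * Q := by
            calc X = X / Y * Y := by field_simp
              _ ≤ ((x.1 * x.2 : ℕ) : ℝ) * Q :=
                mul_le_mul h6 hQY.le hY0.le (Nat.cast_nonneg _)
          linarith
        have h9 := g7_one (mm δ) (MM δ X) Q (x.1 * x.2) (by omega) hM1 hQ1 hr1 hcop hrQ
          ((range (x.1 * x.2)).filter (fun a => a.Coprime (x.1 * x.2))) (filter_subset _ _)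
        have h10 : ∀ a : ℕ, gw δ X Q ⟨x, a⟩ ^ 2 = gr (x.1 * x.2) ^ 2 *
            ‖Wh (mm δ) (MM δ X) (((Q : ℝ) * ((a : ℝ) / ((x.1 * x.2 : ℕ) : ℝ)) -
              round ((Q : ℝ) * ((a : ℝ) / ((x.1 * x.2 : ℕ) : ℝ)))) / Q)‖ ^ 2 := by
          intro a
          rw [hgw]
          rfl
        rw [sum_congr rfl fun a _ => h10 a, ← mul_sum]
        have h11 : gr (x.1 * x.2) ^ 2 ≤ 1 / phi (x.1 * x.2) ^ 2 := by
          unfold gr
          rw [div_pow]
          have h12 : mu (x.1 * x.2) ^ 2 ≤ 1 := by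
            unfold mu
            have h13 : |((ArithmeticFunction.moebius (x.1 * x.2) : ℤ) : ℝ)| ≤ 1 := by
              have := ArithmeticFunction.abs_moebius_le_one (n := x.1 * x.2)
              exact_mod_cast this
            rw [← sq_abs]
            nlinarith [abs_nonneg ((ArithmeticFunction.moebius (x.1 * x.2) : ℤ) : ℝ)]
          exact div_le_div_of_nonneg_right h12 (sq_nonneg _)
        calc gr (x.1 * x.2) ^ 2 * _ ≤ 1 / phi (x.1 * x.2) ^ 2 *
              (6 * (((x.1 * x.2 : ℕ) : ℝ) * Q * MM δ X)) :=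
              mul_le_mul h11 h9 (sum_nonneg fun _ _ => sq_nonneg _)
                (by positivity)
          _ = _ := by ring
    _ = 6 * (Q * MM δ X) *
          ∑ x ∈ RR δ X Y Q, ((x.1 * x.2 : ℕ) : ℝ) / phi (x.1 * x.2) ^ 2 := by rw [mul_sum]
    _ ≤ 6 * (Q * MM δ X) * (C * Real.log X) := mul_le_mul_of_nonneg_left hW (by positivity)
    _ ≤ 6 * (Q * X) * (C * Real.log X) := by
        refine mul_le_mul_of_nonneg_right ?_ ?_
        · have := hs.Mhi
          nlinarith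
        · have : 0 ≤ Real.log X := Real.log_nonneg (by linarith [hs.X3])
          positivity
    _ = 6 * C * X * Q * Real.log X := by ring

end


end Pool.Agent.BSD
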