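import Pool.Agent.Lib_helper26.BSD.Defs
import Pool.Agent.Lib_helper26.BSD.A2
import Pool.Agent.Lib_helper26.BSD.B1
import Pool.Agent.Lib_helper26.BSD.C2
import Pool.Agent.Lib_helper26.BSD.G4

set_option autoImplicit false

namespace Pool.Agent.BSD

open Finset
open Pool.Agent.FG61 (mu phi Lam cc off)
open Pool.Agent.Var35 (e)

noncomputable section

/-- the integer `t = r ε_θ` -/
theorem g8_t (Q : ℕ) (θ : Σ _ : ℕ × ℕ, ℕ) (hd : 0 < den θ) :
    (den θ : ℝ) * ee Q θ = (((Q : ℤ) * θ.2 - den θ * jj Q θ : ℤ) : ℝ) := by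
  have h0 : (den θ : ℝ) ≠ 0 := by exact_mod_cast hd.ne'
  unfold ee th
  push_cast
  field_simp

theorem near_count {ε δ A X Y : ℝ} (h : Ok ε δ) (hs : Sz ε δ A X Y) (hA : 1 ≤ A) (Q : ℕ)
    (hQ : Q ∈ IY Y) (hF : Fr δ X Y Q) (x : ℕ × ℕ) (hx : x ∈ RR δ X Y Q) :
    (((NR δ X Y Q).filter fun θ => θ.1 = x).card : ℝ) ≤
      2 * ((x.1 * x.2 : ℕ) : ℝ) * Del δ X Y + 1 := by
  have hxP : x.1 ∈ PS δ X Y := by
    unfold RR at hx
    exact (mem_product.1 hx).1
  obtain ⟨r1, r2, r3, r4, r5, r6, r7, r8, r9, r10, r11⟩ := rr_mem h hs hA Q x hx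
  have hr : 0 < x.1 * x.2 := Nat.mul_pos r1.pos r4
  have hrR : (0 : ℝ) < ((x.1 * x.2 : ℕ) : ℝ) := by exact_mod_cast hr
  have hcop : Nat.Coprime Q (x.1 * x.2) :=
    Nat.Coprime.mul_right (((Nat.Prime.coprime_iff_not_dvd r1).2 (hF x.1 hxP)).symm) r7.symm
  have hD0 : 0 ≤ Del δ X Y := by
    unfold Del
    have hX : (0 : ℝ) < X := by linarith [hs.X3]
    have hY : (0 : ℝ) ≤ Y := (Real.rpow_nonneg hX.le _).trans hs.Y1
    positivity
  set B : ℝ := ((x.1 * x.2 : ℕ) : ℝ) * Del δ X Y with hB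
  have hB0 : 0 ≤ B := mul_nonneg hrR.le hD0
  have hmem : ∀ θ ∈ (NR δ X Y Q).filter (fun θ => θ.1 = x), θ.1 = x ∧ θ.2 < x.1 * x.2 ∧
      |ee Q θ| < Del δ X Y := by
    intro θ hθ
    rw [mem_filter] at hθ
    obtain ⟨hθ1, hθ2⟩ := hθ
    unfold NR TH at hθ1
    rw [mem_filter, mem_sigma, mem_filter, mem_range] at hθ1
    obtain ⟨⟨h1, h2, h3⟩, h4⟩ := hθ1
    refine ⟨hθ2, ?_, h4⟩
    rw [← hθ2]; exact h2
  have hcard : ((NR δ X Y Q).filter fun θ => θ.1 = x).card ≤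
      (Icc (-⌊B⌋) ⌊B⌋).card := by
    apply Finset.card_le_card_of_injOn (fun θ => (Q : ℤ) * θ.2 - den θ * jj Q θ)
    · intro θ hθ
      obtain ⟨h1, h2, h3⟩ := hmem θ (by simpa using hθ)
      have hd : den θ = x.1 * x.2 := by unfold den; rw [h1]
      have h4 := g8_t Q θ (by rw [hd]; exact hr)
      have h5 : |(((Q : ℤ) * θ.2 - den θ * jj Q θ : ℤ) : ℝ)| ≤ B := by
        rw [← h4, abs_mul, Nat.abs_cast, hd, hB]
        exact mul_le_mul_of_nonneg_left h3.le hrR.le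
      rw [abs_le] at h5
      simp only [coe_Icc, Set.mem_Icc]
      constructor
      · have : -(((Q : ℤ) * θ.2 - den θ * jj Q θ : ℤ)) ≤ ⌊B⌋ := by
          apply Int.le_floor.2
          push_cast at h5 ⊢
          linarith [h5.1]
        linarith
      · exact Int.le_floor.2 h5.2
    · intro θ hθ θ' hθ' heq
      obtain ⟨h1, h2, h3⟩ := hmem θ (by simpa using hθ)
      obtain ⟨h1', h2', h3'⟩ := hmem θ' (by simpa using hθ')
      have hd : den θ = x.1 * x.2 := by unfold den; rw [h1]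
      have hd' : den θ' = x.1 * x.2 := by unfold den; rw [h1']
      simp only [hd, hd'] at heq
      have h6 : ((x.1 * x.2 : ℕ) : ℤ) ∣ (Q : ℤ) * ((θ.2 : ℤ) - θ'.2) :=
        ⟨jj Q θ - jj Q θ', by linarith⟩
      have hc' : IsCoprime ((x.1 * x.2 : ℕ) : ℤ) (Q : ℤ) :=
        (Nat.isCoprime_iff_coprime.2 hcop.symm)
      have h7 := hc'.dvd_of_dvd_mul_left h6
      have h8 : (θ.2 : ℤ) = θ'.2 := by
        have h9 : |(θ.2 : ℤ) - θ'.2| < ((x.1 * x.2 : ℕ) : ℤ) := by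
          rw [abs_lt]
          constructor
          · have : (θ'.2 : ℤ) < ((x.1 * x.2 : ℕ) : ℤ) := by exact_mod_cast h2'
            have : (0 : ℤ) ≤ θ.2 := by positivity
            linarith
          · have : (θ.2 : ℤ) < ((x.1 * x.2 : ℕ) : ℤ) := by exact_mod_cast h2
            have : (0 : ℤ) ≤ θ'.2 := by positivity
            linarith
        have h10 := Int.eq_zero_of_abs_lt_dvd h7 h9
        linarith
      have h9 : θ.2 = θ'.2 := by exact_mod_cast h8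
      obtain ⟨y, a⟩ := θ
      obtain ⟨y', a'⟩ := θ'
      simp only at h1 h1' h9
      subst h1 h9
      rw [h1']
  calc (((NR δ X Y Q).filter fun θ => θ.1 = x).card : ℝ) ≤ ((Icc (-⌊B⌋) ⌊B⌋).card : ℝ) := by
        exact_mod_cast hcard
    _ ≤ 2 * B + 1 := by
        rw [Int.card_Icc]
        have h0 : 0 ≤ ⌊B⌋ := Int.floor_nonneg.2 hB0
        have h1 : ((⌊B⌋ + 1 - -⌊B⌋).toNat : ℤ) = ⌊B⌋ + 1 - -⌊B⌋ := Int.toNat_of_nonneg (by linarith)
        have h2 : (((⌊B⌋ + 1 - -⌊B⌋).toNat : ℕ) : ℝ) = ((⌊B⌋ + 1 - -⌊B⌋ : ℤ) : ℝ) := by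
          exact_mod_cast h1
        rw [h2]
        push_cast
        have := Int.floor_le B
        linarith
    _ = _ := by rw [hB]; ring

/-- the weight of a near fraction -/
theorem g8_gw {ε δ A X Y : ℝ} (h : Ok ε δ) (hs : Sz ε δ A X Y) (hA : 1 ≤ A) (Q : ℕ)
    (θ : Σ _ : ℕ × ℕ, ℕ) (hθ : θ ∈ NR δ X Y Q) :
    0 ≤ gw δ X Q θ ∧ gw δ X Q θ ≤ X / ((θ.1.1 : ℝ) - 1) := by
  have hθ1 : θ.1 ∈ RR δ X Y Q := by
    unfold NR TH at hθ
    rw [mem_filter, mem_sigma] at hθ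
    exact hθ.1.1
  obtain ⟨r1, r2, r3, r4, r5, r6, r7, r8, r9, r10, r11⟩ := rr_mem h hs hA Q θ.1 hθ1
  have hX : (0 : ℝ) < X := by linarith [hs.X3]
  have hp : (0 : ℝ) < (θ.1.1 : ℝ) - 1 := by
    have : (2 : ℝ) ≤ θ.1.1 := by exact_mod_cast r1.two_le
    linarith
  have hph : (1 : ℝ) ≤ phi θ.1.2 := by
    have : 0 < Nat.totient θ.1.2 := Nat.totient_pos.2 r4
    exact_mod_cast this
  have hφ : (θ.1.1 : ℝ) - 1 ≤ phi (den θ) := by
    unfold den
    rw [r11]
    nlinarith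
  refine ⟨by unfold gw; positivity, ?_⟩
  have hm : 1 ≤ mm δ := by
    unfold mm
    have : 0 < 100 / δ := div_pos (by norm_num) h.1
    exact Nat.ceil_pos.2 this
  have hmu : |mu (den θ)| ≤ 1 := by
    have h1 : |ArithmeticFunction.moebius (den θ)| ≤ 1 := ArithmeticFunction.abs_moebius_le_one
    have h2 : ((|ArithmeticFunction.moebius (den θ)| : ℤ) : ℝ) ≤ 1 := by exact_mod_cast h1
    rwa [Int.cast_abs] at h2
  have h1 : |gr (den θ)| ≤ 1 / ((θ.1.1 : ℝ) - 1) := by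
    unfold gr
    rw [abs_div, abs_of_pos (hp.trans_le hφ)]
    exact div_le_div₀ zero_le_one hmu hp hφ
  have h2 : ‖Wh (mm δ) (MM δ X) (ee Q θ / Q)‖ ≤ X := (Wh_le _ _ hm _).trans hs.Mhi
  unfold gw
  calc |gr (den θ)| * ‖Wh (mm δ) (MM δ X) (ee Q θ / Q)‖ ≤ 1 / ((θ.1.1 : ℝ) - 1) * X :=
        mul_le_mul h1 h2 (norm_nonneg _) (by positivity)
    _ = _ := by ring

/-- the sum of the weights with the prime `p` -/
theorem g8_sum {ε δ A X Y : ℝ} (h : Ok ε δ) (hs : Sz ε δ A X Y) (hA : 1 ≤ A) (Q : ℕ)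
    (hQ : Q ∈ IY Y) (hF : Fr δ X Y Q) (p : ℕ) (hp : p ∈ PS δ X Y) :
    ∑ θ ∈ (NR δ X Y Q).filter (fun θ => θ.1.1 = p), gw δ X Q θ ≤
      6 * (SS δ X : ℝ) ^ 2 * (X * Del δ X Y) := by
  have hX : (0 : ℝ) < X := by linarith [hs.X3]
  have hX1 : (1 : ℝ) ≤ X := by linarith [hs.X3]
  have hY : (0 : ℝ) < Y := (Real.rpow_pos_of_pos hX _).trans_le hs.Y1
  have hδ := h.1
  have hpp : p.Prime ∧ KK δ X Y < p := by
    unfold PS at hp
    exact (mem_filter.1 hp).2
  have hp2 : (2 : ℝ) ≤ p := by exact_mod_cast hpp.1.two_le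
  have hp1 : (0 : ℝ) < (p : ℝ) - 1 := by linarith
  have hD0 : 0 < Del δ X Y := by unfold Del; positivity
  have hKD : 1 ≤ (p : ℝ) * Del δ X Y := by
    have h1 : (KK δ X Y : ℝ) ≤ p := by exact_mod_cast hpp.2.le
    have h2 : X / Y * X ^ δ ≤ p := hs.Klo.trans h1
    calc (1 : ℝ) ≤ X ^ δ * X ^ δ := by
          have := Real.one_le_rpow hX1 hδ.le
          nlinarith
      _ = X / Y * X ^ δ * Del δ X Y := by
          unfold Del
          field_simp
      _ ≤ (p : ℝ) * Del δ X Y := mul_le_mul_of_nonneg_right h2 hD0.le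
  have hS1 : (1 : ℝ) ≤ SS δ X := by exact_mod_cast hs.S1
  have hmaps : ∀ θ ∈ (NR δ X Y Q).filter (fun θ => θ.1.1 = p),
      θ.1 ∈ (RR δ X Y Q).filter (fun x => x.1 = p) := by
    intro θ hθ
    rw [mem_filter] at hθ ⊢
    refine ⟨?_, hθ.2⟩
    have := hθ.1
    unfold NR TH at this
    rw [mem_filter, mem_sigma] at this
    exact this.1.1
  rw [← sum_fiberwise_of_maps_to hmaps]
  have hinner : ∀ x ∈ (RR δ X Y Q).filter (fun x => x.1 = p),
      ∑ θ ∈ ((NR δ X Y Q).filter (fun θ => θ.1.1 = p)).filter (fun θ => θ.1 = x), gw δ X Q θ ≤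
        6 * (SS δ X : ℝ) * (X * Del δ X Y) := by
    intro x hx
    rw [mem_filter] at hx
    obtain ⟨hx1, hx2⟩ := hx
    obtain ⟨r1, r2, r3, r4, r5, r6, r7, r8, r9, r10, r11⟩ := rr_mem h hs hA Q x hx1
    have h1 : ∑ θ ∈ ((NR δ X Y Q).filter (fun θ => θ.1.1 = p)).filter (fun θ => θ.1 = x),
        gw δ X Q θ ≤ ∑ θ ∈ (NR δ X Y Q).filter (fun θ => θ.1 = x), X / ((p : ℝ) - 1) := by
      refine (sum_le_sum_of_subset_of_nonneg ?_ ?_).trans (sum_le_sum ?_)
      · intro θ hθ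
        rw [mem_filter, mem_filter] at hθ
        exact mem_filter.2 ⟨hθ.1.1, hθ.2⟩
      · intro θ hθ _
        exact (g8_gw h hs hA Q θ (mem_filter.1 hθ).1).1
      · intro θ hθ
        rw [mem_filter] at hθ
        have := (g8_gw h hs hA Q θ hθ.1).2
        rwa [hθ.2, hx2] at this
    refine h1.trans ?_
    rw [sum_const, nsmul_eq_mul]
    have h2 := near_count h hs hA Q hQ hF x hx1
    have h3 : ((x.1 * x.2 : ℕ) : ℝ) ≤ (p : ℝ) * SS δ X := by
      rw [hx2]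
      have : p * x.2 ≤ p * SS δ X := Nat.mul_le_mul_left _ r5
      exact_mod_cast this
    have h4 : (((NR δ X Y Q).filter fun θ => θ.1 = x).card : ℝ) ≤
        3 * ((p : ℝ) * SS δ X * Del δ X Y) := by
      refine h2.trans ?_
      have h5 : ((x.1 * x.2 : ℕ) : ℝ) * Del δ X Y ≤ (p : ℝ) * SS δ X * Del δ X Y :=
        mul_le_mul_of_nonneg_right h3 hD0.le
      have h6 : 1 ≤ (p : ℝ) * SS δ X * Del δ X Y := by
        calc (1 : ℝ) ≤ (p : ℝ) * Del δ X Y := hKD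
          _ ≤ (p : ℝ) * Del δ X Y * SS δ X := le_mul_of_one_le_right (by positivity) hS1
          _ = _ := by ring
      linarith
    calc _ ≤ 3 * ((p : ℝ) * SS δ X * Del δ X Y) * (X / ((p : ℝ) - 1)) :=
          mul_le_mul_of_nonneg_right h4 (by positivity)
      _ = (p / ((p : ℝ) - 1)) * (3 * (SS δ X : ℝ) * (X * Del δ X Y)) := by
          field_simp
      _ ≤ 2 * (3 * (SS δ X : ℝ) * (X * Del δ X Y)) := by
          apply mul_le_mul_of_nonneg_right _ (by positivity)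
          rw [div_le_iff₀ hp1]
          linarith
      _ = _ := by ring
  refine (sum_le_sum hinner).trans ?_
  rw [sum_const, nsmul_eq_mul]
  have hcard : (((RR δ X Y Q).filter (fun x => x.1 = p)).card : ℝ) ≤ SS δ X := by
    have : ((RR δ X Y Q).filter (fun x => x.1 = p)).card ≤ (Icc 1 (SS δ X)).card := by
      apply Finset.card_le_card_of_injOn (fun x => x.2)
      · intro x hx
        have hx' := (mem_filter.1 (by simpa using hx : x ∈ (RR δ X Y Q).filter (fun x => x.1 = p)))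
        have hx1 := hx'.1
        unfold RR at hx1
        rw [mem_product, mem_filter] at hx1
        exact hx1.2.1
      · intro x hx y hy hxy
        have hx' := (mem_filter.1 (by simpa using hx : x ∈ (RR δ X Y Q).filter (fun x => x.1 = p)))
        have hy' := (mem_filter.1 (by simpa using hy : y ∈ (RR δ X Y Q).filter (fun x => x.1 = p)))
        exact Prod.ext (hx'.2.trans hy'.2.symm) hxy
    rw [Nat.card_Icc] at this
    have h9 : ((RR δ X Y Q).filter (fun x => x.1 = p)).card ≤ SS δ X := by omega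
    exact_mod_cast h9
  calc _ ≤ (SS δ X : ℝ) * (6 * (SS δ X : ℝ) * (X * Del δ X Y)) :=
        mul_le_mul_of_nonneg_right hcard (by positivity)
    _ = _ := by ring

/-- the sum over the quadruples with the prime `p` -/
theorem g8_p {ε δ A X Y : ℝ} (h : Ok ε δ) (hs : Sz ε δ A X Y) (hA : 1 ≤ A) (Q : ℕ)
    (hQ : Q ∈ IY Y) (p : ℕ) (hp2 : (1 : ℝ) < p) (T : Finset Quad)
    (hT : ∀ q ∈ T, q ∈ QD δ X Y Q ∧ FI q ∧ AE q ∧ q.1.1.1.1 = p) :
    ∑ q ∈ T, gq δ X Q q ≤ (∑ θ ∈ (NR δ X Y Q).filter (fun θ => θ.1.1 = p), gw δ X Q θ) ^ 3 *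
      (X / ((p : ℝ) - 1)) := by
  have hX : (0 : ℝ) < X := by linarith [hs.X3]
  set N := (NR δ X Y Q).filter (fun θ => θ.1.1 = p) with hN
  have hmem : ∀ q ∈ T, q.1.1 ∈ N ∧ q.1.2 ∈ N ∧ q.2.1 ∈ N ∧ q.2.2 ∈ N := by
    intro q hq
    obtain ⟨h1, h2, h3, h4⟩ := hT q hq
    unfold QD at h1
    rw [mem_filter, mem_product, mem_product, mem_product] at h1
    obtain ⟨⟨⟨m1, m2⟩, ⟨m3, m4⟩⟩, -⟩ := h1
    obtain ⟨e1, e2, e3⟩ := h3
    refine ⟨mem_filter.2 ⟨m1, h4⟩, mem_filter.2 ⟨m2, ?_⟩, mem_filter.2 ⟨m3, ?_⟩,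
      mem_filter.2 ⟨m4, ?_⟩⟩
    · rw [← e1]; exact h4
    · rw [← e2]; exact h4
    · rw [← e3]; exact h4
  have hNR : ∀ θ ∈ N, θ ∈ NR δ X Y Q := fun θ hθ => (mem_filter.1 hθ).1
  have hpos : ∀ θ ∈ N, 0 ≤ gw δ X Q θ := fun θ hθ => (g8_gw h hs hA Q θ (hNR θ hθ)).1
  let H : ((Σ _ : ℕ × ℕ, ℕ) × (Σ _ : ℕ × ℕ, ℕ)) × (Σ _ : ℕ × ℕ, ℕ) → ℝ := fun t =>
    gw δ X Q t.1.1 * gw δ X Q t.1.2 * gw δ X Q t.2 * (X / ((p : ℝ) - 1))
  have hinj : Set.InjOn (fun q : Quad => (q.1, q.2.1)) (T : Set Quad) := by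
    intro q hq q' hq' heq
    have hq := hT q (by simpa using hq)
    have hq' := hT q' (by simpa using hq')
    simp only [Prod.mk.injEq] at heq
    obtain ⟨e1, e2⟩ := heq
    have m4 : q.2.2 ∈ NR δ X Y Q := by
      have h1 := hq.1
      unfold QD at h1
      rw [mem_filter, mem_product, mem_product, mem_product] at h1
      exact h1.1.2.2
    have m4' : q'.2.2 ∈ NR δ X Y Q := by
      have h1 := hq'.1
      unfold QD at h1
      rw [mem_filter, mem_product, mem_product, mem_product] at h1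
      exact h1.1.2.2
    obtain ⟨k, hk⟩ := hq.2.1
    obtain ⟨k', hk'⟩ := hq'.2.1
    unfold fq at hk hk'
    rw [e1, e2] at hk
    have h5 : q.2.2 = q'.2.2 := by
      apply pair_minus h hs hA Q hQ _ _ m4 m4'
      refine ⟨(q.2.2.1.2 : ℤ) * q'.2.2.1.2 * (k' - k), ?_⟩
      push_cast
      rw [← hk, ← hk']
      ring
    obtain ⟨a, b, c⟩ := q
    obtain ⟨a', b', c'⟩ := q'
    simp only at e1 e2 h5
    rw [e1, e2, h5]
  calc ∑ q ∈ T, gq δ X Q q ≤ ∑ q ∈ T, H ((fun q : Quad => (q.1, q.2.1)) q) := by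
        apply sum_le_sum
        intro q hq
        obtain ⟨m1, m2, m3, m4⟩ := hmem q hq
        have h4 := (g8_gw h hs hA Q q.2.2 (hNR _ m4)).2
        have h5 : q.2.2.1.1 = p := (mem_filter.1 m4).2
        rw [h5] at h4
        unfold gq
        exact mul_le_mul_of_nonneg_left h4
          (mul_nonneg (mul_nonneg (hpos _ m1) (hpos _ m2)) (hpos _ m3))
    _ = ∑ t ∈ T.image (fun q : Quad => (q.1, q.2.1)), H t := (sum_image hinj).symm
    _ ≤ ∑ t ∈ (N ×ˢ N) ×ˢ N, H t := by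
        apply sum_le_sum_of_subset_of_nonneg
        · intro t ht
          rw [mem_image] at ht
          obtain ⟨q, hq, rfl⟩ := ht
          obtain ⟨m1, m2, m3, m4⟩ := hmem q hq
          exact mem_product.2 ⟨mem_product.2 ⟨m1, m2⟩, m3⟩
        · intro t ht _
          rw [mem_product, mem_product] at ht
          exact mul_nonneg (mul_nonneg (mul_nonneg (hpos _ ht.1.1) (hpos _ ht.1.2)) (hpos _ ht.2))
            (div_nonneg hX.le (by linarith))
    _ = _ := by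
        simp only [H]
        rw [sum_product, sum_product]
        rw [pow_succ, pow_two, sum_mul_sum, sum_mul, sum_mul]
        apply sum_congr rfl
        intro a _
        rw [sum_mul, sum_mul]
        apply sum_congr rfl
        intro b _
        rw [mul_sum, sum_mul]

theorem all_eq (ε δ : ℝ) (h : Ok ε δ) : ∃ X₀ : ℝ, ∀ X Y : ℝ, X₀ ≤ X → Rg ε X Y →
    ∀ Q ∈ IY Y, Fr δ X Y Q → (open scoped Classical in
      ∑ q ∈ (QD δ X Y Q).filter (fun q => FI q ∧ AE q), gq δ X Q q) ≤ Y ^ 3 * X ^ (1 + 4 * δ) := by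
  classical
  obtain ⟨X₁, hX₁⟩ := sizes ε δ 1000 h
  obtain ⟨X₂, hX₂⟩ := ps_sums ε δ h
  refine ⟨max X₁ X₂, fun X Y hX hR Q hQ hF => ?_⟩
  have hs := hX₁ X Y ((le_max_left _ _).trans hX) hR
  have hps := (hX₂ X Y ((le_max_right _ _).trans hX) hR).2
  have hA : (1 : ℝ) ≤ 1000 := by norm_num
  have hX0 : (0 : ℝ) < X := by linarith [hs.X3]
  have hX1 : (1 : ℝ) ≤ X := by linarith [hs.X3]
  have hY : (0 : ℝ) < Y := (Real.rpow_pos_of_pos hX0 _).trans_le hs.Y1
  have hδ := h.1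
  have hδ6 := h.2.2
  have hD0 : 0 < Del δ X Y := by unfold Del; positivity
  have hmaps : ∀ q ∈ (QD δ X Y Q).filter (fun q => FI q ∧ AE q), q.1.1.1.1 ∈ PS δ X Y := by
    intro q hq
    have h1 := (mem_filter.1 hq).1
    unfold QD at h1
    rw [mem_filter, mem_product, mem_product] at h1
    have h2 := h1.1.1.1
    unfold NR TH at h2
    rw [mem_filter, mem_sigma] at h2
    have h3 := h2.1.1
    unfold RR at h3
    exact (mem_product.1 h3).1
  have hmain : ∑ q ∈ (QD δ X Y Q).filter (fun q => FI q ∧ AE q), gq δ X Q q ≤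
      ∑ p ∈ PS δ X Y, (6 * (SS δ X : ℝ) ^ 2 * (X * Del δ X Y)) ^ 3 * (2 * X * (1 / (p : ℝ))) := by
    rw [← sum_fiberwise_of_maps_to hmaps]
    apply sum_le_sum
    intro p hp
    have hpp : p.Prime ∧ KK δ X Y < p := by
      unfold PS at hp
      exact (mem_filter.1 hp).2
    have hp2 : (2 : ℝ) ≤ p := by exact_mod_cast hpp.1.two_le
    have hp1 : (0 : ℝ) < (p : ℝ) - 1 := by linarith
    refine (g8_p h hs hA Q hQ p (by linarith) _ ?_).trans ?_
    · intro q hq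
      rw [mem_filter, mem_filter] at hq
      exact ⟨hq.1.1, hq.1.2.1, hq.1.2.2, hq.2⟩
    · apply mul_le_mul
      · apply pow_le_pow_left₀
        · apply sum_nonneg
          intro θ hθ
          exact (g8_gw h hs hA Q θ (mem_filter.1 hθ).1).1
        · exact g8_sum h hs hA Q hQ hF p hp
      · rw [div_le_iff₀ hp1]
        have h0 : (0 : ℝ) < p := by linarith
        have h1 : 1 ≤ 2 * (1 / (p : ℝ)) * ((p : ℝ) - 1) := by
          rw [mul_one_div, div_mul_eq_mul_div, le_div_iff₀ h0]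
          linarith
        calc X = X * 1 := (mul_one X).symm
          _ ≤ X * (2 * (1 / (p : ℝ)) * ((p : ℝ) - 1)) := mul_le_mul_of_nonneg_left h1 hX0.le
          _ = _ := by ring
      · exact div_nonneg hX0.le hp1.le
      · positivity
  refine hmain.trans ?_
  rw [← mul_sum, ← mul_sum]
  have hS2 : (SS δ X : ℝ) ^ 2 ≤ X ^ (δ ^ 2 / 5) := by
    calc (SS δ X : ℝ) ^ 2 ≤ (X ^ (δ ^ 2 / 10)) ^ 2 := pow_le_pow_left₀ (by positivity) hs.Shi 2
      _ = X ^ (δ ^ 2 / 5) := by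
          rw [← Real.rpow_natCast, ← Real.rpow_mul hX0.le]
          congr 1
          push_cast
          ring
  have hlog : 0 ≤ Real.log X := Real.log_nonneg hX1
  have hlg : (1000 : ℝ) ≤ X ^ (δ ^ 2 / 100) := by
    refine le_trans ?_ hs.lg
    have : (1 : ℝ) ≤ (1 + Real.log X) ^ 100 := one_le_pow₀ (by linarith)
    linarith
  have hsum1 : ∑ p ∈ PS δ X Y, 1 / (p : ℝ) ≤ 1 := hps.trans (by linarith)
  calc (6 * (SS δ X : ℝ) ^ 2 * (X * Del δ X Y)) ^ 3 * (2 * X * ∑ p ∈ PS δ X Y, 1 / (p : ℝ)) ≤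
      (6 * X ^ (δ ^ 2 / 5) * (X * Del δ X Y)) ^ 3 * (2 * X * 1) := by
        apply mul_le_mul
        · apply pow_le_pow_left₀ (by positivity)
          apply mul_le_mul_of_nonneg_right _ (by positivity)
          exact mul_le_mul_of_nonneg_left hS2 (by norm_num)
        · exact mul_le_mul_of_nonneg_left hsum1 (by positivity)
        · apply mul_nonneg (by positivity)
          exact sum_nonneg fun p _ => by positivity
        · positivity
    _ = 432 * (Y ^ 3 * ((X ^ (δ ^ 2 / 5)) ^ 3 * (X ^ δ) ^ 3 * X ^ (1 : ℝ))) := by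
        unfold Del
        rw [Real.rpow_one]
        field_simp
        ring
    _ = 432 * (Y ^ 3 * X ^ (3 * (δ ^ 2 / 5) + 3 * δ + 1)) := by
        have e1 : (X ^ (δ ^ 2 / 5)) ^ 3 = X ^ (3 * (δ ^ 2 / 5)) := by
          rw [mul_comm, Real.rpow_mul hX0.le]
          exact_mod_cast rfl
        have e2 : (X ^ δ) ^ 3 = X ^ (3 * δ) := by
          rw [mul_comm, Real.rpow_mul hX0.le]
          exact_mod_cast rfl
        rw [Real.rpow_add hX0, Real.rpow_add hX0, e1, e2]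
    _ ≤ X ^ (δ ^ 2 / 100) * (Y ^ 3 * X ^ (3 * (δ ^ 2 / 5) + 3 * δ + 1)) := by
        apply mul_le_mul_of_nonneg_right _ (by positivity)
        linarith
    _ = Y ^ 3 * X ^ (δ ^ 2 / 100 + (3 * (δ ^ 2 / 5) + 3 * δ + 1)) := by
        rw [Real.rpow_add hX0 (δ ^ 2 / 100)]; ring
    _ ≤ Y ^ 3 * X ^ (1 + 4 * δ) := by
        apply mul_le_mul_of_nonneg_left _ (by positivity)
        apply Real.rpow_le_rpow_of_exponent_le hX1
        nlinarith

end

end Pool.Agent.BSD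

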