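import Pool.Agent.Lib_helper26.BSD.Defs
import Pool.Agent.Lib_helper26.BSD.A2
import Pool.Agent.Lib_helper26.BSD.B1

set_option autoImplicit false

namespace Pool.Agent.BSD

open Finset
open Pool.Agent.FG61 (mu phi Lam cc off)
open Pool.Agent.Var35 (e)

noncomputable section

/-- `t = Q a - r j` -/
def g9t (Q : ℕ) (θ : Σ _ : ℕ × ℕ, ℕ) : ℤ := (Q : ℤ) * θ.2 - (den θ : ℤ) * jj Q θ

theorem g9t_ee (Q : ℕ) (θ : Σ _ : ℕ × ℕ, ℕ) (hd : den θ ≠ 0) :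
    ((g9t Q θ : ℤ) : ℝ) = den θ * ee Q θ := by
  unfold g9t ee th
  have : (den θ : ℝ) ≠ 0 := by exact_mod_cast hd
  push_cast
  field_simp

/-- a denominator and a numerator -/
abbrev G9B : Type := (ℕ × ℕ) × ℤ

/-- quadruples -/
abbrev G9Y : Type := (G9B × G9B) × (G9B × G9B)

/-- the denominator -/
def g9r (b : G9B) : ℤ := ((b.1.1 * b.1.2 : ℕ) : ℤ)

/-- the numerator of the alternating sum -/
def g9T (y : G9Y) : ℤ :=
  y.1.1.2 * g9r y.1.2 * g9r y.2.1 * g9r y.2.2 + y.1.2.2 * g9r y.1.1 * g9r y.2.1 * g9r y.2.2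
  - y.2.1.2 * g9r y.1.1 * g9r y.1.2 * g9r y.2.2 - y.2.2.2 * g9r y.1.1 * g9r y.1.2 * g9r y.2.1

/-- the datum of a fraction -/
def g9b (Q : ℕ) (θ : Σ _ : ℕ × ℕ, ℕ) : G9B := (θ.1, g9t Q θ)

/-- the data of a quadruple -/
def g9y (Q : ℕ) (q : Quad) : G9Y := ((g9b Q q.1.1, g9b Q q.1.2), (g9b Q q.2.1, g9b Q q.2.2))

theorem g9T_eq (Q : ℕ) (q : Quad) (k : ℤ)
    (hk : jj Q q.1.1 + jj Q q.1.2 - jj Q q.2.1 - jj Q q.2.2 = Q * k) :
    g9T (g9y Q q) = Q * (((q.1.1.2 : ℤ) * den q.1.2 * den q.2.1 * den q.2.2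
      + (q.1.2.2 : ℤ) * den q.1.1 * den q.2.1 * den q.2.2
      - (q.2.1.2 : ℤ) * den q.1.1 * den q.1.2 * den q.2.2
      - (q.2.2.2 : ℤ) * den q.1.1 * den q.1.2 * den q.2.1)
      - (den q.1.1 : ℤ) * den q.1.2 * den q.2.1 * den q.2.2 * k) := by
  have h1 : ∀ θ : Σ _ : ℕ × ℕ, ℕ, g9r (g9b Q θ) = (den θ : ℤ) := fun θ => rfl
  have h2 : ∀ θ : Σ _ : ℕ × ℕ, ℕ, (g9b Q θ).2 = (Q : ℤ) * θ.2 - (den θ : ℤ) * jj Q θ :=
    fun θ => rfl
  unfold g9T g9y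
  dsimp only
  simp only [h1, h2]
  linear_combination (-(den q.1.1 : ℤ) * den q.1.2 * den q.2.1 * den q.2.2) * hk

theorem g9T_FI (Q : ℕ) (q : Quad) (hQ : 1 ≤ Q) (k : ℤ)
    (hk : jj Q q.1.1 + jj Q q.1.2 - jj Q q.2.1 - jj Q q.2.2 = Q * k)
    (d1 : den q.1.1 ≠ 0) (d2 : den q.1.2 ≠ 0) (d3 : den q.2.1 ≠ 0) (d4 : den q.2.2 ≠ 0)
    (h0 : g9T (g9y Q q) = 0) : FI q := by
  rw [g9T_eq Q q k hk] at h0
  have hQ0 : (Q : ℤ) ≠ 0 := by
    have : Q ≠ 0 := by omega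
    exact_mod_cast this
  have h1 := (mul_eq_zero.1 h0).resolve_left hQ0
  refine ⟨k, ?_⟩
  have e1 : (den q.1.1 : ℝ) ≠ 0 := by exact_mod_cast d1
  have e2 : (den q.1.2 : ℝ) ≠ 0 := by exact_mod_cast d2
  have e3 : (den q.2.1 : ℝ) ≠ 0 := by exact_mod_cast d3
  have e4 : (den q.2.2 : ℝ) ≠ 0 := by exact_mod_cast d4
  have h2 : ((((q.1.1.2 : ℤ) * den q.1.2 * den q.2.1 * den q.2.2
      + (q.1.2.2 : ℤ) * den q.1.1 * den q.2.1 * den q.2.2
      - (q.2.1.2 : ℤ) * den q.1.1 * den q.1.2 * den q.2.2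
      - (q.2.2.2 : ℤ) * den q.1.1 * den q.1.2 * den q.2.1)
      - (den q.1.1 : ℤ) * den q.1.2 * den q.2.1 * den q.2.2 * k : ℤ) : ℝ) = 0 := by
    rw [h1]; simp
  push_cast at h2
  unfold fq th
  field_simp
  linear_combination h2

theorem g9_coprime {ε δ A X Y : ℝ} (h : Ok ε δ) (hs : Sz ε δ A X Y) (hA : 1 ≤ A) (Q : ℕ)
    (hF : Fr δ X Y Q) (x : ℕ × ℕ) (hx : x ∈ RR δ X Y Q) : Q.Coprime (x.1 * x.2) := by
  have h1 := rr_mem h hs hA Q x hx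
  have hp : x.1 ∈ PS δ X Y := (mem_product.1 hx).1
  have h2 : Q.Coprime x.1 := by
    rw [Nat.coprime_comm, Nat.Prime.coprime_iff_not_dvd h1.1]
    exact hF _ hp
  exact Nat.Coprime.mul_right h2 h1.2.2.2.2.2.2.1.symm

theorem g9b_inj {δ X Y : ℝ} {Q : ℕ} (θ θ' : Σ _ : ℕ × ℕ, ℕ) (hθ : θ ∈ TH δ X Y Q)
    (hθ' : θ' ∈ TH δ X Y Q) (hc : Q.Coprime (den θ)) (h : g9b Q θ = g9b Q θ') : θ = θ' := by
  obtain ⟨x, a⟩ := θ
  obtain ⟨x', a'⟩ := θ'
  unfold g9b at h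
  rw [Prod.mk.injEq] at h
  obtain ⟨h1, h2⟩ := h
  dsimp only at h1
  subst h1
  unfold TH at hθ hθ'
  rw [mem_sigma, mem_filter, mem_range] at hθ hθ'
  have ha : a < x.1 * x.2 := hθ.2.1
  have ha' : a' < x.1 * x.2 := hθ'.2.1
  unfold g9t at h2
  have hden : den ⟨x, a⟩ = x.1 * x.2 := rfl
  have hden' : den ⟨x, a'⟩ = x.1 * x.2 := rfl
  rw [hden, hden'] at h2
  rw [hden] at hc
  dsimp only at h2
  set r := x.1 * x.2 with hr
  have h3 : (r : ℤ) ∣ (Q : ℤ) * ((a : ℤ) - a') := by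
    refine ⟨jj Q ⟨x, a⟩ - jj Q ⟨x, a'⟩, ?_⟩
    linear_combination h2
  have hc' : IsCoprime (r : ℤ) (Q : ℤ) := by
    rw [Int.isCoprime_iff_gcd_eq_one]
    rw [Int.gcd_natCast_natCast]
    exact hc.symm
  have h4 : (r : ℤ) ∣ (a : ℤ) - a' := hc'.dvd_of_dvd_mul_left h3
  have h5 : (a : ℤ) = a' := by
    have h6 : ((a : ℤ) - a').natAbs < r := by omega
    have h7 := Int.eq_zero_of_abs_lt_dvd h4 (by rw [Int.abs_eq_natAbs]; exact_mod_cast h6)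
    linarith
  have h8 : a = a' := by exact_mod_cast h5
  rw [h8]

theorem g9_gw {ε δ A X Y : ℝ} (h : Ok ε δ) (hs : Sz ε δ A X Y) (hA : 1 ≤ A) (Q : ℕ)
    (θ : Σ _ : ℕ × ℕ, ℕ) (hθ : θ ∈ NR δ X Y Q) : 0 ≤ gw δ X Q θ ∧ gw δ X Q θ ≤ Y * X ^ (-δ) := by
  have hX0 : (0 : ℝ) < X := by linarith [hs.X3]
  have hY0 : (0 : ℝ) < Y := lt_of_lt_of_le (by positivity) hs.Y1
  have hθ1 : θ.1 ∈ RR δ X Y Q := (mem_sigma.1 (mem_filter.1 hθ).1).1
  have h1 := rr_mem h hs hA Q θ.1 hθ1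
  obtain ⟨hp, hK, -, hs1, -, -, -, -, -, -, hphi⟩ := h1
  have hm : 1 ≤ mm δ := by
    unfold mm
    rw [Nat.one_le_ceil_iff]
    have := h.1
    positivity
  have hphis : (1 : ℝ) ≤ phi θ.1.2 := by
    have : 1 ≤ Nat.totient θ.1.2 := Nat.totient_pos.2 (by omega)
    exact_mod_cast this
  have hK' : (KK δ X Y : ℝ) ≤ (θ.1.1 : ℝ) - 1 := by
    have : (KK δ X Y : ℝ) + 1 ≤ θ.1.1 := by exact_mod_cast hK
    linarith
  have hKpos : (0 : ℝ) < X / Y * X ^ δ := by positivity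
  have hKlo := hs.Klo
  have hphi2 : X / Y * X ^ δ ≤ phi (den θ) := by
    show _ ≤ phi (θ.1.1 * θ.1.2)
    rw [hphi]
    have : (0 : ℝ) ≤ (θ.1.1 : ℝ) - 1 := by linarith
    nlinarith
  have hgr : |gr (den θ)| ≤ 1 / (X / Y * X ^ δ) := by
    unfold gr
    rw [abs_div, abs_of_nonneg (by positivity : (0 : ℝ) ≤ phi (den θ))]
    have hmu : |mu (den θ)| ≤ 1 := by
      have h2 : |ArithmeticFunction.moebius (den θ)| ≤ 1 := ArithmeticFunction.abs_moebius_le_one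
      have h3 : ((|ArithmeticFunction.moebius (den θ)| : ℤ) : ℝ) ≤ 1 := by exact_mod_cast h2
      rw [Int.cast_abs] at h3
      exact h3
    exact div_le_div₀ (by norm_num) hmu hKpos hphi2
  have hWh := (Wh_le (mm δ) (MM δ X) hm (ee Q θ / Q)).trans hs.Mhi
  unfold gw
  refine ⟨by positivity, ?_⟩
  calc |gr (den θ)| * ‖Wh (mm δ) (MM δ X) (ee Q θ / Q)‖ ≤ 1 / (X / Y * X ^ δ) * X :=
        mul_le_mul hgr hWh (norm_nonneg _) (by positivity)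
    _ = Y * X ^ (-δ) := by
        rw [Real.rpow_neg hX0.le]
        field_simp

/-- bound for the numerators -/
def g9L (δ X Y : ℝ) : ℕ := ⌊X / Y * X ^ (3 / 2 * δ) * SS δ X * Del δ X Y⌋₊

theorem g9_t {ε δ A X Y : ℝ} (h : Ok ε δ) (hs : Sz ε δ A X Y) (hA : 1 ≤ A) (Q : ℕ)
    (θ : Σ _ : ℕ × ℕ, ℕ) (hθ : θ ∈ NR δ X Y Q) : |g9t Q θ| ≤ (g9L δ X Y : ℤ) := by
  have hX0 : (0 : ℝ) < X := by linarith [hs.X3]
  have hY0 : (0 : ℝ) < Y := lt_of_lt_of_le (by positivity) hs.Y1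
  have hθ1 : θ.1 ∈ RR δ X Y Q := (mem_sigma.1 (mem_filter.1 hθ).1).1
  have hee : |ee Q θ| < Del δ X Y := (mem_filter.1 hθ).2
  have h1 := rr_mem h hs hA Q θ.1 hθ1
  obtain ⟨hp, hK, hp2, hs1, hs2, -, -, -, -, -, hphi⟩ := h1
  have hd : den θ ≠ 0 := by
    unfold den
    exact Nat.mul_ne_zero hp.ne_zero (by omega)
  have hdr : (den θ : ℝ) ≤ X / Y * X ^ (3 / 2 * δ) * SS δ X := by
    unfold den
    push_cast
    have : (θ.1.2 : ℝ) ≤ SS δ X := by exact_mod_cast hs2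
    gcongr
  have hDel : 0 < Del δ X Y := by unfold Del; positivity
  have h2 : |((g9t Q θ : ℤ) : ℝ)| ≤ X / Y * X ^ (3 / 2 * δ) * SS δ X * Del δ X Y := by
    rw [g9t_ee Q θ hd, abs_mul, Nat.abs_cast]
    exact mul_le_mul hdr hee.le (abs_nonneg _) (by positivity)
  have h3 : (g9t Q θ).natAbs ≤ g9L δ X Y := by
    unfold g9L
    apply Nat.le_floor
    rw [Nat.cast_natAbs]
    push_cast
    exact h2
  rw [Int.abs_eq_natAbs]
  exact_mod_cast h3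

/-- the data -/
def g9S (δ X Y : ℝ) : Finset G9B :=
  (PS δ X Y ×ˢ Icc 1 (SS δ X)) ×ˢ Icc (-(g9L δ X Y : ℤ)) (g9L δ X Y)

theorem g9b_mem {ε δ A X Y : ℝ} (h : Ok ε δ) (hs : Sz ε δ A X Y) (hA : 1 ≤ A) (Q : ℕ)
    (θ : Σ _ : ℕ × ℕ, ℕ) (hθ : θ ∈ NR δ X Y Q) : g9b Q θ ∈ g9S δ X Y := by
  have hθ1 : θ.1 ∈ RR δ X Y Q := (mem_sigma.1 (mem_filter.1 hθ).1).1
  unfold RR at hθ1
  rw [mem_product, mem_filter] at hθ1
  exact mem_product.2 ⟨mem_product.2 ⟨hθ1.1, hθ1.2.1⟩, mem_Icc.2 (abs_le.1 (g9_t h hs hA Q θ hθ))⟩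

theorem g9S_card {ε δ A X Y : ℝ} (h : Ok ε δ) (hs : Sz ε δ A X Y) :
    ((g9S δ X Y).card : ℝ) ≤ 3 * (X / Y) * X ^ (4 * δ) * X ^ (δ ^ 2 / 5) := by
  have hX1 : (1 : ℝ) ≤ X := by linarith [hs.X3]
  have hX0 : (0 : ℝ) < X := by linarith [hs.X3]
  have hY0 : (0 : ℝ) < Y := lt_of_lt_of_le (by positivity) hs.Y1
  have hδ := h.1
  have hP : ((PS δ X Y).card : ℝ) ≤ X / Y * X ^ (3 / 2 * δ) := by
    have h1 : (PS δ X Y).card ≤ ⌊(KK δ X Y : ℝ) ^ (1 + δ)⌋₊ := by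
      unfold PS
      refine (card_filter_le _ _).trans ?_
      rw [Nat.card_Icc]
      omega
    calc ((PS δ X Y).card : ℝ) ≤ (⌊(KK δ X Y : ℝ) ^ (1 + δ)⌋₊ : ℝ) := by exact_mod_cast h1
      _ ≤ (KK δ X Y : ℝ) ^ (1 + δ) := Nat.floor_le (by positivity)
      _ ≤ _ := hs.Kpow
  have hS : ((Icc 1 (SS δ X)).card : ℝ) ≤ X ^ (δ ^ 2 / 10) := by
    rw [Nat.card_Icc, Nat.add_sub_cancel]
    exact hs.Shi
  have hZ : X / Y * Del δ X Y = X ^ δ := by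
    unfold Del
    field_simp
  have hL : (g9L δ X Y : ℝ) ≤ X ^ (5 / 2 * δ) * X ^ (δ ^ 2 / 10) := by
    unfold g9L
    have hDel : 0 < Del δ X Y := by unfold Del; positivity
    refine (Nat.floor_le (by positivity)).trans ?_
    calc X / Y * X ^ (3 / 2 * δ) * SS δ X * Del δ X Y
        = (X / Y * Del δ X Y) * X ^ (3 / 2 * δ) * SS δ X := by ring
      _ = X ^ (5 / 2 * δ) * SS δ X := by
          rw [hZ, ← Real.rpow_add hX0]
          congr 2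
          ring
      _ ≤ _ := by
          have := hs.Shi
          gcongr
  have h1X : 1 ≤ X ^ (5 / 2 * δ) * X ^ (δ ^ 2 / 10) := by
    rw [← Real.rpow_add hX0]
    exact Real.one_le_rpow hX1 (by positivity)
  have hI : ((Icc (-(g9L δ X Y : ℤ)) (g9L δ X Y)).card : ℝ) ≤
      3 * (X ^ (5 / 2 * δ) * X ^ (δ ^ 2 / 10)) := by
    rw [Int.card_Icc]
    have h2 : (((g9L δ X Y : ℤ) + 1 - -(g9L δ X Y : ℤ)).toNat : ℝ) = 2 * g9L δ X Y + 1 := by
      have h3 : ((g9L δ X Y : ℤ) + 1 - -(g9L δ X Y : ℤ)).toNat = 2 * g9L δ X Y + 1 := by omega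
      rw [h3]
      push_cast
      ring
    rw [h2]
    linarith
  unfold g9S
  rw [card_product, card_product]
  push_cast
  calc ((PS δ X Y).card : ℝ) * ((Icc 1 (SS δ X)).card : ℝ) *
        ((Icc (-(g9L δ X Y : ℤ)) (g9L δ X Y)).card : ℝ)
      ≤ (X / Y * X ^ (3 / 2 * δ)) * X ^ (δ ^ 2 / 10) *
        (3 * (X ^ (5 / 2 * δ) * X ^ (δ ^ 2 / 10))) := by gcongr
    _ = 3 * (X / Y) * (X ^ (3 / 2 * δ) * X ^ (5 / 2 * δ)) *
        (X ^ (δ ^ 2 / 10) * X ^ (δ ^ 2 / 10)) := by ring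
    _ = _ := by
        rw [← Real.rpow_add hX0, ← Real.rpow_add hX0]
        congr 3
        · ring
        · ring

theorem g9T_le {ε δ A X Y : ℝ} (h : Ok ε δ) (hs : Sz ε δ A X Y) (y : G9Y)
    (h1 : y.1.1 ∈ g9S δ X Y) (h2 : y.1.2 ∈ g9S δ X Y) (h3 : y.2.1 ∈ g9S δ X Y)
    (h4 : y.2.2 ∈ g9S δ X Y) : (((g9T y).natAbs : ℕ) : ℝ) ≤ X ^ (4 : ℝ) := by
  have hX3 := hs.X3
  have hX1 : (1 : ℝ) ≤ X := by linarith [hs.X3]
  have hX0 : (0 : ℝ) < X := by linarith [hs.X3]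
  have hY0 : (0 : ℝ) < Y := lt_of_lt_of_le (by positivity) hs.Y1
  obtain ⟨hδ, hε, hδ1⟩ := h
  set r := X ^ (1 / 2 : ℝ) with hr
  have hr0 : 0 < r := by positivity
  have hr4 : r ^ 4 = X ^ 2 := by
    rw [hr, ← Real.rpow_natCast, ← Real.rpow_mul hX0.le, ← Real.rpow_natCast]
    norm_num
  have hL : (g9L δ X Y : ℝ) ≤ r := by
    unfold g9L
    have hDel : 0 < Del δ X Y := by unfold Del; positivity
    refine (Nat.floor_le (by positivity)).trans ?_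
    have hZ : X / Y * Del δ X Y = X ^ δ := by
      unfold Del
      field_simp
    calc X / Y * X ^ (3 / 2 * δ) * SS δ X * Del δ X Y
        = (X / Y * Del δ X Y) * X ^ (3 / 2 * δ) * SS δ X := by ring
      _ = X ^ (5 / 2 * δ) * SS δ X := by
          rw [hZ, ← Real.rpow_add hX0]
          congr 2
          ring
      _ ≤ X ^ (5 / 2 * δ) * X ^ (δ ^ 2 / 10) := by
          have := hs.Shi
          gcongr
      _ = X ^ (5 / 2 * δ + δ ^ 2 / 10) := by rw [Real.rpow_add hX0]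
      _ ≤ r := Real.rpow_le_rpow_of_exponent_le hX1 (by nlinarith)
  have hb : ∀ b ∈ g9S δ X Y, |((g9r b : ℤ) : ℝ)| ≤ r ∧ |((b.2 : ℤ) : ℝ)| ≤ r := by
    intro b hb
    unfold g9S PS at hb
    rw [mem_product, mem_product, mem_filter, mem_Icc, mem_Icc, mem_Icc] at hb
    obtain ⟨⟨⟨⟨hb1, hb2⟩, -⟩, hb3, hb4⟩, hb5⟩ := hb
    constructor
    · have hb6 : (b.1.1 : ℝ) ≤ X / Y * X ^ (3 / 2 * δ) :=
        ((Nat.le_floor_iff (by positivity)).1 hb2).trans hs.Kpow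
      have hb7 : (b.1.2 : ℝ) ≤ X ^ (δ ^ 2 / 10) :=
        (by exact_mod_cast hb4 : (b.1.2 : ℝ) ≤ SS δ X).trans hs.Shi
      unfold g9r
      push_cast
      rw [abs_of_nonneg (by positivity)]
      calc (b.1.1 : ℝ) * b.1.2 ≤ (X / Y * X ^ (3 / 2 * δ)) * X ^ (δ ^ 2 / 10) := by gcongr
        _ ≤ (X ^ (1 / 3 - ε) * X ^ (3 / 2 * δ)) * X ^ (δ ^ 2 / 10) := by
            have := hs.Zhi
            gcongr
        _ = X ^ (1 / 3 - ε + 3 / 2 * δ + δ ^ 2 / 10) := by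
            rw [Real.rpow_add hX0, Real.rpow_add hX0]
        _ ≤ r := Real.rpow_le_rpow_of_exponent_le hX1 (by nlinarith)
    · rw [← Int.cast_abs]
      have hb8 : |b.2| ≤ (g9L δ X Y : ℤ) := abs_le.2 hb5
      calc ((|b.2| : ℤ) : ℝ) ≤ (((g9L δ X Y : ℕ) : ℤ) : ℝ) := by exact_mod_cast hb8
        _ = (g9L δ X Y : ℝ) := by simp
        _ ≤ r := hL
  obtain ⟨a1, c1⟩ := hb _ h1
  obtain ⟨a2, c2⟩ := hb _ h2
  obtain ⟨a3, c3⟩ := hb _ h3
  obtain ⟨a4, c4⟩ := hb _ h4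
  have hm : ∀ u v w z : ℝ, |u| ≤ r → |v| ≤ r → |w| ≤ r → |z| ≤ r → |u * v * w * z| ≤ X ^ 2 := by
    intro u v w z hu hv hw hz
    rw [abs_mul, abs_mul, abs_mul, ← hr4]
    calc |u| * |v| * |w| * |z| ≤ r * r * r * r := by gcongr
      _ = r ^ 4 := by ring
  have e1 := hm _ _ _ _ c1 a2 a3 a4
  have e2 := hm _ _ _ _ c2 a1 a3 a4
  have e3 := hm _ _ _ _ c3 a1 a2 a4
  have e4 := hm _ _ _ _ c4 a1 a2 a3
  rw [Nat.cast_natAbs]
  unfold g9T
  push_cast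
  have hX4 : X ^ (4 : ℝ) = X ^ 2 * X ^ 2 := by
    rw [show (4 : ℝ) = ((4 : ℕ) : ℝ) by norm_num, Real.rpow_natCast]
    ring
  have hX2 : 4 * X ^ 2 ≤ X ^ (4 : ℝ) := by
    rw [hX4]
    have : 4 ≤ X ^ 2 := by nlinarith
    have h0 : 0 ≤ X ^ 2 := by positivity
    nlinarith
  refine le_trans ?_ hX2
  rw [abs_le] at e1 e2 e3 e4 ⊢
  constructor <;> linarith [e1.1, e1.2, e2.1, e2.2, e3.1, e3.2, e4.1, e4.2]


theorem non_int (ε δ : ℝ) (h : Ok ε δ) : ∃ X₀ : ℝ, ∀ X Y : ℝ, X₀ ≤ X → Rg ε X Y →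
    (open scoped Classical in ∑ Q ∈ (IY Y).filter (fun Q => Fr δ X Y Q),
      ∑ q ∈ (QD δ X Y Q).filter (fun q => ¬ FI q), gq δ X Q q) ≤ X ^ (4 + 14 * δ) := by
  classical
  obtain ⟨hδ, hε, hδ1⟩ := h
  have h : Ok ε δ := ⟨hδ, hε, hδ1⟩
  obtain ⟨C, hC0, hC⟩ := FG61.divisor_bound (ε := δ ^ 2 / 400) (by positivity)
  set A : ℝ := 81 * C + 1 with hAdef
  have hA : 1 ≤ A := by rw [hAdef]; linarith
  obtain ⟨X₀, hX₀⟩ := sizes ε δ A h
  refine ⟨X₀, fun X Y hX hR => ?_⟩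
  have hs := hX₀ X Y hX hR
  have hX3 := hs.X3
  have hX1 : (1 : ℝ) ≤ X := by linarith [hs.X3]
  have hX0 : (0 : ℝ) < X := by linarith [hs.X3]
  have hY0 : (0 : ℝ) < Y := lt_of_lt_of_le (by positivity) hs.Y1
  have hYX : 1 ≤ Y := (Real.one_le_rpow hX1 (by norm_num)).trans hs.Y1
  have hAX : A ≤ X ^ (δ ^ 2 / 100) := by
    refine le_trans ?_ hs.lg
    have hlog : 0 ≤ Real.log X := Real.log_nonneg hX1
    have : (1 : ℝ) ≤ (1 + Real.log X) ^ 100 := one_le_pow₀ (by linarith)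
    nlinarith
  set F := (IY Y).filter (fun Q => Fr δ X Y Q) with hF
  set G : ℕ → Finset Quad := fun Q => (QD δ X Y Q).filter (fun q => ¬ FI q) with hG
  set V : ℝ := Y * X ^ (-δ) with hV
  have hV0 : 0 ≤ V := by positivity
  -- the weights
  have hw : ∀ Q ∈ F, ∀ q ∈ G Q, gq δ X Q q ≤ V ^ 4 := by
    intro Q _ q hq
    have hq1 := (mem_filter.1 hq).1
    unfold QD at hq1
    have hq2 := (mem_filter.1 hq1).1
    rw [mem_product, mem_product, mem_product] at hq2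
    obtain ⟨⟨m1, m2⟩, m3, m4⟩ := hq2
    have b1 := g9_gw h hs hA Q _ m1
    have b2 := g9_gw h hs hA Q _ m2
    have b3 := g9_gw h hs hA Q _ m3
    have b4 := g9_gw h hs hA Q _ m4
    unfold gq
    calc gw δ X Q q.1.1 * gw δ X Q q.1.2 * gw δ X Q q.2.1 * gw δ X Q q.2.2
        ≤ V * V * V * V := by
          apply mul_le_mul (mul_le_mul (mul_le_mul b1.2 b2.2 b2.1 hV0) b3.2 b3.1 (by positivity))
            b4.2 b4.1 (by positivity)
      _ = V ^ 4 := by ring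
  -- the target
  set B := g9S δ X Y with hB
  set U : Finset (Σ _ : G9Y, ℕ) :=
    ((B ×ˢ B) ×ˢ (B ×ˢ B)).sigma fun y => (g9T y).natAbs.divisors with hU
  have hcard : ((F.sigma G).card : ℝ) ≤ (U.card : ℝ) := by
    have : (F.sigma G).card ≤ U.card := by
      apply Finset.card_le_card_of_injOn (fun z : (Σ _ : ℕ, Quad) => (⟨g9y z.1 z.2, z.1⟩ : Σ _ : G9Y, ℕ))
      · intro z hz
        obtain ⟨Q, q⟩ := z
        have hz' := mem_sigma.1 (mem_coe.1 hz)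
        obtain ⟨hQ, hq⟩ := hz'
        dsimp only at hQ hq
        have hQF := (mem_filter.1 hQ).2
        have hQI := (mem_filter.1 hQ).1
        have hQ1 : 1 ≤ Q := by
          have := (mem_filter.1 hQI).1
          exact (mem_Icc.1 this).1
        have hq0 := (mem_filter.1 hq)
        have hq1 := hq0.1
        have hq3 := hq0.2
        unfold QD at hq1
        have hq2 := (mem_filter.1 hq1).1
        obtain ⟨k, hk⟩ := (mem_filter.1 hq1).2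
        rw [mem_product, mem_product, mem_product] at hq2
        obtain ⟨⟨m1, m2⟩, m3, m4⟩ := hq2
        have hden : ∀ θ ∈ NR δ X Y Q, den θ ≠ 0 := by
          intro θ hθ
          have hθ1 : θ.1 ∈ RR δ X Y Q := (mem_sigma.1 (mem_filter.1 hθ).1).1
          have g1 := rr_mem h hs hA Q θ.1 hθ1
          unfold den
          have g2 := g1.1.ne_zero
          have g3 := g1.2.2.2.1
          exact Nat.mul_ne_zero g2 (by omega)
        have hT0 : g9T (g9y Q q) ≠ 0 := by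
          intro h0
          exact hq3 (g9T_FI Q q hQ1 k hk (hden _ m1) (hden _ m2) (hden _ m3) (hden _ m4) h0)
        rw [hU]
        refine mem_coe.2 (mem_sigma.2 ⟨?_, ?_⟩)
        · show g9y Q q ∈ (B ×ˢ B) ×ˢ (B ×ˢ B)
          exact mem_product.2 ⟨mem_product.2 ⟨g9b_mem h hs hA Q _ m1, g9b_mem h hs hA Q _ m2⟩,
            mem_product.2 ⟨g9b_mem h hs hA Q _ m3, g9b_mem h hs hA Q _ m4⟩⟩
        · show Q ∈ (g9T (g9y Q q)).natAbs.divisors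
          rw [Nat.mem_divisors]
          refine ⟨?_, Int.natAbs_ne_zero.2 hT0⟩
          have : (Q : ℤ) ∣ g9T (g9y Q q) := ⟨_, g9T_eq Q q k hk⟩
          exact Int.natCast_dvd.1 this
      · intro z hz z' hz' hzz
        obtain ⟨Q, q⟩ := z
        obtain ⟨Q', q'⟩ := z'
        dsimp only at hzz
        rw [Sigma.mk.injEq] at hzz
        obtain ⟨e1, e2⟩ := hzz
        have e3 : Q = Q' := eq_of_heq e2
        subst e3
        obtain ⟨hQ, hq⟩ := mem_sigma.1 (mem_coe.1 hz)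
        obtain ⟨-, hq'⟩ := mem_sigma.1 (mem_coe.1 hz')
        dsimp only at hQ hq hq'
        have hQF := (mem_filter.1 hQ).2
        have hq1 := (mem_filter.1 hq).1
        have hq1' := (mem_filter.1 hq').1
        unfold QD at hq1 hq1'
        have hq2 := (mem_filter.1 hq1).1
        have hq2' := (mem_filter.1 hq1').1
        rw [mem_product, mem_product, mem_product] at hq2 hq2'
        obtain ⟨⟨m1, m2⟩, m3, m4⟩ := hq2
        obtain ⟨⟨n1, n2⟩, n3, n4⟩ := hq2'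
        have hinj : ∀ θ ∈ NR δ X Y Q, ∀ θ' ∈ NR δ X Y Q, g9b Q θ = g9b Q θ' → θ = θ' := by
          intro θ hθ θ' hθ' hh
          have hθ1 : θ.1 ∈ RR δ X Y Q := (mem_sigma.1 (mem_filter.1 hθ).1).1
          exact g9b_inj θ θ' (mem_filter.1 hθ).1 (mem_filter.1 hθ').1
            (g9_coprime h hs hA Q hQF θ.1 hθ1) hh
        have f1 : g9b Q q.1.1 = g9b Q q'.1.1 := congrArg (fun y : G9Y => y.1.1) e1
        have f2 : g9b Q q.1.2 = g9b Q q'.1.2 := congrArg (fun y : G9Y => y.1.2) e1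
        have f3 : g9b Q q.2.1 = g9b Q q'.2.1 := congrArg (fun y : G9Y => y.2.1) e1
        have f4 : g9b Q q.2.2 = g9b Q q'.2.2 := congrArg (fun y : G9Y => y.2.2) e1
        have k1 := hinj _ m1 _ n1 f1
        have k2 := hinj _ m2 _ n2 f2
        have k3 := hinj _ m3 _ n3 f3
        have k4 := hinj _ m4 _ n4 f4
        have : q = q' := Prod.ext (Prod.ext k1 k2) (Prod.ext k3 k4)
        rw [this]
    exact_mod_cast this
  -- the number of divisors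
  have hdiv : ∀ y ∈ (B ×ˢ B) ×ˢ (B ×ˢ B), (((g9T y).natAbs.divisors.card : ℕ) : ℝ) ≤
      C * X ^ (δ ^ 2 / 100) := by
    intro y hy
    by_cases h0 : (g9T y).natAbs = 0
    · rw [h0, Nat.divisors_zero, card_empty]
      push_cast
      positivity
    · refine (hC _ (Nat.pos_of_ne_zero h0)).trans ?_
      rw [mem_product, mem_product, mem_product] at hy
      have h1 := g9T_le h hs y hy.1.1 hy.1.2 hy.2.1 hy.2.2
      have h2 : (((g9T y).natAbs : ℕ) : ℝ) ^ (δ ^ 2 / 400) ≤ X ^ (δ ^ 2 / 100) := by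
        calc (((g9T y).natAbs : ℕ) : ℝ) ^ (δ ^ 2 / 400) ≤ (X ^ (4 : ℝ)) ^ (δ ^ 2 / 400) :=
              Real.rpow_le_rpow (by positivity) h1 (by positivity)
          _ = X ^ (δ ^ 2 / 100) := by
              rw [← Real.rpow_mul hX0.le]
              congr 1
              ring
      exact mul_le_mul_of_nonneg_left h2 hC0.le
  have hUc : (U.card : ℝ) ≤ (B.card : ℝ) ^ 4 * (C * X ^ (δ ^ 2 / 100)) := by
    rw [hU, card_sigma]
    push_cast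
    refine (sum_le_sum hdiv).trans ?_
    rw [sum_const, card_product, card_product, nsmul_eq_mul]
    push_cast
    apply le_of_eq
    ring
  have hBc := g9S_card (A := A) h hs
  rw [← hB] at hBc
  calc ∑ Q ∈ F, ∑ q ∈ G Q, gq δ X Q q ≤ ∑ Q ∈ F, ∑ q ∈ G Q, V ^ 4 :=
        sum_le_sum fun Q hQ => sum_le_sum fun q hq => hw Q hQ q hq
    _ = ((F.sigma G).card : ℝ) * V ^ 4 := by
        rw [card_sigma]
        push_cast
        rw [sum_mul]
        refine sum_congr rfl fun Q _ => ?_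
        rw [sum_const, nsmul_eq_mul]
    _ ≤ ((B.card : ℝ) ^ 4 * (C * X ^ (δ ^ 2 / 100))) * V ^ 4 :=
        mul_le_mul_of_nonneg_right (hcard.trans hUc) (by positivity)
    _ = ((B.card : ℝ) * V) ^ 4 * (C * X ^ (δ ^ 2 / 100)) := by ring
    _ ≤ (3 * X ^ (1 + 3 * δ + δ ^ 2 / 5)) ^ 4 * (C * X ^ (δ ^ 2 / 100)) := by
        apply mul_le_mul_of_nonneg_right _ (by positivity)
        apply pow_le_pow_left₀ (by positivity)
        calc (B.card : ℝ) * V ≤ (3 * (X / Y) * X ^ (4 * δ) * X ^ (δ ^ 2 / 5)) * V := by gcongr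
          _ = 3 * (X ^ (1 : ℝ) * X ^ (4 * δ) * X ^ (δ ^ 2 / 5) * X ^ (-δ)) := by
              rw [hV, Real.rpow_one]
              field_simp
          _ = 3 * X ^ (1 + 3 * δ + δ ^ 2 / 5) := by
              rw [← Real.rpow_add hX0, ← Real.rpow_add hX0, ← Real.rpow_add hX0]
              congr 2
              ring
    _ = (81 * C) * (X ^ (4 + 12 * δ + 4 * δ ^ 2 / 5) * X ^ (δ ^ 2 / 100)) := by
        rw [mul_pow, ← Real.rpow_natCast (X ^ (1 + 3 * δ + δ ^ 2 / 5)), ← Real.rpow_mul hX0.le]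
        have : (1 + 3 * δ + δ ^ 2 / 5) * ((4 : ℕ) : ℝ) = 4 + 12 * δ + 4 * δ ^ 2 / 5 := by
          push_cast
          ring
        rw [this]
        ring
    _ ≤ X ^ (δ ^ 2 / 100) * (X ^ (4 + 12 * δ + 4 * δ ^ 2 / 5) * X ^ (δ ^ 2 / 100)) := by
        apply mul_le_mul_of_nonneg_right _ (by positivity)
        refine le_trans ?_ hAX
        rw [hAdef]
        linarith
    _ = X ^ (δ ^ 2 / 100 + (4 + 12 * δ + 4 * δ ^ 2 / 5 + δ ^ 2 / 100)) := by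
        rw [← Real.rpow_add hX0, ← Real.rpow_add hX0]
    _ ≤ X ^ (4 + 14 * δ) := by
        apply Real.rpow_le_rpow_of_exponent_le hX1
        nlinarith


end

end Pool.Agent.BSD
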