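import Pool.Agent.Lib_helper26.BSD.Defs
import Pool.Agent.Lib_helper26.BSD.B1
import Pool.Agent.Lib_helper26.BSD.G3
import Pool.Agent.Lib_helper26.BSD.G6
import Pool.Agent.Lib_helper26.BSD.G7
import Pool.Agent.Lib_helper26.BSD.G8
import Pool.Agent.Lib_helper26.BSD.G9

set_option autoImplicit false

namespace Pool.Agent.BSD

open Finset
open Pool.Agent.FG61 (mu phi Lam cc off)
open Pool.Agent.Var35 (e)

noncomputable section


theorem g10_two {ε δ A X Y : ℝ} (hs : Sz ε δ A X Y) (hA : 1 ≤ A) : 2 ≤ X ^ (δ ^ 2 / 100) := by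
  have hl1 : 1 ≤ Real.log X := by
    rw [Real.le_log_iff_exp_le (by linarith [hs.X3])]
    have := Real.exp_one_lt_d9
    linarith [hs.X3]
  refine le_trans ?_ hs.lg
  calc (2 : ℝ) ≤ 1 * 2 ^ 100 := by norm_num
    _ ≤ A * (1 + Real.log X) ^ 100 := by
        apply mul_le_mul hA _ (by norm_num) (by linarith)
        exact pow_le_pow_left₀ (by norm_num) (by linarith) 100

theorem fourth (ε δ : ℝ) (h : Ok ε δ) : ∃ C : ℝ, 0 < C ∧ ∃ X₀ : ℝ, ∀ X Y : ℝ, X₀ ≤ X → Rg ε X Y →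
    (open scoped Classical in (((IY Y).filter fun Q => Fr δ X Y Q ∧
      C * (X * Real.log X) ^ 2 / Q < ∑ a ∈ range Q, uu δ X Y Q a ^ 4).card : ℝ)) ≤
      Y * X ^ (-δ) := by
  classical
  obtain ⟨C₂, hC₂, X₂, h2⟩ := l2 ε δ h
  obtain ⟨X₁, h1⟩ := sizes ε δ 1 h
  obtain ⟨X₃, h3⟩ := u_four ε δ h
  obtain ⟨X₄, h4⟩ := all_eq ε δ h
  obtain ⟨X₅, h5⟩ := non_int ε δ h
  obtain ⟨hδ, hε, hδ1⟩ := id h
  refine ⟨24 * C₂ ^ 2 + 3, by positivity, max (max X₁ X₂) (max X₃ (max X₄ X₅)), fun X Y hX hR => ?_⟩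
  have hXa := (le_max_left _ _).trans hX
  have hXb := (le_max_right _ _).trans hX
  have hs := h1 X Y ((le_max_left _ _).trans hXa) hR
  have h2 := h2 X Y ((le_max_right _ _).trans hXa) hR
  have h3 := h3 X Y ((le_max_left _ _).trans hXb) hR
  have h4 := h4 X Y ((le_max_left _ _).trans ((le_max_right _ _).trans hXb)) hR
  have h5 := h5 X Y ((le_max_right _ _).trans ((le_max_right _ _).trans hXb)) hR
  have hX3 := hs.X3
  have hX1 : (1 : ℝ) < X := by linarith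
  have hX0 : (0 : ℝ) < X := by linarith
  have hY0 : 0 < Y := lt_of_lt_of_le (by positivity) hs.Y1
  have hl1 : 1 ≤ Real.log X := by
    rw [Real.le_log_iff_exp_le hX0]
    have := Real.exp_one_lt_d9
    linarith
  have h16 : 16 ≤ X ^ δ := by
    have h6 := g10_two hs le_rfl
    calc (16 : ℝ) = 2 ^ 4 := by norm_num
      _ ≤ (X ^ (δ ^ 2 / 100)) ^ 4 := pow_le_pow_left₀ (by norm_num) h6 4
      _ = X ^ (δ ^ 2 / 25) := by
          rw [← Real.rpow_natCast, ← Real.rpow_mul hX0.le]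
          congr 1
          push_cast
          ring
      _ ≤ X ^ δ := Real.rpow_le_rpow_of_exponent_le hX1.le (by nlinarith)
  set NI : ℕ → ℝ := fun Q => ∑ q ∈ (QD δ X Y Q).filter (fun q => ¬ FI q), gq δ X Q q with hNI
  have hNI0 : ∀ Q, 0 ≤ NI Q := by
    intro Q
    apply sum_nonneg
    intro q _
    unfold gq gw
    positivity
  set B := (IY Y).filter fun Q => Fr δ X Y Q ∧ X ^ (4 + 15 * δ) / Y < NI Q with hB
  have hYb : 0 < X ^ (4 + 15 * δ) / Y := by positivity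
  -- Markov
  have hBc : (B.card : ℝ) ≤ Y * X ^ (-δ) := by
    have h6 : (B.card : ℝ) * (X ^ (4 + 15 * δ) / Y) ≤ X ^ (4 + 14 * δ) := by
      calc (B.card : ℝ) * (X ^ (4 + 15 * δ) / Y) = ∑ _Q ∈ B, X ^ (4 + 15 * δ) / Y := by
            rw [sum_const, nsmul_eq_mul]
        _ ≤ ∑ Q ∈ B, NI Q := sum_le_sum fun Q hQ => (mem_filter.1 hQ).2.2.le
        _ ≤ ∑ Q ∈ (IY Y).filter (fun Q => Fr δ X Y Q), NI Q := by
            apply sum_le_sum_of_subset_of_nonneg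
            · intro Q hQ
              rw [hB, mem_filter] at hQ
              exact mem_filter.2 ⟨hQ.1, hQ.2.1⟩
            · intro Q _ _
              exact hNI0 Q
        _ ≤ _ := h5
    rw [← mul_div_assoc, div_le_iff₀ hY0, ← le_div_iff₀ (by positivity)] at h6
    refine h6.trans (le_of_eq ?_)
    rw [mul_comm, mul_div_assoc, ← Real.rpow_sub hX0]
    congr 2
    ring
  refine le_trans ?_ hBc
  have hsub : ((IY Y).filter fun Q => Fr δ X Y Q ∧
      (24 * C₂ ^ 2 + 3) * (X * Real.log X) ^ 2 / Q < ∑ a ∈ range Q, uu δ X Y Q a ^ 4) ⊆ B := by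
    intro Q hQ
    rw [mem_filter] at hQ
    obtain ⟨hQ, hF, hlt⟩ := hQ
    rw [hB, mem_filter]
    refine ⟨hQ, hF, ?_⟩
    by_contra hn
    push Not at hn
    have hQ' := hQ
    unfold IY at hQ'
    rw [mem_filter, mem_Icc] at hQ'
    obtain ⟨⟨hQ1, hQ2⟩, hQY⟩ := hQ'
    have hQ0 : (0 : ℝ) < Q := by exact_mod_cast hQ1
    have hQ2' : (Q : ℝ) ≤ 2 * Y := by
      rw [Nat.le_floor_iff (by positivity)] at hQ2
      exact hQ2
    have h6 := h3 Q hQ
    have h7 := split h hs le_rfl Q hQ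
    have h8 := h2 Q hQ hF
    have h9 := h4 Q hQ hF
    have h10 : 0 ≤ ∑ θ ∈ NR δ X Y Q, gw δ X Q θ ^ 2 := sum_nonneg fun _ _ => sq_nonneg _
    have h11 : ∑ q ∈ QD δ X Y Q, gq δ X Q q ≤ 3 * (C₂ * X * Q * Real.log X) ^ 2 +
        Y ^ 3 * X ^ (1 + 4 * δ) + X ^ (4 + 15 * δ) / Y := by
      refine h7.trans (add_le_add (add_le_add ?_ h9) hn)
      exact mul_le_mul_of_nonneg_left (pow_le_pow_left₀ h10 h8 2) (by norm_num)
    have hXQ : X ^ (1 + ε) / 2 ≤ X ^ 2 / Q := by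
      have h12 := hs.Zlo
      rw [le_div_iff₀ hY0] at h12
      rw [div_le_div_iff₀ (by norm_num) hQ0]
      calc X ^ (1 + ε) * Q ≤ X ^ (1 + ε) * (2 * Y) := by gcongr
        _ = X * (X ^ ε * Y) * 2 := by
            rw [Real.rpow_add hX0, Real.rpow_one]; ring
        _ ≤ X * X * 2 := by gcongr
        _ = _ := by ring
    -- the three terms
    have t1 : 8 / (Q : ℝ) ^ 3 * (3 * (C₂ * X * Q * Real.log X) ^ 2) =
        24 * C₂ ^ 2 * ((X * Real.log X) ^ 2 / Q) := by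
      field_simp
      ring
    have t2 : 8 / (Q : ℝ) ^ 3 * (Y ^ 3 * X ^ (1 + 4 * δ)) ≤ X ^ 2 / Q := by
      refine le_trans ?_ hXQ
      have h12 : Y ^ 3 ≤ (Q : ℝ) ^ 3 := pow_le_pow_left₀ hY0.le hQY.le 3
      calc 8 / (Q : ℝ) ^ 3 * (Y ^ 3 * X ^ (1 + 4 * δ))
          ≤ 8 / (Q : ℝ) ^ 3 * ((Q : ℝ) ^ 3 * X ^ (1 + 4 * δ)) := by gcongr
        _ = 16 * X ^ (1 + 4 * δ) / 2 := by field_simp; ring
        _ ≤ X ^ δ * X ^ (1 + 4 * δ) / 2 := by gcongr
        _ = X ^ (δ + (1 + 4 * δ)) / 2 := by rw [← Real.rpow_add hX0]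
        _ ≤ _ := by
            apply div_le_div_of_nonneg_right _ (by norm_num)
            exact Real.rpow_le_rpow_of_exponent_le hX1.le (by linarith)
    have t3 : 8 / (Q : ℝ) ^ 3 * (X ^ (4 + 15 * δ) / Y) ≤ X ^ 2 / Q := by
      have h12 : Y ^ 2 ≤ (Q : ℝ) ^ 2 := pow_le_pow_left₀ hY0.le hQY.le 2
      have h13 : X ^ (2 + 3 * ε) ≤ Y ^ 3 := by
        calc X ^ (2 + 3 * ε) = (X ^ (2 / 3 + ε)) ^ 3 := by
              rw [← Real.rpow_natCast, ← Real.rpow_mul hX0.le]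
              congr 1
              push_cast
              ring
          _ ≤ _ := pow_le_pow_left₀ (by positivity) hR.1 3
      have h14 : 8 * X ^ (4 + 15 * δ) ≤ X ^ 2 * Y ^ 3 := by
        calc 8 * X ^ (4 + 15 * δ) ≤ X ^ δ * X ^ (4 + 15 * δ) := by gcongr; linarith
          _ = X ^ (δ + (4 + 15 * δ)) := by rw [← Real.rpow_add hX0]
          _ ≤ X ^ (2 + (2 + 3 * ε)) := Real.rpow_le_rpow_of_exponent_le hX1.le (by linarith)
          _ = X ^ 2 * X ^ (2 + 3 * ε) := by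
              rw [Real.rpow_add hX0, show (2 : ℝ) = ((2 : ℕ) : ℝ) by norm_num, Real.rpow_natCast]
          _ ≤ X ^ 2 * Y ^ 3 := by gcongr
      calc 8 / (Q : ℝ) ^ 3 * (X ^ (4 + 15 * δ) / Y) = (8 * X ^ (4 + 15 * δ)) / (Q ^ 3 * Y) := by
            field_simp
        _ ≤ (X ^ 2 * Y ^ 3) / (Q ^ 3 * Y) := by gcongr
        _ = X ^ 2 / Q * (Y ^ 2 / Q ^ 2) := by field_simp
        _ ≤ X ^ 2 / Q * 1 := by
            apply mul_le_mul_of_nonneg_left _ (by positivity)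
            rw [div_le_one (by positivity)]
            exact h12
        _ = _ := mul_one _
    have t4 : 1 ≤ X ^ 2 / Q := by
      rw [le_div_iff₀ hQ0]
      have := hs.YX
      nlinarith
    have h12 : ∑ a ∈ range Q, uu δ X Y Q a ^ 4 ≤ 24 * C₂ ^ 2 * ((X * Real.log X) ^ 2 / Q) +
        3 * (X ^ 2 / Q) := by
      have h13 : 8 / (Q : ℝ) ^ 3 * ∑ q ∈ QD δ X Y Q, gq δ X Q q ≤
          8 / (Q : ℝ) ^ 3 * (3 * (C₂ * X * Q * Real.log X) ^ 2) +
          8 / (Q : ℝ) ^ 3 * (Y ^ 3 * X ^ (1 + 4 * δ)) +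
          8 / (Q : ℝ) ^ 3 * (X ^ (4 + 15 * δ) / Y) := by
        rw [← mul_add, ← mul_add]
        exact mul_le_mul_of_nonneg_left h11 (by positivity)
      linarith
    have h13 : X ^ 2 / Q ≤ (X * Real.log X) ^ 2 / Q := by
      apply div_le_div_of_nonneg_right _ hQ0.le
      rw [mul_pow]
      have : 1 ≤ Real.log X ^ 2 := one_le_pow₀ hl1
      nlinarith [sq_nonneg X]
    have h14 : (24 * C₂ ^ 2 + 3) * (X * Real.log X) ^ 2 / Q =
        24 * C₂ ^ 2 * ((X * Real.log X) ^ 2 / Q) + 3 * ((X * Real.log X) ^ 2 / Q) := by ring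
    rw [h14] at hlt
    linarith
  exact_mod_cast card_le_card hsub

end

end Pool.Agent.BSD

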