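import Pool.Agent.Lib_helper26.BSD.Defs
import Pool.Agent.Lib_helper92.HCF.FIF
import Pool.Agent.Lib_helper92.PVF.FIN

/-!
# Project BSD (MP_5dd4bb_nt), block H1: characters and the classes
-/

set_option autoImplicit false

namespace Pool.Agent.BSD

open Finset
open Pool.Agent.FG61 (mu phi Lam cc off)
open Pool.Agent.Var35 (e)

noncomputable section

/-- the sum over the integers with the character `χ` -/
def h1_S (X : ℝ) (Q : ℕ) (χ : DirichletCharacter ℂ Q) : ℂ :=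
  ∑ n ∈ Icc 1 ⌊X⌋₊, (Lam n : ℂ) * χ (n : ZMod Q)

/-- the sums without the characters of small conductor -/
def h1_c (X : ℝ) (Q : ℕ) (χ : DirichletCharacter ℂ Q) : ℂ :=
  if (χ.conductor : ℝ) ≤ X / Q * Real.log X ^ 8 then 0 else h1_S X Q χ

/-- the function `DD` on `ZMod Q` -/
def h1_C (X : ℝ) (Q : ℕ) (a : ZMod Q) : ℂ :=
  (∑ χ : DirichletCharacter ℂ Q, (starRingEnd ℂ) (χ a) * h1_c X Q χ) / Nat.totient Q

theorem h1_phi {Q : ℕ} (hQ : 1 ≤ Q) : (Nat.totient Q : ℂ) ≠ 0 := by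
  exact_mod_cast (Nat.totient_pos.2 hQ).ne'

theorem h1_all (X : ℝ) (Q : ℕ) (hQ : 1 ≤ Q) (a : ℕ) (ha : a ∈ RC Q) :
    ((∑ χ : DirichletCharacter ℂ Q, (starRingEnd ℂ) (χ (a : ZMod Q)) * h1_S X Q χ) : ℂ) =
      (Nat.totient Q : ℂ) * (ps X Q a : ℂ) := by
  have : NeZero Q := ⟨by omega⟩
  rw [RC, mem_filter, mem_range] at ha
  have hu : IsUnit (a : ZMod Q) := (ZMod.isUnit_iff_coprime a Q).2 ha.2
  have h1 : ∀ χ : DirichletCharacter ℂ Q, (starRingEnd ℂ) (χ (a : ZMod Q)) * h1_S X Q χ =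
      ∑ n ∈ Icc 1 ⌊X⌋₊, (Lam n : ℂ) * (χ (a : ZMod Q)⁻¹ * χ (n : ZMod Q)) := by
    intro χ
    rw [Pool.Agent.Var73.conj_char χ hu, h1_S, mul_sum]
    exact sum_congr rfl fun n _ => by ring
  rw [sum_congr rfl fun χ _ => h1 χ, sum_comm]
  have h2 : ∀ n ∈ Icc 1 ⌊X⌋₊, ∑ χ : DirichletCharacter ℂ Q,
      (Lam n : ℂ) * (χ (a : ZMod Q)⁻¹ * χ (n : ZMod Q)) =
      (Nat.totient Q : ℂ) * if n % Q = a then (Lam n : ℂ) else 0 := by
    intro n _
    rw [← mul_sum, DirichletCharacter.sum_char_inv_mul_char_eq ℂ hu (n : ZMod Q)]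
    have h3 : ((a : ZMod Q) = (n : ZMod Q)) ↔ n % Q = a := by
      rw [eq_comm]
      exact Pool.Agent.HC.idn_cast_eq Q n a ha.1
    by_cases h4 : n % Q = a
    · rw [if_pos (h3.2 h4), if_pos h4, mul_comm]
    · rw [if_neg (fun h => h4 (h3.1 h)), if_neg h4, mul_zero, mul_zero]
  rw [sum_congr rfl h2, ← mul_sum, ps, ← sum_filter]
  push_cast
  rfl

theorem h1_DD (X : ℝ) (Q : ℕ) (hQ : 1 ≤ Q) (a : ℕ) (ha : a ∈ RC Q) :
    DD X Q a = (h1_C X Q (a : ZMod Q)).re := by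
  have hφ : (Nat.totient Q : ℝ) ≠ 0 := by
    exact_mod_cast (Nat.totient_pos.2 hQ).ne'
  have h1 := congrArg Complex.re (h1_all X Q hQ a ha)
  have h2 : ((Nat.totient Q : ℂ) * (ps X Q a : ℂ)).re = Nat.totient Q * ps X Q a := by
    have : ((Nat.totient Q : ℂ) * (ps X Q a : ℂ)) = ((Nat.totient Q * ps X Q a : ℝ) : ℂ) := by
      push_cast
      rfl
    rw [this, Complex.ofReal_re]
  rw [h2] at h1
  have h3 : (h1_C X Q (a : ZMod Q)).re =
      (∑ χ : DirichletCharacter ℂ Q, (starRingEnd ℂ) (χ (a : ZMod Q)) * h1_c X Q χ).re /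
        Nat.totient Q := by
    rw [h1_C]
    have : (Nat.totient Q : ℂ) = ((Nat.totient Q : ℝ) : ℂ) := by push_cast; rfl
    rw [this, Complex.div_ofReal_re]
  rw [h3, DD, lo]
  have h4 : ps X Q a = (∑ χ : DirichletCharacter ℂ Q,
      (starRingEnd ℂ) (χ (a : ZMod Q)) * h1_S X Q χ).re / Nat.totient Q := by
    rw [h1]
    field_simp
  rw [h4]
  show _ - _ / (Nat.totient Q : ℝ) = _
  rw [← sub_div, ← Complex.sub_re, ← sum_sub_distrib]
  congr 2
  refine sum_congr rfl fun χ _ => ?_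
  rw [h1_c, h1_S]
  split_ifs
  · rw [mul_zero, sub_self]
  · rw [sub_zero]

theorem DD_char (X : ℝ) (Q : ℕ) (hQ : 1 ≤ Q) (a : ℕ) (ha : a ∈ RC Q) :
    DD X Q a = ((∑ χ : DirichletCharacter ℂ Q, if (χ.conductor : ℝ) ≤ X / Q * Real.log X ^ 8 then 0
      else (starRingEnd ℂ) (χ (a : ZMod Q)) *
        ∑ n ∈ Icc 1 ⌊X⌋₊, (Lam n : ℂ) * χ (n : ZMod Q)).re) / phi Q := by
  have h3 : (h1_C X Q (a : ZMod Q)).re =
      (∑ χ : DirichletCharacter ℂ Q, (starRingEnd ℂ) (χ (a : ZMod Q)) * h1_c X Q χ).re /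
        Nat.totient Q := by
    rw [h1_C]
    have : (Nat.totient Q : ℂ) = ((Nat.totient Q : ℝ) : ℂ) := by push_cast; rfl
    rw [this, Complex.div_ofReal_re]
  rw [h1_DD X Q hQ a ha, h3]
  congr 2
  refine sum_congr rfl fun χ _ => ?_
  rw [h1_c, h1_S]
  split_ifs
  · rw [mul_zero]
  · rfl

/-- orthogonality of the characters as functions on the classes -/
theorem h1_orth (Q : ℕ) [NeZero Q] (χ χ' : DirichletCharacter ℂ Q) :
    ∑ a : ZMod Q, χ a * (starRingEnd ℂ) (χ' a) = if χ = χ' then (Nat.totient Q : ℂ) else 0 := by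
  classical
  have h1 : ∀ a : ZMod Q, χ a * (starRingEnd ℂ) (χ' a) = (χ * χ'⁻¹) a := by
    intro a
    rw [MulChar.mul_apply, ← MulChar.star_apply']
    rfl
  rw [sum_congr rfl fun a _ => h1 a, Pool.Agent.HC.idn_sum_char]
  have h2 : χ * χ'⁻¹ = 1 ↔ χ = χ' := mul_inv_eq_one
  by_cases h : χ = χ'
  · rw [if_pos h, if_pos (h2.2 h)]
  · rw [if_neg h, if_neg (fun h' => h (h2.1 h'))]

theorem DD_zero (X : ℝ) (Q : ℕ) (hQ : 1 ≤ Q) (h : 1 ≤ X / Q * Real.log X ^ 8) :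
    ∑ a ∈ RC Q, DD X Q a = 0 := by
  have : NeZero Q := ⟨by omega⟩
  rw [sum_congr rfl fun a ha => h1_DD X Q hQ a ha]
  have h1 : ∑ a ∈ RC Q, (h1_C X Q (a : ZMod Q)).re =
      ∑ a ∈ univ.filter (fun a : ZMod Q => IsUnit a), (h1_C X Q a).re :=
    Pool.Agent.HC.idn_sum_range Q fun a => (h1_C X Q a).re
  have h2 : ∀ a : ZMod Q, a ∉ univ.filter (fun a : ZMod Q => IsUnit a) → (h1_C X Q a).re = 0 := by
    intro a ha
    have h3 : ¬ IsUnit a := fun h' => ha (mem_filter.2 ⟨mem_univ _, h'⟩)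
    have h4 : h1_C X Q a = 0 := by
      rw [h1_C, sum_eq_zero, zero_div]
      intro χ _
      rw [MulChar.map_nonunit χ h3, map_zero, zero_mul]
    rw [h4, Complex.zero_re]
  rw [h1, sum_subset (subset_univ _) fun a _ ha => h2 a ha, ← Complex.re_sum]
  have h3 : ∑ a : ZMod Q, h1_C X Q a = 0 := by
    simp_rw [h1_C, ← sum_div]
    rw [sum_comm, sum_eq_zero, zero_div]
    intro χ _
    rw [← sum_mul]
    by_cases hχ : χ = 1
    · subst hχ
      rw [h1_c, if_pos, mul_zero]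
      rw [DirichletCharacter.conductor_one]
      simpa using h
    · have h4 := h1_orth Q 1 χ
      rw [if_neg (fun h' => hχ h'.symm)] at h4
      have h5 : ∑ a : ZMod Q, (starRingEnd ℂ) (χ a) = 0 := by
        rw [← map_sum, MulChar.sum_eq_zero_of_ne_one hχ, map_zero]
      rw [h5, zero_mul]
  rw [h3, Complex.zero_re]

theorem DD_sq (X : ℝ) (Q : ℕ) (hQ : 1 ≤ Q) :
    ∑ a ∈ RC Q, DD X Q a ^ 2 ≤ Pool.Agent.HC.HH X Q (X / Q * Real.log X ^ 8) := by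
  classical
  have : NeZero Q := ⟨by omega⟩
  have hφ : (Nat.totient Q : ℝ) ≠ 0 := by
    exact_mod_cast (Nat.totient_pos.2 hQ).ne'
  have h1 : ∀ χ : DirichletCharacter ℂ Q, ∑ a : ZMod Q, χ a * h1_C X Q a = h1_c X Q χ := by
    intro χ
    have h2 : ∀ a : ZMod Q, χ a * h1_C X Q a =
        ∑ χ' : DirichletCharacter ℂ Q, (χ a * (starRingEnd ℂ) (χ' a)) *
          (h1_c X Q χ' / Nat.totient Q) := by
      intro a
      rw [h1_C, sum_div, mul_sum]
      exact sum_congr rfl fun χ' _ => by ring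
    rw [sum_congr rfl fun a _ => h2 a, sum_comm]
    simp_rw [← sum_mul, h1_orth]
    rw [sum_eq_single χ]
    · rw [if_pos rfl, mul_div_cancel₀ _ (h1_phi hQ)]
    · intro χ' _ h'
      rw [if_neg (fun h'' => h' h''.symm), zero_mul]
    · intro h'
      exact absurd (mem_univ _) h'
  have h2 := Pool.Agent.Var73.orthr (r := Q) (h1_C X Q)
  simp_rw [h1] at h2
  have h3 : Pool.Agent.HC.HH X Q (X / Q * Real.log X ^ 8) =
      ∑ a ∈ univ.filter (fun a : ZMod Q => IsUnit a), ‖h1_C X Q a‖ ^ 2 := by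
    have h4 : ∑ χ : DirichletCharacter ℂ Q, ‖h1_c X Q χ‖ ^ 2 =
        ∑ χ : DirichletCharacter ℂ Q, if X / Q * Real.log X ^ 8 < (χ.conductor : ℝ) then
          ‖∑ n ∈ Icc 1 ⌊X⌋₊, (Pool.Agent.HC.Lam n : ℂ) * χ (n : ZMod Q)‖ ^ 2 else 0 := by
      refine sum_congr rfl fun χ _ => ?_
      rw [h1_c]
      by_cases h5 : (χ.conductor : ℝ) ≤ X / Q * Real.log X ^ 8
      · rw [if_pos h5, if_neg (not_lt.2 h5), norm_zero, zero_pow two_ne_zero]
      · rw [if_neg h5, if_pos (not_le.1 h5)]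
        rfl
    unfold Pool.Agent.HC.HH
    rw [← h4, h2, ← mul_assoc, one_div_mul_cancel hφ, one_mul]
  rw [h3, ← Pool.Agent.HC.idn_sum_range Q fun a => ‖h1_C X Q a‖ ^ 2]
  refine sum_le_sum fun a ha => ?_
  rw [h1_DD X Q hQ a ha]
  rw [← sq_abs]
  exact pow_le_pow_left₀ (abs_nonneg _) (Complex.abs_re_le_norm _) 2

end


end Pool.Agent.BSD
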