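import Pool.Agent.Lib_helper26.BSD.Defs
import Pool.Agent.Lib_helper92.HCF.FIF
import Pool.Agent.Lib_helper92.PVF.FIN
import Pool.Agent.Lib_helper26.BSD.H1

/-!
# BSD, block H2: `G_few`
-/

set_option autoImplicit false

namespace Pool.Agent.BSD

open Finset
open Pool.Agent.FG61 (mu phi Lam cc off)
open Pool.Agent.Var35 (e)

noncomputable section

/-- the sizes needed for the theorem on the second moments -/
theorem h2_sizes (ε C₁ : ℝ) (hε : 0 < ε) : ∃ X₀ : ℝ, ∀ X Y : ℝ, X₀ ≤ X → Rg ε X Y →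
    3 ≤ X ∧ C₁ ≤ X ∧ 1 ≤ Y ∧ 2 * Y ≤ X ∧ Real.sqrt X * Real.log X ^ 12 ≤ Y ∧
      C₁ * (2 * Y) ≤ X := by
  have h1 : ∀ᶠ X : ℝ in Filter.atTop, ‖Real.log X ^ (12 : ℝ)‖ ≤ 1 * ‖X ^ (1 / 6 : ℝ)‖ :=
    (isLittleO_log_rpow_rpow_atTop (12 : ℝ) (by norm_num : (0 : ℝ) < 1 / 6)).bound one_pos
  have h2 : ∀ᶠ X : ℝ in Filter.atTop, max 2 (2 * C₁) ≤ X ^ ε :=
    (tendsto_rpow_atTop hε).eventually_ge_atTop _
  obtain ⟨X₀, h⟩ := Filter.eventually_atTop.1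
    ((h1.and h2).and (Filter.eventually_ge_atTop (max 3 C₁)))
  refine ⟨X₀, fun X Y hX hR => ?_⟩
  obtain ⟨⟨h3, h4⟩, h5⟩ := h X hX
  have hX3 : 3 ≤ X := le_trans (le_max_left _ _) h5
  have hX0 : 0 < X := by linarith
  have hlog : 0 ≤ Real.log X := Real.log_nonneg (by linarith)
  have hY1 : X ^ (2 / 3 : ℝ) ≤ Y :=
    le_trans (Real.rpow_le_rpow_of_exponent_le (by linarith) (by linarith)) hR.1
  have hY0 : 1 ≤ Y := le_trans (Real.one_le_rpow (by linarith) (by norm_num)) hY1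
  have h6 : X ^ (1 - ε) * X ^ ε = X := by
    rw [← Real.rpow_add hX0]
    norm_num
  have h7 : Y * X ^ ε ≤ X := by
    calc Y * X ^ ε ≤ X ^ (1 - ε) * X ^ ε :=
          mul_le_mul_of_nonneg_right hR.2 (Real.rpow_nonneg hX0.le _)
      _ = X := h6
  have hYε : ∀ B : ℝ, B ≤ X ^ ε → B * Y ≤ X := fun B hB => by
    calc B * Y ≤ X ^ ε * Y := mul_le_mul_of_nonneg_right hB (by linarith)
      _ = Y * X ^ ε := mul_comm _ _
      _ ≤ X := h7
  refine ⟨hX3, le_trans (le_max_right _ _) h5, hY0, hYε 2 (le_trans (le_max_left _ _) h4), ?_, ?_⟩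
  · rw [one_mul, Real.norm_of_nonneg (Real.rpow_nonneg hlog _),
      Real.norm_of_nonneg (Real.rpow_nonneg hX0.le _)] at h3
    have h8 : Real.log X ^ 12 ≤ X ^ (1 / 6 : ℝ) := by
      have h9 : Real.log X ^ (12 : ℝ) = Real.log X ^ 12 := by
        rw [← Real.rpow_natCast]
        norm_num
      rwa [h9] at h3
    calc Real.sqrt X * Real.log X ^ 12 ≤ Real.sqrt X * X ^ (1 / 6 : ℝ) :=
          mul_le_mul_of_nonneg_left h8 (Real.sqrt_nonneg _)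
      _ = X ^ (2 / 3 : ℝ) := by
          rw [Real.sqrt_eq_rpow, ← Real.rpow_add hX0]
          norm_num
      _ ≤ Y := hY1
  · have h8 := hYε (2 * C₁) (le_trans (le_max_right _ _) h4)
    linarith

theorem G_few (ε t : ℝ) (hε : 0 < ε) (ht : 0 < t) : ∃ C : ℝ, 0 < C ∧ ∃ X₀ : ℝ, ∀ X Y : ℝ,
    X₀ ≤ X → Rg ε X Y → (((IY Y).filter fun Q =>
      C * (X * Real.log X) < ∑ a ∈ RC Q, DD X Q a ^ 2).card : ℝ) ≤ t * Y := by
  obtain ⟨C₁, hC₁⟩ := Pool.Agent.HC.fin 1 one_pos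
  obtain ⟨X₀, hX₀⟩ := h2_sizes ε (max C₁ 0) hε
  refine ⟨1 + 14 / t, by positivity, X₀, fun X Y hX hR => ?_⟩
  obtain ⟨hX3, hCX, hY1, hYX, hsq, hCY⟩ := hX₀ X Y hX hR
  have hX0 : 0 < X := by linarith
  have hlog : 0 < Real.log X := Real.log_pos (by linarith)
  have hlog1 : 1 ≤ Real.log X := by
    rw [Real.le_log_iff_exp_le hX0]
    linarith [Real.exp_one_lt_d9]
  have hfl : (⌊2 * Y⌋₊ : ℝ) ≤ 2 * Y := Nat.floor_le (by linarith)
  have hfl2 : 2 * Y < ⌊2 * Y⌋₊ + 1 := Nat.lt_floor_add_one _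
  have hN0 : (0 : ℝ) < (⌊2 * Y⌋₊ : ℝ) := by linarith
  have h1 := (hC₁ X ⌊2 * Y⌋₊ (le_trans (le_max_left _ _) hCX) (by linarith) (by
    have h3 : C₁ * (⌊2 * Y⌋₊ : ℝ) ≤ max C₁ 0 * (⌊2 * Y⌋₊ : ℝ) :=
      mul_le_mul_of_nonneg_right (le_max_left _ _) hN0.le
    have h4 : max C₁ 0 * (⌊2 * Y⌋₊ : ℝ) ≤ max C₁ 0 * (2 * Y) :=
      mul_le_mul_of_nonneg_left hfl (le_max_right _ _)
    linarith)).2
  have h2 : (6 * Real.log (X / (⌊2 * Y⌋₊ : ℝ)) + 1 * Real.log X) * X * (⌊2 * Y⌋₊ : ℝ) ≤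
      14 * (X * Real.log X) * Y := by
    have hN1 : (1 : ℝ) ≤ (⌊2 * Y⌋₊ : ℝ) := by
      have : 1 ≤ ⌊2 * Y⌋₊ := Nat.le_floor (by push_cast; linarith)
      exact_mod_cast this
    have h3 : Real.log (X / (⌊2 * Y⌋₊ : ℝ)) ≤ Real.log X := by
      refine Real.log_le_log (by positivity) ?_
      exact div_le_self hX0.le hN1
    calc (6 * Real.log (X / (⌊2 * Y⌋₊ : ℝ)) + 1 * Real.log X) * X * (⌊2 * Y⌋₊ : ℝ)
        ≤ (7 * Real.log X) * X * (⌊2 * Y⌋₊ : ℝ) := by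
          refine mul_le_mul_of_nonneg_right ?_ hN0.le
          refine mul_le_mul_of_nonneg_right ?_ hX0.le
          linarith
      _ ≤ (7 * Real.log X) * X * (2 * Y) :=
          mul_le_mul_of_nonneg_left hfl (by positivity)
      _ = 14 * (X * Real.log X) * Y := by ring
  set B := (IY Y).filter fun Q =>
      (1 + 14 / t) * (X * Real.log X) < ∑ a ∈ RC Q, DD X Q a ^ 2 with hB
  have h3 : ∀ Q ∈ B, 14 / t * (X * Real.log X) ≤
      |Pool.Agent.HC.GX X Q - Pool.Agent.HC.LX X Q (X / Q * Real.log X ^ 8) -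
        X * Real.log Q| := by
    intro Q hQ
    rw [hB, mem_filter, IY, mem_filter, mem_Icc] at hQ
    obtain ⟨⟨⟨hQ1, hQN⟩, hYQ⟩, hQD⟩ := hQ
    have hQ0 : (0 : ℝ) < Q := by exact_mod_cast hQ1
    have hQX : (Q : ℝ) ≤ X := by
      have : (Q : ℝ) ≤ (⌊2 * Y⌋₊ : ℝ) := by exact_mod_cast hQN
      linarith
    have h4 : 1 ≤ X / Q * Real.log X ^ 8 := by
      have h5 : 1 ≤ X / Q := by rwa [le_div_iff₀ hQ0, one_mul]
      have h6 : 1 ≤ Real.log X ^ 8 := one_le_pow₀ hlog1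
      nlinarith
    rw [Pool.Agent.HC.gx_ident X Q hQ1 _ h4]
    have h5 := DD_sq X Q hQ1
    have h6 : Real.log Q ≤ Real.log X := Real.log_le_log hQ0 hQX
    have h7 : X * Real.log Q ≤ X * Real.log X := mul_le_mul_of_nonneg_left h6 hX0.le
    refine le_trans ?_ (le_abs_self _)
    have h8 : (1 + 14 / t) * (X * Real.log X) =
      X * Real.log X + 14 / t * (X * Real.log X) := by ring
    linarith
  have h4 : (B.card : ℝ) * (14 / t * (X * Real.log X)) ≤ 14 * (X * Real.log X) * Y := by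
    calc (B.card : ℝ) * (14 / t * (X * Real.log X))
        = ∑ Q ∈ B, 14 / t * (X * Real.log X) := by rw [sum_const, nsmul_eq_mul]
      _ ≤ ∑ Q ∈ B, |Pool.Agent.HC.GX X Q - Pool.Agent.HC.LX X Q (X / Q * Real.log X ^ 8) -
            X * Real.log Q| := sum_le_sum h3
      _ ≤ ∑ Q ∈ Icc 1 ⌊2 * Y⌋₊, |Pool.Agent.HC.GX X Q -
            Pool.Agent.HC.LX X Q (X / Q * Real.log X ^ 8) - X * Real.log Q| := by
          refine sum_le_sum_of_subset_of_nonneg ?_ fun _ _ _ => abs_nonneg _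
          intro Q hQ
          rw [hB, mem_filter, IY, mem_filter] at hQ
          exact hQ.1.1
      _ ≤ _ := h1
      _ ≤ _ := h2
  have hp : 0 < 14 / t * (X * Real.log X) := by positivity
  rw [← mul_le_mul_iff_left₀ hp]
  refine h4.trans (le_of_eq ?_)
  field_simp

end

end Pool.Agent.BSD

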