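import Pool.Agent.Lib_helper26.BSD.Defs
import Pool.Agent.Lib_helper92.HCF.FIF
import Pool.Agent.Lib_helper92.PVF.FIN
import Pool.Agent.Lib_helper26.BSD.B1

set_option autoImplicit false

namespace Pool.Agent.BSD

open Finset
open Pool.Agent.FG61 (mu phi Lam cc off)
open Pool.Agent.Var35 (e)

noncomputable section

theorem h3_ok (ε : ℝ) (hε : 0 < ε) : Ok ε (min (ε / 100) (1 / 600)) := by
  refine ⟨lt_min (by linarith) (by norm_num), ?_, min_le_right _ _⟩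
  have := min_le_left (ε / 100) (1 / 600 : ℝ)
  linarith

/-- bounds of the threshold of small conductors -/
theorem h3_thr (ε : ℝ) (hε : 0 < ε) : ∃ X₀ : ℝ, ∀ X Y : ℝ, X₀ ≤ X → Rg ε X Y → ∀ Q ∈ IY Y,
    1 ≤ X / Q * Real.log X ^ 8 ∧ X / Q * Real.log X ^ 8 < Q ∧ 3 ≤ X ∧ 0 < Y ∧ 2 * Y ≤ X ∧
      (Q : ℝ) ≤ 2 * Y := by
  set δ := min (ε / 100) (1 / 600) with hδ
  have hok : Ok ε δ := h3_ok ε hε
  obtain ⟨X1, h1⟩ := sizes ε δ 1 hok
  refine ⟨X1, fun X Y hX hR Q hQ => ?_⟩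
  have hs := h1 X Y hX hR
  have hδ0 : 0 < δ := hok.1
  have hδ1 := hok.2.1
  have hδ2 := hok.2.2
  have hX3 := hs.X3
  have hXp : 0 < X := by linarith
  have hYp : 0 < Y := lt_of_lt_of_le (Real.rpow_pos_of_pos hXp _) hs.Y1
  rw [IY, Finset.mem_filter, Finset.mem_Icc] at hQ
  obtain ⟨⟨hQ1, hQ2⟩, hQY⟩ := hQ
  have hQ2' : (Q : ℝ) ≤ 2 * Y := le_trans (by exact_mod_cast hQ2) (Nat.floor_le (by positivity))
  have hQp : (0 : ℝ) < Q := by linarith
  have hlog1 : 1 ≤ Real.log X := by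
    rw [Real.le_log_iff_exp_le hXp]
    linarith [Real.exp_one_lt_d9]
  have hlg := hs.lg
  rw [one_mul] at hlg
  have h100 : (2 : ℝ) ^ 100 ≤ (1 + Real.log X) ^ 100 := pow_le_pow_left₀ (by norm_num) (by linarith) _
  have hδX : X ^ (δ ^ 2 / 100) ≤ X ^ ε := by
    apply Real.rpow_le_rpow_of_exponent_le (by linarith)
    nlinarith
  have hXε : 2 ≤ X ^ ε := by
    have : (2 : ℝ) ≤ 2 ^ 100 := by norm_num
    linarith
  have hZ := hs.Zlo
  rw [le_div_iff₀ hYp] at hZ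
  have h2Y : 2 * Y ≤ X := le_trans (by nlinarith) hZ
  have hlog8 : 1 ≤ Real.log X ^ 8 := one_le_pow₀ hlog1
  refine ⟨?_, ?_, hX3, hYp, h2Y, hQ2'⟩
  · have h5 : 1 ≤ X / Q := by rw [le_div_iff₀ hQp]; linarith
    nlinarith
  · have h6 : Real.log X ^ 8 ≤ X ^ (δ ^ 2 / 100) := by
      refine le_trans ?_ hlg
      calc Real.log X ^ 8 ≤ (1 + Real.log X) ^ 8 := pow_le_pow_left₀ (by linarith) (by linarith) _
        _ ≤ (1 + Real.log X) ^ 100 := pow_le_pow_right₀ (by linarith) (by norm_num)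
    have h7 : X / Q ≤ X ^ (1 / 3 - ε) := by
      refine le_trans ?_ hs.Zhi
      exact div_le_div_of_nonneg_left hXp.le hYp hQY.le
    calc X / Q * Real.log X ^ 8 ≤ X ^ (1 / 3 - ε) * X ^ (δ ^ 2 / 100) :=
          mul_le_mul h7 h6 (by positivity) (by positivity)
      _ = X ^ (1 / 3 - ε + δ ^ 2 / 100) := by rw [← Real.rpow_add hXp]
      _ ≤ X ^ (2 / 3 : ℝ) := by
          apply Real.rpow_le_rpow_of_exponent_le (by linarith)
          nlinarith
      _ ≤ Y := hs.Y1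
      _ < Q := hQY

theorem DD_prime (ε : ℝ) (hε : 0 < ε) : ∃ X₀ : ℝ, ∀ X Y : ℝ, X₀ ≤ X → Rg ε X Y → ∀ Q ∈ IY Y,
    Q.Prime → ∀ a ∈ RC Q, DD X Q a = ps X Q a -
      (∑ n ∈ (Icc 1 ⌊X⌋₊).filter (fun n => Nat.Coprime n Q), Lam n) / phi Q := by
  obtain ⟨X1, h1⟩ := h3_thr ε hε
  refine ⟨X1, fun X Y hX hR Q hQ hQp a ha => ?_⟩
  obtain ⟨t1, t2, -, -, -, -⟩ := h1 X Y hX hR Q hQ
  unfold DD lo
  congr 1
  congr 1
  have hne : NeZero Q := ⟨hQp.ne_zero⟩
  have key : ∀ χ : DirichletCharacter ℂ Q, (χ.conductor : ℝ) ≤ X / Q * Real.log X ^ 8 ↔ χ = 1 := by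
    intro χ
    constructor
    · intro h
      have h2 : χ.conductor ∣ Q := χ.conductor_dvd_level
      rcases (Nat.dvd_prime hQp).1 h2 with h3 | h3
      · exact DirichletCharacter.eq_one_iff_conductor_eq_one.2 h3
      · exfalso
        rw [h3] at h
        linarith
    · rintro rfl
      rw [DirichletCharacter.conductor_one]
      simpa using t1
  simp only [key]
  rw [Finset.sum_ite_eq' Finset.univ (1 : DirichletCharacter ℂ Q)]
  simp only [Finset.mem_univ, if_true]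
  rw [RC, Finset.mem_filter] at ha
  have hua : IsUnit ((a : ℕ) : ZMod Q) := (ZMod.isUnit_iff_coprime a Q).2 ha.2
  rw [MulChar.one_apply hua, map_one, one_mul, Finset.sum_filter, Complex.re_sum]
  refine Finset.sum_congr rfl fun n _ => ?_
  by_cases hn : Nat.Coprime n Q
  · rw [MulChar.one_apply ((ZMod.isUnit_iff_coprime n Q).2 hn), mul_one, if_pos hn,
      Complex.ofReal_re]
  · rw [MulChar.map_nonunit _ (fun h => hn ((ZMod.isUnit_iff_coprime n Q).1 h)), mul_zero,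
      if_neg hn, Complex.zero_re]

theorem h3_var (X : ℝ) (Q : ℕ) (hQ : 1 ≤ Q) :
    ∑ a ∈ RC Q, (ps X Q a -
      (∑ n ∈ (Icc 1 ⌊X⌋₊).filter (fun n => Nat.Coprime n Q), Lam n) / phi Q) ^ 2 =
    (∑ a ∈ (range Q).filter (fun a => Nat.Coprime a Q),
          ((∑ n ∈ (Icc 1 ⌊X⌋₊).filter (fun n => n ≡ a [MOD Q]), Lam n) - X / Nat.totient Q) ^ 2)
        - ((∑ n ∈ (Icc 1 ⌊X⌋₊).filter (fun n => Nat.Coprime n Q), Lam n) - X) ^ 2 /
          Nat.totient Q := by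
  have hφ : (0 : ℝ) < Nat.totient Q := by exact_mod_cast Nat.totient_pos.mpr hQ
  have hps : ∀ a ∈ RC Q, ps X Q a = ∑ n ∈ (Icc 1 ⌊X⌋₊).filter (fun n => n ≡ a [MOD Q]), Lam n := by
    intro a ha
    rw [RC, Finset.mem_filter, Finset.mem_range] at ha
    unfold ps
    refine Finset.sum_congr ?_ fun _ _ => rfl
    ext n
    simp only [Finset.mem_filter, Nat.ModEq, Nat.mod_eq_of_lt ha.1]
  have h1 : ∑ a ∈ RC Q, (ps X Q a -
      (∑ n ∈ (Icc 1 ⌊X⌋₊).filter (fun n => Nat.Coprime n Q), Lam n) / phi Q) ^ 2 =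
      ∑ a ∈ (range Q).filter (fun a => Nat.Coprime a Q),
        ((∑ n ∈ (Icc 1 ⌊X⌋₊).filter (fun n => n ≡ a [MOD Q]), Lam n) -
      (∑ n ∈ (Icc 1 ⌊X⌋₊).filter (fun n => Nat.Coprime n Q), Lam n) / phi Q) ^ 2 := by
    refine Finset.sum_congr rfl fun a ha => ?_
    rw [hps a ha]
  rw [h1, Pool.Agent.PV.fin_sq, Pool.Agent.PV.fin_sq, Pool.Agent.PV.fin_total _ Q hQ,
    Pool.Agent.PV.fin_card]
  field_simp
  ring

theorem Gp_few (ε t : ℝ) (hε : 0 < ε) (ht : 0 < t) : ∃ C : ℝ, 0 < C ∧ ∃ X₀ : ℝ, ∀ X Y : ℝ,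
    X₀ ≤ X → Rg ε X Y → (((IY Y).filter fun Q => Q.Prime ∧
      C * (X * Real.log X) < ∑ a ∈ RC Q, DD X Q a ^ 2).card : ℝ) ≤ t * (Y / Real.log Y) := by
  obtain ⟨C₁, hC₁⟩ := Pool.Agent.PV.fin ε hε
  obtain ⟨X1, h1⟩ := hC₁ 1 one_pos
  obtain ⟨X2, h2⟩ := DD_prime ε hε
  obtain ⟨X3, h3⟩ := h3_thr ε hε
  have hC0 : 0 < (|C₁| + 1) / t := by positivity
  refine ⟨1 + (|C₁| + 1) / t, by positivity, max (max X1 X2) (max X3 3), fun X Y hX hR => ?_⟩
  have hX1 : X1 ≤ X := le_trans (le_trans (le_max_left _ _) (le_max_left _ _)) hX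
  have hX2 : X2 ≤ X := le_trans (le_trans (le_max_right _ _) (le_max_left _ _)) hX
  have hX3 : X3 ≤ X := le_trans (le_trans (le_max_left _ _) (le_max_right _ _)) hX
  have hX4 : 3 ≤ X := le_trans (le_trans (le_max_right _ _) (le_max_right _ _)) hX
  have hXp : 0 < X := by linarith
  have hlogX : 1 ≤ Real.log X := by
    rw [Real.le_log_iff_exp_le hXp]
    linarith [Real.exp_one_lt_d9]
  have hYlow : X ^ (1 / 2 + ε) ≤ Y :=
    le_trans (Real.rpow_le_rpow_of_exponent_le (by linarith) (by linarith)) hR.1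
  have hYhi : Y ≤ X := by
    refine hR.2.trans ?_
    calc X ^ (1 - ε) ≤ X ^ (1 : ℝ) := Real.rpow_le_rpow_of_exponent_le (by linarith) (by linarith)
      _ = X := Real.rpow_one X
  have hYp : 1 < Y := lt_of_lt_of_le (Real.one_lt_rpow (by linarith) (by linarith)) hYlow
  have hlogY : 0 < Real.log Y := Real.log_pos hYp
  have hm := h1 X Y hX1 hYlow hYhi
  set F := (IY Y).filter fun Q => Q.Prime ∧
      (1 + (|C₁| + 1) / t) * (X * Real.log X) < ∑ a ∈ RC Q, DD X Q a ^ 2 with hF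
  have hsub : F ⊆ (Icc 1 ⌊2 * Y⌋₊).filter (fun Q : ℕ => Q.Prime ∧ Y < Q) := by
    intro Q hQ
    rw [hF, Finset.mem_filter, IY, Finset.mem_filter] at hQ
    rw [Finset.mem_filter]
    exact ⟨hQ.1.1, hQ.2.1, hQ.1.2⟩
  have hlow : ∀ Q ∈ F, (|C₁| + 1) / t * (X * Real.log X) ≤
      |(∑ a ∈ (range Q).filter (fun a => Nat.Coprime a Q),
          ((∑ n ∈ (Icc 1 ⌊X⌋₊).filter (fun n => n ≡ a [MOD Q]), Lam n) - X / Nat.totient Q) ^ 2)
        - ((∑ n ∈ (Icc 1 ⌊X⌋₊).filter (fun n => Nat.Coprime n Q), Lam n) - X) ^ 2 / Nat.totient Q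
        - X * Real.log Q| := by
    intro Q hQ
    rw [hF, Finset.mem_filter] at hQ
    obtain ⟨hQY, hQp, hQD⟩ := hQ
    obtain ⟨-, -, -, hY0, h2Y, hQ2⟩ := h3 X Y hX3 hR Q hQY
    have h5 : ∑ a ∈ RC Q, DD X Q a ^ 2 = ∑ a ∈ RC Q, (ps X Q a -
      (∑ n ∈ (Icc 1 ⌊X⌋₊).filter (fun n => Nat.Coprime n Q), Lam n) / phi Q) ^ 2 :=
      Finset.sum_congr rfl fun a ha => by rw [h2 X Y hX2 hR Q hQY hQp a ha]
    rw [h5, h3_var X Q hQp.one_le] at hQD
    have h6 : X * Real.log Q ≤ X * Real.log X := by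
      apply mul_le_mul_of_nonneg_left _ hXp.le
      apply Real.log_le_log (by exact_mod_cast hQp.pos)
      linarith
    refine le_trans ?_ (le_abs_self _)
    linarith
  have hsum : (F.card : ℝ) * ((|C₁| + 1) / t * (X * Real.log X)) ≤
      (C₁ * Real.log (X / Y) + 1 * Real.log X) * X * (Y / Real.log Y) := by
    refine le_trans ?_ hm
    rw [← nsmul_eq_mul, ← Finset.sum_const]
    refine (Finset.sum_le_sum hlow).trans ?_
    exact Finset.sum_le_sum_of_subset_of_nonneg hsub fun _ _ _ => abs_nonneg _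
  have hup : (C₁ * Real.log (X / Y) + 1 * Real.log X) * X * (Y / Real.log Y) ≤
      (|C₁| + 1) * (X * Real.log X) * (Y / Real.log Y) := by
    have h7 : Real.log (X / Y) ≤ Real.log X := by
      apply Real.log_le_log (by positivity)
      exact div_le_self hXp.le hYp.le
    have h8 : 0 ≤ Real.log (X / Y) := Real.log_nonneg (by rw [le_div_iff₀ (by linarith)]; linarith)
    have h9 : C₁ * Real.log (X / Y) ≤ |C₁| * Real.log X := by
      calc C₁ * Real.log (X / Y) ≤ |C₁| * Real.log (X / Y) :=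
            mul_le_mul_of_nonneg_right (le_abs_self _) h8
        _ ≤ |C₁| * Real.log X := mul_le_mul_of_nonneg_left h7 (abs_nonneg _)
    have h10 : (C₁ * Real.log (X / Y) + 1 * Real.log X) * X ≤ (|C₁| + 1) * (X * Real.log X) := by
      nlinarith
    exact mul_le_mul_of_nonneg_right h10 (by positivity)
  have h11 := hsum.trans hup
  have h12 : 0 < (|C₁| + 1) * (X * Real.log X) := by positivity
  have h13 : (F.card : ℝ) * ((|C₁| + 1) / t * (X * Real.log X)) =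
      (|C₁| + 1) * (X * Real.log X) * ((F.card : ℝ) / t) := by
    field_simp
  rw [h13] at h11
  have h14 := le_of_mul_le_mul_left h11 h12
  rw [div_le_iff₀ ht] at h14
  linarith

end

end Pool.Agent.BSD

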