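import Pool.Agent.Lib_helper26.BSD.Defs

set_option autoImplicit false

namespace Pool.Agent.BSD

open Finset
open Pool.Agent.FG61 (mu phi Lam cc off)
open Pool.Agent.Var35 (e)

noncomputable section

/-- one side -/
theorem i1_side (T : Finset ℕ) (D : ℕ → ℝ) (τ B S : ℝ) (hτ : 0 ≤ τ) (hB : ∑ a ∈ T, D a ^ 2 ≤ B)
    (hS : ∑ a ∈ T, |D a| = S) (h0 : ∑ a ∈ T, D a = 0) (hτS : τ * T.card ≤ S / 4) :
    (S / 4) ^ 2 ≤ ((T.filter fun a => τ ≤ D a).card : ℝ) * B := by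
  have hS0 : 0 ≤ S := by rw [← hS]; exact sum_nonneg fun _ _ => abs_nonneg _
  have h1 : S / 2 = ∑ a ∈ T, max (D a) 0 := by
    have h2 : ∀ a ∈ T, max (D a) 0 = (|D a| + D a) / 2 := by
      intro a _
      rcases le_total 0 (D a) with h | h
      · rw [max_eq_left h, abs_of_nonneg h]; ring
      · rw [max_eq_right h, abs_of_nonpos h]; ring
    rw [sum_congr rfl h2, ← sum_div, sum_add_distrib, h0, hS]
    ring
  have h2 : ∑ a ∈ T, max (D a) 0 ≤ τ * T.card + ∑ a ∈ T.filter (fun a => τ ≤ D a), D a := by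
    rw [sum_filter]
    have h3 : τ * T.card = ∑ _a ∈ T, τ := by rw [sum_const, nsmul_eq_mul]; ring
    rw [h3, ← sum_add_distrib]
    refine sum_le_sum fun a _ => ?_
    split_ifs with h
    · rw [max_eq_left (hτ.trans h)]; linarith
    · rw [add_zero]
      exact max_le (not_le.1 h).le hτ
  have h4 : S / 4 ≤ ∑ a ∈ T.filter (fun a => τ ≤ D a), D a := by linarith
  have h5 : (∑ a ∈ T.filter (fun a => τ ≤ D a), D a) ^ 2 ≤
      ((T.filter fun a => τ ≤ D a).card : ℝ) * ∑ a ∈ T.filter (fun a => τ ≤ D a), D a ^ 2 :=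
    sq_sum_le_card_mul_sum_sq
  have h6 : ∑ a ∈ T.filter (fun a => τ ≤ D a), D a ^ 2 ≤ B :=
    (sum_le_sum_of_subset_of_nonneg (filter_subset _ _) fun _ _ _ => sq_nonneg _).trans hB
  calc (S / 4) ^ 2 ≤ (∑ a ∈ T.filter (fun a => τ ≤ D a), D a) ^ 2 :=
        pow_le_pow_left₀ (by linarith) h4 2
    _ ≤ _ := h5
    _ ≤ _ := mul_le_mul_of_nonneg_left h6 (Nat.cast_nonneg _)

theorem i1_four (T : Finset ℕ) (D u : ℕ → ℝ) :
    (∑ a ∈ T, |D a| * |u a|) ^ 4 ≤ (∑ a ∈ T, |D a|) ^ 2 * ((∑ a ∈ T, D a ^ 2) * ∑ a ∈ T, u a ^ 4) := by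
  have h1 : (∑ a ∈ T, |D a| * |u a|) ^ 2 ≤ (∑ a ∈ T, |D a|) * ∑ a ∈ T, |D a| * u a ^ 2 := by
    have h := sum_mul_sq_le_sq_mul_sq T (fun a => Real.sqrt |D a|) (fun a => Real.sqrt |D a| * |u a|)
    have e1 : ∀ a ∈ T, Real.sqrt |D a| * (Real.sqrt |D a| * |u a|) = |D a| * |u a| := by
      intro a _
      rw [← mul_assoc, Real.mul_self_sqrt (abs_nonneg _)]
    have e2 : ∀ a ∈ T, Real.sqrt |D a| ^ 2 = |D a| := fun a _ => Real.sq_sqrt (abs_nonneg _)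
    have e3 : ∀ a ∈ T, (Real.sqrt |D a| * |u a|) ^ 2 = |D a| * u a ^ 2 := by
      intro a _
      rw [mul_pow, Real.sq_sqrt (abs_nonneg _), sq_abs]
    rw [sum_congr rfl e1, sum_congr rfl e2, sum_congr rfl e3] at h
    exact h
  have h2 : (∑ a ∈ T, |D a| * u a ^ 2) ^ 2 ≤ (∑ a ∈ T, D a ^ 2) * ∑ a ∈ T, u a ^ 4 := by
    have h := sum_mul_sq_le_sq_mul_sq T (fun a => |D a|) (fun a => u a ^ 2)
    have e1 : ∀ a ∈ T, |D a| ^ 2 = D a ^ 2 := fun a _ => sq_abs _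
    have e2 : ∀ a ∈ T, (u a ^ 2) ^ 2 = u a ^ 4 := fun a _ => by ring
    rw [sum_congr rfl e1, sum_congr rfl e2] at h
    exact h
  have h3 : 0 ≤ ∑ a ∈ T, |D a| := sum_nonneg fun _ _ => abs_nonneg _
  calc (∑ a ∈ T, |D a| * |u a|) ^ 4 = ((∑ a ∈ T, |D a| * |u a|) ^ 2) ^ 2 := by ring
    _ ≤ ((∑ a ∈ T, |D a|) * ∑ a ∈ T, |D a| * u a ^ 2) ^ 2 :=
        pow_le_pow_left₀ (sq_nonneg _) h1 2
    _ = (∑ a ∈ T, |D a|) ^ 2 * (∑ a ∈ T, |D a| * u a ^ 2) ^ 2 := by ring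
    _ ≤ _ := mul_le_mul_of_nonneg_left h2 (sq_nonneg _)

theorem final_step (c₁ C₂ C₄ : ℝ) (h1 : 0 < c₁) (h2 : 0 < C₂) (h4 : 0 < C₄) :
    ∃ c : ℝ, 0 < c ∧ ∀ (T : Finset ℕ) (Q : ℕ) (H : ℝ) (D u : ℕ → ℝ), 1 ≤ T.card → T.card ≤ Q →
      0 < H → ∑ a ∈ T, D a = 0 → c₁ * H ≤ ∑ a ∈ T, D a * u a → ∑ a ∈ T, D a ^ 2 ≤ C₂ * H →
      ∑ a ∈ T, u a ^ 4 ≤ C₄ * H ^ 2 / Q →
      c * T.card ≤ ((T.filter fun a => c * Real.sqrt (H / T.card) ≤ D a).card : ℝ) ∧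
      c * T.card ≤ ((T.filter fun a => D a ≤ -(c * Real.sqrt (H / T.card))).card : ℝ) := by
  set κ : ℝ := c₁ ^ 4 / (C₂ * C₄) with hκ
  have hκ0 : 0 < κ := by positivity
  refine ⟨min (Real.sqrt κ / 4) (κ / (16 * C₂)), lt_min (by positivity) (by positivity), ?_⟩
  intro T Q H D u hT hTQ hH h0 hDu hD2 hu4
  set c := min (Real.sqrt κ / 4) (κ / (16 * C₂)) with hc
  have hc0 : 0 < c := lt_min (by positivity) (by positivity)
  have hT0 : (0 : ℝ) < T.card := by exact_mod_cast hT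
  have hTQ' : (T.card : ℝ) ≤ Q := by exact_mod_cast hTQ
  have hQ0 : (0 : ℝ) < Q := by linarith
  set S := ∑ a ∈ T, |D a| with hS
  have hS0 : 0 ≤ S := sum_nonneg fun _ _ => abs_nonneg _
  have h5 : c₁ * H ≤ ∑ a ∈ T, |D a| * |u a| :=
    hDu.trans (sum_le_sum fun a _ => by rw [← abs_mul]; exact le_abs_self _)
  have h6 : (c₁ * H) ^ 4 ≤ S ^ 2 * ((C₂ * H) * (C₄ * H ^ 2 / Q)) := by
    calc (c₁ * H) ^ 4 ≤ (∑ a ∈ T, |D a| * |u a|) ^ 4 := pow_le_pow_left₀ (by positivity) h5 4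
      _ ≤ S ^ 2 * ((∑ a ∈ T, D a ^ 2) * ∑ a ∈ T, u a ^ 4) := i1_four T D u
      _ ≤ _ := by
          apply mul_le_mul_of_nonneg_left _ (sq_nonneg _)
          exact mul_le_mul hD2 hu4 (sum_nonneg fun _ _ => by positivity) (by positivity)
  have h7 : κ * H * Q ≤ S ^ 2 := by
    have h8 : (c₁ * H) ^ 4 * Q ≤ S ^ 2 * (C₂ * C₄ * H ^ 3) := by
      calc (c₁ * H) ^ 4 * Q ≤ S ^ 2 * ((C₂ * H) * (C₄ * H ^ 2 / Q)) * Q :=
            mul_le_mul_of_nonneg_right h6 hQ0.le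
        _ = S ^ 2 * (C₂ * C₄ * H ^ 3) := by field_simp
    have h9 : κ * H * Q * (C₂ * C₄ * H ^ 3) = (c₁ * H) ^ 4 * Q := by
      rw [hκ]; field_simp
    rw [← h9] at h8
    exact le_of_mul_le_mul_right h8 (by positivity)
  -- the threshold
  set τ : ℝ := c * Real.sqrt (H / T.card) with hτ
  have hτ0 : 0 ≤ τ := by positivity
  have hτT : τ * T.card ≤ S / 4 := by
    have h8 : Real.sqrt (H / T.card) * T.card = Real.sqrt (H * T.card) := by
      rw [← Real.sqrt_sq hT0.le, ← Real.sqrt_mul (by positivity), Real.sqrt_sq hT0.le]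
      congr 1
      field_simp
    have h9 : Real.sqrt (H * T.card) ≤ Real.sqrt (H * Q) :=
      Real.sqrt_le_sqrt (mul_le_mul_of_nonneg_left hTQ' hH.le)
    have h10 : Real.sqrt κ * Real.sqrt (H * Q) ≤ S := by
      rw [← Real.sqrt_mul hκ0.le]
      apply Real.sqrt_le_iff.2
      exact ⟨hS0, by rw [← mul_assoc]; exact h7⟩
    calc τ * T.card = c * (Real.sqrt (H / T.card) * T.card) := by rw [hτ]; ring
      _ = c * Real.sqrt (H * T.card) := by rw [h8]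
      _ ≤ c * Real.sqrt (H * Q) := mul_le_mul_of_nonneg_left h9 hc0.le
      _ ≤ Real.sqrt κ / 4 * Real.sqrt (H * Q) :=
          mul_le_mul_of_nonneg_right (min_le_left _ _) (Real.sqrt_nonneg _)
      _ = Real.sqrt κ * Real.sqrt (H * Q) / 4 := by ring
      _ ≤ S / 4 := by linarith
  have hcount : ∀ n : ℝ, (S / 4) ^ 2 ≤ n * (C₂ * H) → c * T.card ≤ n := by
    intro n hn
    have h8 : κ * H * Q / 16 ≤ n * (C₂ * H) := by
      have : (S / 4) ^ 2 = S ^ 2 / 16 := by ring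
      rw [this] at hn
      linarith
    have h9 : κ / (16 * C₂) * Q ≤ n := by
      have : κ * H * Q / 16 = κ / (16 * C₂) * Q * (C₂ * H) := by field_simp
      rw [this] at h8
      exact le_of_mul_le_mul_right h8 (by positivity)
    calc c * T.card ≤ κ / (16 * C₂) * Q :=
          mul_le_mul (min_le_right _ _) hTQ' hT0.le (by positivity)
      _ ≤ n := h9
  constructor
  · exact hcount _ (i1_side T D τ (C₂ * H) S hτ0 hD2 rfl h0 hτT)
  · have h8 := i1_side T (fun a => - D a) τ (C₂ * H) S hτ0 (by simpa using hD2)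
      (by simp [hS]) (by simp [h0]) hτT
    have h9 : T.filter (fun a => τ ≤ - D a) = T.filter (fun a => D a ≤ -τ) := by
      apply filter_congr
      intro a _
      constructor <;> intro h <;> linarith
    rw [h9] at h8
    exact hcount _ h8

end

end Pool.Agent.BSD

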