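import Pool.Agent.Lib_helper26.BSD.Defs
import Pool.Agent.Lib_helper92.HCF.FIF
import Pool.Agent.Lib_helper92.PVF.FIN
import Pool.Agent.Lib_helper26.BSD.B1
import Pool.Agent.Lib_helper26.BSD.C3
import Pool.Agent.Lib_helper26.BSD.E1
import Pool.Agent.Lib_helper26.BSD.E2
import Pool.Agent.Lib_helper26.BSD.F6
import Pool.Agent.Lib_helper26.BSD.G10
import Pool.Agent.Lib_helper26.BSD.I1
import Pool.Agent.Lib_helper26.BSD.H1

set_option autoImplicit false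

namespace Pool.Agent.BSD

open Finset
open Pool.Agent.FG61 (mu phi Lam cc off)
open Pool.Agent.Var35 (e)

noncomputable section


theorem z1_card (Q : ℕ) : ((RC Q).card : ℝ) = phi Q := by
  show ((RC Q).card : ℝ) = ((Nat.totient Q : ℕ) : ℝ)
  congr 1
  unfold RC Nat.totient
  congr 1
  apply filter_congr
  intro a _
  exact Nat.coprime_comm

theorem z1_large (a A : ℝ) (ha : 0 < a) : ∀ᶠ X : ℝ in Filter.atTop, A ≤ X ^ a :=
  (tendsto_rpow_atTop ha).eventually_ge_atTop A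

theorem good_Q (ε δ : ℝ) (h : Ok ε δ) (c₀ C₂ : ℝ) (hc : 0 < c₀) (hC : 0 < C₂) :
    ∃ C₄ : ℝ, 0 < C₄ ∧ (open scoped Classical in ∃ X₁ : ℝ, ∀ X Y : ℝ, X₁ ≤ X → Rg ε X Y →
      (((IY Y).filter fun Q => Fr δ X Y Q ∧
        C₄ * (X * Real.log X) ^ 2 / Q < ∑ a ∈ range Q, uu δ X Y Q a ^ 4).card : ℝ) ≤
        Y * X ^ (-δ)) ∧
    ∃ c : ℝ, 0 < c ∧ ∃ X₀ : ℝ, ∀ X Y : ℝ, X₀ ≤ X → Rg ε X Y → ∀ Q ∈ IY Y, Fr δ X Y Q →
      c₀ * Q ≤ phi Q → |off ⌊X⌋₊ Q Lam (bb δ X Y Q)| ≤ X ^ (1 - δ / 4) →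
      ∑ a ∈ RC Q, DD X Q a ^ 2 ≤ C₂ * (X * Real.log X) →
      ∑ a ∈ range Q, uu δ X Y Q a ^ 4 ≤ C₄ * (X * Real.log X) ^ 2 / Q →
      c * phi Q ≤ (((RC Q).filter fun a => c * Real.sqrt (X * Real.log X / phi Q) ≤
        DD X Q a).card : ℝ) ∧
      c * phi Q ≤ (((RC Q).filter fun a => DD X Q a ≤
        -(c * Real.sqrt (X * Real.log X / phi Q))).card : ℝ) := by
  classical
  obtain ⟨C₄, hC₄, X₁, hf⟩ := fourth ε δ h
  refine ⟨C₄, hC₄, ⟨X₁, hf⟩, ?_⟩
  obtain ⟨c₁, hc₁, Xa, hd⟩ := diag ε δ h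
  obtain ⟨c₂, hc₂, Xb, hW⟩ := WW_low ε δ h
  obtain ⟨Xc, hp⟩ := pair_ps ε δ h
  obtain ⟨Xd, hl⟩ := lo_small ε δ h
  obtain ⟨Xe, hsz⟩ := sizes ε δ 1 h
  obtain ⟨hδ, hε, hδ6⟩ := id h
  set κ : ℝ := c₁ * c₂ * c₀ / 2 with hκ
  have hκ0 : 0 < κ := by positivity
  obtain ⟨c, hc0, hfin⟩ := final_step κ C₂ C₄ hκ0 hC hC₄
  have e1 : ∀ᶠ X : ℝ in Filter.atTop, 4 / κ ≤ X ^ (δ / 4) := z1_large _ _ (by positivity)
  obtain ⟨Xf, hXf⟩ := Filter.eventually_atTop.1 e1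
  refine ⟨c, hc0, max (max (max Xa Xb) (max Xc Xd)) (max Xe Xf), fun X Y hX hR Q hQ hF hphi hoff hD2 hu4 => ?_⟩
  have q1 := (le_max_left _ _).trans hX
  have q2 := (le_max_right _ _).trans hX
  have q3 := (le_max_left _ _).trans q1
  have q4 := (le_max_right _ _).trans q1
  have hd := hd X Y ((le_max_left _ _).trans q3) hR Q
  have hW := hW X Y ((le_max_right _ _).trans q3) hR Q
  have hp := hp X Y ((le_max_left _ _).trans q4) hR Q hQ
  have hl := hl X Y ((le_max_right _ _).trans q4) hR Q hQ hF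
  have hs := hsz X Y ((le_max_left _ _).trans q2) hR
  have hXf := hXf X ((le_max_right _ _).trans q2)
  have hX1 : (1 : ℝ) < X := by linarith [hs.X3]
  have hX0 : (0 : ℝ) < X := by linarith
  have hY0 : 0 < Y := lt_of_lt_of_le (by positivity) hs.Y1
  have hl1 : 1 ≤ Real.log X := by
    rw [Real.le_log_iff_exp_le hX0]
    have := Real.exp_one_lt_d9
    linarith [hs.X3]
  have hQ' := hQ
  unfold IY at hQ'
  rw [mem_filter, mem_Icc] at hQ'
  obtain ⟨⟨hQ1, hQ2⟩, hQY⟩ := hQ'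
  have hQ0 : (0 : ℝ) < Q := by exact_mod_cast hQ1
  have hQ2' : (Q : ℝ) ≤ 2 * Y := by
    rw [Nat.le_floor_iff (by positivity)] at hQ2
    exact hQ2
  have hW := hW hQ1
  have hphi0 : 0 < phi Q := by exact_mod_cast Nat.totient_pos.2 hQ1
  -- the parameter
  have h2X : 2 ≤ X ^ (δ ^ 2 / 100) := by
    refine le_trans ?_ hs.lg
    calc (2 : ℝ) ≤ 1 * 2 ^ 100 := by norm_num
      _ ≤ 1 * (1 + Real.log X) ^ 100 := by
          apply mul_le_mul_of_nonneg_left _ (by norm_num)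
          exact pow_le_pow_left₀ (by norm_num) (by linarith) 100
  have hZ2 : 2 ≤ X / Y := by
    refine h2X.trans (le_trans ?_ hs.Zlo)
    exact Real.rpow_le_rpow_of_exponent_le hX1.le (by nlinarith)
  have hcond : 1 ≤ X / Q * Real.log X ^ 8 := by
    have h1 : 1 ≤ X / Q := by
      rw [le_div_iff₀ hQ0, one_mul]
      rw [le_div_iff₀ hY0] at hZ2
      linarith
    have h2 : (1 : ℝ) ≤ Real.log X ^ 8 := one_le_pow₀ hl1
    nlinarith
  have hsum0 := DD_zero X Q hQ1 hcond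
  set H : ℝ := X * Real.log X with hH
  have hH0 : 0 < H := by positivity
  -- the pairing
  have hpair : κ * H ≤ ∑ a ∈ RC Q, DD X Q a * uu δ X Y Q a := by
    have h1 : ∑ a ∈ RC Q, DD X Q a * uu δ X Y Q a =
        ∑ a ∈ RC Q, ps X Q a * uu δ X Y Q a - ∑ a ∈ RC Q, lo X Q a * uu δ X Y Q a := by
      rw [← sum_sub_distrib]
      refine sum_congr rfl fun a _ => ?_
      unfold DD
      ring
    have h2 := (abs_le.1 hp).1
    have h3 := (abs_le.1 hoff).1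
    have h4 := (abs_le.1 hl).2
    have h5 : c₁ * c₂ * c₀ * H ≤ c₁ * X * WW δ X Y Q := by
      have h6 : c₀ ≤ phi Q / Q := by
        rw [le_div_iff₀ hQ0]; exact hphi
      calc c₁ * c₂ * c₀ * H = c₁ * X * (c₂ * c₀ * Real.log X) := by rw [hH]; ring
        _ ≤ c₁ * X * (c₂ * (phi Q / Q) * Real.log X) := by gcongr
        _ ≤ c₁ * X * WW δ X Y Q := mul_le_mul_of_nonneg_left hW (by positivity)
    -- the errors
    have h7 : X ^ (1 - δ / 4) ≤ κ / 4 * H := by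
      have h8 : X ^ (1 - δ / 4) * X ^ (δ / 4) = X := by
        rw [← Real.rpow_add hX0, sub_add_cancel, Real.rpow_one]
      rw [div_le_iff₀ hκ0] at hXf
      have h9 : 0 < X ^ (1 - δ / 4) := by positivity
      have h10 : 4 * X ^ (1 - δ / 4) ≤ κ * X := by
        calc 4 * X ^ (1 - δ / 4) ≤ (X ^ (δ / 4) * κ) * X ^ (1 - δ / 4) := by gcongr
          _ = κ * (X ^ (1 - δ / 4) * X ^ (δ / 4)) := by ring
          _ = κ * X := by rw [h8]
      have h11 : κ * X ≤ κ * H := by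
        apply mul_le_mul_of_nonneg_left _ hκ0.le
        rw [hH]
        nlinarith
      linarith
    have h12 : X ^ (1 - δ) ≤ X ^ (1 - δ / 4) :=
      Real.rpow_le_rpow_of_exponent_le hX1.le (by linarith)
    have h13 : X ^ (9 / 10 : ℝ) ≤ X ^ (1 - δ / 4) :=
      Real.rpow_le_rpow_of_exponent_le hX1.le (by linarith)
    have h14 : c₁ * c₂ * c₀ = 2 * κ := by rw [hκ]; ring
    rw [h14] at h5
    rw [h1]
    linarith
  have hu : ∑ a ∈ RC Q, uu δ X Y Q a ^ 4 ≤ C₄ * H ^ 2 / Q := by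
    refine le_trans ?_ hu4
    apply sum_le_sum_of_subset_of_nonneg
    · intro a ha
      unfold RC at ha
      exact (mem_filter.1 ha).1
    · intro _ _ _
      positivity
  have hcard := z1_card Q
  have hc1 : 1 ≤ (RC Q).card := by
    have h1 : (0 : ℝ) < (RC Q).card := by rw [hcard]; exact hphi0
    exact_mod_cast h1
  have hc2 : (RC Q).card ≤ Q := by
    unfold RC
    refine (card_filter_le _ _).trans ?_
    rw [card_range]
  have hres := hfin (RC Q) Q H (DD X Q) (uu δ X Y Q) hc1 hc2 hH0 hsum0 hpair hD2 hu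
  rw [hcard] at hres
  exact hres

end

end Pool.Agent.BSD

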