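import Pool.Agent.Lib_helper26.BSD.Defs
import Pool.Agent.Lib_helper92.HCF.FIF
import Pool.Agent.Lib_helper92.PVF.FIN
import Pool.Agent.Lib_helper26.BSD.B1
import Pool.Agent.Lib_helper26.BSD.C4
import Pool.Agent.Lib_helper26.BSD.D3
import Pool.Agent.Lib_helper26.BSD.H2
import Pool.Agent.Lib_helper26.BSD.H3
import Pool.Agent.Lib_helper26.BSD.Z1

set_option autoImplicit false

namespace Pool.Agent.BSD

open Finset
open Pool.Agent.FG61 (mu phi Lam cc off)
open Pool.Agent.Var35 (e)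

noncomputable section

/-- both signs in a positive proportion of the classes -/
def BothS (c X : ℝ) (Q : ℕ) (D : ℕ → ℝ) : Prop :=
  c * phi Q ≤ (((RC Q).filter fun a => c * Real.sqrt (X * Real.log X / phi Q) ≤ D a).card : ℝ) ∧
  c * phi Q ≤ (((RC Q).filter fun a => D a ≤ -(c * Real.sqrt (X * Real.log X / phi Q))).card : ℝ)


theorem z2_card {X c : ℝ} (S : Finset ℕ) (P : ℕ → Prop) [DecidablePred P] (A B : Finset ℕ)
    (h : ∀ Q ∈ S, P Q → Q ∈ A ∨ Q ∈ B) :
    ((S.filter P).card : ℝ) ≤ (A.card : ℝ) + B.card := by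
  classical
  have h1 : S.filter P ⊆ A ∪ B := by
    intro Q hQ
    rw [mem_filter] at hQ
    rw [mem_union]
    exact h Q hQ.1 hQ.2
  have h2 := (card_le_card h1).trans (card_union_le A B)
  exact_mod_cast h2

theorem fin (ε t : ℝ) (hε : 0 < ε) (ht : 0 < t) : ∃ c : ℝ, 0 < c ∧ ∃ X₀ : ℝ, ∀ X Y : ℝ,
    X₀ ≤ X → X ^ (2 / 3 + ε) ≤ Y → Y ≤ X ^ (1 - ε) → (open scoped Classical in
      (((IY Y).filter fun Q => ¬ BothS c X Q (DD X Q)).card : ℝ) ≤ t * Y ∧
      (((IY Y).filter fun Q => Q.Prime ∧ ¬ BothS c X Q (fun a => ps X Q a -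
        (∑ n ∈ (Icc 1 ⌊X⌋₊).filter (fun n => Nat.Coprime n Q), Lam n) / phi Q)).card : ℝ) ≤
        t * (Y / Real.log Y)) := by
  classical
  set δ : ℝ := min (min ε t) (1 / 6) / 100 with hδdef
  have hmin : 0 < min (min ε t) (1 / 6) := lt_min (lt_min hε ht) (by norm_num)
  have hδ : 0 < δ := by positivity
  have hδε : 100 * δ ≤ ε := by
    have : min (min ε t) (1 / 6) ≤ ε := (min_le_left _ _).trans (min_le_left _ _)
    rw [hδdef]; linarith
  have hδt : 100 * δ ≤ t := by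
    have : min (min ε t) (1 / 6) ≤ t := (min_le_left _ _).trans (min_le_right _ _)
    rw [hδdef]; linarith
  have hδ6 : δ ≤ 1 / 600 := by
    have : min (min ε t) (1 / 6) ≤ 1 / 6 := min_le_right _ _
    rw [hδdef]; linarith
  have hOk : Ok ε δ := ⟨hδ, hδε, hδ6⟩
  obtain ⟨c₀, hc₀, hphi⟩ := phi_few (t / 10) (by positivity)
  obtain ⟨Ca, hCa, Xa, hGa⟩ := G_few ε (t / 10) hε (by positivity)
  obtain ⟨Cb, hCb, Xb, hGb⟩ := Gp_few ε (t / 2) hε (by positivity)
  obtain ⟨C₄, hC₄, ⟨Xc, hfour⟩, c, hc, Xd, hgood⟩ := good_Q ε δ hOk (min c₀ (1 / 2)) (max Ca Cb)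
    (lt_min hc₀ (by norm_num)) (lt_max_of_lt_left hCa)
  obtain ⟨Xe, hFr⟩ := Fr_few ε δ hOk
  obtain ⟨Xf, hoff⟩ := off_few ε δ hOk
  obtain ⟨Xg, hsz⟩ := sizes ε δ 1 hOk
  obtain ⟨Xh, hDp⟩ := DD_prime ε hε
  have e1 : ∀ᶠ X : ℝ in Filter.atTop, 20 / t ≤ X ^ (δ / 8) :=
    (tendsto_rpow_atTop (by positivity : (0 : ℝ) < δ / 8)).eventually_ge_atTop _
  have e2 : ∀ᶠ X : ℝ in Filter.atTop, Real.log X ≤ X ^ (δ / 8) := by
    have h1 := (isLittleO_log_rpow_atTop (by positivity : (0 : ℝ) < δ / 8)).bound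
      (by norm_num : (0 : ℝ) < 1)
    filter_upwards [h1, Filter.eventually_ge_atTop (3 : ℝ)] with X h2 h3
    rw [Real.norm_of_nonneg (Real.log_nonneg (by linarith)), Real.norm_of_nonneg (by positivity),
      one_mul] at h2
    exact h2
  obtain ⟨Xi, hXi⟩ := Filter.eventually_atTop.1 (e1.and e2)
  refine ⟨c, hc, max (max (max Xa Xb) (max Xc Xd)) (max (max Xe Xf) (max (max Xg Xh) Xi)),
    fun X Y hX hY1 hY2 => ?_⟩
  have hR : Rg ε X Y := ⟨hY1, hY2⟩
  have q1 := (le_max_left _ _).trans hX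
  have q2 := (le_max_right _ _).trans hX
  have q3 := (le_max_left _ _).trans q1
  have q4 := (le_max_right _ _).trans q1
  have q5 := (le_max_left _ _).trans q2
  have q6 := (le_max_right _ _).trans q2
  have q7 := (le_max_left _ _).trans q6
  have hXa := (le_max_left _ _).trans q3
  have hXb := (le_max_right _ _).trans q3
  have hXc := (le_max_left _ _).trans q4
  have hXd := (le_max_right _ _).trans q4
  have hXe := (le_max_left _ _).trans q5
  have hXf := (le_max_right _ _).trans q5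
  have hXg := (le_max_left _ _).trans q7
  have hXh := (le_max_right _ _).trans q7
  have hXi' := (le_max_right _ _).trans q6
  have hGa := hGa X Y hXa hR
  have hGb := hGb X Y hXb hR
  have hfour := hfour X Y hXc hR
  have hgood := hgood X Y hXd hR
  have hFr := hFr X Y hXe hR
  have hoff := hoff X Y hXf hR
  have hs := hsz X Y hXg hR
  have hDp := hDp X Y hXh hR
  obtain ⟨f1, f2⟩ := hXi X hXi'
  clear q1 q2 q3 q4 q5 q6 q7 hX
  have hX1 : (1 : ℝ) < X := by linarith [hs.X3]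
  have hX0 : (0 : ℝ) < X := by linarith
  have hY0 : 0 < Y := lt_of_lt_of_le (by positivity) hs.Y1
  have hYge : X ^ (2 / 3 : ℝ) ≤ Y := hs.Y1
  have hY1' : 1 ≤ Y := (Real.one_le_rpow hX1.le (by norm_num)).trans hYge
  have hlogX : 0 < Real.log X := Real.log_pos hX1
  have hXl : 0 ≤ X * Real.log X := by positivity
  have hphi := hphi Y hY1'
  -- the small powers
  have g1 : X ^ (-(δ / 4)) * Real.log X ≤ t / 20 := by
    have h1 : X ^ (-(δ / 4)) = X ^ (-(δ / 8)) * X ^ (-(δ / 8)) := by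
      rw [← Real.rpow_add hX0]; congr 1; ring
    have h2 : X ^ (-(δ / 8)) * X ^ (δ / 8) = 1 := by
      rw [← Real.rpow_add hX0]; simp
    have h3 : X ^ (-(δ / 8)) ≤ t / 20 := by
      rw [div_le_iff₀ ht] at f1
      have h4 : 0 ≤ X ^ (-(δ / 8)) := by positivity
      nlinarith [mul_le_mul_of_nonneg_left f1 h4]
    calc X ^ (-(δ / 4)) * Real.log X ≤ X ^ (-(δ / 4)) * X ^ (δ / 8) := by gcongr
      _ = X ^ (-(δ / 8)) := by rw [h1, mul_assoc, h2, mul_one]
      _ ≤ _ := h3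
  have g2 : X ^ (-δ) * Real.log X ≤ t / 20 := by
    refine le_trans ?_ g1
    apply mul_le_mul_of_nonneg_right _ hlogX.le
    exact Real.rpow_le_rpow_of_exponent_le hX1.le (by linarith)
  have hlog1 : 1 ≤ Real.log X := by
    rw [Real.le_log_iff_exp_le hX0]
    have := Real.exp_one_lt_d9
    linarith [hs.X3]
  have g3 : X ^ (-(δ / 4)) ≤ t / 20 := by
    refine le_trans ?_ g1
    exact le_mul_of_one_le_right (by positivity) hlog1
  have g4 : X ^ (-δ) ≤ t / 20 := by
    refine le_trans ?_ g2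
    exact le_mul_of_one_le_right (by positivity) hlog1
  -- a good modulus
  have hmain : ∀ Q ∈ IY Y, Fr δ X Y Q → min c₀ (1 / 2) * Q ≤ phi Q →
      |off ⌊X⌋₊ Q Lam (bb δ X Y Q)| ≤ X ^ (1 - δ / 4) →
      ∑ a ∈ RC Q, DD X Q a ^ 2 ≤ max Ca Cb * (X * Real.log X) →
      ∑ a ∈ range Q, uu δ X Y Q a ^ 4 ≤ C₄ * (X * Real.log X) ^ 2 / Q →
      BothS c X Q (DD X Q) := fun Q hQ hF h1 h2 h3 h4 => hgood Q hQ hF h1 h2 h3 h4
  constructor
  · set B1 := (IY Y).filter fun Q => ¬ Fr δ X Y Q with hB1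
    set B2 := (IY Y).filter fun Q => phi Q < c₀ * Q with hB2
    set B3 := (IY Y).filter fun Q => X ^ (1 - δ / 4) < |off ⌊X⌋₊ Q Lam (bb δ X Y Q)| with hB3
    set B4 := (IY Y).filter fun Q => Ca * (X * Real.log X) < ∑ a ∈ RC Q, DD X Q a ^ 2 with hB4
    set B5 := (IY Y).filter fun Q => Fr δ X Y Q ∧
        C₄ * (X * Real.log X) ^ 2 / Q < ∑ a ∈ range Q, uu δ X Y Q a ^ 4 with hB5
    have hsub : ((IY Y).filter fun Q => ¬ BothS c X Q (DD X Q)) ⊆ B1 ∪ (B2 ∪ (B3 ∪ (B4 ∪ B5))) := by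
      intro Q hQ
      rw [mem_filter] at hQ
      obtain ⟨hQ, hn⟩ := hQ
      by_contra hcon
      simp only [mem_union, not_or] at hcon
      obtain ⟨n1, n2, n3, n4, n5⟩ := hcon
      have m1 : Fr δ X Y Q := by
        by_contra h1
        exact n1 (mem_filter.2 ⟨hQ, h1⟩)
      have m2 : c₀ * Q ≤ phi Q := by
        by_contra h1
        push Not at h1
        exact n2 (mem_filter.2 ⟨hQ, h1⟩)
      have m3 : |off ⌊X⌋₊ Q Lam (bb δ X Y Q)| ≤ X ^ (1 - δ / 4) := by
        by_contra h1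
        push Not at h1
        exact n3 (mem_filter.2 ⟨hQ, h1⟩)
      have m4 : ∑ a ∈ RC Q, DD X Q a ^ 2 ≤ Ca * (X * Real.log X) := by
        by_contra h1
        push Not at h1
        exact n4 (mem_filter.2 ⟨hQ, h1⟩)
      have m5 : ∑ a ∈ range Q, uu δ X Y Q a ^ 4 ≤ C₄ * (X * Real.log X) ^ 2 / Q := by
        by_contra h1
        push Not at h1
        exact n5 (mem_filter.2 ⟨hQ, m1, h1⟩)
      refine hn (hmain Q hQ m1 (le_trans ?_ m2) m3 (m4.trans ?_) m5)
      · exact mul_le_mul_of_nonneg_right (min_le_left _ _) (Nat.cast_nonneg _)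
      · exact mul_le_mul_of_nonneg_right (le_max_left _ _) hXl
    have hcard : (((IY Y).filter fun Q => ¬ BothS c X Q (DD X Q)).card : ℝ) ≤
        (B1.card : ℝ) + (B2.card + (B3.card + (B4.card + B5.card))) := by
      have h1 := (card_le_card hsub).trans (card_union_le _ _)
      have h2 := card_union_le B2 (B3 ∪ (B4 ∪ B5))
      have h3 := card_union_le B3 (B4 ∪ B5)
      have h4 := card_union_le B4 B5
      exact_mod_cast (by omega : ((IY Y).filter fun Q => ¬ BothS c X Q (DD X Q)).card ≤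
        B1.card + (B2.card + (B3.card + (B4.card + B5.card))))
    refine hcard.trans ?_
    have k3 : (B3.card : ℝ) ≤ Y * (t / 20) := hoff.trans (mul_le_mul_of_nonneg_left g3 hY0.le)
    have k5 : (B5.card : ℝ) ≤ Y * (t / 20) := hfour.trans (mul_le_mul_of_nonneg_left g4 hY0.le)
    have k1 : (B1.card : ℝ) ≤ 3 * δ * Y := hFr
    have k2 : (B2.card : ℝ) ≤ t / 10 * Y := hphi
    have k4 : (B4.card : ℝ) ≤ t / 10 * Y := hGa
    have k6 : 3 * δ * Y ≤ t * Y * (3 / 100) := by nlinarith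
    have k7 : 0 < t * Y := by positivity
    nlinarith
  · have hlogY : 0 < Real.log Y := by
      apply Real.log_pos
      refine lt_of_lt_of_le ?_ hYge
      exact Real.one_lt_rpow hX1 (by norm_num)
    have hlogYX : Real.log Y ≤ Real.log X := Real.log_le_log hY0 hs.YX
    set B3 := (IY Y).filter fun Q => X ^ (1 - δ / 4) < |off ⌊X⌋₊ Q Lam (bb δ X Y Q)| with hB3
    set B4 := (IY Y).filter fun Q => Q.Prime ∧ Cb * (X * Real.log X) < ∑ a ∈ RC Q, DD X Q a ^ 2 with hB4
    set B5 := (IY Y).filter fun Q => Fr δ X Y Q ∧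
        C₄ * (X * Real.log X) ^ 2 / Q < ∑ a ∈ range Q, uu δ X Y Q a ^ 4 with hB5
    have hsub : ((IY Y).filter fun Q => Q.Prime ∧ ¬ BothS c X Q (fun a => ps X Q a -
        (∑ n ∈ (Icc 1 ⌊X⌋₊).filter (fun n => Nat.Coprime n Q), Lam n) / phi Q)) ⊆
        B3 ∪ (B4 ∪ B5) := by
      intro Q hQ
      rw [mem_filter] at hQ
      obtain ⟨hQ, hQp, hn⟩ := hQ
      have hQ' := hQ
      unfold IY at hQ'
      rw [mem_filter, mem_Icc] at hQ'
      by_contra hcon
      simp only [mem_union, not_or] at hcon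
      obtain ⟨n3, n4, n5⟩ := hcon
      have m1 : Fr δ X Y Q := by
        intro p hp hd
        unfold PS at hp
        rw [mem_filter, mem_Icc] at hp
        have h1 : p = Q := (Nat.prime_dvd_prime_iff_eq hp.2.1 hQp).1 hd
        have h2 : (p : ℝ) ≤ X / Y * X ^ (3 / 2 * δ) := by
          refine le_trans ?_ hs.Kpow
          exact (Nat.le_floor_iff (by positivity)).1 hp.1.2
        have h3 : X / Y * X ^ (3 / 2 * δ) ≤ Y := by
          refine le_trans ?_ hYge
          calc X / Y * X ^ (3 / 2 * δ) ≤ X ^ (1 / 3 - ε) * X ^ (3 / 2 * δ) := by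
                apply mul_le_mul_of_nonneg_right hs.Zhi (by positivity)
            _ = X ^ (1 / 3 - ε + 3 / 2 * δ) := by rw [← Real.rpow_add hX0]
            _ ≤ _ := Real.rpow_le_rpow_of_exponent_le hX1.le (by linarith)
        rw [h1] at h2
        linarith [hQ'.2]
      have m2 : min c₀ (1 / 2) * Q ≤ phi Q := by
        have h1 : phi Q = (Q : ℝ) - 1 := by
          show ((Nat.totient Q : ℕ) : ℝ) = _
          rw [Nat.totient_prime hQp, Nat.cast_sub hQp.one_lt.le, Nat.cast_one]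
        have h2 : (2 : ℝ) ≤ Q := by exact_mod_cast hQp.two_le
        have h3 : min c₀ (1 / 2) * (Q : ℝ) ≤ 1 / 2 * Q :=
          mul_le_mul_of_nonneg_right (min_le_right _ _) (Nat.cast_nonneg _)
        rw [h1]
        linarith
      have m3 : |off ⌊X⌋₊ Q Lam (bb δ X Y Q)| ≤ X ^ (1 - δ / 4) := by
        by_contra h1
        push Not at h1
        exact n3 (mem_filter.2 ⟨hQ, h1⟩)
      have m4 : ∑ a ∈ RC Q, DD X Q a ^ 2 ≤ Cb * (X * Real.log X) := by
        by_contra h1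
        push Not at h1
        exact n4 (mem_filter.2 ⟨hQ, hQp, h1⟩)
      have m5 : ∑ a ∈ range Q, uu δ X Y Q a ^ 4 ≤ C₄ * (X * Real.log X) ^ 2 / Q := by
        by_contra h1
        push Not at h1
        exact n5 (mem_filter.2 ⟨hQ, m1, h1⟩)
      refine hn ?_
      have h1 := hmain Q hQ m1 m2 m3 (m4.trans (mul_le_mul_of_nonneg_right (le_max_right _ _) hXl)) m5
      have h2 := hDp Q hQ hQp
      unfold BothS at h1 ⊢
      rw [filter_congr (fun a ha => by rw [h2 a ha])] at h1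
      rw [filter_congr (fun a ha => by rw [h2 a ha]) (s := RC Q)
        (p := fun a => DD X Q a ≤ -(c * Real.sqrt (X * Real.log X / phi Q)))] at h1
      exact h1
    have hcard : (((IY Y).filter fun Q => Q.Prime ∧ ¬ BothS c X Q (fun a => ps X Q a -
        (∑ n ∈ (Icc 1 ⌊X⌋₊).filter (fun n => Nat.Coprime n Q), Lam n) / phi Q)).card : ℝ) ≤
        (B3.card : ℝ) + (B4.card + B5.card) := by
      have h1 := (card_le_card hsub).trans (card_union_le _ _)
      have h4 := card_union_le B4 B5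
      exact_mod_cast h1.trans (Nat.add_le_add_left h4 _)
    refine hcard.trans ?_
    have k3 : (B3.card : ℝ) ≤ Y * (t / 20 / Real.log X) := by
      refine hoff.trans (mul_le_mul_of_nonneg_left ?_ hY0.le)
      rw [le_div_iff₀ hlogX]
      exact g1
    have k5 : (B5.card : ℝ) ≤ Y * (t / 20 / Real.log X) := by
      refine hfour.trans (mul_le_mul_of_nonneg_left ?_ hY0.le)
      rw [le_div_iff₀ hlogX]
      exact g2
    have k4 : (B4.card : ℝ) ≤ t / 2 * (Y / Real.log Y) := hGb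
    have k6 : Y * (t / 20 / Real.log X) ≤ t / 20 * (Y / Real.log Y) := by
      have h1 : Y / Real.log X ≤ Y / Real.log Y :=
        div_le_div_of_nonneg_left hY0.le hlogY hlogYX
      calc Y * (t / 20 / Real.log X) = t / 20 * (Y / Real.log X) := by ring
        _ ≤ _ := mul_le_mul_of_nonneg_left h1 (by positivity)
    have k7 : 0 < t * (Y / Real.log Y) := by positivity
    nlinarith

end

end Pool.Agent.BSD

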